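import Pool.Agent.Helper346.Bra.Defs

set_option autoImplicit false

open scoped TensorProduct

namespace Pool.Agent.Helper346.Bra



section aux

variable {R : Type*} [CommRing R]

/-- the standard vectors, extended to all of `ℕ × ℕ` -/
noncomputable def sbE (l : ℕ) (hl : 0 < l) (a b : R) (i j : ℕ) : (Fin l × Fin l) →₀ R :=
  Finsupp.single (⟨i % l, Nat.mod_lt _ hl⟩, ⟨j % l, Nat.mod_lt _ hl⟩) (a ^ (i / l) * b ^ (j / l))

theorem sbE_fin (l : ℕ) (hl : 0 < l) (a b : R) (ij : Fin l × Fin l) :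
    sbE l hl a b ij.1 ij.2 = Finsupp.single ij 1 := by
  unfold sbE
  congr 1
  · ext <;> simp [Nat.mod_eq_of_lt]
  · rw [Nat.div_eq_of_lt ij.1.2, Nat.div_eq_of_lt ij.2.2]
    simp

/-- left multiplication by the first generator -/
noncomputable def sbX (l : ℕ) (hl : 0 < l) (a b : R) :
    Module.End R ((Fin l × Fin l) →₀ R) :=
  Finsupp.lsum R fun ij => LinearMap.toSpanSingleton R _ (sbE l hl a b (ij.1 + 1) ij.2)

/-- left multiplication by the second generator -/
noncomputable def sbY (l : ℕ) (hl : 0 < l) (ζ a b : R) :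
    Module.End R ((Fin l × Fin l) →₀ R) :=
  Finsupp.lsum R fun ij => LinearMap.toSpanSingleton R _
    (ζ ^ (ij.1 : ℕ) • sbE l hl a b ij.1 (ij.2 + 1))

theorem sb_div (l : ℕ) (hl : 0 < l) (i : ℕ) : (i + 1) / l = i / l + (i % l + 1) / l := by
  conv_lhs => rw [← Nat.div_add_mod i l, add_assoc, Nat.mul_add_div hl]

theorem sb_mod (l : ℕ) (i : ℕ) : (i % l + 1) % l = (i + 1) % l := by
  simp [Nat.add_mod]

theorem sbX_sbE (l : ℕ) (hl : 0 < l) (a b : R) (i j : ℕ) :
    sbX l hl a b (sbE l hl a b i j) = sbE l hl a b (i + 1) j := by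
  conv_lhs => rw [sbX, sbE]
  rw [Finsupp.lsum_single, LinearMap.toSpanSingleton_apply]
  simp only [sbE]
  rw [Finsupp.smul_single]
  congr 1
  · ext
    · simp [sb_mod]
    · simp
  · rw [sb_div l hl i, Nat.div_eq_of_lt (Nat.mod_lt j hl), smul_eq_mul, pow_add, pow_zero]
    ring

theorem sbY_sbE (l : ℕ) (hl : 0 < l) (ζ a b : R) (hζ : ζ ^ l = 1) (i j : ℕ) :
    sbY l hl ζ a b (sbE l hl a b i j) = ζ ^ i • sbE l hl a b i (j + 1) := by
  have hz : ζ ^ i = ζ ^ (i % l) := by
    conv_lhs => rw [← Nat.div_add_mod i l, pow_add, pow_mul, hζ, one_pow, one_mul]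
  conv_lhs => rw [sbY, sbE]
  rw [Finsupp.lsum_single, LinearMap.toSpanSingleton_apply]
  simp only [sbE]
  rw [Finsupp.smul_single, Finsupp.smul_single, Finsupp.smul_single]
  congr 1
  · ext
    · simp
    · simp [sb_mod]
  · rw [sb_div l hl j, Nat.div_eq_of_lt (Nat.mod_lt i hl), smul_eq_mul, smul_eq_mul, smul_eq_mul,
      pow_add, pow_zero, hz]
    ring

theorem sbX_pow_sbE (l : ℕ) (hl : 0 < l) (a b : R) (k i j : ℕ) :
    (sbX l hl a b ^ k) (sbE l hl a b i j) = sbE l hl a b (i + k) j := by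
  induction k generalizing i with
  | zero => simp
  | succ k ih =>
    rw [pow_succ, Module.End.mul_apply, sbX_sbE, ih]
    congr 1
    ring

theorem sbY_pow_sbE (l : ℕ) (hl : 0 < l) (ζ a b : R) (hζ : ζ ^ l = 1) (k i j : ℕ) :
    (sbY l hl ζ a b ^ k) (sbE l hl a b i j) = ζ ^ (i * k) • sbE l hl a b i (j + k) := by
  induction k generalizing j with
  | zero => simp
  | succ k ih =>
    rw [pow_succ, Module.End.mul_apply, sbY_sbE l hl ζ a b hζ, map_smul, ih, smul_smul, ← pow_add]
    congr 2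
    · ring
    · ring

theorem sb_ext (l : ℕ) (hl : 0 < l) (a b : R) {f g : Module.End R ((Fin l × Fin l) →₀ R)}
    (h : ∀ i j : ℕ, f (sbE l hl a b i j) = g (sbE l hl a b i j)) : f = g := by
  apply Finsupp.lhom_ext'
  intro ij
  apply LinearMap.ext_ring
  have := h ij.1 ij.2
  rw [sbE_fin] at this
  simpa using this

theorem sbX_pow (l : ℕ) (hl : 0 < l) (a b : R) :
    sbX l hl a b ^ l = algebraMap R _ a := by
  apply sb_ext l hl a b
  intro i j
  rw [sbX_pow_sbE, Module.algebraMap_end_apply]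
  simp only [sbE]
  rw [Finsupp.smul_single]
  congr 1
  · ext <;> simp
  · rw [Nat.add_div_right _ hl, smul_eq_mul, pow_succ]
    ring

theorem sbY_pow (l : ℕ) (hl : 0 < l) (ζ a b : R) (hζ : ζ ^ l = 1) :
    sbY l hl ζ a b ^ l = algebraMap R _ b := by
  apply sb_ext l hl a b
  intro i j
  rw [sbY_pow_sbE l hl ζ a b hζ, Module.algebraMap_end_apply, mul_comm i l, pow_mul, hζ, one_pow,
    one_smul]
  simp only [sbE]
  rw [Finsupp.smul_single]
  congr 1
  · ext <;> simp
  · rw [Nat.add_div_right _ hl, smul_eq_mul, pow_succ]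
    ring

theorem sbYX (l : ℕ) (hl : 0 < l) (ζ a b : R) (hζ : ζ ^ l = 1) :
    sbY l hl ζ a b * sbX l hl a b =
      algebraMap R _ ζ * (sbX l hl a b * sbY l hl ζ a b) := by
  apply sb_ext l hl a b
  intro i j
  rw [Module.End.mul_apply, Module.End.mul_apply, Module.End.mul_apply, sbX_sbE,
    sbY_sbE l hl ζ a b hζ, sbY_sbE l hl ζ a b hζ, map_smul, sbX_sbE, Module.algebraMap_end_apply,
    smul_smul, pow_succ']

theorem sb_comm_y (l : ℕ) (ζ a b : R) (i : ℕ) :
    gy R l ζ a b * gx R l ζ a b ^ i = ζ ^ i • (gx R l ζ a b ^ i * gy R l ζ a b) := by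
  induction i with
  | zero => simp
  | succ i ih =>
    rw [pow_succ, ← mul_assoc, ih, smul_mul_assoc, mul_assoc (gx R l ζ a b ^ i), gy_gx,
      ← Algebra.smul_def, mul_smul_comm, smul_smul, ← pow_succ, ← mul_assoc]

end aux

theorem symb_basis {R : Type*} [CommRing R] (l : ℕ) (hl : 0 < l) (ζ a b : R) (hζ : ζ ^ l = 1) :
    ∃ e : Module.Basis (Fin l × Fin l) R (Symb R l ζ a b),
      ∀ ij, e ij = gx R l ζ a b ^ (ij.1 : ℕ) * gy R l ζ a b ^ (ij.2 : ℕ) := by
  set v : Fin l × Fin l → Symb R l ζ a b :=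
    fun ij => gx R l ζ a b ^ (ij.1 : ℕ) * gy R l ζ a b ^ (ij.2 : ℕ) with hv
  -- independence
  have hli : LinearIndependent R v := by
    let ρ : Symb R l ζ a b →ₐ[R] Module.End R ((Fin l × Fin l) →₀ R) :=
      symLift (sbX l hl a b) (sbY l hl ζ a b) (sbX_pow l hl a b) (sbY_pow l hl ζ a b hζ)
        (sbYX l hl ζ a b hζ)
    have hρx : ρ (gx R l ζ a b) = sbX l hl a b := symLift_x _ _ _ _ _
    have hρy : ρ (gy R l ζ a b) = sbY l hl ζ a b := symLift_y _ _ _ _ _
    let φ : Symb R l ζ a b →ₗ[R] ((Fin l × Fin l) →₀ R) :=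
      (LinearMap.applyₗ (R := R) (sbE l hl a b 0 0)).comp ρ.toLinearMap
    have hφ : ∀ s, φ s = ρ s (sbE l hl a b 0 0) := fun s => rfl
    apply LinearIndependent.of_comp φ
    have : φ ∘ v = fun ij => Finsupp.single ij (1 : R) := by
      funext ij
      simp only [Function.comp, hφ, hv]
      rw [map_mul, map_pow, map_pow, hρx, hρy, Module.End.mul_apply,
        sbY_pow_sbE l hl ζ a b hζ, map_smul, sbX_pow_sbE, zero_mul, pow_zero, one_smul, zero_add,
        zero_add, sbE_fin]
    rw [this]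
    exact Finsupp.linearIndependent_single_one R _
  -- spanning
  have hmem : ∀ i j : ℕ, gx R l ζ a b ^ i * gy R l ζ a b ^ j ∈ Submodule.span R (Set.range v) := by
    intro i j
    have h1 : gx R l ζ a b ^ i * gy R l ζ a b ^ j =
        (a ^ (i / l) * b ^ (j / l)) • v (⟨i % l, Nat.mod_lt _ hl⟩, ⟨j % l, Nat.mod_lt _ hl⟩) := by
      simp only [hv]
      conv_lhs => rw [← Nat.div_add_mod i l, ← Nat.div_add_mod j l]
      rw [pow_add, pow_add, pow_mul, pow_mul, gx_pow, gy_pow, ← map_pow, ← map_pow]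
      rw [← Algebra.smul_def, ← Algebra.smul_def, smul_mul_assoc, mul_smul_comm, smul_smul]
    rw [h1]
    exact Submodule.smul_mem _ _ (Submodule.subset_span ⟨_, rfl⟩)
  have hX : ∀ m ∈ Submodule.span R (Set.range v), gx R l ζ a b * m ∈
      Submodule.span R (Set.range v) := by
    intro m hm
    induction hm using Submodule.span_induction with
    | mem m h =>
      obtain ⟨ij, rfl⟩ := h
      simp only [hv]
      rw [← mul_assoc, ← pow_succ']
      exact hmem _ _
    | zero => rw [mul_zero]; exact Submodule.zero_mem _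
    | add p q _ _ hp hq => rw [mul_add]; exact Submodule.add_mem _ hp hq
    | smul c p _ hp => rw [mul_smul_comm]; exact Submodule.smul_mem _ _ hp
  have hY : ∀ m ∈ Submodule.span R (Set.range v), gy R l ζ a b * m ∈
      Submodule.span R (Set.range v) := by
    intro m hm
    induction hm using Submodule.span_induction with
    | mem m h =>
      obtain ⟨ij, rfl⟩ := h
      simp only [hv]
      rw [← mul_assoc, sb_comm_y, smul_mul_assoc, mul_assoc, ← pow_succ']
      exact Submodule.smul_mem _ _ (hmem _ _)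
    | zero => rw [mul_zero]; exact Submodule.zero_mem _
    | add p q _ _ hp hq => rw [mul_add]; exact Submodule.add_mem _ hp hq
    | smul c p _ hp => rw [mul_smul_comm]; exact Submodule.smul_mem _ _ hp
  let T : Subalgebra R (Symb R l ζ a b) :=
    { carrier := {s | ∀ m ∈ Submodule.span R (Set.range v), s * m ∈
        Submodule.span R (Set.range v)}
      mul_mem' := by
        intro s t hs ht m hm
        rw [mul_assoc]
        exact hs _ (ht _ hm)
      add_mem' := by
        intro s t hs ht m hm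
        rw [add_mul]
        exact Submodule.add_mem _ (hs _ hm) (ht _ hm)
      algebraMap_mem' := by
        intro r m hm
        rw [← Algebra.smul_def]
        exact Submodule.smul_mem _ _ hm }
  have hT : ∀ s, s ∈ T := by
    intro s
    let tx : T := ⟨gx R l ζ a b, hX⟩
    let ty : T := ⟨gy R l ζ a b, hY⟩
    have e1 : tx ^ l = algebraMap R T a := Subtype.ext (by
      simpa [tx] using (gx_pow (R := R) (l := l) (ζ := ζ) (a := a) (b := b)))
    have e2 : ty ^ l = algebraMap R T b := Subtype.ext (by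
      simpa [ty] using (gy_pow (R := R) (l := l) (ζ := ζ) (a := a) (b := b)))
    have e3 : ty * tx = algebraMap R T ζ * (tx * ty) := Subtype.ext (by
      simpa [tx, ty] using (gy_gx (R := R) (l := l) (ζ := ζ) (a := a) (b := b)))
    let φ : Symb R l ζ a b →ₐ[R] T := symLift tx ty e1 e2 e3
    have h : T.val.comp φ = AlgHom.id R _ := by
      apply symb_hom_ext
      · simp only [AlgHom.comp_apply, AlgHom.id_apply, φ]
        rw [symLift_x]
        rfl
      · simp only [AlgHom.comp_apply, AlgHom.id_apply, φ]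
        rw [symLift_y]
        rfl
    have h2 : (φ s : Symb R l ζ a b) = s := DFunLike.congr_fun h s
    rw [← h2]
    exact (φ s).2
  have hsp : ⊤ ≤ Submodule.span R (Set.range v) := by
    intro s _
    have h1 : (1 : Symb R l ζ a b) ∈ Submodule.span R (Set.range v) := by
      simpa using hmem 0 0
    have := hT s 1 h1
    rwa [mul_one] at this
  exact ⟨Module.Basis.mk hli hsp, fun ij => by rw [Module.Basis.mk_apply]⟩

end Pool.Agent.Helper346.Bra
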