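import Pool.Agent.Helper346.Bra.Defs
import Pool.Agent.Helper346.Bra.SE

set_option autoImplicit false

open scoped TensorProduct

namespace Pool.Agent.Helper346.Bra



/-- the goal predicate -/
def UsP {K : Type} [Field K] (R : ValuationSubring K) (l : ℕ) (ζ : K) (a b : K) : Prop :=
  ∃ a' b' : Rˣ, Nonempty (Symb K l ζ a b ≃ₐ[K] Symb K l ζ ((a' : R) : K) ((b' : R) : K))

section us

variable {K : Type} [Field K] (R : ValuationSubring K) (l : ℕ) (ζ : K)

theorem UsP.of_equiv {a b a' b' : K} (e : Nonempty (Symb K l ζ a b ≃ₐ[K] Symb K l ζ a' b'))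
    (h : UsP R l ζ a' b') : UsP R l ζ a b := by
  obtain ⟨e⟩ := e
  obtain ⟨x, y, ⟨f⟩⟩ := h
  exact ⟨x, y, ⟨e.trans f⟩⟩

variable (hl : Odd l) (hζ : IsPrimitiveRoot ζ l) (hl0 : (l : K) ≠ 0)
include hl hζ hl0

theorem UsP.swap {a b : K} (ha : a ≠ 0) (hb : b ≠ 0) (h : UsP R l ζ b a⁻¹) : UsP R l ζ a b :=
  UsP.of_equiv R l ζ (symb_moves l hl ζ a b hζ hl0 ha hb).1 h

theorem UsP.mulj {a : K} (ha : a ≠ 0) (j : ℕ) : ∀ {b : K}, b ≠ 0 → UsP R l ζ a (a ^ j * b) →
    UsP R l ζ a b := by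
  induction j with
  | zero =>
    intro b hb h
    simpa using h
  | succ j ih =>
    intro b hb h
    refine UsP.of_equiv R l ζ (symb_moves l hl ζ a b hζ hl0 ha hb).2.1 ?_
    refine ih (mul_ne_zero ha hb) ?_
    rw [← mul_assoc, ← pow_succ]
    exact h

theorem UsP.scale {a b : K} (ha : a ≠ 0) (hb : b ≠ 0) (c d : K) (hc : c ≠ 0) (hd : d ≠ 0)
    (h : UsP R l ζ (a * c ^ l) (b * d ^ l)) : UsP R l ζ a b :=
  UsP.of_equiv R l ζ ((symb_moves l hl ζ a b hζ hl0 ha hb).2.2.1 c d hc hd) h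

theorem UsP.norms {b : K} (hb : b ≠ 0) (hb1 : 1 - b ≠ 0) (s : ℕ) :
    ∀ {a : K}, a ≠ 0 → UsP R l ζ (a * (1 - b) ^ s) b → UsP R l ζ a b := by
  induction s with
  | zero =>
    intro a ha h
    simpa using h
  | succ s ih =>
    intro a ha h
    refine UsP.of_equiv R l ζ ((symb_moves l hl ζ a b hζ hl0 ha hb).2.2.2 hb1) ?_
    refine ih (mul_ne_zero ha hb1) ?_
    rw [mul_assoc, ← pow_succ']
    exact h

end us

theorem us_one_add_pow {A : Type} [CommRing A] (x : A) (n : ℕ) :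
    ∃ s : A, (1 + x) ^ n = 1 + n * x + x ^ 2 * s := by
  induction n with
  | zero => exact ⟨0, by simp⟩
  | succ n ih =>
    obtain ⟨s, hs⟩ := ih
    refine ⟨n + s + x * s, ?_⟩
    rw [pow_succ, hs]
    push_cast
    ring

/-- normalisation of a unit whose residue is an `l`-th power -/
theorem us_norm {K : Type} [Field K] (R : ValuationSubring K) [IsDiscreteValuationRing R]
    (l : ℕ) (hlu : IsUnit (l : R)) (π : R) (hπ : Irreducible π) (b1 : Rˣ)
    (e0 : IsLocalRing.ResidueField R) (h : IsLocalRing.residue R (b1 : R) = e0 ^ l) (hl : 0 < l) :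
    ∃ e r : Rˣ, (b1 : R) * (e : R) ^ l = 1 + π * r := by
  obtain ⟨e1, he1⟩ := IsLocalRing.residue_surjective e0
  have hm : IsLocalRing.maximalIdeal R = Ideal.span {π} :=
    (IsDiscreteValuationRing.irreducible_iff_uniformizer π).1 hπ
  have he1u : IsUnit e1 := by
    by_contra hne
    have h1 : IsLocalRing.residue R e1 = 0 := by
      rw [IsLocalRing.residue_eq_zero_iff]
      exact hne
    rw [he1] at h1
    have h2 : IsLocalRing.residue R (b1 : R) = 0 := by rw [h, h1, zero_pow hl.ne']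
    rw [IsLocalRing.residue_eq_zero_iff] at h2
    exact h2 b1.isUnit
  obtain ⟨e, rfl⟩ := he1u
  have h1 : IsLocalRing.residue R ((b1 : R) * ((e⁻¹ : Rˣ) : R) ^ l - 1) = 0 := by
    have h3 : IsLocalRing.residue R ((e⁻¹ : Rˣ) : R) * e0 = 1 := by
      rw [← he1, ← map_mul, Units.inv_mul, map_one]
    rw [map_sub, map_mul, map_pow, map_one, h, ← mul_pow, mul_comm e0, h3, one_pow, sub_self]
  rw [IsLocalRing.residue_eq_zero_iff, hm, Ideal.mem_span_singleton'] at h1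
  obtain ⟨r, hr⟩ := h1
  by_cases hru : IsUnit r
  · obtain ⟨r, rfl⟩ := hru
    refine ⟨e⁻¹, r, ?_⟩
    rw [mul_comm π, hr]
    ring
  · have hπm : π ∈ IsLocalRing.maximalIdeal R := by
      rw [hm]
      exact Ideal.mem_span_singleton_self π
    have h1π : IsUnit (1 + π) := by
      by_contra hne
      have h4 : (1 + π) ∈ IsLocalRing.maximalIdeal R := hne
      have h5 : (1 : R) ∈ IsLocalRing.maximalIdeal R := by
        have := Ideal.sub_mem _ h4 hπm
        simpa using this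
      exact h5 isUnit_one
    obtain ⟨w, hw⟩ := h1π
    obtain ⟨s, hs⟩ := us_one_add_pow π l
    have hcoef : IsUnit ((l : R) + (r + π * (s + r * (l + π * s)))) := by
      by_contra hne
      have h4 : ((l : R) + (r + π * (s + r * (l + π * s)))) ∈ IsLocalRing.maximalIdeal R := hne
      have h5 : (r + π * (s + r * (l + π * s))) ∈ IsLocalRing.maximalIdeal R :=
        Ideal.add_mem _ hru (Ideal.mul_mem_right _ _ hπm)
      have h6 : (l : R) ∈ IsLocalRing.maximalIdeal R := by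
        have := Ideal.sub_mem _ h4 h5
        simpa using this
      exact h6 hlu
    obtain ⟨r', hr'⟩ := hcoef
    refine ⟨e⁻¹ * w, r', ?_⟩
    rw [Units.val_mul, mul_pow, ← mul_assoc, hw, hs, hr']
    have h7 : (b1 : R) * ((e⁻¹ : Rˣ) : R) ^ l = 1 + r * π := by
      rw [hr]; ring
    rw [h7]
    ring

/-- the main case -/
theorem us_main {K : Type} [Field K] (R : ValuationSubring K) [IsDiscreteValuationRing R]
    (l : ℕ) [Fact l.Prime] (hl2 : Odd l) (ζ : K) (hζ : IsPrimitiveRoot ζ l) (hl0 : (l : K) ≠ 0)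
    (hlu : IsUnit (l : R)) (π : R) (hπ : Irreducible π) (m n : ℤ) (a0 b0 : Rˣ)
    (hm : ¬ (l : ℤ) ∣ m)
    (h : ∃ c : IsLocalRing.ResidueField R, IsLocalRing.residue R (a0 : R) ^ n *
      IsLocalRing.residue R (b0 : R) ^ (-m) = c ^ l) :
    UsP R l ζ ((π : K) ^ m * ((a0 : R) : K)) ((π : K) ^ n * ((b0 : R) : K)) := by
  have hlp : l.Prime := Fact.out
  have hlpos : 0 < l := hlp.pos
  have hπ0 : (π : K) ≠ 0 := by
    intro h0
    apply hπ.ne_zero
    exact Subtype.ext h0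
  have hu0 : ∀ u : Rˣ, ((u : R) : K) ≠ 0 := by
    intro u h0
    exact u.ne_zero (Subtype.ext h0)
  have hcop : IsCoprime (l : ℤ) m := by
    rw [Int.isCoprime_iff_gcd_eq_one]
    have h1 := (Nat.Prime.coprime_iff_not_dvd hlp (n := m.natAbs)).2 (by
      intro h2
      exact hm (Int.natCast_dvd.2 h2))
    simpa [Int.gcd] using h1
  -- the exponent j
  obtain ⟨j, k, hjk⟩ : ∃ (j : ℕ) (k : ℤ), n + j * m = l * k := by
    obtain ⟨u, v, huv⟩ := hcop
    refine ⟨((-(n * v)) % l).toNat, ?_⟩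
    have h1 : (0 : ℤ) ≤ (-(n * v)) % l := Int.emod_nonneg _ (by exact_mod_cast hlpos.ne')
    rw [Int.toNat_of_nonneg h1]
    have h2 : (l : ℤ) ∣ n + (-(n * v)) % l * m := by
      rw [Int.emod_def]
      have h3 : n + (-(n * v) - l * (-(n * v) / l)) * m =
          l * (n * u - (-(n * v) / l) * m) := by
        have h4 : n = n * (u * l + v * m) := by rw [huv, mul_one]
        calc n + (-(n * v) - l * (-(n * v) / l)) * m
            = n * (u * l + v * m) + (-(n * v) - l * (-(n * v) / l)) * m := by rw [← h4]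
          _ = _ := by ring
      rw [h3]
      exact dvd_mul_right _ _
    obtain ⟨k, hk⟩ := h2
    exact ⟨k, hk⟩
  have ha : ((π : K) ^ m * ((a0 : R) : K)) ≠ 0 := mul_ne_zero (zpow_ne_zero _ hπ0) (hu0 a0)
  have hb : ((π : K) ^ n * ((b0 : R) : K)) ≠ 0 := mul_ne_zero (zpow_ne_zero _ hπ0) (hu0 b0)
  refine UsP.mulj R l ζ hl2 hζ hl0 ha j hb ?_
  refine UsP.scale R l ζ hl2 hζ hl0 ha (mul_ne_zero (pow_ne_zero _ ha) hb) 1 ((π : K) ^ (-k))
    one_ne_zero (zpow_ne_zero _ hπ0) ?_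
  have e1 : ((π : K) ^ m * ((a0 : R) : K)) ^ j * ((π : K) ^ n * ((b0 : R) : K)) *
      ((π : K) ^ (-k)) ^ l = (((a0 ^ j * b0 : Rˣ) : R) : K) := by
    have e2 : ((π : K) ^ m) ^ j * (π : K) ^ n * ((π : K) ^ (-k)) ^ l = 1 := by
      rw [← zpow_natCast ((π : K) ^ m), ← zpow_natCast ((π : K) ^ (-k)), ← zpow_mul, ← zpow_mul,
        ← zpow_add₀ hπ0, ← zpow_add₀ hπ0]
      have : m * (j : ℤ) + n + -k * (l : ℤ) = 0 := by linarith
      rw [this, zpow_zero]
    calc ((π : K) ^ m * ((a0 : R) : K)) ^ j * ((π : K) ^ n * ((b0 : R) : K)) *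
      ((π : K) ^ (-k)) ^ l
        = (((π : K) ^ m) ^ j * (π : K) ^ n * ((π : K) ^ (-k)) ^ l) *
          (((a0 : R) : K) ^ j * ((b0 : R) : K)) := by rw [mul_pow]; ring
      _ = ((a0 : R) : K) ^ j * ((b0 : R) : K) := by rw [e2, one_mul]
      _ = _ := by push_cast; rfl
  rw [e1, one_pow, mul_one]
  -- the residue of `b1` is an `l`-th power
  obtain ⟨e0, he0⟩ : ∃ e0 : IsLocalRing.ResidueField R,
      IsLocalRing.residue R ((a0 ^ j * b0 : Rˣ) : R) = e0 ^ l := by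
    obtain ⟨c, hc⟩ := h
    have hra : IsLocalRing.residue R (a0 : R) ≠ 0 := by
      rw [Ne, IsLocalRing.residue_eq_zero_iff]
      exact fun h0 => h0 a0.isUnit
    have hrb : IsLocalRing.residue R (b0 : R) ≠ 0 := by
      rw [Ne, IsLocalRing.residue_eq_zero_iff]
      exact fun h0 => h0 b0.isUnit
    set A := IsLocalRing.residue R (a0 : R) with hA
    set B := IsLocalRing.residue R (b0 : R) with hB
    have hc0 : c ≠ 0 := by
      intro h0
      rw [h0, zero_pow hlpos.ne'] at hc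
      exact mul_ne_zero (zpow_ne_zero _ hra) (zpow_ne_zero _ hrb) hc
    have h1 : IsLocalRing.residue R ((a0 ^ j * b0 : Rˣ) : R) = A ^ j * B := by
      push_cast
      rw [map_mul, map_pow]
    rw [h1]
    have hB1 : A ^ j * B ≠ 0 := mul_ne_zero (pow_ne_zero _ hra) hrb
    have h2 : (A ^ j * B) ^ m = (A ^ k * c⁻¹) ^ l := by
      have h3 : (A ^ j * B) ^ m * c ^ l = A ^ ((l : ℤ) * k) := by
        rw [← hc, ← hjk, mul_zpow, zpow_add₀ hra, zpow_mul, zpow_natCast]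
        rw [zpow_neg]
        field_simp
      rw [mul_pow, ← zpow_natCast (A ^ k), ← zpow_mul, mul_comm k, ← h3, inv_pow,
        mul_inv_cancel_right₀ (pow_ne_zero _ hc0)]
    obtain ⟨u, v, huv⟩ := hcop
    refine ⟨(A ^ k * c⁻¹) ^ v * (A ^ j * B) ^ u, ?_⟩
    rw [mul_pow, ← zpow_natCast ((A ^ k * c⁻¹) ^ v), ← zpow_mul, mul_comm v, zpow_mul,
      zpow_natCast, ← h2, ← zpow_mul, ← zpow_natCast ((A ^ j * B) ^ u), ← zpow_mul,
      ← zpow_add₀ hB1]
    have : m * v + u * (l : ℤ) = 1 := by linarith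
    rw [this, zpow_one]
  obtain ⟨e, r, her⟩ := us_norm R l hlu π hπ (a0 ^ j * b0) e0 he0 hlpos
  have hb1 : (((a0 ^ j * b0 : Rˣ) : R) : K) ≠ 0 := hu0 _
  refine UsP.scale R l ζ hl2 hζ hl0 ha hb1 1 ((e : R) : K) one_ne_zero (hu0 e) ?_
  rw [one_pow, mul_one]
  have e3 : (((a0 ^ j * b0 : Rˣ) : R) : K) * ((e : R) : K) ^ l =
      (((a0 ^ j * b0 * e ^ l : Rˣ) : R) : K) := by push_cast; rfl
  have e4 : (((a0 ^ j * b0 * e ^ l : Rˣ) : R) : K) = 1 + (π : K) * ((r : R) : K) := by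
    rw [← e3]
    have := congrArg (fun x : R => (x : K)) her
    push_cast at this
    push_cast
    exact this
  rw [e3]
  set b2 : Rˣ := a0 ^ j * b0 * e ^ l with hb2
  -- the exponent s
  obtain ⟨s, t, hst⟩ : ∃ (s : ℕ) (t : ℤ), m + s = l * t := by
    refine ⟨((-m) % l).toNat, ?_⟩
    have h1 : (0 : ℤ) ≤ (-m) % l := Int.emod_nonneg _ (by exact_mod_cast hlpos.ne')
    rw [Int.toNat_of_nonneg h1]
    refine ⟨-(-m / l), ?_⟩
    have := Int.emod_add_mul_ediv (-m) l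
    linarith
  have h1b : 1 - ((b2 : R) : K) = -((π : K) * ((r : R) : K)) := by rw [e4]; ring
  have h1b0 : 1 - ((b2 : R) : K) ≠ 0 := by
    rw [h1b]
    exact neg_ne_zero.2 (mul_ne_zero hπ0 (hu0 r))
  refine UsP.norms R l ζ hl2 hζ hl0 (hu0 b2) h1b0 s ha ?_
  refine UsP.scale R l ζ hl2 hζ hl0 (mul_ne_zero ha (pow_ne_zero _ h1b0)) (hu0 b2)
    ((π : K) ^ (-t)) 1 (zpow_ne_zero _ hπ0) one_ne_zero ?_
  rw [one_pow, mul_one, h1b]
  have e5 : (π : K) ^ m * ((a0 : R) : K) * (-((π : K) * ((r : R) : K))) ^ s *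
      ((π : K) ^ (-t)) ^ l = (((a0 * (-r) ^ s : Rˣ) : R) : K) := by
    have e6 : (π : K) ^ m * (π : K) ^ s * ((π : K) ^ (-t)) ^ l = 1 := by
      rw [← zpow_natCast (π : K) s, ← zpow_natCast ((π : K) ^ (-t)), ← zpow_mul,
        ← zpow_add₀ hπ0, ← zpow_add₀ hπ0]
      have : m + (s : ℤ) + -t * (l : ℤ) = 0 := by linarith
      rw [this, zpow_zero]
    calc (π : K) ^ m * ((a0 : R) : K) * (-((π : K) * ((r : R) : K))) ^ s *
      ((π : K) ^ (-t)) ^ l
        = ((π : K) ^ m * (π : K) ^ s * ((π : K) ^ (-t)) ^ l) *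
          (((a0 : R) : K) * (-((r : R) : K)) ^ s) := by
            rw [neg_pow ((π : K) * _), mul_pow, neg_pow ((r : R) : K)]; ring
      _ = ((a0 : R) : K) * (-((r : R) : K)) ^ s := by rw [e6, one_mul]
      _ = _ := by push_cast; rfl
  rw [e5]
  exact ⟨_, _, ⟨AlgEquiv.refl⟩⟩

theorem unit_symbol {K : Type} [Field K] (R : ValuationSubring K) [IsDiscreteValuationRing R]
    (l : ℕ) [Fact l.Prime] (hl2 : l ≠ 2) (ζ : R) (hζ : IsPrimitiveRoot ζ l)
    (hlu : IsUnit (l : R)) (π : R) (hπ : Irreducible π) (m n : ℤ) (a0 b0 : Rˣ)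
    (h : ∃ c : IsLocalRing.ResidueField R, IsLocalRing.residue R (a0 : R) ^ n *
      IsLocalRing.residue R (b0 : R) ^ (-m) = c ^ l) :
    ∃ a' b' : Rˣ, Nonempty (Symb K l (ζ : K) ((π : K) ^ m * ((a0 : R) : K))
      ((π : K) ^ n * ((b0 : R) : K)) ≃ₐ[K] Symb K l (ζ : K) ((a' : R) : K) ((b' : R) : K)) := by
  have hlp : l.Prime := Fact.out
  have hodd : Odd l := hlp.odd_of_ne_two hl2
  have hζ' : IsPrimitiveRoot (ζ : K) l :=
    hζ.map_of_injective (f := R.subtype) Subtype.val_injective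
  have hl0 : (l : K) ≠ 0 := by
    intro h0
    apply hlu.ne_zero
    apply Subtype.ext
    push_cast
    exact h0
  have hπ0 : (π : K) ≠ 0 := by
    intro h0
    apply hπ.ne_zero
    exact Subtype.ext h0
  have hu0 : ∀ u : Rˣ, ((u : R) : K) ≠ 0 := by
    intro u h0
    exact u.ne_zero (Subtype.ext h0)
  have ha : ((π : K) ^ m * ((a0 : R) : K)) ≠ 0 := mul_ne_zero (zpow_ne_zero _ hπ0) (hu0 a0)
  have hb : ((π : K) ^ n * ((b0 : R) : K)) ≠ 0 := mul_ne_zero (zpow_ne_zero _ hπ0) (hu0 b0)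
  show UsP R l (ζ : K) _ _
  by_cases hm : (l : ℤ) ∣ m
  · by_cases hn : (l : ℤ) ∣ n
    · obtain ⟨t, rfl⟩ := hm
      obtain ⟨u, rfl⟩ := hn
      refine UsP.scale R l ζ hodd hζ' hl0 ha hb ((π : K) ^ (-t)) ((π : K) ^ (-u))
        (zpow_ne_zero _ hπ0) (zpow_ne_zero _ hπ0) ?_
      have e1 : ∀ (x : ℤ) (y : K), (π : K) ^ ((l : ℤ) * x) * y * ((π : K) ^ (-x)) ^ l = y := by
        intro x y
        rw [← zpow_natCast ((π : K) ^ (-x)), ← zpow_mul, mul_right_comm, ← zpow_add₀ hπ0]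
        have : (l : ℤ) * x + -x * (l : ℤ) = 0 := by ring
        rw [this, zpow_zero, one_mul]
      rw [e1, e1]
      exact ⟨_, _, ⟨AlgEquiv.refl⟩⟩
    · refine UsP.swap R l ζ hodd hζ' hl0 ha hb ?_
      have e1 : ((π : K) ^ m * ((a0 : R) : K))⁻¹ = (π : K) ^ (-m) * (((a0⁻¹ : Rˣ) : R) : K) := by
        have e2 : ((a0 : R) : K) * (((a0⁻¹ : Rˣ) : R) : K) = 1 := by
          show (((a0 : R) * ((a0⁻¹ : Rˣ) : R) : R) : K) = 1
          rw [Units.mul_inv]
          rfl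
        rw [mul_inv, zpow_neg, eq_inv_of_mul_eq_one_right e2]
      rw [e1]
      refine us_main R l hodd ζ hζ' hl0 hlu π hπ n (-m) b0 a0⁻¹ hn ?_
      obtain ⟨c, hc⟩ := h
      refine ⟨c, ?_⟩
      rw [← hc]
      have hra : IsLocalRing.residue R (a0 : R) * IsLocalRing.residue R ((a0⁻¹ : Rˣ) : R) = 1 := by
        rw [← map_mul, Units.mul_inv, map_one]
      rw [eq_inv_of_mul_eq_one_right hra, inv_zpow, zpow_neg _ n, inv_inv, mul_comm]
  · exact us_main R l hodd ζ hζ' hl0 hlu π hπ m n a0 b0 hm h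

end Pool.Agent.Helper346.Bra
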