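import Pool.Agent.Helper346.Bra.Defs
import Pool.Agent.Helper346.Bra.SD

set_option autoImplicit false

open scoped TensorProduct

namespace Pool.Agent.Helper346.Bra



open Polynomial in
theorem sn_poly {K : Type*} [Field K] (ω g0 g1 g2 : K) (hω : ω ^ 2 + ω + 1 = 0) :
    (C g0 + C g1 * (C ω) ^ 2 * X + C g2 * C ω * X ^ 2) * (C g0 + C g1 * C ω * X + C g2 * (C ω) ^ 2 * X ^ 2) *
      (C g0 + C g1 * X + C g2 * X ^ 2) =
    C (g0 ^ 3) + C (g1 ^ 3 - 3 * g0 * g1 * g2) * X ^ 3 + C (g2 ^ 3) * (X ^ 3 : K[X]) ^ 2 := by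
  have hw : (C ω : K[X]) ^ 2 + C ω + 1 = 0 := by
    rw [← C_pow, ← C_add, ← C_1, ← C_add, hω, C_0]
  have hw2 : (C ω : K[X]) ^ 2 = -1 - C ω := by linear_combination hw
  have h3 : (C (3:K) : K[X]) = 3 := map_ofNat C 3
  rw [hw2]
  simp only [C_sub, C_mul, C_pow, h3]
  linear_combination (-(C g0 + C g1 * X + C g2 * X ^ 2) * (C g1 * X - C g2 * X ^ 2) ^ 2) * hw

open Polynomial in
theorem sn_prod {K : Type*} [Field K] {A : Type*} [Ring A] [Algebra K A] (ω a g0 g1 g2 : K) (hω : ω ^ 2 + ω + 1 = 0)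
    (x : A) (hx : x ^ 3 = algebraMap K A a) :
    (g0 • (1 : A) + (g1 * ω ^ 2) • x + (g2 * ω) • x ^ 2) * (g0 • (1 : A) + (g1 * ω) • x + (g2 * ω ^ 2) • x ^ 2) *
      (g0 • (1 : A) + g1 • x + g2 • x ^ 2) =
    (g0 ^ 3 + a * g1 ^ 3 + a ^ 2 * g2 ^ 3 - 3 * a * g0 * g1 * g2) • (1 : A) := by
  have h := congrArg (aeval x) (sn_poly ω g0 g1 g2 hω)
  simp only [map_mul, map_add, map_pow, aeval_C, aeval_X, hx] at h
  simp only [← map_pow, ← map_mul, ← map_add] at h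
  have e0 : g0 • (1 : A) = algebraMap K A g0 := (Algebra.algebraMap_eq_smul_one g0).symm
  rw [e0, Algebra.smul_def, Algebra.smul_def, Algebra.smul_def, Algebra.smul_def, Algebra.smul_def, Algebra.smul_def, h,
    ← Algebra.algebraMap_eq_smul_one]
  congr 1
  ring

theorem sn_comm {K : Type*} [Field K] {A : Type*} [Ring A] [Algebra K A] (ω : K) (x y : A)
    (hyx : y * x = ω • (x * y)) (g0 g1 g2 : K) :
    y * (g0 • (1 : A) + g1 • x + g2 • x ^ 2) = (g0 • (1 : A) + (g1 * ω) • x + (g2 * ω ^ 2) • x ^ 2) * y := by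
  have h2 : y * x ^ 2 = (ω ^ 2) • (x ^ 2 * y) := by
    rw [pow_two, ← mul_assoc, hyx, smul_mul_assoc, mul_assoc, hyx, mul_smul_comm, smul_smul, ← mul_assoc, ← pow_two]
  rw [mul_add, mul_add, add_mul, add_mul, mul_smul_comm, mul_smul_comm, mul_smul_comm, hyx, h2, mul_one,
    smul_mul_assoc, smul_mul_assoc, smul_mul_assoc, one_mul, smul_smul, smul_smul]

theorem sn_cube {K : Type*} [Field K] (Y G0 G1 G2 : Matrix (Fin 3) (Fin 3) K) (v : Fin 3 → K)
    (h1 : Y * G0 = G1 * Y) (h2 : Y * G1 = G2 * Y) (hv : Y.mulVec v = G0.mulVec v) :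
    (Y ^ 3).mulVec v = (G2 * G1 * G0).mulVec v := by
  calc (Y ^ 3).mulVec v = (Y * Y).mulVec (Y.mulVec v) := by
        rw [Matrix.mulVec_mulVec, pow_succ, pow_two]
    _ = (Y * Y * G0).mulVec v := by rw [hv, Matrix.mulVec_mulVec]
    _ = (G2 * Y).mulVec (Y.mulVec v) := by
        rw [Matrix.mulVec_mulVec, mul_assoc, h1, ← mul_assoc, h2]
    _ = (G2 * Y * G0).mulVec v := by rw [hv, Matrix.mulVec_mulVec]
    _ = (G2 * G1).mulVec (Y.mulVec v) := by
        rw [Matrix.mulVec_mulVec, mul_assoc, h1, ← mul_assoc]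
    _ = (G2 * G1 * G0).mulVec v := by rw [hv, Matrix.mulVec_mulVec]

theorem split_norm {K : Type*} [Field K] (ω a b : K) (hω : IsPrimitiveRoot ω 3)
    (h3 : (3 : K) ≠ 0) (ha : a ≠ 0) (hb : b ≠ 0) (h : IsSplit K (Symb K 3 ω a b)) :
    ∃ d g0 g1 g2 : K, ¬ (d = 0 ∧ g0 = 0 ∧ g1 = 0 ∧ g2 = 0) ∧
      b * d ^ 3 = g0 ^ 3 + a * g1 ^ 3 + a ^ 2 * g2 ^ 3 - 3 * a * g0 * g1 * g2 := by
  obtain ⟨n, ⟨e⟩⟩ := h
  obtain ⟨_, _, _, hfr⟩ := symb_csa 3 (by norm_num) ω a b hω (by exact_mod_cast h3) ha hb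
  have hn : n = 3 := by
    have h1 := e.toLinearEquiv.finrank_eq
    rw [hfr, Module.finrank_matrix, Module.finrank_self, Fintype.card_fin] at h1
    have h2 : n * n = 9 := by omega
    have h4 : n ≤ 9 := by nlinarith
    interval_cases n <;> omega
  subst hn
  have hω3 : ω ^ 3 = 1 := hω.pow_eq_one
  have hω1 : ω ≠ 1 := hω.ne_one (by norm_num)
  have hω2 : ω ^ 2 + ω + 1 = 0 := by
    have h1 : (ω - 1) * (ω ^ 2 + ω + 1) = 0 := by linear_combination hω3
    rcases mul_eq_zero.mp h1 with h2 | h2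
    · exact absurd (sub_eq_zero.mp h2) hω1
    · exact h2
  set X := e (gx K 3 ω a b) with hX
  set Y := e (gy K 3 ω a b) with hY
  have hX3 : X ^ 3 = algebraMap K _ a := by
    rw [hX, ← map_pow, gx_pow, AlgEquiv.commutes]
  have hY3 : Y ^ 3 = algebraMap K _ b := by
    rw [hY, ← map_pow, gy_pow, AlgEquiv.commutes]
  have hYX : Y * X = ω • (X * Y) := by
    rw [hX, hY, ← map_mul, gy_gx, map_mul, AlgEquiv.commutes, map_mul, Algebra.smul_def]
  set v : Fin 3 → K := Pi.single 0 1 with hv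
  have hv0 : v ≠ 0 := by
    intro h
    have := congrFun h 0
    rw [hv, Pi.single_eq_same, Pi.zero_apply] at this
    exact one_ne_zero this
  have hG : ∀ g0 g1 g2 : K, (g0 • (1 : Matrix (Fin 3) (Fin 3) K) + g1 • X + g2 • X ^ 2).mulVec v =
      g0 • v + g1 • X.mulVec v + g2 • (X ^ 2).mulVec v := by
    intro g0 g1 g2
    rw [Matrix.add_mulVec, Matrix.add_mulVec, Matrix.smul_mulVec, Matrix.smul_mulVec, Matrix.smul_mulVec,
      Matrix.one_mulVec]
  set u : Fin 3 → (Fin 3 → K) := ![v, X.mulVec v, (X ^ 2).mulVec v] with hu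
  by_cases hli : LinearIndependent K u
  · have hspan : Y.mulVec v ∈ Submodule.span K (Set.range u) := by
      rw [hli.span_eq_top_of_card_eq_finrank (by simp)]
      trivial
    rw [Submodule.mem_span_range_iff_exists_fun] at hspan
    obtain ⟨c, hc⟩ := hspan
    rw [Fin.sum_univ_three] at hc
    have hc' : Y.mulVec v = (c 0 • (1 : Matrix (Fin 3) (Fin 3) K) + c 1 • X + c 2 • X ^ 2).mulVec v := by
      rw [hG, ← hc]
      rfl
    refine ⟨1, c 0, c 1, c 2, by simp, ?_⟩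
    have h1 := sn_comm ω X Y hYX (c 0) (c 1) (c 2)
    have h2 := sn_comm ω X Y hYX (c 0) (c 1 * ω) (c 2 * ω ^ 2)
    have e1 : c 1 * ω * ω = c 1 * ω ^ 2 := by ring
    have e2 : c 2 * ω ^ 2 * ω ^ 2 = c 2 * ω := by linear_combination (c 2 * ω) * hω3
    rw [e1, e2] at h2
    have h4 : (Y ^ 3).mulVec v = (c 0 ^ 3 + a * c 1 ^ 3 + a ^ 2 * c 2 ^ 3 - 3 * a * c 0 * c 1 * c 2) • v := by
      rw [sn_cube Y _ _ _ v h1 h2 hc', sn_prod ω a (c 0) (c 1) (c 2) hω2 X hX3, Matrix.smul_mulVec, Matrix.one_mulVec]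
    rw [hY3] at h4
    have h6 : (algebraMap K (Matrix (Fin 3) (Fin 3) K) b).mulVec v = b • v := by
      rw [Algebra.algebraMap_eq_smul_one, Matrix.smul_mulVec, Matrix.one_mulVec]
    rw [h6] at h4
    have h7 := congrFun h4 0
    simp only [Pi.smul_apply, hv, Pi.single_eq_same, smul_eq_mul, mul_one] at h7
    rw [one_pow, mul_one, h7]
  · rw [Fintype.not_linearIndependent_iff] at hli
    obtain ⟨c, hc, i, hi⟩ := hli
    rw [Fin.sum_univ_three] at hc
    have hc' : (c 0 • (1 : Matrix (Fin 3) (Fin 3) K) + c 1 • X + c 2 • X ^ 2).mulVec v = 0 := by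
      rw [hG, ← hc]
      rfl
    refine ⟨0, c 0, c 1, c 2, ?_, ?_⟩
    · rintro ⟨_, h1, h2, h4⟩
      fin_cases i
      · exact hi h1
      · exact hi h2
      · exact hi h4
    · have h1 := congrArg (fun M : Matrix (Fin 3) (Fin 3) K => M.mulVec v)
        (sn_prod ω a (c 0) (c 1) (c 2) hω2 X hX3)
      rw [← Matrix.mulVec_mulVec, hc', Matrix.mulVec_zero, Matrix.smul_mulVec, Matrix.one_mulVec] at h1
      rcases smul_eq_zero.mp h1.symm with h2 | h2
      · rw [h2]; ring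
      · exact absurd h2 hv0

end Pool.Agent.Helper346.Bra
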