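import Pool.Agent.Helper346.Bra.Defs
import Pool.Agent.Helper346.Bra.SD

set_option autoImplicit false

open scoped TensorProduct

namespace Pool.Agent.Helper346.Bra



section aux

variable {K : Type*} [Field K]

/-- the generators generate -/
theorem gen_top {l : ℕ} {ζ a b : K} (T : Subalgebra K (Symb K l ζ a b))
    (h1 : gx K l ζ a b ∈ T) (h2 : gy K l ζ a b ∈ T) (v : Symb K l ζ a b) : v ∈ T := by
  have e1 : (⟨gx K l ζ a b, h1⟩ : T) ^ l = algebraMap K T a := Subtype.ext gx_pow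
  have e2 : (⟨gy K l ζ a b, h2⟩ : T) ^ l = algebraMap K T b := Subtype.ext gy_pow
  have e3 : (⟨gy K l ζ a b, h2⟩ : T) * ⟨gx K l ζ a b, h1⟩
      = algebraMap K T ζ * (⟨gx K l ζ a b, h1⟩ * ⟨gy K l ζ a b, h2⟩) := Subtype.ext gy_gx
  have h3 : T.val.comp (symLift _ _ e1 e2 e3) = AlgHom.id K _ := by
    apply symb_hom_ext
    · rw [AlgHom.comp_apply, symLift_x]; rfl
    · rw [AlgHom.comp_apply, symLift_y]; rfl
  have h4 := congrArg (fun φ => φ v) h3
  have h5 : ((symLift _ _ e1 e2 e3 v : T) : Symb K l ζ a b) = v := h4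
  rw [← h5]
  exact (symLift _ _ e1 e2 e3 v : T).2

/-- weighted cyclic shift -/
def Pm (l : ℕ) (c : K) (k : ℕ) : Matrix (Fin l) (Fin l) K :=
  Matrix.of fun j i => if (j : ℕ) = i + k then 1 else if (j : ℕ) + l = i + k then c else 0

theorem Pm_apply (l : ℕ) (c : K) (k : ℕ) (j i : Fin l) : Pm l c k j i =
    if (j : ℕ) = i + k then 1 else if (j : ℕ) + l = i + k then c else 0 := rfl

theorem Pm_pow (l : ℕ) (hl : 0 < l) (c : K) (k : ℕ) (hk : k ≤ l) : Pm l c 1 ^ k = Pm l c k := by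
  induction k with
  | zero =>
    rw [pow_zero]
    ext j i
    have hi := i.2
    have hj := j.2
    rw [Pm, Matrix.of_apply, Matrix.one_apply]
    by_cases h : j = i
    · rw [if_pos h, if_pos (by rw [h]; rfl)]
    · have h' : (j : ℕ) ≠ i + 0 := fun h2 => h (Fin.ext h2)
      rw [if_neg h, if_neg h', if_neg (by omega)]
  | succ k ih =>
    rw [pow_succ', ih (by omega)]
    ext j i
    have hi := i.2
    have hj := j.2
    rw [Matrix.mul_apply]
    by_cases hik : (i : ℕ) + k < l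
    · rw [Finset.sum_eq_single (⟨i + k, hik⟩ : Fin l)]
      · have e2 : Pm l c k ⟨i + k, hik⟩ i = 1 := by
          rw [Pm_apply]; exact if_pos rfl
        rw [e2, mul_one, Pm_apply, Pm_apply]
        show (if (j : ℕ) = i + k + 1 then (1 : K) else if (j : ℕ) + l = i + k + 1 then c else 0) = _
        rw [add_assoc]
      · intro m _ hm
        have hm' : (m : ℕ) ≠ i + k := fun h2 => hm (Fin.ext h2)
        have e2 : Pm l c k m i = 0 := by rw [Pm_apply, if_neg hm', if_neg (by omega)]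
        rw [e2, mul_zero]
      · intro h; exact absurd (Finset.mem_univ _) h
    · rw [Finset.sum_eq_single (⟨i + k - l, by omega⟩ : Fin l)]
      · have e2 : Pm l c k ⟨i + k - l, by omega⟩ i = c := by
          rw [Pm_apply]
          show (if (i : ℕ) + k - l = i + k then (1 : K) else if (i : ℕ) + k - l + l = i + k then c
            else 0) = c
          rw [if_neg (by omega), if_pos (by omega)]
        rw [e2, Pm_apply, Pm_apply]
        show (if (j : ℕ) = i + k - l + 1 then (1 : K) else if (j : ℕ) + l = i + k - l + 1 then c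
          else 0) * c = _
        rw [if_neg (show ¬ (j : ℕ) + l = i + k - l + 1 by omega),
          if_neg (show ¬ (j : ℕ) = i + (k + 1) by omega)]
        by_cases h1 : (j : ℕ) = i + k - l + 1
        · rw [if_pos h1, if_pos (by omega), one_mul]
        · rw [if_neg h1, if_neg (by omega), zero_mul]
      · intro m _ hm
        have hm' : (m : ℕ) ≠ i + k - l := fun h2 => hm (Fin.ext h2)
        have hml := m.2
        have e2 : Pm l c k m i = 0 := by rw [Pm_apply, if_neg (by omega), if_neg (by omega)]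
        rw [e2, mul_zero]
      · intro h; exact absurd (Finset.mem_univ _) h

theorem Pm_l (l : ℕ) (hl : 0 < l) (c : K) : Pm l c 1 ^ l = algebraMap K _ c := by
  rw [Pm_pow l hl c l le_rfl]
  ext j i
  have hi := i.2
  have hj := j.2
  rw [Matrix.algebraMap_matrix_apply]
  simp only [Pm, Matrix.of_apply]
  rw [if_neg (by omega)]
  by_cases h : j = i
  · rw [if_pos (by rw [h]), if_pos h]; rfl
  · have h' : (j : ℕ) ≠ i := fun h2 => h (Fin.ext h2)
    rw [if_neg (by omega), if_neg h]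

theorem diag_Pm (l : ℕ) (hl : 0 < l) (c ζ : K) (hζ : ζ ^ l = 1) (b : K) :
    Matrix.diagonal (fun i : Fin l => b * ζ ^ (i : ℕ)) * Pm l c 1
      = ζ • (Pm l c 1 * Matrix.diagonal (fun i : Fin l => b * ζ ^ (i : ℕ))) := by
  ext j i
  have hi := i.2
  have hj := j.2
  rw [Matrix.diagonal_mul, Matrix.smul_apply, Matrix.mul_diagonal, smul_eq_mul]
  simp only [Pm, Matrix.of_apply]
  by_cases h1 : (j : ℕ) = i + 1
  · rw [if_pos h1, h1, pow_succ]; ring
  · rw [if_neg h1]
    by_cases h2 : (j : ℕ) + l = i + 1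
    · rw [if_pos h2]
      have hj0 : (j : ℕ) = 0 := by omega
      have hi0 : (i : ℕ) + 1 = l := by omega
      have : ζ ^ (i : ℕ) * ζ = 1 := by rw [← pow_succ, hi0, hζ]
      rw [hj0, pow_zero]
      linear_combination (-b * c) * this
    · rw [if_neg h2]; ring

theorem Pm_diag (l : ℕ) (hl : 0 < l) (c ζ : K) (hζ : ζ ^ l = 1) (hζ0 : ζ ≠ 0) :
    Pm l c 1 * Matrix.diagonal (fun i : Fin l => ζ⁻¹ ^ (i : ℕ))
      = ζ • (Matrix.diagonal (fun i : Fin l => ζ⁻¹ ^ (i : ℕ)) * Pm l c 1) := by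
  ext j i
  have hi := i.2
  have hj := j.2
  rw [Matrix.mul_diagonal, Matrix.smul_apply, Matrix.diagonal_mul, smul_eq_mul]
  simp only [Pm, Matrix.of_apply]
  by_cases h1 : (j : ℕ) = i + 1
  · rw [if_pos h1, h1, pow_succ]; field_simp
  · rw [if_neg h1]
    by_cases h2 : (j : ℕ) + l = i + 1
    · rw [if_pos h2]
      have hj0 : (j : ℕ) = 0 := by omega
      have hi0 : (i : ℕ) + 1 = l := by omega
      have h3 : ζ ^ (i : ℕ) * ζ = 1 := by rw [← pow_succ, hi0, hζ]
      have h4 : ζ⁻¹ ^ (i : ℕ) = ζ := by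
        rw [inv_pow]
        exact inv_eq_of_mul_eq_one_right h3
      rw [hj0, pow_zero, h4]; ring
    · rw [if_neg h2]; ring

theorem diag_pow (l : ℕ) (ζ b : K) (hζ : ζ ^ l = 1) :
    Matrix.diagonal (fun i : Fin l => b * ζ ^ (i : ℕ)) ^ l = algebraMap K _ (b ^ l) := by
  rw [Matrix.diagonal_pow]
  ext j i
  rw [Matrix.algebraMap_matrix_apply, Matrix.diagonal_apply]
  by_cases h : j = i
  · rw [if_pos h, if_pos h]
    show (b * ζ ^ (j : ℕ)) ^ l = _
    rw [mul_pow, ← pow_mul, mul_comm (j : ℕ) l, pow_mul, hζ, one_pow, mul_one]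
    rfl
  · rw [if_neg h, if_neg h]

theorem ext_iso {l : ℕ} {ζ a b : K} (hl : 0 < l) (hζ : IsPrimitiveRoot ζ l) (hl0 : (l : K) ≠ 0)
    (ha : a ≠ 0) (hb : b ≠ 0) (f : Symb K l ζ a b →ₐ[K] Matrix (Fin l) (Fin l) K) :
    Function.Bijective f := by
  obtain ⟨_, h2, h3, h4⟩ := symb_csa l hl ζ a b hζ hl0 ha hb
  haveI : Nonempty (Fin l) := ⟨⟨0, hl⟩⟩
  have hinj : Function.Injective f := f.toRingHom.injective
  refine ⟨hinj, ?_⟩
  have hfr : Module.finrank K (Symb K l ζ a b)
      = Module.finrank K (Matrix (Fin l) (Fin l) K) := by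
    rw [h4, Module.finrank_matrix, Module.finrank_self]
    simp [sq]
  exact (LinearMap.injective_iff_surjective_of_finrank_eq_finrank (f := f.toLinearMap) hfr).1 hinj

/-- abstract version of the homomorphism -/
theorem abs_hom {M : Type*} [Ring M] [Algebra K M] {l : ℕ} (hl : 0 < l) {ζ a b c : K}
    (hζ0 : ζ ≠ 0) (ha : a ≠ 0) (hc : c ≠ 0)
    (sx sy u p q : M) (hx : sx ^ l = algebraMap K M a) (hy : sy ^ l = algebraMap K M (b * c))
    (hyx : sy * sx = ζ • (sx * sy)) (cxu : Commute sx u) (cxp : Commute sx p) (cxq : Commute sx q)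
    (cyu : Commute sy u) (cyp : Commute sy p) (cyq : Commute sy q)
    (hu : u ^ l = 1) (hp : p ^ l = algebraMap K M c) (hpu : p * u = ζ • (u * p))
    (hpq : p * q = 1) (hqp : q * p = 1) :
    ∃ Φ : Symb K l ζ a b ⊗[K] Symb K l ζ a c →ₐ[K] M,
      sx ∈ Φ.range ∧ sy ∈ Φ.range ∧ u ∈ Φ.range ∧ p ∈ Φ.range := by
  have hq : q ^ l = algebraMap K M c⁻¹ := by
    have hcpq : Commute p q := by rw [Commute, SemiconjBy, hpq, hqp]
    have h1 := hcpq.mul_pow l
    rw [hpq, one_pow, hp] at h1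
    calc q ^ l = algebraMap K M c⁻¹ * (algebraMap K M c * q ^ l) := by
          rw [← mul_assoc, ← map_mul, inv_mul_cancel₀ hc, map_one, one_mul]
      _ = algebraMap K M c⁻¹ := by rw [← h1, mul_one]
  have huq : u * q = ζ • (q * u) := by
    calc u * q = q * (p * u) * q := by rw [← mul_assoc q p u, hqp, one_mul]
      _ = ζ • (q * u * (p * q)) := by
          rw [hpu]
          simp only [mul_smul_comm, smul_mul_assoc, mul_assoc]
      _ = ζ • (q * u) := by rw [hpq, mul_one]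
  have hqu : q * u = ζ⁻¹ • (u * q) := by
    rw [huq, smul_smul, inv_mul_cancel₀ hζ0, one_smul]
  have X1l : sx ^ l = algebraMap K M a := hx
  have Y1l : (sy * q) ^ l = algebraMap K M b := by
    rw [cyq.mul_pow, hy, hq, ← map_mul, mul_assoc, mul_inv_cancel₀ hc, mul_one]
  have Y1X1 : (sy * q) * sx = algebraMap K M ζ * (sx * (sy * q)) := by
    rw [← Algebra.smul_def, mul_assoc, ← cxq.eq, ← mul_assoc, hyx, smul_mul_assoc, mul_assoc]
  have X2l : (sx * u) ^ l = algebraMap K M a := by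
    rw [cxu.mul_pow, hx, hu, mul_one]
  have Y2X2 : p * (sx * u) = algebraMap K M ζ * ((sx * u) * p) := by
    rw [← Algebra.smul_def, ← mul_assoc, ← cxp.eq, mul_assoc, hpu, mul_smul_comm, mul_assoc]
  have c1 : Commute sx (sx * u) := (Commute.refl sx).mul_right cxu
  have c2 : Commute (sy * q) (sx * u) := by
    rw [Commute, SemiconjBy]
    calc sy * q * (sx * u) = sy * (q * sx) * u := by simp only [mul_assoc]
      _ = sy * (sx * q) * u := by rw [cxq.eq]
      _ = (sy * sx) * (q * u) := by simp only [mul_assoc]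
      _ = sx * sy * (u * q) := by
          rw [hyx, hqu, smul_mul_assoc, mul_smul_comm, smul_smul, mul_inv_cancel₀ hζ0, one_smul]
      _ = sx * (sy * u) * q := by simp only [mul_assoc]
      _ = sx * (u * sy) * q := by rw [cyu.eq]
      _ = sx * u * (sy * q) := by simp only [mul_assoc]
  have c3 : Commute (sy * q) p := by
    rw [Commute, SemiconjBy, mul_assoc, hqp, mul_one, ← mul_assoc, ← cyp.eq, mul_assoc, hpq, mul_one]
  let F : Symb K l ζ a b →ₐ[K] M := symLift sx (sy * q) X1l Y1l Y1X1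
  let G : Symb K l ζ a c →ₐ[K] M := symLift (sx * u) p X2l hp Y2X2
  have Fx : F (gx K l ζ a b) = sx := symLift_x _ _ _ _ _
  have Fy : F (gy K l ζ a b) = sy * q := symLift_y _ _ _ _ _
  have Gx : G (gx K l ζ a c) = sx * u := symLift_x _ _ _ _ _
  have Gy : G (gy K l ζ a c) = p := symLift_y _ _ _ _ _
  have s1 : ∀ w : M, Commute w (sx * u) → Commute w p → ∀ v, Commute w (G v) := by
    intro w hw1 hw2 v
    have h1 := gen_top ((Subalgebra.centralizer K {w}).comap G)
      (by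
        show G (gx K l ζ a c) ∈ Subalgebra.centralizer K {w}
        rw [Gx, Subalgebra.mem_centralizer_iff]
        intro g hg
        rw [Set.mem_singleton_iff.1 hg]
        exact hw1.eq)
      (by
        show G (gy K l ζ a c) ∈ Subalgebra.centralizer K {w}
        rw [Gy, Subalgebra.mem_centralizer_iff]
        intro g hg
        rw [Set.mem_singleton_iff.1 hg]
        exact hw2.eq) v
    exact (Subalgebra.mem_centralizer_iff K).1 h1 w rfl
  have s2 : ∀ (x : Symb K l ζ a b) (v : Symb K l ζ a c), Commute (F x) (G v) := by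
    intro x v
    have h1 := gen_top ((Subalgebra.centralizer K {G v}).comap F)
      (by
        show F (gx K l ζ a b) ∈ Subalgebra.centralizer K {G v}
        rw [Fx, Subalgebra.mem_centralizer_iff]
        intro g hg
        rw [Set.mem_singleton_iff.1 hg]
        exact (s1 sx c1 cxp v).symm.eq)
      (by
        show F (gy K l ζ a b) ∈ Subalgebra.centralizer K {G v}
        rw [Fy, Subalgebra.mem_centralizer_iff]
        intro g hg
        rw [Set.mem_singleton_iff.1 hg]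
        exact (s1 (sy * q) c2 c3 v).symm.eq) x
    exact ((Subalgebra.mem_centralizer_iff K).1 h1 (G v) rfl).symm
  let Φ : Symb K l ζ a b ⊗[K] Symb K l ζ a c →ₐ[K] M := Algebra.TensorProduct.lift F G s2
  have m1 : sx ∈ Φ.range := ⟨gx K l ζ a b ⊗ₜ 1, by
    show Algebra.TensorProduct.lift F G s2 (gx K l ζ a b ⊗ₜ 1) = sx
    rw [Algebra.TensorProduct.lift_tmul, map_one, mul_one, Fx]⟩
  have m2 : sy * q ∈ Φ.range := ⟨gy K l ζ a b ⊗ₜ 1, by
    show Algebra.TensorProduct.lift F G s2 (gy K l ζ a b ⊗ₜ 1) = sy * q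
    rw [Algebra.TensorProduct.lift_tmul, map_one, mul_one, Fy]⟩
  have m3 : sx * u ∈ Φ.range := ⟨1 ⊗ₜ gx K l ζ a c, by
    show Algebra.TensorProduct.lift F G s2 (1 ⊗ₜ gx K l ζ a c) = sx * u
    rw [Algebra.TensorProduct.lift_tmul, map_one, one_mul, Gx]⟩
  have m4 : p ∈ Φ.range := ⟨1 ⊗ₜ gy K l ζ a c, by
    show Algebra.TensorProduct.lift F G s2 (1 ⊗ₜ gy K l ζ a c) = p
    rw [Algebra.TensorProduct.lift_tmul, map_one, one_mul, Gy]⟩
  refine ⟨Φ, m1, ?_, ?_, m4⟩
  · have h1 := Φ.range.mul_mem m2 m4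
    rw [mul_assoc, hqp, mul_one] at h1
    exact h1
  · have h1 := Φ.range.smul_mem (Φ.range.mul_mem (Φ.range.pow_mem m1 (l - 1)) m3) a⁻¹
    have h2 : a⁻¹ • (sx ^ (l - 1) * (sx * u)) = u := by
      rw [← mul_assoc, ← pow_succ, Nat.sub_add_cancel hl, hx, ← Algebra.smul_def, smul_smul,
        inv_mul_cancel₀ ha, one_smul]
    rw [h2] at h1
    exact h1

end aux

theorem symb_tensor {K : Type*} [Field K] (l : ℕ) (hl : 0 < l) (ζ a b c : K)
    (hζ : IsPrimitiveRoot ζ l) (hl0 : (l : K) ≠ 0) (ha : a ≠ 0) (hb : b ≠ 0) (hc : c ≠ 0) :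
    Nonempty (Symb K l ζ a b ⊗[K] Symb K l ζ a c ≃ₐ[K]
      Matrix (Fin l) (Fin l) (Symb K l ζ a (b * c))) := by
  have hζl : ζ ^ l = 1 := hζ.pow_eq_one
  have hζ0 : ζ ≠ 0 := hζ.ne_zero (by omega)
  obtain ⟨_, _, fd1, fr1⟩ := symb_csa l hl ζ a b hζ hl0 ha hb
  obtain ⟨_, _, fd2, fr2⟩ := symb_csa l hl ζ a c hζ hl0 ha hc
  obtain ⟨_, _, fd3, fr3⟩ := symb_csa l hl ζ a (b * c) hζ hl0 ha (mul_ne_zero hb hc)
  let S := Symb K l ζ a (b * c)
  let σ : S →ₐ[K] Matrix (Fin l) (Fin l) S := Matrix.scalarAlgHom (Fin l) K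
  let κ : Matrix (Fin l) (Fin l) K →ₐ[K] Matrix (Fin l) (Fin l) S := (Algebra.ofId K S).mapMatrix
  have hcomm : ∀ (s : S) (N : Matrix (Fin l) (Fin l) K), Commute (σ s) (κ N) := by
    intro s N
    rw [Commute, SemiconjBy]
    ext i j
    show ((Matrix.scalar (Fin l) s) * (N.map (Algebra.ofId K S))) i j
      = ((N.map (Algebra.ofId K S)) * (Matrix.scalar (Fin l) s)) i j
    rw [Matrix.scalar_apply, Matrix.diagonal_mul, Matrix.mul_diagonal, Matrix.map_apply]
    exact (Algebra.commutes (N i j) s).symm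
  let P : Matrix (Fin l) (Fin l) K := Pm l c 1
  let U : Matrix (Fin l) (Fin l) K := Matrix.diagonal (fun i : Fin l => ζ⁻¹ ^ (i : ℕ))
  let Q : Matrix (Fin l) (Fin l) K := c⁻¹ • P ^ (l - 1)
  have hPl : P ^ l = algebraMap K _ c := Pm_l l hl c
  have hUl : U ^ l = 1 := by
    have h1 := diag_pow l ζ⁻¹ 1 (by rw [inv_pow, hζl, inv_one])
    simp only [one_mul, one_pow, map_one] at h1
    exact h1
  have hPU : P * U = ζ • (U * P) := Pm_diag l hl c ζ hζl hζ0
  have hPQ : P * Q = 1 := by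
    show P * (c⁻¹ • P ^ (l - 1)) = 1
    rw [mul_smul_comm, ← pow_succ', Nat.sub_add_cancel hl, hPl, Algebra.smul_def, ← map_mul,
      inv_mul_cancel₀ hc, map_one]
  have hQP : Q * P = 1 := by
    show (c⁻¹ • P ^ (l - 1)) * P = 1
    rw [smul_mul_assoc, ← pow_succ, Nat.sub_add_cancel hl, hPl, Algebra.smul_def, ← map_mul,
      inv_mul_cancel₀ hc, map_one]
  obtain ⟨Φ, m1, m2, m3, m4⟩ := abs_hom (K := K) (l := l) hl (ζ := ζ) (a := a) (b := b) (c := c)
    hζ0 ha hc (σ (gx K l ζ a (b * c))) (σ (gy K l ζ a (b * c))) (κ U) (κ P) (κ Q)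
    (by rw [← map_pow, gx_pow, AlgHom.commutes])
    (by rw [← map_pow, gy_pow, AlgHom.commutes])
    (by rw [← map_mul, gy_gx, map_mul, AlgHom.commutes, ← Algebra.smul_def, map_mul])
    (hcomm _ _) (hcomm _ _) (hcomm _ _) (hcomm _ _) (hcomm _ _) (hcomm _ _)
    (by rw [← map_pow, hUl, map_one])
    (by rw [← map_pow, hPl, AlgHom.commutes])
    (by rw [← map_mul, hPU, map_smul, map_mul])
    (by rw [← map_mul, hPQ, map_one])
    (by rw [← map_mul, hQP, map_one])
  have r1 : ∀ s : S, σ s ∈ Φ.range := fun s => gen_top (Φ.range.comap σ) m1 m2 s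
  -- the matrices over `K`
  let ρ : Symb K l ζ 1 c →ₐ[K] Matrix (Fin l) (Fin l) K := symLift U P
    (by rw [hUl, map_one]) hPl (by rw [hPU, Algebra.smul_def])
  have ρx : ρ (gx K l ζ 1 c) = U := symLift_x _ _ _ _ _
  have ρy : ρ (gy K l ζ 1 c) = P := symLift_y _ _ _ _ _
  have hρ := ext_iso hl hζ hl0 one_ne_zero hc ρ
  have r2 : ∀ N : Matrix (Fin l) (Fin l) K, κ N ∈ Φ.range := by
    intro N
    obtain ⟨v, rfl⟩ := hρ.2 N
    exact gen_top ((Φ.range.comap κ).comap ρ)
      (by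
        show κ (ρ (gx K l ζ 1 c)) ∈ Φ.range
        rw [ρx]; exact m3)
      (by
        show κ (ρ (gy K l ζ 1 c)) ∈ Φ.range
        rw [ρy]; exact m4) v
  have hsurj : Function.Surjective Φ := by
    intro N
    have h1 : N ∈ Φ.range := by
      rw [Matrix.matrix_eq_sum_single N]
      refine Subalgebra.sum_mem _ fun i _ => Subalgebra.sum_mem _ fun j _ => ?_
      have h2 : Matrix.single i j (N i j) = σ (N i j) * κ (Matrix.single i j 1) := by
        ext i' j'
        show _ = ((Matrix.scalar (Fin l) (N i j)) * ((Matrix.single i j 1).map (Algebra.ofId K S))) i' j'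
        rw [Matrix.scalar_apply, Matrix.diagonal_mul, Matrix.map_apply, Matrix.single_apply,
          Matrix.single_apply]
        split_ifs
        · rw [map_one, mul_one]
        · rw [map_zero, mul_zero]
      rw [h2]
      exact Φ.range.mul_mem (r1 _) (r2 _)
    exact h1
  have hfr : Module.finrank K (Symb K l ζ a b ⊗[K] Symb K l ζ a c)
      = Module.finrank K (Matrix (Fin l) (Fin l) S) := by
    rw [Module.finrank_tensorProduct, fr1, fr2, Module.finrank_matrix, fr3]
    simp [sq]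
  have hinj : Function.Injective Φ :=
    (LinearMap.injective_iff_surjective_of_finrank_eq_finrank (f := Φ.toLinearMap) hfr).2 hsurj
  exact ⟨AlgEquiv.ofBijective Φ ⟨hinj, hsurj⟩⟩

theorem symb_split {K : Type*} [Field K] (l : ℕ) (hl : 0 < l) (ζ a b : K)
    (hζ : IsPrimitiveRoot ζ l) (hl0 : (l : K) ≠ 0) (ha : a ≠ 0) (hb : b ≠ 0) :
    Nonempty (Symb K l ζ a (b ^ l) ≃ₐ[K] Matrix (Fin l) (Fin l) K) := by
  have hζl : ζ ^ l = 1 := hζ.pow_eq_one
  let ρ : Symb K l ζ a (b ^ l) →ₐ[K] Matrix (Fin l) (Fin l) K :=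
    symLift (Pm l a 1) (Matrix.diagonal (fun i : Fin l => b * ζ ^ (i : ℕ)))
      (Pm_l l hl a) (diag_pow l ζ b hζl) (by rw [diag_Pm l hl a ζ hζl b, Algebra.smul_def])
  exact ⟨AlgEquiv.ofBijective ρ (ext_iso hl hζ hl0 ha (pow_ne_zero l hb) ρ)⟩

end Pool.Agent.Helper346.Bra
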