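import Pool.Agent.Helper346.Bra.Defs
import Pool.Agent.Helper346.Bra.SD
import Pool.Agent.Helper346.Bra.SH

set_option autoImplicit false

open scoped TensorProduct

namespace Pool.Agent.Helper346.Bra



private noncomputable def tensorMat {K A B : Type*} [Field K] [Ring A] [Algebra K A] [Ring B]
    [Algebra K B] (n : Type*) [Fintype n] [DecidableEq n] :
    A ⊗[K] Matrix n n B ≃ₐ[K] Matrix n n (A ⊗[K] B) :=
  (Algebra.TensorProduct.congr AlgEquiv.refl (matrixEquivTensor n K B)).trans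
    ((Algebra.TensorProduct.assoc K K K A B (Matrix n n K)).symm.trans
      (matrixEquivTensor n K (A ⊗[K] B)).symm)

theorem symb_triple {K : Type*} [Field K] (ω a b : K) (hω : IsPrimitiveRoot ω 3)
    (h3 : (3 : K) ≠ 0) (ha : a ≠ 0) (hb : b ≠ 0) :
    IsSplit K (Symb K 3 ω a b ⊗[K] (Symb K 3 ω a b ⊗[K] Symb K 3 ω a b)) := by
  have h3' : ((3 : ℕ) : K) ≠ 0 := by exact_mod_cast h3
  obtain ⟨e1⟩ := symb_tensor 3 (by norm_num) ω a b b hω h3' ha hb hb
  obtain ⟨e2⟩ := symb_tensor 3 (by norm_num) ω a b (b * b) hω h3' ha hb (mul_ne_zero hb hb)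
  obtain ⟨e3⟩ := symb_split 3 (by norm_num) ω a b hω h3' ha hb
  have hb3 : b * (b * b) = b ^ 3 := by ring
  rw [hb3] at e2
  let f1 := Algebra.TensorProduct.congr (AlgEquiv.refl (R := K) (A₁ := Symb K 3 ω a b)) e1
  let f2 := tensorMat (K := K) (A := Symb K 3 ω a b) (B := Symb K 3 ω a (b * b)) (Fin 3)
  let f3 : Matrix (Fin 3) (Fin 3) (Symb K 3 ω a b ⊗[K] Symb K 3 ω a (b * b)) ≃ₐ[K]
      Matrix (Fin 3) (Fin 3) (Matrix (Fin 3) (Fin 3) (Matrix (Fin 3) (Fin 3) K)) :=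
    (e2.trans e3.mapMatrix).mapMatrix
  let f4 := Matrix.compAlgEquiv (Fin 3) (Fin 3) (Matrix (Fin 3) (Fin 3) K) K
  let f5 := Matrix.compAlgEquiv (Fin 3 × Fin 3) (Fin 3) K K
  let f6 := Matrix.reindexAlgEquiv K K (Fintype.equivFin ((Fin 3 × Fin 3) × Fin 3))
  exact ⟨_, ⟨f1.trans (f2.trans (f3.trans (f4.trans (f5.trans f6))))⟩⟩

end Pool.Agent.Helper346.Bra
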