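import Pool.Agent.Helper346.Bra.Defs

set_option autoImplicit false

open scoped TensorProduct

namespace Pool.Agent.Helper346.Bra



section dv

variable {K : Type*} [Field K] {R : ValuationSubring K} [IsDiscreteValuationRing R] {π : R}

/-- `a = π ^ m * u` -/
def Rep (π : R) (a : K) (m : ℤ) (u : Rˣ) : Prop := a = (π : K) ^ m * ((u : R) : K)

theorem Rep.exists (hπ : Irreducible π) {a : K} (ha : a ≠ 0) : ∃ m u, Rep π a m u := by
  obtain ⟨n, u, h⟩ := IsDiscreteValuationRing.exists_units_eq_smul_zpow_of_irreducible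
    (K := K) hπ ha
  refine ⟨n, u, ?_⟩
  unfold Rep
  rw [h, Units.smul_def, Algebra.smul_def, mul_comm]
  rfl

theorem pi_ne (hπ : Irreducible π) : (π : K) ≠ 0 := by
  intro h
  exact hπ.ne_zero (Subtype.ext h)

theorem unit_ne (u : Rˣ) : ((u : R) : K) ≠ 0 := by
  intro h
  exact u.ne_zero (Subtype.ext h)

theorem Rep.ne_zero (hπ : Irreducible π) {a : K} {m : ℤ} {u : Rˣ} (h : Rep π a m u) : a ≠ 0 := by
  rw [h]
  exact mul_ne_zero (zpow_ne_zero _ (pi_ne hπ)) (unit_ne u)

theorem Rep.uniq_aux (hπ : Irreducible π) {a : K} {m m' : ℤ} {u u' : Rˣ} (h : Rep π a m u)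
    (h' : Rep π a m' u') (hle : m ≤ m') : m = m' ∧ u = u' := by
  obtain ⟨k, hk⟩ := Int.le.dest hle
  have h1 : (π : K) ^ m * ((u : R) : K) = (π : K) ^ m * ((π : K) ^ k * ((u' : R) : K)) := by
    rw [← mul_assoc, ← zpow_natCast, ← zpow_add₀ (pi_ne hπ), hk]
    exact h.symm.trans h'
  have h2 := mul_left_cancel₀ (zpow_ne_zero m (pi_ne hπ)) h1
  have h3 : (u : R) = π ^ k * (u' : R) := by
    apply Subtype.ext
    push_cast
    exact h2
  rcases Nat.eq_zero_or_pos k with h0 | h0
  · subst h0
    simp only [Nat.cast_zero, add_zero] at hk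
    refine ⟨hk, Units.ext ?_⟩
    rw [h3, pow_zero, one_mul]
  · exfalso
    apply hπ.not_isUnit
    have hd : π ∣ (u : R) := by
      rw [h3]
      exact (dvd_pow_self π h0.ne').mul_right _
    exact isUnit_of_dvd_unit hd u.isUnit

theorem Rep.uniq (hπ : Irreducible π) {a : K} {m m' : ℤ} {u u' : Rˣ} (h : Rep π a m u)
    (h' : Rep π a m' u') : m = m' ∧ u = u' := by
  rcases le_total m m' with hle | hle
  · exact Rep.uniq_aux hπ h h' hle
  · obtain ⟨h1, h2⟩ := Rep.uniq_aux hπ h' h hle
    exact ⟨h1.symm, h2.symm⟩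

theorem Rep.mul (hπ : Irreducible π) {a b : K} {m n : ℤ} {u v : Rˣ} (h : Rep π a m u)
    (h' : Rep π b n v) : Rep π (a * b) (m + n) (u * v) := by
  unfold Rep at *
  rw [h, h', zpow_add₀ (pi_ne hπ), Units.val_mul]
  push_cast
  ring

theorem Rep.add (hπ : Irreducible π) {a b : K} {m n : ℤ} {u v : Rˣ} (h : Rep π a m u)
    (h' : Rep π b n v) (hle : m ≤ n) :
    a + b = (π : K) ^ m * (((u : R) + π ^ (n - m).toNat * (v : R) : R) : K) := by
  unfold Rep at *
  have h1 : (π : K) ^ n = (π : K) ^ m * (π : K) ^ (n - m).toNat := by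
    rw [← zpow_natCast, ← zpow_add₀ (pi_ne hπ)]
    congr 1
    rw [Int.toNat_of_nonneg (by omega)]
    ring
  rw [h, h', h1]
  push_cast
  ring

theorem residue_pi (hπ : Irreducible π) : IsLocalRing.residue R π = 0 := by
  rw [IsLocalRing.residue_eq_zero_iff, IsLocalRing.mem_maximalIdeal]
  exact hπ.not_isUnit

end dv

theorem exists_dval {K : Type*} [Field K] (R : ValuationSubring K)
    [IsDiscreteValuationRing R] :
    ∃ (π : R) (D : DVal K (IsLocalRing.ResidueField R)) (u : K → Rˣ), Irreducible π ∧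
      (∀ a, a ≠ 0 → a = (π : K) ^ (D.w a) * ((u a : R) : K)) ∧
      (∀ a, a ≠ 0 → D.lc a = IsLocalRing.residue R (u a : R)) ∧
      (∀ c : R, IsUnit c → D.w (c : K) = 0 ∧ D.lc (c : K) = IsLocalRing.residue R c) := by
  classical
  obtain ⟨π, hπ⟩ := IsDiscreteValuationRing.exists_irreducible R
  have hex : ∀ a : K, ∃ p : ℤ × Rˣ, a ≠ 0 → Rep π a p.1 p.2 := by
    intro a
    by_cases ha : a = 0
    · exact ⟨(0, 1), fun h => absurd ha h⟩
    · obtain ⟨m, u, h⟩ := Rep.exists hπ ha
      exact ⟨(m, u), fun _ => h⟩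
  choose p hp using hex
  have hw : ∀ a m v, Rep π a m v → (p a).1 = m ∧ (p a).2 = v := by
    intro a m v h
    exact (hp a (h.ne_zero hπ)).uniq hπ h
  have hres : ∀ v : Rˣ, IsLocalRing.residue R (v : R) ≠ 0 := fun v =>
    (IsLocalRing.residue_ne_zero_iff_isUnit _).2 v.isUnit
  let D : DVal K (IsLocalRing.ResidueField R) :=
    { w := fun a => (p a).1
      lc := fun a => IsLocalRing.residue R ((p a).2 : R)
      lc_ne := fun a _ => hres _
      w_mul := fun a b ha hb => (hw _ _ _ ((hp a ha).mul hπ (hp b hb))).1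
      lc_mul := fun a b ha hb => by
        rw [(hw _ _ _ ((hp a ha).mul hπ (hp b hb))).2, Units.val_mul, map_mul]
      add_lt := fun a b ha hb hlt => by
        have h := (hp a ha).add hπ (hp b hb) hlt.le
        have hk : 0 < ((p b).1 - (p a).1).toNat := by
          have : (p a).1 < (p b).1 := hlt
          omega
        have hr : IsLocalRing.residue R (((p a).2 : R) + π ^ ((p b).1 - (p a).1).toNat * ((p b).2 : R))
            = IsLocalRing.residue R ((p a).2 : R) := by
          rw [map_add, map_mul, map_pow, residue_pi hπ, zero_pow hk.ne', zero_mul, add_zero]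
        have hu : IsUnit (((p a).2 : R) + π ^ ((p b).1 - (p a).1).toNat * ((p b).2 : R)) := by
          rw [← IsLocalRing.residue_ne_zero_iff_isUnit, hr]
          exact hres _
        obtain ⟨x, hx⟩ := hu
        have hrep : Rep π (a + b) (p a).1 x := by
          unfold Rep
          rw [hx]
          exact h
        obtain ⟨h1, h2⟩ := hw _ _ _ hrep
        refine ⟨hrep.ne_zero hπ, h1, ?_⟩
        rw [h2, hx, hr]
      add_eq := fun a b ha hb hab hne => by
        have h := (hp a ha).add hπ (hp b hb) (le_of_eq hab)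
        have hk : ((p b).1 - (p a).1).toNat = 0 := by
          have : (p a).1 = (p b).1 := hab
          omega
        rw [hk, pow_zero, one_mul] at h
        have hu : IsUnit (((p a).2 : R) + ((p b).2 : R)) := by
          rw [← IsLocalRing.residue_ne_zero_iff_isUnit, map_add]
          exact hne
        obtain ⟨x, hx⟩ := hu
        have hrep : Rep π (a + b) (p a).1 x := by
          unfold Rep
          rw [hx]
          exact h
        obtain ⟨h1, h2⟩ := hw _ _ _ hrep
        refine ⟨hrep.ne_zero hπ, h1, ?_⟩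
        rw [h2, hx, map_add]
      add_gt := fun a b ha hb hab0 hab hne => by
        have h := (hp a ha).add hπ (hp b hb) (le_of_eq hab)
        have hk : ((p b).1 - (p a).1).toNat = 0 := by
          have : (p a).1 = (p b).1 := hab
          omega
        rw [hk, pow_zero, one_mul] at h
        have hm : ((p a).2 : R) + ((p b).2 : R) ∈ IsLocalRing.maximalIdeal R := by
          rw [← IsLocalRing.residue_eq_zero_iff, map_add]
          exact hne
        rw [hπ.maximalIdeal_eq, Ideal.mem_span_singleton] at hm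
        obtain ⟨r, hr⟩ := hm
        have hr0 : r ≠ 0 := by
          rintro rfl
          apply hab0
          rw [h, hr, mul_zero]
          simp
        obtain ⟨k, v, hv⟩ := IsDiscreteValuationRing.eq_unit_mul_pow_irreducible hr0 hπ
        have hrep : Rep π (a + b) ((p a).1 + 1 + k) v := by
          unfold Rep
          rw [h, hr, hv, zpow_add₀ (pi_ne hπ), zpow_add₀ (pi_ne hπ), zpow_one, zpow_natCast]
          push_cast
          ring
        obtain ⟨h1, h2⟩ := hw _ _ _ hrep
        rw [h1]
        omega }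
  refine ⟨π, D, fun a => (p a).2, hπ, fun a ha => hp a ha, fun a _ => rfl, ?_⟩
  rintro _ ⟨c, rfl⟩
  have hrep : Rep π (((c : R)) : K) 0 c := by
    unfold Rep
    rw [zpow_zero, one_mul]
  obtain ⟨h1, h2⟩ := hw _ _ _ hrep
  refine ⟨h1, ?_⟩
  change IsLocalRing.residue R ((p (c : R)).2 : R) = _
  rw [h2]

end Pool.Agent.Helper346.Bra
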