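import Pool.Agent.Helper346.Bra.Defs

set_option autoImplicit false

open scoped TensorProduct

namespace Pool.Agent.Helper346.Bra



namespace J4072

variable {C K κ : Type*} [Field C] [Field K] [Field κ]

theorem w_one (D : DVal K κ) : D.w 1 = 0 := by
  have h := D.w_mul 1 1 one_ne_zero one_ne_zero
  rw [mul_one] at h
  omega

theorem lc_one (D : DVal K κ) : D.lc 1 = 1 := by
  have h := D.lc_mul 1 1 one_ne_zero one_ne_zero
  rw [mul_one] at h
  have h2 := D.lc_ne 1 one_ne_zero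
  exact (mul_left_cancel₀ h2 (by rw [← h, mul_one])).symm

/-- cubes -/
def Cu (u : κ) : Prop := ∃ c : κ, u = c ^ 3

theorem Cu.mul {u v : κ} (hu : Cu u) (hv : Cu v) : Cu (u * v) := by
  obtain ⟨a, rfl⟩ := hu
  obtain ⟨b, rfl⟩ := hv
  exact ⟨a * b, by ring⟩

theorem Cu.inv {u : κ} (hu : Cu u) : Cu u⁻¹ := by
  obtain ⟨a, rfl⟩ := hu
  exact ⟨a⁻¹, by rw [inv_pow]⟩

theorem Cu.zpow {u : κ} (hu : Cu u) (n : ℤ) : Cu (u ^ n) := by
  obtain ⟨a, rfl⟩ := hu
  refine ⟨a ^ n, ?_⟩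
  rw [← zpow_natCast, ← zpow_natCast, ← zpow_mul, ← zpow_mul, mul_comm]

theorem Cu.one : Cu (1 : κ) := ⟨1, by ring⟩

theorem Cu.pow3 (u : κ) : Cu (u ^ 3) := ⟨u, rfl⟩

theorem Cu.cancel {u v : κ} (h : Cu (u * v)) (hu : Cu u) (hu0 : u ≠ 0) : Cu v := by
  have h2 := hu.inv.mul h
  rwa [← mul_assoc, inv_mul_cancel₀ hu0, one_mul] at h2

theorem Cu.const [IsAlgClosed C] (ik : C →+* κ) (c : C) : Cu (ik c) := by
  obtain ⟨z, hz⟩ := IsAlgClosed.exists_pow_nat_eq c (n := 3) (by norm_num)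
  exact ⟨ik z, by rw [← hz, map_pow]⟩

/-- tame symbol up to sign -/
def tm (D : DVal K κ) (a b : K) : κ := D.lc a ^ D.w b * D.lc b ^ (-(D.w a))

theorem tm_ne (D : DVal K κ) {a b : K} (ha : a ≠ 0) (hb : b ≠ 0) : tm D a b ≠ 0 :=
  mul_ne_zero (zpow_ne_zero _ (D.lc_ne a ha)) (zpow_ne_zero _ (D.lc_ne b hb))

theorem tm_mul_left (D : DVal K κ) {a b c : K} (ha : a ≠ 0) (hb : b ≠ 0) (hc : c ≠ 0) :
    tm D (a * b) c = tm D a c * tm D b c := by
  unfold tm
  rw [D.w_mul a b ha hb, D.lc_mul a b ha hb, mul_zpow, neg_add, zpow_add₀ (D.lc_ne c hc)]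
  ring

theorem tm_mul_right (D : DVal K κ) {a b c : K} (ha : a ≠ 0) (hb : b ≠ 0) (hc : c ≠ 0) :
    tm D a (b * c) = tm D a b * tm D a c := by
  unfold tm
  rw [D.w_mul b c hb hc, D.lc_mul b c hb hc, mul_zpow, zpow_add₀ (D.lc_ne a ha)]
  ring

theorem tm_self (D : DVal K κ) {a : K} (ha : a ≠ 0) : tm D a a = 1 := by
  unfold tm
  rw [← zpow_add₀ (D.lc_ne a ha), add_neg_cancel, zpow_zero]

theorem stein (D : DVal K κ) {u : K} (hu : u ≠ 0) (h1 : 1 + u ≠ 0) : Cu (tm D u (1 + u)) := by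
  rcases lt_trichotomy (D.w u) 0 with h | h | h
  · obtain ⟨_, hw, hl⟩ := D.add_lt u 1 hu one_ne_zero (by rw [w_one]; exact h)
    rw [add_comm] at hw hl
    unfold tm
    rw [hw, hl, ← zpow_add₀ (D.lc_ne u hu), add_neg_cancel, zpow_zero]
    exact Cu.one
  · by_cases hl : D.lc 1 + D.lc u = 0
    · rw [lc_one] at hl
      have hl' : D.lc u = (-1) ^ 3 := by
        have : D.lc u = -1 := by linear_combination hl
        rw [this]; ring
      unfold tm
      rw [h, neg_zero, zpow_zero, mul_one, hl']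
      exact (Cu.pow3 _).zpow _
    · obtain ⟨_, hw, _⟩ := D.add_eq 1 u one_ne_zero hu (by rw [w_one, h]) hl
      unfold tm
      rw [hw, h, w_one, neg_zero, zpow_zero, zpow_zero, mul_one]
      exact Cu.one
  · obtain ⟨_, hw, hl⟩ := D.add_lt 1 u one_ne_zero hu (by rw [w_one]; exact h)
    unfold tm
    rw [hw, hl, w_one, lc_one, zpow_zero, one_zpow, mul_one]
    exact Cu.one

theorem tm_const_left [IsAlgClosed C] (D : DVal K κ) (iK : C →+* K) (ik : C →+* κ)
    (hc : ∀ c : C, c ≠ 0 → D.w (iK c) = 0 ∧ D.lc (iK c) = ik c) {c : C} (h0 : c ≠ 0) (b : K) :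
    Cu (tm D (iK c) b) := by
  unfold tm
  rw [(hc c h0).1, (hc c h0).2, neg_zero, zpow_zero, mul_one]
  exact (Cu.const ik c).zpow _

theorem tm_const_right [IsAlgClosed C] (D : DVal K κ) (iK : C →+* K) (ik : C →+* κ)
    (hc : ∀ c : C, c ≠ 0 → D.w (iK c) = 0 ∧ D.lc (iK c) = ik c) {c : C} (h0 : c ≠ 0) (b : K) :
    Cu (tm D b (iK c)) := by
  unfold tm
  rw [(hc c h0).1, (hc c h0).2, zpow_zero, one_mul]
  exact (Cu.const ik c).zpow _

theorem stein' [IsAlgClosed C] (D : DVal K κ) (iK : C →+* K) (ik : C →+* κ)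
    (hc : ∀ c : C, c ≠ 0 → D.w (iK c) = 0 ∧ D.lc (iK c) = ik c) {c : C} (h0 : c ≠ 0) {t s : K}
    (ht : t ≠ 0) (hs : s ≠ 0) (h1 : 1 + iK c * (t * s ^ 3) ≠ 0) :
    Cu (tm D t (1 + iK c * (t * s ^ 3))) := by
  have hc0 : iK c ≠ 0 := by rwa [map_ne_zero]
  have hs3 : s ^ 3 ≠ 0 := pow_ne_zero _ hs
  have h := stein D (mul_ne_zero hc0 (mul_ne_zero ht hs3)) h1
  rw [tm_mul_left D hc0 (mul_ne_zero ht hs3) h1, tm_mul_left D ht hs3 h1] at h
  have h2 := h.cancel (tm_const_left D iK ik hc h0 _) (tm_ne D hc0 h1)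
  have h3 : Cu (tm D (s ^ 3) (1 + iK c * (t * s ^ 3))) := by
    have h4 : s ^ 3 = s * (s * s) := by ring
    have h5 : tm D (s * (s * s)) (1 + iK c * (t * s ^ 3)) = tm D s (1 + iK c * (t * s ^ 3)) ^ 3 := by
      rw [tm_mul_left D hs (mul_ne_zero hs hs) h1, tm_mul_left D hs hs h1]
      ring
    have h6 : tm D (s ^ 3) (1 + iK c * (t * s ^ 3)) =
        tm D (s * (s * s)) (1 + iK c * (t * s ^ 3)) := by
      congr 1
    rw [h6, h5]
    exact Cu.pow3 _
  rw [mul_comm] at h2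
  exact h2.cancel h3 (tm_ne D hs3 h1)

theorem claim1 [IsAlgClosed C] [CharZero C]
    (D : DVal K κ) (iK : C →+* K) (ik : C →+* κ)
    (hc : ∀ c : C, c ≠ 0 → D.w (iK c) = 0 ∧ D.lc (iK c) = ik c)
    (t x y : K) (ht : ∀ c, t ≠ iK c) (hx : x ≠ 0) (hy : y ≠ 0)
    (hxy : x ^ 3 + t * y ^ 3 ≠ 0) :
    Cu (tm D t (-(t * (t - 1) * (1 - 2 * t) ^ 2 * (x ^ 3 + t * y ^ 3)))) ∧
      t ≠ 0 ∧ t - 1 ≠ 0 ∧ 1 - 2 * t ≠ 0 := by
  have ht0 : t ≠ 0 := by
    have := ht 0
    rwa [map_zero] at this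
  have ht1 : t - 1 ≠ 0 := by
    have := ht 1
    rw [map_one] at this
    exact sub_ne_zero.2 this
  have h2K : (2 : K) ≠ 0 := by
    have h : iK (2 : C) ≠ 0 := by rw [map_ne_zero]; exact two_ne_zero
    rwa [map_ofNat] at h
  have ht2 : 1 - 2 * t ≠ 0 := by
    intro h
    apply ht (2⁻¹)
    rw [map_inv₀, map_ofNat]
    field_simp
    linear_combination -h
  refine ⟨?_, ht0, ht1, ht2⟩
  have e1 : -(t * (t - 1) * (1 - 2 * t) ^ 2 * (x ^ 3 + t * y ^ 3)) =
      iK (-1) * (t * ((iK (-1) * (1 + iK (-1) * (t * 1 ^ 3))) *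
        ((1 + iK (-2) * (t * 1 ^ 3)) * ((1 + iK (-2) * (t * 1 ^ 3)) *
          ((x * (x * x)) * (1 + iK 1 * (t * (y / x) ^ 3))))))) := by
    simp only [map_neg, map_one, map_ofNat]
    field_simp
    ring
  have n1 : iK (-1) ≠ 0 := by rw [map_ne_zero]; simp
  have n2 : 1 + iK (-1) * (t * 1 ^ 3) ≠ 0 := by
    intro h
    apply ht1
    simp only [map_neg, map_one] at h
    linear_combination -h
  have n3 : 1 + iK (-2) * (t * 1 ^ 3) ≠ 0 := by
    intro h
    apply ht2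
    simp only [map_neg, map_ofNat] at h
    linear_combination h
  have n4 : 1 + iK 1 * (t * (y / x) ^ 3) ≠ 0 := by
    intro h
    apply hxy
    simp only [map_one] at h
    field_simp at h
    linear_combination h
  have n5 : x * (x * x) ≠ 0 := mul_ne_zero hx (mul_ne_zero hx hx)
  have n6 := mul_ne_zero n5 n4
  have n7 := mul_ne_zero n3 n6
  have n8 := mul_ne_zero n3 n7
  have n9 := mul_ne_zero n1 n2
  have n10 := mul_ne_zero n9 n8
  have n11 := mul_ne_zero ht0 n10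
  rw [e1, tm_mul_right D ht0 n1 n11, tm_mul_right D ht0 ht0 n10, tm_mul_right D ht0 n9 n8,
    tm_mul_right D ht0 n1 n2, tm_mul_right D ht0 n3 n7, tm_mul_right D ht0 n3 n6,
    tm_mul_right D ht0 n5 n4, tm_mul_right D ht0 hx (mul_ne_zero hx hx),
    tm_mul_right D ht0 hx hx, tm_self D ht0]
  have c1 := tm_const_right D iK ik hc (c := -1) (by simp) t
  have c2 := stein' D iK ik hc (c := -1) (by simp) ht0 one_ne_zero n2
  have c3 := stein' D iK ik hc (c := -2) (by simp) ht0 one_ne_zero n3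
  have c4 := stein' D iK ik hc (c := 1) one_ne_zero ht0 (div_ne_zero hy hx) n4
  have c5 : Cu (tm D t x * (tm D t x * tm D t x)) := ⟨tm D t x, by ring⟩
  exact c1.mul (Cu.one.mul ((c1.mul c2).mul (c3.mul (c3.mul (c5.mul c4)))))

theorem w_neg (D : DVal K κ) {a : K} (ha : a ≠ 0) : D.w (-a) = D.w a := by
  have h := D.w_mul (-1) (-1) (by simp) (by simp)
  rw [neg_mul_neg, mul_one, w_one] at h
  have h2 := D.w_mul (-1) a (by simp) ha
  rw [neg_one_mul] at h2
  omega

theorem lc_neg (D : DVal K κ) (iK : C →+* K) (ik : C →+* κ)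
    (hc : ∀ c : C, c ≠ 0 → D.w (iK c) = 0 ∧ D.lc (iK c) = ik c) {a : K} (ha : a ≠ 0) :
    D.lc (-a) = -D.lc a := by
  have h := (hc (-1) (by simp)).2
  rw [map_neg, map_one, map_neg, map_one] at h
  have h2 := D.lc_mul (-1) a (by simp) ha
  rw [neg_one_mul, h, neg_one_mul] at h2
  exact h2

theorem three (D : DVal K κ) (iK : C →+* K) (ik : C →+* κ)
    (hc : ∀ c : C, c ≠ 0 → D.w (iK c) = 0 ∧ D.lc (iK c) = ik c) {a b c : K} (ha : a ≠ 0)
    (hb : b ≠ 0) (hc0 : c ≠ 0) (h : a + b + c = 0) :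
    (D.w a = D.w b ∧ D.lc a + D.lc b = 0) ∨ (D.w a = D.w c ∧ D.lc a + D.lc c = 0) ∨
      (D.w b = D.w c ∧ D.lc b + D.lc c = 0) ∨ (D.w a = D.w b ∧ D.w b = D.w c) := by
  have hab : a + b = -c := by linear_combination h
  rcases lt_trichotomy (D.w a) (D.w b) with h1 | h1 | h1
  · obtain ⟨_, hw, hl⟩ := D.add_lt a b ha hb h1
    rw [hab, w_neg D hc0] at hw
    rw [hab, lc_neg D iK ik hc hc0] at hl
    right; left
    exact ⟨hw.symm, by rw [← hl]; ring⟩
  · by_cases hl : D.lc a + D.lc b = 0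
    · left; exact ⟨h1, hl⟩
    · obtain ⟨_, hw, _⟩ := D.add_eq a b ha hb h1 hl
      rw [hab, w_neg D hc0] at hw
      right; right; right
      exact ⟨h1, by rw [hw, h1]⟩
  · obtain ⟨_, hw, hl⟩ := D.add_lt b a hb ha h1
    rw [add_comm b a, hab, w_neg D hc0] at hw
    rw [add_comm b a, hab, lc_neg D iK ik hc hc0] at hl
    right; right; left
    exact ⟨hw.symm, by rw [← hl]; ring⟩

theorem rel (D : DVal K κ) (t : K) {a b : K} {v : κ} (hw : D.w a = D.w b)
    (hv : Cu v) (hl : D.lc a = v * D.lc b) :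
    ∃ r, Cu r ∧ tm D t a = r * tm D t b := by
  refine ⟨v ^ (-(D.w t)), hv.zpow _, ?_⟩
  unfold tm
  rw [hw, hl, mul_zpow]
  ring

end J4072

open J4072 in
theorem tame_cube {C K κ : Type*} [Field C] [IsAlgClosed C] [CharZero C] [Field K] [Field κ]
    (D : DVal K κ) (iK : C →+* K) (ik : C →+* κ)
    (hc : ∀ c : C, c ≠ 0 → D.w (iK c) = 0 ∧ D.lc (iK c) = ik c) (ω : C)
    (hω : IsPrimitiveRoot ω 3) (t x y z : K) (ht : ∀ c, t ≠ iK c) (hx : x ≠ 0) (hy : y ≠ 0)
    (hz0 : z + 1 ≠ 0) (hz1 : z + iK ω ≠ 0) (hz2 : z + iK (ω ^ 2) ≠ 0)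
    (hxy : x ^ 3 + t * y ^ 3 ≠ 0)
    (hS : z ^ 3 + 1 = -(t * (t - 1) * (1 - 2 * t) ^ 2 * (x ^ 3 + t * y ^ 3))) :
    ∃ c : κ, D.lc t ^ (D.w ((z + iK ω) / (z + iK (ω ^ 2)))) *
      D.lc ((z + iK ω) / (z + iK (ω ^ 2))) ^ (-(D.w t)) = c ^ 3 := by
  obtain ⟨hcl, ht0, ht1, ht2⟩ := claim1 D iK ik hc t x y ht hx hy hxy
  rw [← hS] at hcl
  have hω0 : ω ≠ 0 := hω.ne_zero (by norm_num)
  have hω3 : ω ^ 3 = 1 := hω.pow_eq_one
  have hω2 : 1 + ω + ω ^ 2 = 0 := by
    have h1 : ω ≠ 1 := hω.ne_one (by norm_num)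
    have h2 : (ω - 1) * (1 + ω + ω ^ 2) = 0 := by linear_combination hω3
    rcases mul_eq_zero.1 h2 with h | h
    · exact absurd (sub_eq_zero.1 h) h1
    · exact h
  set o : K := iK ω with ho
  have ho3 : o ^ 3 = 1 := by rw [ho, ← map_pow, hω3, map_one]
  have ho2 : 1 + o + o ^ 2 = 0 := by
    rw [ho, ← map_pow, ← map_one iK, ← map_add, ← map_add, hω2, map_zero]
  have ho0 : o ≠ 0 := by rw [ho, map_ne_zero]; exact hω0
  have hoo : iK (ω ^ 2) = o ^ 2 := by rw [map_pow]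
  have hK0 : iK (ω ^ 2) ≠ 0 := by rw [map_ne_zero]; exact pow_ne_zero _ hω0
  set f := (z + o) / (z + iK (ω ^ 2)) with hf
  have hf0 : f ≠ 0 := div_ne_zero hz1 hz2
  have hgoal : Cu (tm D t f) := by
    have hprod : z ^ 3 + 1 = (z + 1) * ((z + o) * (z + iK (ω ^ 2))) := by
      rw [hoo]
      linear_combination (-z - 1) * ho3 - (z ^ 2 + z) * ho2
    have hf1 : z + o = f * (z + iK (ω ^ 2)) := by rw [hf]; field_simp
    rw [hprod, tm_mul_right D ht0 hz0 (mul_ne_zero hz1 hz2), tm_mul_right D ht0 hz1 hz2] at hcl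
    have hf2 : tm D t (z + o) = tm D t f * tm D t (z + iK (ω ^ 2)) := by
      rw [← tm_mul_right D ht0 hf0 hz2, ← hf1]
    have m0 := tm_ne D ht0 hz0
    have m1 := tm_ne D ht0 hz1
    have m2 := tm_ne D ht0 hz2
    have mf := tm_ne D ht0 hf0
    have hsum : (z + 1) + o * (z + o) + iK (ω ^ 2) * (z + iK (ω ^ 2)) = 0 := by
      rw [hoo]
      linear_combination z * ho2 + o * ho3 + ho2
    obtain ⟨wo, lo⟩ := hc ω hω0
    obtain ⟨wo2, lo2⟩ := hc (ω ^ 2) (pow_ne_zero _ hω0)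
    rw [← ho] at wo lo
    have ik0 : ik ω ≠ 0 := by rw [map_ne_zero]; exact hω0
    have w1 : D.w (o * (z + o)) = D.w (z + o) := by rw [D.w_mul _ _ ho0 hz1, wo, zero_add]
    have w2 : D.w (iK (ω ^ 2) * (z + iK (ω ^ 2))) = D.w (z + iK (ω ^ 2)) := by
      rw [D.w_mul _ _ hK0 hz2, wo2, zero_add]
    have l1 : D.lc (o * (z + o)) = ik ω * D.lc (z + o) := by rw [D.lc_mul _ _ ho0 hz1, lo]
    have l2 : D.lc (iK (ω ^ 2) * (z + iK (ω ^ 2))) = ik (ω ^ 2) * D.lc (z + iK (ω ^ 2)) := by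
      rw [D.lc_mul _ _ hK0 hz2, lo2]
    have ik3 : ik ω ^ 3 = 1 := by rw [← map_pow, hω3, map_one]
    rcases three D iK ik hc hz0 (mul_ne_zero ho0 hz1) (mul_ne_zero hK0 hz2) hsum with
      h | h | h | h
    · -- w M0 = w M1
      rw [w1, l1] at h
      obtain ⟨r, hr, hr2⟩ := rel D t (a := z + 1) (b := z + o) (v := -ik ω) h.1
        (by rw [← map_neg]; exact Cu.const ik _) (by linear_combination h.2)
      rw [hr2] at hcl
      -- r * m1 * (m1 * m2) cube; goal: mf cube with m1 = mf * m2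
      have h5 : r * tm D t (z + o) * (tm D t (z + o) * tm D t (z + iK (ω ^ 2))) * tm D t f =
          r * tm D t (z + o) ^ 3 := by
        rw [hf2]; ring
      have h6 : Cu (r * tm D t (z + o) * (tm D t (z + o) * tm D t (z + iK (ω ^ 2))) *
          tm D t f) := by
        rw [h5]; exact hr.mul (Cu.pow3 _)
      refine h6.cancel hcl ?_
      rw [← hr2]
      exact mul_ne_zero m0 (mul_ne_zero m1 m2)
    · rw [w2, l2] at h
      obtain ⟨r, hr, hr2⟩ := rel D t (a := z + 1) (b := z + iK (ω ^ 2)) (v := -ik (ω ^ 2)) h.1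
        (by rw [← map_neg]; exact Cu.const ik _) (by linear_combination h.2)
      have hr0 : r ≠ 0 := by
        rintro rfl
        rw [zero_mul] at hr2
        exact m0 hr2
      rw [hr2, hf2] at hcl
      have h5 : r * tm D t (z + iK (ω ^ 2)) * (tm D t f * tm D t (z + iK (ω ^ 2)) *
          tm D t (z + iK (ω ^ 2))) = (r * tm D t (z + iK (ω ^ 2)) ^ 3) * tm D t f := by ring
      rw [h5] at hcl
      exact hcl.cancel (hr.mul (Cu.pow3 _)) (mul_ne_zero hr0 (pow_ne_zero _ m2))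
    · rw [w1, w2, l1, l2] at h
      obtain ⟨r, hr, hr2⟩ := rel D t (a := z + o) (b := z + iK (ω ^ 2)) (v := -ik ω) h.1
        (by rw [← map_neg]; exact Cu.const ik _) (by
          have h7 := h.2
          rw [map_pow] at h7
          apply mul_left_cancel₀ ik0
          linear_combination h7)
      rw [hf2] at hr2
      have := mul_right_cancel₀ m2 hr2
      rw [this]
      exact hr
    · rw [w1, w2] at h
      have hwf : D.w f = 0 := by
        have h8 := D.w_mul f (z + iK (ω ^ 2)) hf0 hz2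
        rw [← hf1] at h8
        omega
      -- 3 ∣ n
      have h3 : (3 : ℤ) ∣ D.w t := by
        by_contra h3
        have hwN : D.w (z ^ 3 + 1) = 3 * D.w (z + o) := by
          rw [hprod, D.w_mul _ _ hz0 (mul_ne_zero hz1 hz2), D.w_mul _ _ hz1 hz2]
          omega
        have hy3 : t * y ^ 3 ≠ 0 := mul_ne_zero ht0 (pow_ne_zero _ hy)
        have hx3 : x ^ 3 ≠ 0 := pow_ne_zero _ hx
        have wx : D.w (x ^ 3) = 3 * D.w x := by
          have : x ^ 3 = x * (x * x) := by ring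
          rw [this, D.w_mul _ _ hx (mul_ne_zero hx hx), D.w_mul _ _ hx hx]; ring
        have wy : D.w (t * y ^ 3) = D.w t + 3 * D.w y := by
          have : t * y ^ 3 = t * (y * (y * y)) := by ring
          rw [this, D.w_mul _ _ ht0 (mul_ne_zero hy (mul_ne_zero hy hy)),
            D.w_mul _ _ hy (mul_ne_zero hy hy), D.w_mul _ _ hy hy]; ring
        have wS : D.w (x ^ 3 + t * y ^ 3) = 3 * D.w x ∨
            D.w (x ^ 3 + t * y ^ 3) = D.w t + 3 * D.w y := by
          rcases lt_trichotomy (D.w (x ^ 3)) (D.w (t * y ^ 3)) with h9 | h9 | h9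
          · left; rw [(D.add_lt _ _ hx3 hy3 h9).2.1, wx]
          · exfalso; rw [wx, wy] at h9; apply h3; exact ⟨D.w x - D.w y, by linarith⟩
          · right; rw [add_comm, (D.add_lt _ _ hy3 hx3 h9).2.1, wy]
        have n0 : D.w t ≠ 0 := by
          intro h10; apply h3; rw [h10]; exact dvd_zero 3
        obtain ⟨wm1, _⟩ := hc (-1) (by simp)
        rw [map_neg, map_one] at wm1
        obtain ⟨wm2, _⟩ := hc (-2) (by simp)
        rw [map_neg, map_ofNat] at wm2
        have h2K : (-2 : K) ≠ 0 := by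
          have h : iK (-2 : C) ≠ 0 := by rw [map_ne_zero]; simp
          rwa [map_neg, map_ofNat] at h
        have w2t : D.w (-2 * t) = D.w t := by rw [D.w_mul _ _ h2K ht0, wm2, zero_add]
        have wal : D.w (t * (t - 1) * (1 - 2 * t) ^ 2) = D.w t ∨
            D.w (t * (t - 1) * (1 - 2 * t) ^ 2) = 4 * D.w t := by
          have hexp : D.w (t * (t - 1) * (1 - 2 * t) ^ 2) =
              D.w t + D.w (t - 1) + 2 * D.w (1 - 2 * t) := by
            rw [pow_two, D.w_mul _ _ (mul_ne_zero ht0 ht1) (mul_ne_zero ht2 ht2),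
              D.w_mul _ _ ht0 ht1, D.w_mul _ _ ht2 ht2]; ring
          rw [hexp]
          rcases lt_or_gt_of_ne n0 with h11 | h11
          · right
            have h12 : D.w (t - 1) = D.w t := by
              have := (D.add_lt t (-1) ht0 (by simp) (by rw [wm1]; exact h11)).2.1
              rw [sub_eq_add_neg, this]
            have h13 : D.w (1 - 2 * t) = D.w t := by
              have := (D.add_lt (-2 * t) 1 (mul_ne_zero h2K ht0) one_ne_zero
                (by rw [w2t, w_one]; exact h11)).2.1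
              have h14 : (1 : K) - 2 * t = -2 * t + 1 := by ring
              rw [h14, this, w2t]
            rw [h12, h13]; ring
          · left
            have h12 : D.w (t - 1) = 0 := by
              have := (D.add_lt (-1) t (by simp) ht0 (by rw [wm1]; exact h11)).2.1
              have h14 : t - 1 = -1 + t := by ring
              rw [h14, this, wm1]
            have h13 : D.w (1 - 2 * t) = 0 := by
              have := (D.add_lt 1 (-2 * t) one_ne_zero (mul_ne_zero h2K ht0)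
                (by rw [w2t, w_one]; exact h11)).2.1
              have h14 : (1 : K) - 2 * t = 1 + -2 * t := by ring
              rw [h14, this, w_one]
            rw [h12, h13]; ring
        have hal0 : t * (t - 1) * (1 - 2 * t) ^ 2 ≠ 0 :=
          mul_ne_zero (mul_ne_zero ht0 ht1) (pow_ne_zero _ ht2)
        rw [hS, w_neg D (mul_ne_zero hal0 hxy), D.w_mul _ _ hal0 hxy] at hwN
        omega
      obtain ⟨k, hk⟩ := h3
      unfold tm
      rw [hwf, zpow_zero, one_mul, hk]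
      refine ⟨D.lc f ^ (-k), ?_⟩
      rw [← zpow_natCast, ← zpow_mul]
      congr 1
      push_cast
      ring
  exact hgoal

end Pool.Agent.Helper346.Bra
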