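import Pool.Agent.Helper346.Bra.Defs

set_option autoImplicit false

open scoped TensorProduct

namespace Pool.Agent.Helper346.Bra



section coords

variable {A A' : Type*} [CommRing A] [CommRing A']

theorem zz_pow (Q : A) : zz Q ^ 3 + cc Q Q = 0 := by
  have h : AdjoinRoot.mk (Polynomial.X ^ 3 + Polynomial.C Q : Polynomial A)
      (Polynomial.X ^ 3 + Polynomial.C Q) = 0 := AdjoinRoot.mk_self
  rw [map_add, map_pow] at h
  exact h

/-- coordinates -/
noncomputable def EE (Q : A) (a : Fin 3 → A) : CR Q :=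
  cc Q (a 0) + cc Q (a 1) * zz Q + cc Q (a 2) * zz Q ^ 2

theorem EE_eq (Q : A) (a : Fin 3 → A) : EE Q a =
    AdjoinRoot.mk (Polynomial.X ^ 3 + Polynomial.C Q : Polynomial A)
      (Polynomial.C (a 0) + Polynomial.C (a 1) * Polynomial.X +
        Polynomial.C (a 2) * Polynomial.X ^ 2) := by
  rw [map_add, map_add, map_mul, map_mul, map_pow]
  rfl

theorem CR_monic (Q : A) : (Polynomial.X ^ 3 + Polynomial.C Q : Polynomial A).Monic :=
  Polynomial.monic_X_pow_add_C Q (by norm_num)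

theorem EE_surj [Nontrivial A] (Q : A) (b : CR Q) : ∃ a, EE Q a = b := by
  obtain ⟨p, rfl⟩ := AdjoinRoot.mk_surjective b
  set f : Polynomial A := Polynomial.X ^ 3 + Polynomial.C Q with hf
  have hm : f.Monic := CR_monic Q
  set r := p %ₘ f with hr
  have hdeg : r.degree < 3 := by
    have h1 := Polynomial.degree_modByMonic_lt p hm
    have h2 : f.degree = 3 := Polynomial.degree_X_pow_add_C (by norm_num) Q
    rw [h2] at h1
    exact h1
  have hmk : AdjoinRoot.mk f p = AdjoinRoot.mk f r := by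
    rw [AdjoinRoot.mk_eq_mk]
    refine ⟨p /ₘ f, ?_⟩
    have := Polynomial.modByMonic_add_div p f
    rw [← hr] at this
    linear_combination -this
  have hr3 : r = Polynomial.C (r.coeff 0) + Polynomial.C (r.coeff 1) * Polynomial.X +
      Polynomial.C (r.coeff 2) * Polynomial.X ^ 2 := by
    have h1 : r.natDegree < 3 := by
      rcases eq_or_ne r 0 with h0 | h0
      · rw [h0]; simp
      · rw [Polynomial.degree_eq_natDegree h0] at hdeg
        exact_mod_cast hdeg
    conv_lhs => rw [Polynomial.as_sum_range' r 3 h1]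
    simp only [Finset.sum_range_succ, Finset.sum_range_zero, ← Polynomial.C_mul_X_pow_eq_monomial]
    ring
  refine ⟨fun i => r.coeff i, ?_⟩
  rw [EE_eq, hmk]
  congr 1
  exact hr3.symm

theorem EE_inj [Nontrivial A] (Q : A) {a : Fin 3 → A} (h : EE Q a = 0) (i : Fin 3) : a i = 0 := by
  rw [EE_eq, AdjoinRoot.mk_eq_zero] at h
  set g : Polynomial A := Polynomial.C (a 0) + Polynomial.C (a 1) * Polynomial.X +
        Polynomial.C (a 2) * Polynomial.X ^ 2 with hg
  have hg0 : g = 0 := by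
    by_contra hne
    refine (CR_monic Q).not_dvd_of_degree_lt hne ?_ h
    rw [Polynomial.degree_X_pow_add_C (by norm_num) Q]
    refine lt_of_le_of_lt (b := 2) ?_ (by norm_num)
    rw [hg]
    refine (Polynomial.degree_add_le _ _).trans (max_le ((Polynomial.degree_add_le _ _).trans
      (max_le ?_ ?_)) ?_)
    · exact Polynomial.degree_C_le.trans (by norm_num)
    · exact (Polynomial.degree_C_mul_X_le _).trans (by norm_num)
    · exact Polynomial.degree_C_mul_X_pow_le 2 _
  have hc : ∀ n, g.coeff n = 0 := by intro n; rw [hg0, Polynomial.coeff_zero]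
  fin_cases i
  · have := hc 0
    simpa [hg] using this
  · have := hc 1
    simpa [hg, Polynomial.coeff_X, Polynomial.coeff_C, Polynomial.coeff_X_pow] using this
  · have := hc 2
    simpa [hg, Polynomial.coeff_X, Polynomial.coeff_C, Polynomial.coeff_X_pow] using this

/-- functoriality -/
noncomputable def CRmap (φ : A →+* A') (Q : A) : CR Q →+* CR (φ Q) :=
  AdjoinRoot.lift ((cc (φ Q)).comp φ) (zz (φ Q)) (by
    simp only [Polynomial.eval₂_add, Polynomial.eval₂_X_pow, Polynomial.eval₂_C, RingHom.comp_apply]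
    exact zz_pow (φ Q))

theorem CRmap_cc (φ : A →+* A') (Q : A) (x : A) : CRmap φ Q (cc Q x) = cc (φ Q) (φ x) :=
  AdjoinRoot.lift_of _

theorem CRmap_zz (φ : A →+* A') (Q : A) : CRmap φ Q (zz Q) = zz (φ Q) :=
  AdjoinRoot.lift_root _

theorem CRmap_EE (φ : A →+* A') (Q : A) (a : Fin 3 → A) :
    CRmap φ Q (EE Q a) = EE (φ Q) (fun i => φ (a i)) := by
  unfold EE
  simp only [map_add, map_mul, map_pow, CRmap_cc, CRmap_zz]

theorem CRmap_inj [Nontrivial A] [Nontrivial A'] (φ : A →+* A') (hφ : Function.Injective φ) (Q : A) :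
    Function.Injective (CRmap φ Q) := by
  rw [injective_iff_map_eq_zero]
  intro x hx
  obtain ⟨a, rfl⟩ := EE_surj Q x
  rw [CRmap_EE] at hx
  have : a = 0 := by
    funext i
    have := EE_inj (φ Q) hx i
    exact hφ (by rw [Pi.zero_apply, map_zero]; exact this)
  rw [this]
  simp [EE]

end coords

theorem lift_mv {C : Type} [Field C] (V : ValuationSubring C) (q : MvPolynomial (Fin 3) C)
    (h : ∀ m, MvPolynomial.coeff m q ∈ V) :
    ∃ q' : MvPolynomial (Fin 3) V, MvPolynomial.map (algebraMap V C) q' = q := by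
  refine ⟨∑ m ∈ q.support, MvPolynomial.monomial m (⟨MvPolynomial.coeff m q, h m⟩ : V), ?_⟩
  rw [map_sum]
  simp only [MvPolynomial.map_monomial]
  exact MvPolynomial.support_sum_monomial_coeff q

theorem aniso_specialize {C : Type} [Field C] (V : ValuationSubring C)
    (Q T : MvPolynomial (Fin 3) V) (ω1 ω2 : V)
    (h : Aniso (CR (MvPolynomial.map (IsLocalRing.residue V) Q))
      (cc _ (MvPolynomial.map (IsLocalRing.residue V) T))
      (zz _ + cc _ (MvPolynomial.C (IsLocalRing.residue V ω1)))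
      (zz _ + cc _ (MvPolynomial.C (IsLocalRing.residue V ω2)))) :
    Aniso (CR (MvPolynomial.map (algebraMap V C) Q))
      (cc _ (MvPolynomial.map (algebraMap V C) T))
      (zz _ + cc _ (MvPolynomial.C (ω1 : C))) (zz _ + cc _ (MvPolynomial.C (ω2 : C))) := by
  classical
  set φ : MvPolynomial (Fin 3) V →+* MvPolynomial (Fin 3) C := MvPolynomial.map (algebraMap V C) with hφ
  set ψ : MvPolynomial (Fin 3) V →+* MvPolynomial (Fin 3) (IsLocalRing.ResidueField V) :=
    MvPolynomial.map (IsLocalRing.residue V) with hψ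
  intro d g0 g1 g2 heq
  by_contra hcon
  have hφinj : Function.Injective φ :=
    MvPolynomial.map_injective _ (FaithfulSMul.algebraMap_injective V C)
  obtain ⟨ad, had⟩ := EE_surj (φ Q) d
  obtain ⟨a0, ha0⟩ := EE_surj (φ Q) g0
  obtain ⟨a1, ha1⟩ := EE_surj (φ Q) g1
  obtain ⟨a2, ha2⟩ := EE_surj (φ Q) g2
  set a : Fin 4 → Fin 3 → MvPolynomial (Fin 3) C := ![ad, a0, a1, a2] with ha
  have hex : ∃ i j m, MvPolynomial.coeff m (a i j) ≠ 0 := by
    by_contra hno
    push Not at hno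
    have hz : ∀ i, a i = 0 := by
      intro i; funext j; ext m; rw [hno i j m]; simp
    have hE : EE (φ Q) (0 : Fin 3 → MvPolynomial (Fin 3) C) = 0 := by simp [EE]
    apply hcon
    refine ⟨?_, ?_, ?_, ?_⟩
    · rw [← had, show ad = 0 from hz 0, hE]
    · rw [← ha0, show a0 = 0 from hz 1, hE]
    · rw [← ha1, show a1 = 0 from hz 2, hE]
    · rw [← ha2, show a2 = 0 from hz 3, hE]
  obtain ⟨i₁, j₁, m₁, hne⟩ := hex
  set supp : Finset (Fin 3 →₀ ℕ) := Finset.univ.biUnion fun i : Fin 4 =>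
    Finset.univ.biUnion fun j : Fin 3 => (a i j).support with hsupp
  have hmem : ∀ i j m, MvPolynomial.coeff m (a i j) ≠ 0 → m ∈ supp := by
    intro i j m hm
    rw [hsupp]
    simp only [Finset.mem_biUnion, Finset.mem_univ, true_and]
    exact ⟨i, j, MvPolynomial.mem_support_iff.2 hm⟩
  obtain ⟨⟨i₀, j₀, m₀⟩, -, hmax⟩ := Finset.exists_max_image
    ((Finset.univ : Finset (Fin 4)) ×ˢ ((Finset.univ : Finset (Fin 3)) ×ˢ supp))
    (fun x => V.valuation (MvPolynomial.coeff x.2.2 (a x.1 x.2.1)))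
    ⟨(i₁, j₁, m₁), by simp [hmem i₁ j₁ m₁ hne]⟩
  set c₀ : C := MvPolynomial.coeff m₀ (a i₀ j₀) with hc₀
  have hmax' : ∀ i j m, V.valuation (MvPolynomial.coeff m (a i j)) ≤ V.valuation c₀ := by
    intro i j m
    by_cases hm : MvPolynomial.coeff m (a i j) = 0
    · rw [hm, map_zero]; exact zero_le
    · exact hmax (i, j, m) (by simp [hmem i j m hm])
  have hc₀ne : c₀ ≠ 0 := by
    intro h0
    have := hmax' i₁ j₁ m₁
    rw [h0, map_zero, le_zero_iff] at this
    exact hne ((Valuation.zero_iff _).1 this)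
  have hV : ∀ i j m, MvPolynomial.coeff m (MvPolynomial.C c₀⁻¹ * a i j) ∈ V := by
    intro i j m
    rw [MvPolynomial.coeff_C_mul, ← ValuationSubring.valuation_le_one_iff, map_mul, map_inv₀]
    have h0 : V.valuation c₀ ≠ 0 := (Valuation.ne_zero_iff _).2 hc₀ne
    calc (V.valuation c₀)⁻¹ * V.valuation (MvPolynomial.coeff m (a i j))
        ≤ (V.valuation c₀)⁻¹ * V.valuation c₀ := by gcongr; exact hmax' i j m
      _ = 1 := inv_mul_cancel₀ h0
  have hlift : ∀ i j, ∃ q' : MvPolynomial (Fin 3) V, φ q' = MvPolynomial.C c₀⁻¹ * a i j :=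
    fun i j => lift_mv V _ (hV i j)
  choose b hb using hlift
  have hbE : ∀ i, CRmap φ Q (EE Q (b i)) = cc (φ Q) (MvPolynomial.C c₀⁻¹) * EE (φ Q) (a i) := by
    intro i
    rw [CRmap_EE]
    unfold EE
    simp only [hb, map_mul]
    ring
  -- the equation over V
  have heqV : (zz Q + cc Q (MvPolynomial.C ω1)) * (EE Q (b 0)) ^ 3 =
      (zz Q + cc Q (MvPolynomial.C ω2)) * ((EE Q (b 1)) ^ 3 + cc Q T * (EE Q (b 2)) ^ 3 +
        cc Q T ^ 2 * (EE Q (b 3)) ^ 3 - 3 * cc Q T * (EE Q (b 1)) * (EE Q (b 2)) * (EE Q (b 3))) := by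
    apply CRmap_inj φ hφinj Q
    have hω1 : φ (MvPolynomial.C ω1) = MvPolynomial.C (ω1 : C) := by rw [hφ, MvPolynomial.map_C]; rfl
    have hω2 : φ (MvPolynomial.C ω2) = MvPolynomial.C (ω2 : C) := by rw [hφ, MvPolynomial.map_C]; rfl
    have e0 : EE (φ Q) (a 0) = d := had
    have e1 : EE (φ Q) (a 1) = g0 := ha0
    have e2 : EE (φ Q) (a 2) = g1 := ha1
    have e3 : EE (φ Q) (a 3) = g2 := ha2
    simp only [map_mul, map_add, map_sub, map_pow, CRmap_cc, CRmap_zz, hbE, hω1, hω2, e0, e1, e2, e3,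
      map_ofNat]
    linear_combination (cc (φ Q) (MvPolynomial.C c₀⁻¹)) ^ 3 * heq
  have heqκ := congrArg (CRmap ψ Q) heqV
  have hω1 : ψ (MvPolynomial.C ω1) = MvPolynomial.C (IsLocalRing.residue V ω1) := by
    rw [hψ, MvPolynomial.map_C]
  have hω2 : ψ (MvPolynomial.C ω2) = MvPolynomial.C (IsLocalRing.residue V ω2) := by
    rw [hψ, MvPolynomial.map_C]
  simp only [map_mul, map_add, map_sub, map_pow, CRmap_cc, CRmap_zz, CRmap_EE, hω1, hω2,
    map_ofNat] at heqκ
  obtain ⟨z0, z1, z2, z3⟩ := h _ _ _ _ heqκ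
  have hall : ∀ i j, ψ (b i j) = 0 := by
    intro i j
    fin_cases i
    · exact EE_inj (ψ Q) z0 j
    · exact EE_inj (ψ Q) z1 j
    · exact EE_inj (ψ Q) z2 j
    · exact EE_inj (ψ Q) z3 j
  have h1 := congrArg (MvPolynomial.coeff m₀) (hb i₀ j₀)
  rw [MvPolynomial.coeff_C_mul, ← hc₀, inv_mul_cancel₀ hc₀ne, hφ, MvPolynomial.coeff_map] at h1
  have h2 : MvPolynomial.coeff m₀ (b i₀ j₀) = 1 := by
    apply FaithfulSMul.algebraMap_injective V C
    rw [h1, map_one]
  have h3 := congrArg (MvPolynomial.coeff m₀) (hall i₀ j₀)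
  rw [hψ, MvPolynomial.coeff_map, h2, map_one, MvPolynomial.coeff_zero] at h3
  exact one_ne_zero h3

end Pool.Agent.Helper346.Bra
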