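import Pool.Agent.Helper346.Bra.Defs

set_option autoImplicit false

open scoped TensorProduct

namespace Pool.Agent.Helper346.Bra



theorem exists_val (C : Type) [Field C] [CharZero C] :
    ∃ V : ValuationSubring C, IsLocalRing.residue V 2 = 0 := by
  let A : Subring C := (Int.castRingHom C).range
  have h2 : (2 : C) ∈ A := ⟨2, by simp⟩
  let two : A := ⟨2, h2⟩
  have hI : Ideal.span {two} ≠ ⊤ := by
    intro h
    rw [Ideal.eq_top_iff_one, Ideal.mem_span_singleton] at h
    obtain ⟨⟨a, n, hn⟩, ha⟩ := h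
    have h1 : (1 : C) = 2 * a := congrArg Subtype.val ha
    have h3 : ((1 : ℤ) : C) = ((2 * n : ℤ) : C) := by
      push_cast
      rw [h1, ← hn]
      simp
    have h4 : (1 : ℤ) = 2 * n := Int.cast_injective h3
    omega
  obtain ⟨V, _, hV⟩ := Ideal.image_subset_nonunits_valuationSubring (Ideal.span {two}) hI
  refine ⟨V, ?_⟩
  rw [IsLocalRing.residue_eq_zero_iff]
  have h5 : (2 : C) ∈ (V.nonunits : Set C) := hV ⟨two, Ideal.subset_span rfl, rfl⟩
  rw [← V.image_maximalIdeal] at h5
  obtain ⟨r, hr, hr2⟩ := h5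
  have h6 : r = 2 := Subtype.ext hr2
  rwa [← h6]

end Pool.Agent.Helper346.Bra
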