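import Pool.Agent.Helper346.Bra.Defs

set_option autoImplicit false

open scoped TensorProduct

namespace Pool.Agent.Helper346.Bra



theorem cr_domain {A : Type*} [CommRing A] [IsDomain A] [IsIntegrallyClosed A] (Q : A)
    (h : ∀ c : A, c ^ 3 ≠ -Q) : IsDomain (CR Q) := by
  have hm : (Polynomial.X ^ 3 + Polynomial.C Q : Polynomial A).Monic :=
    Polynomial.monic_X_pow_add_C Q (by norm_num)
  have hd : (Polynomial.X ^ 3 + Polynomial.C Q : Polynomial A).natDegree = 3 :=
    Polynomial.natDegree_X_pow_add_C
  set f : Polynomial A := Polynomial.X ^ 3 + Polynomial.C Q with hf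
  let K := FractionRing A
  have hinj : Function.Injective (algebraMap A K) := IsFractionRing.injective A K
  have hirr : Irreducible (f.map (algebraMap A K)) := by
    apply Polynomial.irreducible_of_degree_le_three_of_not_isRoot
    · rw [hm.natDegree_map, hd]; simp
    · intro r hr
      have h1 : r ^ 3 = algebraMap A K (-Q) := by
        have h2 : r ^ 3 + algebraMap A K Q = 0 := by
          have := hr
          simpa [hf, Polynomial.IsRoot.def] using this
        rw [map_neg]
        exact eq_neg_of_add_eq_zero_left h2
      have h3 : IsIntegral A (r ^ 3) := by rw [h1]; exact isIntegral_algebraMap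
      obtain ⟨y, hy⟩ := IsIntegrallyClosed.exists_algebraMap_eq_of_isIntegral_pow (by norm_num : 0 < 3) h3
      apply h y
      apply hinj
      rw [map_pow, hy, h1]
  have hprime : Prime (f.map (algebraMap A K)) := hirr.prime
  have hp : Prime f := by
    refine ⟨hm.ne_zero, ?_, ?_⟩
    · intro hu
      apply hirr.not_isUnit
      exact hu.map (Polynomial.mapRingHom (algebraMap A K))
    · intro a b hab
      have h1 : f.map (algebraMap A K) ∣ a.map (algebraMap A K) * b.map (algebraMap A K) := by
        rw [← Polynomial.map_mul]
        exact Polynomial.map_dvd _ hab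
      rcases hprime.2.2 _ _ h1 with h2 | h2
      · left; exact (Polynomial.map_dvd_map _ hinj hm).1 h2
      · right; exact (Polynomial.map_dvd_map _ hinj hm).1 h2
  exact AdjoinRoot.isDomain_of_prime hp

theorem cube_coeff {B : Type*} [CommRing B] [IsDomain B] (c : Polynomial B) (a b : B)
    (h : c ^ 3 = Polynomial.C a * Polynomial.X ^ 3 + Polynomial.C b) : (c.coeff 1) ^ 3 = a := by
  have h1 : (c ^ 3).natDegree ≤ 3 := by
    rw [h]
    compute_degree
  rw [Polynomial.natDegree_pow] at h1
  have h2 : c.natDegree ≤ 1 := by omega
  have h3 := Polynomial.coeff_pow_of_natDegree_le (m := 3) h2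
  rw [h] at h3
  simpa using h3.symm

theorem noncubes (k : Type*) [Field k] :
    (CharZero k → ∀ c, c ^ 3 ≠ -Q1 k) ∧ (∀ c, c ^ 3 ≠ -Q2 k) ∧ (∀ c, c ^ 3 ≠ -Q3 k) := by
  refine ⟨?_, ?_, ?_⟩
  · intro _ c hc
    have h1 := congrArg (MvPolynomial.aeval (R := k)
      (![Polynomial.C Polynomial.X, Polynomial.X, 0] : Fin 3 → Polynomial (Polynomial k))) hc
    simp only [Q1, map_pow, map_neg, map_add, map_mul, map_sub, map_one, map_ofNat, MvPolynomial.aeval_X] at h1
    simp only [Matrix.cons_val_zero, Matrix.cons_val_one, Matrix.cons_val] at h1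
    have h2 := cube_coeff (B := Polynomial k) _ (-(Polynomial.X * (Polynomial.X - 1) * (1 - 2 * Polynomial.X) ^ 2)) (-1)
      (h1.trans (by
        simp only [map_neg, map_mul, map_sub, map_pow, map_one, map_ofNat]
        ring))
    have h3 := congrArg Polynomial.natDegree h2
    rw [Polynomial.natDegree_pow, Polynomial.natDegree_neg] at h3
    have h4 : (Polynomial.X * (Polynomial.X - 1) * (1 - 2 * Polynomial.X) ^ 2 : Polynomial k).natDegree = 4 := by
      have e : (Polynomial.X * (Polynomial.X - 1) * (1 - 2 * Polynomial.X) ^ 2 : Polynomial k) =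
        Polynomial.C 4 * Polynomial.X ^ 4 - Polynomial.C 8 * Polynomial.X ^ 3 + Polynomial.C 5 * Polynomial.X ^ 2 - Polynomial.X := by
        simp only [map_ofNat]
        ring
      rw [e]
      compute_degree!
    omega
  · intro c hc
    have h1 := congrArg (MvPolynomial.aeval (R := k)
      (![Polynomial.C Polynomial.X, Polynomial.X, 0] : Fin 3 → Polynomial (Polynomial k))) hc
    simp only [Q2, map_pow, map_neg, map_add, map_mul, map_sub, map_one, map_ofNat, MvPolynomial.aeval_X] at h1
    simp only [Matrix.cons_val_zero, Matrix.cons_val_one, Matrix.cons_val] at h1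
    have h2 := cube_coeff (B := Polynomial k) _ (-(Polynomial.X * (Polynomial.X - 1))) (-1)
      (h1.trans (by
        simp only [map_neg, map_mul, map_sub, map_pow, map_one, map_ofNat]
        ring))
    have h3 := congrArg Polynomial.natDegree h2
    rw [Polynomial.natDegree_pow, Polynomial.natDegree_neg] at h3
    have h4 : (Polynomial.X * (Polynomial.X - 1) : Polynomial k).natDegree = 2 := by
      have e : (Polynomial.X * (Polynomial.X - 1) : Polynomial k) = Polynomial.X ^ 2 - Polynomial.X := by ring
      rw [e]
      compute_degree!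
    omega
  · intro c hc
    have h1 := congrArg (MvPolynomial.aeval (R := k)
      (![Polynomial.C Polynomial.X, 0, Polynomial.X] : Fin 3 → Polynomial (Polynomial k))) hc
    simp only [Q3, map_pow, map_neg, map_add, map_mul, map_sub, map_one, map_ofNat, MvPolynomial.aeval_X] at h1
    simp only [Matrix.cons_val_zero, Matrix.cons_val_one, Matrix.cons_val] at h1
    have h2 := cube_coeff (B := Polynomial k) _ (-(1 - Polynomial.X)) (-1)
      (h1.trans (by
        simp only [map_neg, map_mul, map_sub, map_pow, map_one, map_ofNat]
        ring))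
    have h3 := congrArg Polynomial.natDegree h2
    rw [Polynomial.natDegree_pow, Polynomial.natDegree_neg] at h3
    have h4 : (1 - Polynomial.X : Polynomial k).natDegree = 1 := by
      compute_degree!
    omega

end Pool.Agent.Helper346.Bra
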