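import Pool.Agent.Helper346.Bra.Defs

set_option autoImplicit false

open scoped TensorProduct

namespace Pool.Agent.Helper346.Bra



section ferm

open Polynomial

variable {S : Type*} [CommRing S] [IsDomain S]

/-- the element `-(z³+1)` -/
noncomputable def fa (S : Type*) [CommRing S] : S[X] := -(X ^ 3 + 1)

theorem fm_mul (x : S) (p q : S[X]) (hp : p ≠ 0) (hq : q ≠ 0) :
    rootMultiplicity x (p * q) = rootMultiplicity x p + rootMultiplicity x q :=
  rootMultiplicity_mul (mul_ne_zero hp hq)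

theorem fm_pow3 (x : S) (p : S[X]) (hp : p ≠ 0) :
    rootMultiplicity x (p ^ 3) = 3 * rootMultiplicity x p := by
  have : p ^ 3 = p * (p * p) := by ring
  rw [this, fm_mul x p _ hp (mul_ne_zero hp hp), fm_mul x p p hp hp]
  ring

theorem fa_ne : fa S ≠ 0 := by
  intro h
  have h1 : (fa S).coeff 3 = 0 := by rw [h]; simp
  unfold fa at h1
  have h2 : ((X : S[X]) ^ 3 + 1).coeff 3 = 1 := by
    simp [coeff_X_pow, coeff_one]
  rw [coeff_neg, h2] at h1
  simp at h1

theorem fa_m1 (h3 : (3 : S) ≠ 0) : rootMultiplicity (-1) (fa S) = 1 := by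
  have h1 : fa S = (X - C (-1)) * (-(X ^ 2 - X + 1)) := by
    unfold fa
    simp only [map_neg, map_one]
    ring
  have h2 : (-(X ^ 2 - X + 1) : S[X]).eval (-1) ≠ 0 := by
    simp only [eval_neg, eval_add, eval_sub, eval_pow, eval_X, eval_one]
    intro h
    apply h3
    linear_combination -h
  have h4 : (-(X ^ 2 - X + 1) : S[X]) ≠ 0 := by
    intro h; rw [h] at h2; simp at h2
  rw [h1, fm_mul _ _ _ (X_sub_C_ne_zero _) h4, rootMultiplicity_X_sub_C_self,
    rootMultiplicity_eq_zero h2]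

theorem fa_mω (h3 : (3 : S) ≠ 0) (ω : S) (hω : ω ^ 2 + ω + 1 = 0) :
    rootMultiplicity (-ω) (fa S) = 1 := by
  have h1 : fa S = (X - C (-ω)) * (-((X + 1) * (X + C (ω ^ 2)))) := by
    unfold fa
    have e1 : (C ω : S[X]) ^ 2 + C ω + 1 = 0 := by
      rw [← map_pow, ← map_add, ← C_1, ← map_add, hω, C_0]
    simp only [map_neg, map_pow]
    linear_combination (X ^ 2 + C ω * X + C ω - 1) * e1
  have h2 : (-((X + 1) * (X + C (ω ^ 2))) : S[X]).eval (-ω) ≠ 0 := by
    simp only [eval_neg, eval_add, eval_mul, eval_X, eval_one, eval_C]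
    intro h
    apply h3
    have e3 : ω ^ 3 = 1 := by linear_combination (ω - 1) * hω
    have e4 : 3 * ω ^ 2 = 0 := by
      linear_combination -h + ω * hω
    have e5 : (3 : S) = 3 * ω ^ 3 := by rw [e3, mul_one]
    rw [e5, pow_succ, ← mul_assoc, e4, zero_mul]
  have h4 : (-((X + 1) * (X + C (ω ^ 2))) : S[X]) ≠ 0 := by
    intro h; rw [h] at h2; simp at h2
  rw [h1, fm_mul _ _ _ (X_sub_C_ne_zero _) h4, rootMultiplicity_X_sub_C_self,
    rootMultiplicity_eq_zero h2]

theorem f_noncube (h3 : (3 : S) ≠ 0) (u v : S[X]) (h : u ^ 3 = fa S * v ^ 3) : u = 0 ∧ v = 0 := by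
  by_cases hv : v = 0
  · subst hv
    refine ⟨?_, rfl⟩
    have : u ^ 3 = 0 := by rw [h]; ring
    exact pow_eq_zero_iff (by norm_num) |>.1 this
  · exfalso
    have hu : u ≠ 0 := by
      intro hu
      subst hu
      have : fa S * v ^ 3 = 0 := by rw [← h]; ring
      exact mul_ne_zero fa_ne (pow_ne_zero 3 hv) this
    have h1 := congrArg (rootMultiplicity (-1)) h
    rw [fm_mul _ _ _ fa_ne (pow_ne_zero 3 hv), fm_pow3 _ _ hu, fm_pow3 _ _ hv, fa_m1 h3] at h1
    omega

theorem f_key (h3 : (3 : S) ≠ 0) (ω : S) (hω : ω ^ 2 + ω + 1 = 0) (j : ℕ) (hj : j < 3)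
    (c N : S[X]) (h : (X + C ω) * (fa S ^ j * c ^ 3) = (X + C (ω ^ 2)) * N ^ 3) : N = 0 := by
  by_contra hN
  have e3 : ω ^ 3 = 1 := by linear_combination (ω - 1) * hω
  have hr : (X + C (ω ^ 2) : S[X]) ≠ 0 := X_add_C_ne_zero _
  have hl : (X + C ω : S[X]) ≠ 0 := X_add_C_ne_zero _
  have hR : (X + C (ω ^ 2)) * N ^ 3 ≠ 0 := mul_ne_zero hr (pow_ne_zero 3 hN)
  have hc : c ≠ 0 := by
    intro hc
    apply hR
    rw [← h, hc]
    ring
  have hfj : fa S ^ j ≠ 0 := pow_ne_zero _ fa_ne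
  have hc3 : c ^ 3 ≠ 0 := pow_ne_zero _ hc
  have hpow : ∀ x : S, rootMultiplicity x (fa S) = 1 → rootMultiplicity x (fa S ^ j) = j := by
    intro x hx
    clear h hfj hj
    induction j with
    | zero => simp [rootMultiplicity_eq_zero]
    | succ n ih => rw [pow_succ, fm_mul _ _ _ (pow_ne_zero _ fa_ne) fa_ne, ih, hx]
  have hω1 : ω - 1 ≠ 0 := by
    intro h1
    have : ω = 1 := sub_eq_zero.1 h1
    rw [this] at hω
    apply h3
    linear_combination hω
  have hω2 : ω ^ 2 - 1 ≠ 0 := by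
    intro h1
    apply hω1
    linear_combination -h1 * ω + e3
  have hω3 : ω ^ 2 - ω ≠ 0 := by
    intro h1
    apply hω2
    linear_combination (ω + 1) * (ω ^ 2 * h1 - (ω - 1) * e3)
  have A1 : rootMultiplicity (-1) (X + C ω : S[X]) = 0 := by
    apply rootMultiplicity_eq_zero
    simp only [IsRoot, eval_add, eval_X, eval_C]
    intro h1; apply hω1; linear_combination h1
  have A2 : rootMultiplicity (-1) (X + C (ω ^ 2) : S[X]) = 0 := by
    apply rootMultiplicity_eq_zero
    simp only [IsRoot, eval_add, eval_X, eval_C]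
    intro h1; apply hω2; linear_combination h1
  have A3 : rootMultiplicity (-ω) (X + C ω : S[X]) = 1 := by
    have : (X + C ω : S[X]) = X - C (-ω) := by simp
    rw [this, rootMultiplicity_X_sub_C_self]
  have A4 : rootMultiplicity (-ω) (X + C (ω ^ 2) : S[X]) = 0 := by
    apply rootMultiplicity_eq_zero
    simp only [IsRoot, eval_add, eval_X, eval_C]
    intro h1; apply hω3; linear_combination h1
  have h1 := congrArg (rootMultiplicity (-1)) h
  have h2 := congrArg (rootMultiplicity (-ω)) h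
  rw [fm_mul _ _ _ hl (mul_ne_zero hfj hc3), fm_mul _ _ _ hfj hc3, fm_mul _ _ _ hr (pow_ne_zero 3 hN),
    fm_pow3 _ _ hc, fm_pow3 _ _ hN] at h1 h2
  rw [A1, A2, hpow _ (fa_m1 h3)] at h1
  rw [A3, A4, hpow _ (fa_mω h3 ω hω)] at h2
  omega

/-- the swapped curve polynomial -/
noncomputable def fE (S : Type*) [CommRing S] : S[X][X] := X ^ 3 + C (X ^ 3 + 1)

theorem fE_monic : (fE S).Monic := by
  unfold fE
  exact monic_X_pow_add_C _ (by norm_num)

theorem fE_natDegree : (fE S).natDegree = 3 := by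
  unfold fE
  exact natDegree_X_pow_add_C

theorem fE_degree : (fE S).degree = 3 := by
  rw [degree_eq_natDegree (Monic.ne_zero fE_monic), fE_natDegree]
  rfl

theorem fE_irred (h3 : (3 : S) ≠ 0) : Irreducible (fE S) := by
  have hP : (Ideal.span {(X - C (-1) : S[X])}).IsPrime := by
    rw [Ideal.span_singleton_prime (X_sub_C_ne_zero _)]
    exact prime_X_sub_C _
  refine irreducible_of_eisenstein_criterion hP ?_ ?_ ?_ ?_ fE_monic.isPrimitive
  · rw [fE_monic.leadingCoeff]
    intro h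
    exact hP.ne_top ((Ideal.eq_top_iff_one _).2 h)
  · intro n hn
    rw [fE_degree] at hn
    have : n < 3 := by exact_mod_cast hn
    unfold fE
    rw [coeff_add, coeff_X_pow, coeff_C, if_neg (by omega), zero_add]
    split_ifs
    · rw [Ideal.mem_span_singleton]
      refine ⟨X ^ 2 - X + 1, ?_⟩
      simp only [map_neg, map_one]
      ring
    · exact Ideal.zero_mem _
  · rw [fE_degree]; norm_num
  · have h0 : (fE S).coeff 0 = X ^ 3 + 1 := by
      unfold fE
      rw [coeff_add, coeff_X_pow, coeff_C_zero, if_neg (by norm_num), zero_add]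
    rw [h0, Ideal.span_singleton_pow, Ideal.mem_span_singleton]
    rintro ⟨q, hq⟩
    have h1 : (X - C (-1)) * (X ^ 2 - X + 1) = (X - C (-1)) * ((X - C (-1)) * q) := by
      rw [← mul_assoc, ← pow_two, ← hq]
      simp only [map_neg, map_one]
      ring
    have h2 := mul_left_cancel₀ (X_sub_C_ne_zero _) h1
    have h4 := congrArg (eval (-1)) h2
    simp only [eval_add, eval_sub, eval_pow, eval_X, eval_one, eval_mul, eval_C] at h4
    apply h3
    linear_combination h4

theorem fE_dom [UniqueFactorizationMonoid S] (h3 : (3 : S) ≠ 0) : IsDomain (AdjoinRoot (fE S)) :=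
  AdjoinRoot.isDomain_of_prime (UniqueFactorizationMonoid.irreducible_iff_prime.1 (fE_irred h3))

/-- element with given coordinates -/
noncomputable def el3 (a b c : S[X]) : AdjoinRoot (fE S) :=
  AdjoinRoot.of (fE S) a + AdjoinRoot.of (fE S) b * AdjoinRoot.root (fE S) +
    AdjoinRoot.of (fE S) c * AdjoinRoot.root (fE S) ^ 2

theorem el3_surj (x : AdjoinRoot (fE S)) : ∃ a b c : S[X], x = el3 a b c := by
  obtain ⟨p, rfl⟩ := AdjoinRoot.mk_surjective x
  have h1 : AdjoinRoot.mk (fE S) p = AdjoinRoot.mk (fE S) (p %ₘ fE S) := by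
    rw [AdjoinRoot.mk_eq_mk]
    exact ⟨p /ₘ fE S, by
      rw [sub_eq_iff_eq_add, add_comm]; exact (modByMonic_add_div p (fE S)).symm⟩
  have h2 : (p %ₘ fE S).natDegree < 3 := by
    have := natDegree_modByMonic_lt p fE_monic (by
      intro h
      have := congrArg natDegree h
      rw [fE_natDegree, natDegree_one] at this
      omega)
    rwa [fE_natDegree] at this
  rw [h1]
  refine ⟨(p %ₘ fE S).coeff 0, (p %ₘ fE S).coeff 1, (p %ₘ fE S).coeff 2, ?_⟩
  conv_lhs => rw [as_sum_range' _ 3 h2]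
  simp only [Finset.sum_range_succ, Finset.sum_range_zero, zero_add, map_add, el3]
  simp only [← C_mul_X_pow_eq_monomial, map_mul, map_pow, AdjoinRoot.mk_C, AdjoinRoot.mk_X]
  ring

theorem el3_zero (a b c : S[X]) (h : el3 a b c = 0) : a = 0 ∧ b = 0 ∧ c = 0 := by
  have h1 : AdjoinRoot.mk (fE S) (C a + C b * X + C c * X ^ 2) = 0 := by
    rw [← h]
    simp only [map_add, map_mul, map_pow, AdjoinRoot.mk_C, AdjoinRoot.mk_X, el3]
  rw [AdjoinRoot.mk_eq_zero] at h1
  have h2 : (C a + C b * X + C c * X ^ 2 : S[X][X]) = 0 := by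
    refine eq_zero_of_dvd_of_degree_lt h1 ?_
    rw [fE_degree]
    have : (C a + C b * X + C c * X ^ 2 : S[X][X]) = C c * X ^ 2 + C b * X + C a := by ring
    rw [this]
    exact lt_of_le_of_lt degree_quadratic_le (by norm_num)
  refine ⟨?_, ?_, ?_⟩
  · have := congrArg (fun q => coeff q 0) h2
    simpa using this
  · have := congrArg (fun q => coeff q 1) h2
    simpa [coeff_X_pow, coeff_X, coeff_C] using this
  · have := congrArg (fun q => coeff q 2) h2
    simpa [coeff_X_pow, coeff_X, coeff_C] using this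

theorem root_cube : AdjoinRoot.root (fE S) ^ 3 = AdjoinRoot.of (fE S) (fa S) := by
  have h : AdjoinRoot.mk (fE S) (fE S) = 0 := AdjoinRoot.mk_self
  have h2 : AdjoinRoot.mk (fE S) (fE S) = AdjoinRoot.root (fE S) ^ 3 +
      AdjoinRoot.of (fE S) (X ^ 3 + 1) := by
    conv_lhs => rw [show (AdjoinRoot.mk (fE S)) (fE S) =
      (AdjoinRoot.mk (fE S)) (X ^ 3 + C (X ^ 3 + 1)) from rfl]
    rw [map_add, map_pow, AdjoinRoot.mk_X, AdjoinRoot.mk_C]
  rw [h] at h2
  unfold fa
  rw [map_neg]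
  linear_combination -h2

theorem el3_cube (a b c : S[X]) : el3 a b c ^ 3 =
    el3 (a ^ 3 + fa S * b ^ 3 + fa S ^ 2 * c ^ 3 + 6 * fa S * a * b * c)
      (3 * (a ^ 2 * b + fa S * a * c ^ 2 + fa S * b ^ 2 * c))
      (3 * (a ^ 2 * c + a * b ^ 2 + fa S * b * c ^ 2)) := by
  have hr := root_cube (S := S)
  unfold el3
  simp only [map_add, map_mul, map_pow, map_ofNat]
  rw [← hr]
  ring

theorem el3_mul_adj (a b c : S[X]) : el3 a b c * el3 (a ^ 2 - fa S * b * c) (fa S * c ^ 2 - a * b)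
      (b ^ 2 - a * c) = el3 (a ^ 3 + fa S * b ^ 3 + fa S ^ 2 * c ^ 3 - 3 * fa S * a * b * c) 0 0 := by
  have hr := root_cube (S := S)
  unfold el3
  simp only [map_add, map_mul, map_pow, map_ofNat, map_sub, map_zero]
  rw [← hr]
  ring

theorem el3_smul (p a b c : S[X]) : AdjoinRoot.of (fE S) p * el3 a b c =
    el3 (p * a) (p * b) (p * c) := by
  unfold el3
  simp only [map_mul]
  ring

theorem el3_inj (a b c a' b' c' : S[X]) (h : el3 a b c = el3 a' b' c') :
    a = a' ∧ b = b' ∧ c = c' := by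
  have h1 : el3 (a - a') (b - b') (c - c') = 0 := by
    rw [← sub_eq_zero.2 h]
    unfold el3
    simp only [map_sub]
    ring
  obtain ⟨h2, h3, h4⟩ := el3_zero _ _ _ h1
  exact ⟨sub_eq_zero.1 h2, sub_eq_zero.1 h3, sub_eq_zero.1 h4⟩

theorem norm_ne [UniqueFactorizationMonoid S] (h3 : (3 : S) ≠ 0) (a b c : S[X])
    (h : a ^ 3 + fa S * b ^ 3 + fa S ^ 2 * c ^ 3 - 3 * fa S * a * b * c = 0) :
    a = 0 ∧ b = 0 ∧ c = 0 := by
  have := fE_dom h3
  have h1 := el3_mul_adj a b c
  rw [h] at h1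
  have h2 : el3 (0 : S[X]) 0 0 = 0 := by unfold el3; simp
  rw [h2] at h1
  rcases mul_eq_zero.1 h1 with h4 | h4
  · exact el3_zero _ _ _ h4
  · obtain ⟨e1, e2, e3⟩ := el3_zero _ _ _ h4
    have e4 : a ^ 3 = fa S * b ^ 3 := by
      linear_combination a * e1 + fa S * b * (-e3)  + 0 * e2
    obtain ⟨rfl, rfl⟩ := f_noncube h3 a b e4
    refine ⟨rfl, rfl, ?_⟩
    have e5 : fa S * c ^ 2 = 0 := by linear_combination e2
    rcases mul_eq_zero.1 e5 with h5 | h5
    · exact absurd h5 fa_ne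
    · exact pow_eq_zero_iff (by norm_num) |>.1 h5

/-- a cube equation with scalar right side -/
theorem cube_scalar (h3 : (3 : S) ≠ 0) (p q : S[X]) (hp : p ≠ 0) (x : AdjoinRoot (fE S))
    (h : AdjoinRoot.of (fE S) p * x ^ 3 = AdjoinRoot.of (fE S) q) :
    ∃ (j : ℕ) (c : S[X]), j < 3 ∧ p * (fa S ^ j * c ^ 3) = q ∧ (c = 0 → x = 0) := by
  obtain ⟨a, b, c, rfl⟩ := el3_surj x
  have h31 : (3 : S[X]) ≠ 0 := by
    intro h
    apply h3
    have := congrArg (eval 0) h
    simpa using this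
  have hq : AdjoinRoot.of (fE S) q = el3 q 0 0 := by unfold el3; simp
  rw [el3_cube, el3_smul, hq] at h
  obtain ⟨e1, e2, e3⟩ := el3_inj _ _ _ _ _ _ h
  have e4 : a ^ 2 * b + fa S * a * c ^ 2 + fa S * b ^ 2 * c = 0 := by
    rcases mul_eq_zero.1 e2 with h5 | h5
    · exact absurd h5 hp
    · rcases mul_eq_zero.1 h5 with h6 | h6
      · exact absurd h6 h31
      · exact h6
  have e5 : a ^ 2 * c + a * b ^ 2 + fa S * b * c ^ 2 = 0 := by
    rcases mul_eq_zero.1 e3 with h5 | h5
    · exact absurd h5 hp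
    · rcases mul_eq_zero.1 h5 with h6 | h6
      · exact absurd h6 h31
      · exact h6
  have e6 : c * (a ^ 3 - fa S * b ^ 3) = 0 := by
    linear_combination a * e5 - b * e4
  rcases mul_eq_zero.1 e6 with hc | hab
  · subst hc
    have e7 : a ^ 2 * b = 0 := by linear_combination e4
    rcases mul_eq_zero.1 e7 with ha | hb
    · have ha : a = 0 := pow_eq_zero_iff (by norm_num) |>.1 ha
      subst ha
      refine ⟨1, b, by norm_num, ?_, ?_⟩
      · linear_combination e1
      · rintro rfl; unfold el3; simp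
    · subst hb
      refine ⟨0, a, by norm_num, ?_, ?_⟩
      · linear_combination e1
      · rintro rfl; unfold el3; simp
  · obtain ⟨rfl, rfl⟩ := f_noncube h3 a b (sub_eq_zero.1 hab)
    refine ⟨2, c, by norm_num, ?_, ?_⟩
    · linear_combination e1
    · rintro rfl; unfold el3; simp

theorem fermat_core [UniqueFactorizationMonoid S] (h3 : (3 : S) ≠ 0) (ω : S)
    (hω : ω ^ 2 + ω + 1 = 0) (D G : AdjoinRoot (fE S))
    (h : AdjoinRoot.of (fE S) (X + C ω) * D ^ 3 = AdjoinRoot.of (fE S) (X + C (ω ^ 2)) * G ^ 3) :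
    D = 0 ∧ G = 0 := by
  have hG : G = 0 := by
    obtain ⟨a, b, c, rfl⟩ := el3_surj G
    have h1 := el3_mul_adj a b c
    set G' := el3 (a ^ 2 - fa S * b * c) (fa S * c ^ 2 - a * b) (b ^ 2 - a * c) with hG'
    set N := a ^ 3 + fa S * b ^ 3 + fa S ^ 2 * c ^ 3 - 3 * fa S * a * b * c with hN
    have h2 : el3 N 0 0 = AdjoinRoot.of (fE S) N := by unfold el3; simp
    rw [h2] at h1
    have h4 : AdjoinRoot.of (fE S) (X + C ω) * (D * G') ^ 3 =
        AdjoinRoot.of (fE S) ((X + C (ω ^ 2)) * N ^ 3) := by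
      rw [map_mul (AdjoinRoot.of (fE S)), map_pow (AdjoinRoot.of (fE S)) N 3, ← h1]
      linear_combination G' ^ 3 * h
    obtain ⟨j, c', hj, h5, -⟩ := cube_scalar h3 _ _ (X_add_C_ne_zero ω) _ h4
    have h6 := f_key h3 ω hω j hj c' N h5
    obtain ⟨rfl, rfl, rfl⟩ := norm_ne h3 a b c h6
    unfold el3; simp
  refine ⟨?_, hG⟩
  have h4 : AdjoinRoot.of (fE S) (X + C ω) * D ^ 3 = AdjoinRoot.of (fE S) 0 := by
    rw [h, hG]; simp
  obtain ⟨j, c', hj, h5, h6⟩ := cube_scalar h3 _ _ (X_add_C_ne_zero ω) _ h4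
  apply h6
  rcases mul_eq_zero.1 h5 with h7 | h7
  · exact absurd h7 (X_add_C_ne_zero ω)
  · rcases mul_eq_zero.1 h7 with h8 | h8
    · exact absurd h8 (pow_ne_zero _ fa_ne)
    · exact pow_eq_zero_iff (by norm_num) |>.1 h8

end ferm

theorem zz_cube3 {A : Type*} [CommRing A] (Q : A) : zz Q ^ 3 + cc Q Q = 0 := by
  have h : AdjoinRoot.mk (Polynomial.X ^ 3 + Polynomial.C Q : Polynomial A)
      (Polynomial.X ^ 3 + Polynomial.C Q) = 0 := AdjoinRoot.mk_self
  rw [map_add, map_pow, AdjoinRoot.mk_X, AdjoinRoot.mk_C] at h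
  exact h

/-- forward map -/
noncomputable def phi0 (k : Type*) [Field k] :
    MvPolynomial (Fin 2) k →+* AdjoinRoot (fE (Polynomial k)) :=
  MvPolynomial.eval₂Hom ((AdjoinRoot.of (fE (Polynomial k))).comp
      (Polynomial.C.comp Polynomial.C))
    ![AdjoinRoot.of _ (Polynomial.C Polynomial.X), AdjoinRoot.root _]

noncomputable def phi (k : Type*) [Field k] :
    CR (MvPolynomial.X 1 ^ 3 + 1 : MvPolynomial (Fin 2) k) →+* AdjoinRoot (fE (Polynomial k)) :=
  AdjoinRoot.lift (phi0 k) (AdjoinRoot.of _ Polynomial.X) (by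
    have h : phi0 k (MvPolynomial.X 1) = AdjoinRoot.root _ := by
      simp [phi0]
    have hr := root_cube (S := Polynomial k)
    unfold fa at hr
    rw [map_neg] at hr
    simp only [Polynomial.eval₂_add, Polynomial.eval₂_pow, Polynomial.eval₂_X, Polynomial.eval₂_C,
      map_add, map_pow, map_one, h]
    rw [hr]
    simp)

noncomputable def psi0 (k : Type*) [Field k] :
    Polynomial (Polynomial k) →+* CR (MvPolynomial.X 1 ^ 3 + 1 : MvPolynomial (Fin 2) k) :=
  Polynomial.eval₂RingHom (Polynomial.eval₂RingHom ((cc _).comp MvPolynomial.C)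
    (cc _ (MvPolynomial.X 0))) (zz _)

noncomputable def psi (k : Type*) [Field k] :
    AdjoinRoot (fE (Polynomial k)) →+* CR (MvPolynomial.X 1 ^ 3 + 1 : MvPolynomial (Fin 2) k) :=
  AdjoinRoot.lift (psi0 k) (cc _ (MvPolynomial.X 1)) (by
    have h : psi0 k Polynomial.X = zz _ := by
      simp [psi0]
    have hr := zz_cube3 (MvPolynomial.X 1 ^ 3 + 1 : MvPolynomial (Fin 2) k)
    rw [map_add (cc _), map_pow (cc _), map_one (cc _)] at hr
    unfold fE
    simp only [Polynomial.eval₂_add, Polynomial.eval₂_pow, Polynomial.eval₂_X, Polynomial.eval₂_C,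
      map_add, map_pow, map_one, Polynomial.eval₂_one, h]
    linear_combination hr)

theorem psi_phi (k : Type*) [Field k] : (psi k).comp (phi k) = RingHom.id _ := by
  apply AdjoinRoot.ringHom_ext
  · apply MvPolynomial.ringHom_ext
    · intro r
      simp only [RingHom.comp_apply, phi, psi, AdjoinRoot.lift_of, phi0, psi0,
        MvPolynomial.coe_eval₂Hom, MvPolynomial.eval₂_C, Polynomial.coe_eval₂RingHom,
        Polynomial.eval₂_C]
      rfl
    · intro i
      fin_cases i
      · simp only [RingHom.comp_apply, phi, psi, AdjoinRoot.lift_of, phi0, psi0,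
          MvPolynomial.coe_eval₂Hom, MvPolynomial.eval₂_X, Polynomial.coe_eval₂RingHom,
          Polynomial.eval₂_C, Polynomial.eval₂_X]
        simp
        rfl
      · simp only [RingHom.comp_apply, phi, psi, AdjoinRoot.lift_of, phi0, psi0,
          MvPolynomial.coe_eval₂Hom, MvPolynomial.eval₂_X, Polynomial.coe_eval₂RingHom,
          Polynomial.eval₂_C, Polynomial.eval₂_X]
        simp
        rfl
  · simp only [RingHom.comp_apply, phi, psi, AdjoinRoot.lift_root, AdjoinRoot.lift_of, psi0,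
      Polynomial.coe_eval₂RingHom, Polynomial.eval₂_X]
    rfl

theorem fermat_noncube (k : Type*) [Field k] (ω : k) (hω : ω ^ 2 + ω + 1 = 0)
    (h3 : (3 : k) ≠ 0) (d g : CR (MvPolynomial.X 1 ^ 3 + 1 : MvPolynomial (Fin 2) k))
    (h : (zz _ + cc _ (MvPolynomial.C ω)) * d ^ 3 = (zz _ + cc _ (MvPolynomial.C (ω ^ 2))) * g ^ 3) :
    d = 0 ∧ g = 0 := by
  have hinj : Function.Injective (phi k) := by
    intro x y hxy
    have h1 := congrArg (psi k) hxy
    have h2 : ∀ x, psi k (phi k x) = x := fun x => by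
      rw [← RingHom.comp_apply, psi_phi]; rfl
    rwa [h2, h2] at h1
  have hz : phi k (zz _) = AdjoinRoot.of _ Polynomial.X := by
    unfold phi zz
    exact AdjoinRoot.lift_root _
  have hc : ∀ c : k, phi k (cc _ (MvPolynomial.C c)) =
      AdjoinRoot.of _ (Polynomial.C (Polynomial.C c)) := by
    intro c
    unfold phi cc
    rw [AdjoinRoot.lift_of]
    simp [phi0]
  have h1 := congrArg (phi k) h
  simp only [map_mul, map_pow, map_add, hz] at h1
  have hc1 := hc ω
  rw [hc1] at h1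
  have h31 : (3 : Polynomial k) ≠ 0 := by
    intro h
    apply h3
    have := congrArg (Polynomial.eval 0) h
    simpa using this
  have hω1 : (Polynomial.C ω) ^ 2 + Polynomial.C ω + 1 = 0 := by
    rw [← map_pow, ← map_add, ← Polynomial.C_1, ← map_add, hω, Polynomial.C_0]
  obtain ⟨hd, hg⟩ := fermat_core h31 (Polynomial.C ω) hω1 (phi k d) (phi k g) (by
    simpa only [map_add, map_pow] using h1)
  exact ⟨hinj (by rw [hd, map_zero]), hinj (by rw [hg, map_zero])⟩

end Pool.Agent.Helper346.Bra
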