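import Pool.Agent.Helper346.Bra.Defs
import Pool.Agent.Helper346.Bra.TF

set_option autoImplicit false

open scoped TensorProduct

namespace Pool.Agent.Helper346.Bra




section descent

variable (k : Type*) [Field k]

/-- reduction modulo the first variable -/
noncomputable def redp : MvPolynomial (Fin 3) k →+* MvPolynomial (Fin 2) k :=
  (Polynomial.constantCoeff).comp (MvPolynomial.finSuccEquiv k 2).toRingEquiv.toRingHom

theorem redp_apply (f : MvPolynomial (Fin 3) k) :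
    redp k f = (MvPolynomial.finSuccEquiv k 2 f).coeff 0 := rfl

theorem redp_X0 : redp k (MvPolynomial.X 0) = 0 := by
  rw [redp_apply, MvPolynomial.finSuccEquiv_X_zero, Polynomial.coeff_X_zero]

theorem redp_X1 : redp k (MvPolynomial.X 1) = MvPolynomial.X 0 := by
  have h := MvPolynomial.finSuccEquiv_X_succ (R := k) (n := 2) (j := 0)
  rw [redp_apply]
  change (MvPolynomial.finSuccEquiv k 2 (MvPolynomial.X (Fin.succ 0))).coeff 0 = _
  rw [h, Polynomial.coeff_C_zero]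

theorem redp_X2 : redp k (MvPolynomial.X 2) = MvPolynomial.X 1 := by
  have h := MvPolynomial.finSuccEquiv_X_succ (R := k) (n := 2) (j := 1)
  rw [redp_apply]
  change (MvPolynomial.finSuccEquiv k 2 (MvPolynomial.X (Fin.succ 1))).coeff 0 = _
  rw [h, Polynomial.coeff_C_zero]

theorem redp_C (c : k) : redp k (MvPolynomial.C c) = MvPolynomial.C c := by
  rw [redp_apply]
  simp [MvPolynomial.finSuccEquiv_apply]

theorem redp_Q3 : redp k (Q3 k) = MvPolynomial.X 1 ^ 3 + 1 := by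
  rw [Q3]
  simp only [map_add, map_mul, map_sub, map_one, map_pow, redp_X0, redp_X1, redp_X2]
  ring

theorem redp_eq_zero {f : MvPolynomial (Fin 3) k} (h : redp k f = 0) :
    MvPolynomial.X 0 ∣ f := by
  rw [redp_apply] at h
  have h1 : Polynomial.X ∣ MvPolynomial.finSuccEquiv k 2 f := Polynomial.X_dvd_iff.mpr h
  rw [← MvPolynomial.finSuccEquiv_X_zero] at h1
  exact (map_dvd_iff (MvPolynomial.finSuccEquiv k 2)).mp h1

variable {k}

theorem cr_monic {A : Type*} [CommRing A] [Nontrivial A] (Q : A) :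
    (Polynomial.X ^ 3 + Polynomial.C Q : Polynomial A).Monic :=
  Polynomial.monic_X_pow_add_C Q (by norm_num)

theorem cr_degree {A : Type*} [CommRing A] [Nontrivial A] (Q : A) :
    (Polynomial.X ^ 3 + Polynomial.C Q : Polynomial A).degree = 3 :=
  Polynomial.degree_X_pow_add_C (by norm_num) Q

/-- representatives -/
noncomputable def rep {A : Type*} [CommRing A] [Nontrivial A] {Q : A} :
    CR Q →ₗ[A] Polynomial A := AdjoinRoot.modByMonicHom (cr_monic Q)

theorem mk_rep {A : Type*} [CommRing A] [Nontrivial A] {Q : A} (x : CR Q) :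
    AdjoinRoot.mk _ (rep x) = x := AdjoinRoot.mk_leftInverse (cr_monic Q) x

theorem rep_degree {A : Type*} [CommRing A] [Nontrivial A] {Q : A} (x : CR Q) :
    (rep x).degree < 3 := by
  obtain ⟨h, rfl⟩ := AdjoinRoot.mk_surjective x
  change ((AdjoinRoot.modByMonicHom (cr_monic Q)) (AdjoinRoot.mk _ h)).degree < 3
  rw [AdjoinRoot.modByMonicHom_mk, ← cr_degree Q]
  exact Polynomial.degree_modByMonic_lt _ (cr_monic Q)

theorem rep_cc_mul {A : Type*} [CommRing A] [Nontrivial A] {Q : A} (c : A) (x : CR Q) :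
    rep (cc Q c * x) = Polynomial.C c * rep x := by
  have h1 : cc Q c * x = c • x := by
    rw [Algebra.smul_def]
    rfl
  rw [h1, map_smul, Polynomial.smul_eq_C_mul]

theorem rep_inj {A : Type*} [CommRing A] [Nontrivial A] {Q : A} {x : CR Q} (h : rep x = 0) :
    x = 0 := by
  rw [← mk_rep x, h, map_zero]

theorem cc_ne_zero_divisor {A : Type*} [CommRing A] [IsDomain A] {Q : A} {c : A} (hc : c ≠ 0)
    {x y : CR Q} (h : cc Q c * x = cc Q c * y) : x = y := by
  have h1 : cc Q c * (x - y) = 0 := by rw [mul_sub, h, sub_self]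
  have h2 := rep_cc_mul c (x - y)
  rw [h1, map_zero] at h2
  have h3 : rep (x - y) = 0 := by
    rcases mul_eq_zero.mp h2.symm with h4 | h4
    · exact absurd (Polynomial.C_eq_zero.mp h4) hc
    · exact h4
  exact sub_eq_zero.mp (rep_inj h3)

/-- the reduction of the cubic extension -/
noncomputable def redB (k : Type*) [Field k] :
    CR (Q3 k) →+* CR (MvPolynomial.X 1 ^ 3 + 1 : MvPolynomial (Fin 2) k) :=
  AdjoinRoot.lift ((cc _).comp (redp k)) (zz _) (by
    rw [Polynomial.eval₂_add, Polynomial.eval₂_pow, Polynomial.eval₂_X, Polynomial.eval₂_C,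
      RingHom.comp_apply, redp_Q3]
    have h := AdjoinRoot.eval₂_root
      (Polynomial.X ^ 3 + Polynomial.C (MvPolynomial.X 1 ^ 3 + 1 : MvPolynomial (Fin 2) k))
    rw [Polynomial.eval₂_add, Polynomial.eval₂_pow, Polynomial.eval₂_X, Polynomial.eval₂_C] at h
    exact h)

theorem redB_zz : redB k (zz _) = zz _ := by
  unfold redB
  exact AdjoinRoot.lift_root _

theorem redB_cc (f : MvPolynomial (Fin 3) k) : redB k (cc _ f) = cc _ (redp k f) := by
  unfold redB
  exact AdjoinRoot.lift_of _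

theorem redB_mk (h : Polynomial (MvPolynomial (Fin 3) k)) :
    redB k (AdjoinRoot.mk _ h) = AdjoinRoot.mk _ (h.map (redp k)) := by
  unfold redB
  rw [AdjoinRoot.lift_mk]
  have h2 : AdjoinRoot.mk (Polynomial.X ^ 3 +
      Polynomial.C (MvPolynomial.X 1 ^ 3 + 1 : MvPolynomial (Fin 2) k)) (h.map (redp k))
      = Polynomial.eval₂ (cc _) (zz (MvPolynomial.X 1 ^ 3 + 1 : MvPolynomial (Fin 2) k))
        (h.map (redp k)) := by
    rw [← AdjoinRoot.aeval_eq]
    rfl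
  rw [h2, Polynomial.eval₂_map]

theorem redB_eq_zero {x : CR (Q3 k)} (h : redB k x = 0) :
    ∃ y, x = cc _ (MvPolynomial.X 0) * y := by
  rw [← mk_rep x, redB_mk, AdjoinRoot.mk_eq_zero] at h
  have h1 : (rep x).map (redp k) = 0 := by
    by_contra hne
    have h2 := Polynomial.degree_le_of_dvd h hne
    rw [cr_degree] at h2
    have h3 : ((rep x).map (redp k)).degree ≤ (rep x).degree := Polynomial.degree_map_le
    exact absurd (lt_of_le_of_lt (h2.trans h3) (rep_degree x)) (lt_irrefl _)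
  have h2 : Polynomial.C (MvPolynomial.X 0) ∣ rep x := by
    rw [Polynomial.C_dvd_iff_dvd_coeff]
    intro i
    apply redp_eq_zero
    have := congrArg (fun q => Polynomial.coeff q i) h1
    simpa using this
  obtain ⟨y, hy⟩ := h2
  refine ⟨AdjoinRoot.mk _ y, ?_⟩
  conv_lhs => rw [← mk_rep x, hy, map_mul]
  rfl

/-- the first variable in the cubic extension -/
noncomputable def pp (k : Type*) [Field k] : CR (Q3 k) := cc (Q3 k) (MvPolynomial.X 0)

/-- the norm equation -/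
def Sol {k : Type*} [Field k] (ω : k) (d g0 g1 g2 : CR (Q3 k)) : Prop :=
  (zz (Q3 k) + cc (Q3 k) (MvPolynomial.C ω)) * d ^ 3
    = (zz (Q3 k) + cc (Q3 k) (MvPolynomial.C (ω ^ 2))) *
      (g0 ^ 3 + pp k * g1 ^ 3 + pp k ^ 2 * g2 ^ 3 - 3 * pp k * g0 * g1 * g2)

theorem dvd_all_zero {x : CR (Q3 k)}
    (h : ∀ n : ℕ, ∃ y : CR (Q3 k), x = pp k ^ n * y) : x = 0 := by
  apply rep_inj
  ext i : 1
  rw [Polynomial.coeff_zero]
  by_contra hne
  have hfin : FiniteMultiplicity (MvPolynomial.X 0 : MvPolynomial (Fin 3) k)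
      ((rep x).coeff i) := by
    apply FiniteMultiplicity.of_not_isUnit
    · intro hu
      have h1 := hu.map (redp k)
      rw [redp_X0] at h1
      exact not_isUnit_zero h1
    · exact hne
  obtain ⟨n, hn⟩ := hfin
  apply hn
  obtain ⟨y, hy⟩ := h (n + 1)
  refine ⟨(rep y).coeff i, ?_⟩
  have h2 : pp k ^ (n + 1) = cc (Q3 k) (MvPolynomial.X 0 ^ (n + 1)) := by
    rw [map_pow]
    rfl
  conv_lhs => rw [hy, h2, rep_cc_mul, Polynomial.coeff_C_mul]

theorem descent_step (ω : k) (hω : ω ^ 2 + ω + 1 = 0) (h3 : (3 : k) ≠ 0)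
    (d g0 g1 g2 : CR (Q3 k)) (h : Sol ω d g0 g1 g2) :
    ∃ d' g0' g1' g2' : CR (Q3 k), d = pp k * d' ∧ g0 = pp k * g0' ∧ g1 = pp k * g1' ∧
      g2 = pp k * g2' ∧ Sol ω d' g0' g1' g2' := by
  unfold Sol at h ⊢
  have hX : (MvPolynomial.X 0 : MvPolynomial (Fin 3) k) ≠ 0 := MvPolynomial.X_ne_zero 0
  have hcan : ∀ {x y : CR (Q3 k)}, pp k * x = pp k * y →
      x = y := fun {x y} hxy => cc_ne_zero_divisor hX hxy
  have hp0 : redB k (pp k) = 0 := by
    unfold pp
    rw [redB_cc, redp_X0, map_zero]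
  have hdiv : ∀ {x : CR (Q3 k)}, redB k x = 0 → ∃ y, x = pp k * y := fun {x} hx =>
    redB_eq_zero hx
  generalize hp : pp k = p at *
  obtain ⟨M1, M2, hM1, hM2, ferm⟩ : ∃ M1 M2 : CR (MvPolynomial.X 1 ^ 3 + 1 : MvPolynomial (Fin 2) k),
      redB k (zz (Q3 k) + cc (Q3 k) (MvPolynomial.C ω)) = M1 ∧
      redB k (zz (Q3 k) + cc (Q3 k) (MvPolynomial.C (ω ^ 2))) = M2 ∧
      ∀ x y, M1 * x ^ 3 = M2 * y ^ 3 → x = 0 ∧ y = 0 := by
    refine ⟨_, _, rfl, rfl, fun x y hxy => fermat_noncube k ω hω h3 x y ?_⟩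
    have e1 : redB k (zz (Q3 k) + cc (Q3 k) (MvPolynomial.C ω)) = zz _ + cc _ (MvPolynomial.C ω) := by
      rw [(redB k).map_add, redB_zz, redB_cc, redp_C]
    have e2 : redB k (zz (Q3 k) + cc (Q3 k) (MvPolynomial.C (ω ^ 2)))
        = zz _ + cc _ (MvPolynomial.C (ω ^ 2)) := by
      rw [(redB k).map_add, redB_zz, redB_cc, redp_C]
    rw [e1, e2] at hxy
    exact hxy
  generalize zz (Q3 k) + cc (Q3 k) (MvPolynomial.C ω) = m1 at *
  generalize zz (Q3 k) + cc (Q3 k) (MvPolynomial.C (ω ^ 2)) = m2 at *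
  -- first reduction
  have e1 := congrArg (redB k) h
  simp only [map_mul, map_add, map_sub, map_pow, hp0, hM1, hM2] at e1
  obtain ⟨hd, hg0⟩ := ferm (redB k d) (redB k g0) (by
    rw [e1]
    ring)
  obtain ⟨d', rfl⟩ := hdiv hd
  obtain ⟨g0', rfl⟩ := hdiv hg0
  have h1 : m1 * p ^ 2 * d' ^ 3 = m2 * (p ^ 2 * g0' ^ 3 + g1 ^ 3 + p * g2 ^ 3
      - 3 * p * g0' * g1 * g2) := by
    apply hcan
    linear_combination h
  have e2 := congrArg (redB k) h1
  simp only [map_mul, map_add, map_sub, map_pow, hp0, hM1, hM2] at e2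
  obtain ⟨-, hg1⟩ := ferm 0 (redB k g1) (by
    linear_combination e2)
  obtain ⟨g1', rfl⟩ := hdiv hg1
  have h2 : m1 * p * d' ^ 3 = m2 * (p * g0' ^ 3 + p ^ 2 * g1' ^ 3 + g2 ^ 3
      - 3 * p * g0' * g1' * g2) := by
    apply hcan
    linear_combination h1
  have e3 := congrArg (redB k) h2
  simp only [map_mul, map_add, map_sub, map_pow, hp0, hM1, hM2] at e3
  obtain ⟨-, hg2⟩ := ferm 0 (redB k g2) (by
    linear_combination e3)
  obtain ⟨g2', rfl⟩ := hdiv hg2
  have h4 : m1 * d' ^ 3 = m2 * (g0' ^ 3 + p * g1' ^ 3 + p ^ 2 * g2' ^ 3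
      - 3 * p * g0' * g1' * g2') := by
    apply hcan
    linear_combination h2
  exact ⟨d', g0', g1', g2', rfl, rfl, rfl, rfl, h4⟩

theorem pow_aux {S : Type*} [CommRing S] (p y : S) (n : ℕ) :
    p * (p ^ n * y) = p ^ (n + 1) * y := by
  rw [pow_succ', mul_assoc]

theorem descent_iter (ω : k) (hω : ω ^ 2 + ω + 1 = 0) (h3 : (3 : k) ≠ 0) (n : ℕ) :
    ∀ (d g0 g1 g2 : CR (Q3 k)), Sol ω d g0 g1 g2 →
    (∃ y, d = pp k ^ n * y) ∧ (∃ y, g0 = pp k ^ n * y) ∧
      (∃ y, g1 = pp k ^ n * y) ∧ (∃ y, g2 = pp k ^ n * y) := by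
  induction n with
  | zero =>
    intro d g0 g1 g2 _
    exact ⟨⟨d, by rw [pow_zero, one_mul]⟩, ⟨g0, by rw [pow_zero, one_mul]⟩,
      ⟨g1, by rw [pow_zero, one_mul]⟩, ⟨g2, by rw [pow_zero, one_mul]⟩⟩
  | succ n ih =>
    intro d g0 g1 g2 h
    obtain ⟨d', g0', g1', g2', hd, h0, h1, h2, h'⟩ := descent_step ω hω h3 d g0 g1 g2 h
    obtain ⟨⟨y, hy⟩, ⟨y0, hy0⟩, ⟨y1, hy1⟩, ⟨y2, hy2⟩⟩ := ih d' g0' g1' g2' h'
    exact ⟨⟨y, by rw [hd, hy]; exact pow_aux _ _ _⟩, ⟨y0, by rw [h0, hy0]; exact pow_aux _ _ _⟩,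
      ⟨y1, by rw [h1, hy1]; exact pow_aux _ _ _⟩, ⟨y2, by rw [h2, hy2]; exact pow_aux _ _ _⟩⟩

end descent

theorem aniso_Q3 (k : Type*) [Field k] (ω : k) (hω : ω ^ 2 + ω + 1 = 0) (h3 : (3 : k) ≠ 0) :
    Aniso (CR (Q3 k)) (cc _ (MvPolynomial.X 0)) (zz _ + cc _ (MvPolynomial.C ω))
      (zz _ + cc _ (MvPolynomial.C (ω ^ 2))) := by
  intro d g0 g1 g2 h
  exact ⟨dvd_all_zero fun n => (descent_iter ω hω h3 n d g0 g1 g2 h).1,
    dvd_all_zero fun n => (descent_iter ω hω h3 n d g0 g1 g2 h).2.1,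
    dvd_all_zero fun n => (descent_iter ω hω h3 n d g0 g1 g2 h).2.2.1,
    dvd_all_zero fun n => (descent_iter ω hω h3 n d g0 g1 g2 h).2.2.2⟩

end Pool.Agent.Helper346.Bra
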