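import Pool.Agent.Helper346.Bra.Defs
import Pool.Agent.Helper346.Bra.TE
import Pool.Agent.Helper346.Bra.TG

set_option autoImplicit false

open scoped TensorProduct

namespace Pool.Agent.Helper346.Bra



theorem subst_inj (k : Type*) [Field k] (L : Type*) [Field L] (al : MvPolynomial (Fin 3) k →+* L)
    (hal : Function.Injective al) (P : MvPolynomial (Fin 3) k)
    (hP : MvPolynomial.eval₂ (al.comp MvPolynomial.C)
      (![(al (MvPolynomial.X 0))⁻¹, al (MvPolynomial.X 0) * al (MvPolynomial.X 1),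
        al (MvPolynomial.X 0) * al (MvPolynomial.X 2)] : Fin 3 → L) P = 0) : P = 0 := by
  classical
  have hp : al (MvPolynomial.X 0) ≠ 0 := by
    rw [Ne, map_eq_zero_iff _ hal]
    exact MvPolynomial.X_ne_zero 0
  set p := al (MvPolynomial.X 0) with hpdef
  set N := P.totalDegree with hN
  set e : (Fin 3 →₀ ℕ) → (Fin 3 →₀ ℕ) := fun m =>
    Finsupp.equivFunOnFinite.symm ![N - m 0 + m 1 + m 2, m 1, m 2] with he
  have he0 : ∀ m, e m 0 = N - m 0 + m 1 + m 2 := fun m => rfl
  have he1 : ∀ m, e m 1 = m 1 := fun m => rfl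
  have he2 : ∀ m, e m 2 = m 2 := fun m => rfl
  have hle : ∀ m ∈ P.support, m 0 ≤ N := by
    intro m hm
    refine le_trans ?_ (MvPolynomial.le_totalDegree hm)
    rw [Finsupp.sum_fintype _ _ (fun _ => rfl)]
    exact Finset.single_le_sum (f := fun i => m i) (fun _ _ => Nat.zero_le _) (Finset.mem_univ 0)
  have heinj : ∀ m ∈ P.support, ∀ m' ∈ P.support, e m = e m' → m = m' := by
    intro m hm m' hm' h
    have h0 := DFunLike.congr_fun h 0
    have h1 := DFunLike.congr_fun h 1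
    have h2 := DFunLike.congr_fun h 2
    rw [he0, he0] at h0
    rw [he1, he1] at h1
    rw [he2, he2] at h2
    have a := hle m hm
    have b := hle m' hm'
    ext i
    fin_cases i
    · show m 0 = m' 0
      omega
    · exact h1
    · exact h2
  set Ps : MvPolynomial (Fin 3) k :=
    ∑ m ∈ P.support, MvPolynomial.monomial (e m) (P.coeff m) with hPs
  have key : al Ps = p ^ N * MvPolynomial.eval₂ (al.comp MvPolynomial.C)
      (![p⁻¹, p * al (MvPolynomial.X 1), p * al (MvPolynomial.X 2)] : Fin 3 → L) P := by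
    rw [MvPolynomial.eval₂_eq', hPs, map_sum, Finset.mul_sum]
    refine Finset.sum_congr rfl fun m hm => ?_
    rw [MvPolynomial.monomial_eq, map_mul, Finsupp.prod_fintype _ _ (fun _ => pow_zero _),
      Fin.prod_univ_three, Fin.prod_univ_three, he0, he1, he2]
    simp only [map_mul, map_pow, RingHom.comp_apply, Matrix.cons_val_zero, Matrix.cons_val_one,
      Matrix.cons_val]
    rw [← hpdef]
    have hm0 := hle m hm
    obtain ⟨r, hr⟩ := Nat.exists_eq_add_of_le hm0
    rw [hr, Nat.add_sub_cancel_left]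
    have hpp : p ^ m 0 * p⁻¹ ^ m 0 = 1 := by
      rw [← mul_pow, mul_inv_cancel₀ hp, one_pow]
    rw [pow_add, pow_add, pow_add, mul_pow, mul_pow]
    linear_combination (-(al (MvPolynomial.C (P.coeff m)) * p ^ r * p ^ m 1 * p ^ m 2 *
      al (MvPolynomial.X 1) ^ m 1 * al (MvPolynomial.X 2) ^ m 2)) * hpp
  rw [hP, mul_zero, map_eq_zero_iff _ hal] at key
  by_contra hne
  obtain ⟨m, hm⟩ := MvPolynomial.support_nonempty.2 hne
  have : Ps.coeff (e m) = P.coeff m := by
    rw [hPs, MvPolynomial.coeff_sum, Finset.sum_eq_single m]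
    · rw [MvPolynomial.coeff_monomial, if_pos rfl]
    · intro b hb hbm
      rw [MvPolynomial.coeff_monomial, if_neg]
      intro h
      exact hbm (heinj b hb m hm h)
    · intro h
      exact absurd hm h
  rw [key, MvPolynomial.coeff_zero] at this
  exact (MvPolynomial.mem_support_iff.1 hm) this.symm

theorem cr_monic_th {A : Type*} [CommRing A] [Nontrivial A] (Q : A) :
    (Polynomial.X ^ 3 + Polynomial.C Q : Polynomial A).Monic :=
  Polynomial.monic_X_pow_add_C Q (by norm_num)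

theorem zz_pow_th {A : Type*} [CommRing A] (Q : A) : zz Q ^ 3 = - cc Q Q := by
  have h : AdjoinRoot.mk (Polynomial.X ^ 3 + Polynomial.C Q : Polynomial A)
    (Polynomial.X ^ 3 + Polynomial.C Q) = 0 := AdjoinRoot.mk_self
  rw [map_add, map_pow, AdjoinRoot.mk_X, AdjoinRoot.mk_C] at h
  exact eq_neg_of_add_eq_zero_left h

theorem cc_inj {A : Type*} [CommRing A] [IsDomain A] (Q : A) : Function.Injective (cc Q) := by
  apply AdjoinRoot.of.injective_of_degree_ne_zero
  rw [Polynomial.degree_X_pow_add_C (by norm_num)]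
  norm_num

theorem aniso_Q2 (k : Type*) [Field k] (ω : k) (hω : ω ^ 2 + ω + 1 = 0) (h3 : (3 : k) ≠ 0) :
    Aniso (CR (Q2 k)) (cc _ (MvPolynomial.X 0)) (zz _ + cc _ (MvPolynomial.C ω))
      (zz _ + cc _ (MvPolynomial.C (ω ^ 2))) := by
  classical
  have : IsDomain (CR (Q2 k)) := cr_domain _ (noncubes k).2.1
  have : IsDomain (CR (Q3 k)) := cr_domain _ (noncubes k).2.2
  have han := aniso_Q3 k ω hω h3
  let B3 := CR (Q3 k)
  let L := FractionRing B3
  let io : B3 →+* L := algebraMap B3 L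
  have hio : Function.Injective io := IsFractionRing.injective B3 L
  let al : MvPolynomial (Fin 3) k →+* L := io.comp (cc (Q3 k))
  have hal : Function.Injective al := hio.comp (cc_inj (Q3 k))
  set p : L := al (MvPolynomial.X 0) with hpdef
  have hp : p ≠ 0 := by
    rw [hpdef, Ne, map_eq_zero_iff _ hal]
    exact MvPolynomial.X_ne_zero 0
  let v : Fin 3 → L := ![p⁻¹, p * al (MvPolynomial.X 1), p * al (MvPolynomial.X 2)]
  let ψ : MvPolynomial (Fin 3) k →+* L := MvPolynomial.eval₂Hom (al.comp MvPolynomial.C) v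
  have hψ0 : ψ (MvPolynomial.X 0) = p⁻¹ := MvPolynomial.eval₂Hom_X' _ _ 0
  have hψ1 : ψ (MvPolynomial.X 1) = p * al (MvPolynomial.X 1) := MvPolynomial.eval₂Hom_X' _ _ 1
  have hψ2 : ψ (MvPolynomial.X 2) = p * al (MvPolynomial.X 2) := MvPolynomial.eval₂Hom_X' _ _ 2
  have hψC : ∀ a : k, ψ (MvPolynomial.C a) = al (MvPolynomial.C a) := fun a =>
    MvPolynomial.eval₂Hom_C _ _ a
  have hψQ : ψ (Q2 k) = al (Q3 k) := by
    simp only [Q2, Q3, map_add, map_mul, map_sub, map_pow, map_one, hψ0, hψ1, hψ2]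
    have hpi : p⁻¹ * p = 1 := inv_mul_cancel₀ hp
    have hal0 : al (MvPolynomial.X 0) = p := rfl
    rw [hal0]
    generalize al (MvPolynomial.X 1) = x1
    generalize al (MvPolynomial.X 2) = x2
    have h2 : p⁻¹ * (p⁻¹ - 1) * ((p * x1) ^ 3 + p⁻¹ * (p * x2) ^ 3) =
        (p⁻¹ * p) * ((p⁻¹ * p) - p) * (p * x1 ^ 3 + (p⁻¹ * p) * x2 ^ 3) := by ring
    rw [h2, hpi]
    ring
  set z : L := io (zz (Q3 k)) with hz
  have hz3 : z ^ 3 = - al (Q3 k) := by
    rw [hz, ← map_pow, zz_pow_th, map_neg]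
    rfl
  let φ : CR (Q2 k) →+* L := AdjoinRoot.lift ψ z (by
    rw [Polynomial.eval₂_add, Polynomial.eval₂_pow, Polynomial.eval₂_X, Polynomial.eval₂_C, hz3,
      hψQ, neg_add_cancel])
  have hφz : φ (zz (Q2 k)) = z := AdjoinRoot.lift_root _
  have hφc : ∀ a, φ (cc (Q2 k) a) = ψ a := fun a => AdjoinRoot.lift_of _
  have : Module.Finite (MvPolynomial (Fin 3) k) (CR (Q2 k)) :=
    (cr_monic_th (Q2 k)).finite_adjoinRoot
  have : Algebra.IsIntegral (MvPolynomial (Fin 3) k) (CR (Q2 k)) :=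
    Algebra.IsIntegral.of_finite _ _
  have hφ : Function.Injective φ := by
    rw [RingHom.injective_iff_ker_eq_bot]
    apply Ideal.eq_bot_of_comap_eq_bot (R := MvPolynomial (Fin 3) k)
    rw [eq_bot_iff]
    intro P hP
    rw [Ideal.mem_comap, RingHom.mem_ker] at hP
    have : ψ P = 0 := by
      rw [← hφc]
      exact hP
    exact subst_inj k L al hal P this
  -- anisotropy in the fraction field
  have hL : ∀ D G0 H1 H2 : L, io (zz _ + cc _ (MvPolynomial.C ω)) * D ^ 3 =
      io (zz _ + cc _ (MvPolynomial.C (ω ^ 2))) *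
        (G0 ^ 3 + p * H1 ^ 3 + p ^ 2 * H2 ^ 3 - 3 * p * G0 * H1 * H2) →
      D = 0 ∧ G0 = 0 ∧ H1 = 0 ∧ H2 = 0 := by
    intro D G0 H1 H2 h
    obtain ⟨⟨b, hb⟩, hb'⟩ := IsLocalization.exist_integer_multiples_of_finset
      (nonZeroDivisors B3) ({D, G0, H1, H2} : Finset L)
    obtain ⟨d, hd⟩ := hb' D (by simp)
    obtain ⟨g, hg⟩ := hb' G0 (by simp)
    obtain ⟨h1, hh1⟩ := hb' H1 (by simp)
    obtain ⟨h2, hh2⟩ := hb' H2 (by simp)
    have hb0 : io b ≠ 0 := by
      rw [Ne, map_eq_zero_iff _ hio]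
      exact nonZeroDivisors.ne_zero hb
    rw [Algebra.smul_def] at hd hg hh1 hh2
    change io d = io b * D at hd
    change io g = io b * G0 at hg
    change io h1 = io b * H1 at hh1
    change io h2 = io b * H2 at hh2
    have hpio : p = io (cc _ (MvPolynomial.X 0)) := rfl
    obtain ⟨r1, r2, r3, r4⟩ := han d g h1 h2 (by
      apply hio
      simp only [map_mul, map_add, map_sub, map_pow, map_ofNat, hd, hg, hh1, hh2] at h ⊢
      rw [← hpio]
      linear_combination (io b) ^ 3 * h)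
    rw [r1, map_zero] at hd
    rw [r2, map_zero] at hg
    rw [r3, map_zero] at hh1
    rw [r4, map_zero] at hh2
    refine ⟨?_, ?_, ?_, ?_⟩
    · exact (mul_eq_zero.1 hd.symm).resolve_left hb0
    · exact (mul_eq_zero.1 hg.symm).resolve_left hb0
    · exact (mul_eq_zero.1 hh1.symm).resolve_left hb0
    · exact (mul_eq_zero.1 hh2.symm).resolve_left hb0
  intro d g0 g1 g2 h
  have h' := congrArg φ h
  simp only [map_mul, map_add, map_sub, map_pow, map_ofNat, hφz, hφc, hψ0, hψC] at h'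
  obtain ⟨r1, r2, r3, r4⟩ := hL (φ d) (φ g0) (φ g2 / p) (φ g1 / p) (by
    rw [map_add, map_add]
    have e1 : io (cc (Q3 k) (MvPolynomial.C ω)) = al (MvPolynomial.C ω) := rfl
    have e2 : io (cc (Q3 k) (MvPolynomial.C (ω ^ 2))) = al (MvPolynomial.C ω) ^ 2 := by
      rw [← map_pow, ← map_pow]
      rfl
    rw [e1, e2, ← hz]
    rw [h', div_eq_mul_inv, div_eq_mul_inv]
    have hpq : p * p⁻¹ = 1 := mul_inv_cancel₀ hp
    linear_combination (z + al (MvPolynomial.C ω) ^ 2) *
      (- (φ g2) ^ 3 * p⁻¹ ^ 2 - (φ g1) ^ 3 * p⁻¹ * (p * p⁻¹ + 1) +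
        3 * φ g0 * φ g1 * φ g2 * p⁻¹) * hpq)
  refine ⟨?_, ?_, ?_, ?_⟩
  · exact (map_eq_zero_iff _ hφ).1 r1
  · exact (map_eq_zero_iff _ hφ).1 r2
  · have : φ g1 = 0 := by
      rcases div_eq_zero_iff.1 r4 with h | h
      · exact h
      · exact absurd h hp
    exact (map_eq_zero_iff _ hφ).1 this
  · have : φ g2 = 0 := by
      rcases div_eq_zero_iff.1 r3 with h | h
      · exact h
      · exact absurd h hp
    exact (map_eq_zero_iff _ hφ).1 this

end Pool.Agent.Helper346.Bra
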