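import Pool.Agent.Helper346.Bra.Defs

set_option autoImplicit false

open scoped TensorProduct

namespace Pool.Agent.Helper346.Bra



theorem ev_inj (C : Type) [Field C] :
    Function.Injective (Polynomial.eval₂RingHom (MvPolynomial.C : C →+* MvPolynomial (Fin 3) C)
      (MvPolynomial.X 0)) := by
  have h : ((MvPolynomial.eval₂Hom (Polynomial.C : C →+* Polynomial C)
      (fun _ : Fin 3 => (Polynomial.X : Polynomial C))).comp
      (Polynomial.eval₂RingHom (MvPolynomial.C : C →+* MvPolynomial (Fin 3) C)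
      (MvPolynomial.X 0))) = RingHom.id _ := by
    apply Polynomial.ringHom_ext
    · intro a; simp
    · simp
  intro a b hab
  have h1 := congrArg (MvPolynomial.eval₂Hom (Polynomial.C : C →+* Polynomial C)
      (fun _ : Fin 3 => (Polynomial.X : Polynomial C))) hab
  rw [← RingHom.comp_apply, ← RingHom.comp_apply, h] at h1
  exact h1

theorem cc_inj_ti {A : Type*} [CommRing A] [IsDomain A] (Q : A) : Function.Injective (cc Q) := by
  unfold cc
  apply AdjoinRoot.of.injective_of_degree_ne_zero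
  rw [show (Polynomial.X ^ 3 + Polynomial.C Q : Polynomial A).degree = 3 from by
    compute_degree!]
  decide

/-- base change of coefficients, `t` becoming a constant -/
noncomputable def qh (C : Type) [Field C] :
    MvPolynomial (Fin 3) C →+* MvPolynomial (Fin 3) (RatFunc C) :=
  MvPolynomial.eval₂Hom ((MvPolynomial.C).comp (RatFunc.C))
    ![MvPolynomial.C RatFunc.X, MvPolynomial.X 0, MvPolynomial.X 1]

theorem qh_C (C : Type) [Field C] (c : C) :
    qh C (MvPolynomial.C c) = MvPolynomial.C (RatFunc.C c) := by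
  simp [qh]
theorem qh_X0 (C : Type) [Field C] : qh C (MvPolynomial.X 0) = MvPolynomial.C RatFunc.X := by
  simp [qh]
theorem qh_X1 (C : Type) [Field C] : qh C (MvPolynomial.X 1) = MvPolynomial.X 0 := by
  simp [qh]
theorem qh_X2 (C : Type) [Field C] : qh C (MvPolynomial.X 2) = MvPolynomial.X 1 := by
  simp [qh]

theorem gen_eq (C : Type) [Field C] : MvPolynomial.aeval
    (![MvPolynomial.X 0, MvPolynomial.X 1, MvPolynomial.X 2, 1] :
      Fin 4 → MvPolynomial (Fin 3) (RatFunc C)) (FF C) =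
      MvPolynomial.X 2 ^ 3 + qh C (Q1 C) := by
  simp only [FF, al, Q1, map_add, map_mul, map_pow, map_sub, map_one, MvPolynomial.aeval_X,
        MvPolynomial.algHom_C, MvPolynomial.algebraMap_eq, qh_X0, qh_X1, qh_X2, map_ofNat]
  simp
  ring

theorem qh_ev (C : Type) [Field C] (q : Polynomial C) :
    qh C (Polynomial.eval₂RingHom (MvPolynomial.C : C →+* MvPolynomial (Fin 3) C)
      (MvPolynomial.X 0) q) = MvPolynomial.C (algebraMap _ _ q) := by
  have : (qh C).comp (Polynomial.eval₂RingHom (MvPolynomial.C : C →+* MvPolynomial (Fin 3) C)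
      (MvPolynomial.X 0)) = MvPolynomial.C.comp (algebraMap (Polynomial C) (RatFunc C)) := by
    apply Polynomial.ringHom_ext
    · intro a; simp [qh_C]
    · simp [qh_X0]
  exact congrArg (fun f => f q) this

theorem embed_gen (C : Type) [Field C] (L : Type*) [Field L] (Q : MvPolynomial (Fin 3) C)
    (j : CR Q →+* L) (hj : Function.Injective j) (G : MvPolynomial (Fin 3) (RatFunc C))
    (hG : G = MvPolynomial.X 2 ^ 3 + qh C Q) :
    ∃ φ : (MvPolynomial (Fin 3) (RatFunc C) ⧸ Ideal.span {G}) →+* L, Function.Injective φ ∧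
      φ (Ideal.Quotient.mk _ (MvPolynomial.C RatFunc.X)) = j (cc _ (MvPolynomial.X 0)) ∧
      (∀ c : C, φ (Ideal.Quotient.mk _ (MvPolynomial.C (RatFunc.C c))) =
        j (cc _ (MvPolynomial.C c))) ∧
      φ (Ideal.Quotient.mk _ (MvPolynomial.X 0)) = j (cc _ (MvPolynomial.X 1)) ∧
      φ (Ideal.Quotient.mk _ (MvPolynomial.X 1)) = j (cc _ (MvPolynomial.X 2)) ∧
      φ (Ideal.Quotient.mk _ (MvPolynomial.X 2)) = j (zz _) := by
  classical
  have hg : Function.Injective ((j.comp (cc Q)).comp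
      (Polynomial.eval₂RingHom (MvPolynomial.C : C →+* MvPolynomial (Fin 3) C)
      (MvPolynomial.X 0))) :=
    (hj.comp (cc_inj_ti _)).comp (ev_inj C)
  obtain ⟨ψ, hψ⟩ : ∃ ψ : RatFunc C →+* L, ∀ p : Polynomial C, ψ (algebraMap _ _ p) =
      j (cc Q (Polynomial.eval₂RingHom (MvPolynomial.C : C →+* MvPolynomial (Fin 3) C)
      (MvPolynomial.X 0) p)) :=
    ⟨IsFractionRing.lift hg, fun p => IsFractionRing.lift_algebraMap hg p⟩
  have hψX : ψ RatFunc.X = j (cc Q (MvPolynomial.X 0)) := by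
    have := hψ Polynomial.X
    simpa using this
  have hψC : ∀ c : C, ψ (RatFunc.C c) = j (cc Q (MvPolynomial.C c)) := by
    intro c
    have := hψ (Polynomial.C c)
    simpa using this
  have hroot : (zz Q) ^ 3 + cc Q Q = 0 := by
    have h := AdjoinRoot.eval₂_root (Polynomial.X ^ 3 + Polynomial.C Q :
      Polynomial (MvPolynomial (Fin 3) C))
    simpa [zz, cc] using h
  obtain ⟨Φ, hΦ⟩ : ∃ Φ : MvPolynomial (Fin 3) (RatFunc C) →+* L,
      Φ = MvPolynomial.eval₂Hom ψ (![j (cc Q (MvPolynomial.X 1)),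
        j (cc Q (MvPolynomial.X 2)), j (zz Q)]) := ⟨_, rfl⟩
  have hΦC : ∀ a, Φ (MvPolynomial.C a) = ψ a := by intro a; rw [hΦ]; simp
  have hΦ0 : Φ (MvPolynomial.X 0) = j (cc Q (MvPolynomial.X 1)) := by rw [hΦ]; simp
  have hΦ1 : Φ (MvPolynomial.X 1) = j (cc Q (MvPolynomial.X 2)) := by rw [hΦ]; simp
  have hΦ2 : Φ (MvPolynomial.X 2) = j (zz Q) := by rw [hΦ]; simp
  have hΦq : ∀ u, Φ (qh C u) = j (cc Q u) := by
    intro u
    have : Φ.comp (qh C) = j.comp (cc Q) := by
      apply MvPolynomial.ringHom_ext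
      · intro r; rw [RingHom.comp_apply, qh_C, hΦC, hψC]; rfl
      · intro i
        fin_cases i
        · change Φ (qh C (MvPolynomial.X 0)) = j (cc Q (MvPolynomial.X 0))
          rw [qh_X0, hΦC, hψX]
        · change Φ (qh C (MvPolynomial.X 1)) = j (cc Q (MvPolynomial.X 1))
          rw [qh_X1, hΦ0]
        · change Φ (qh C (MvPolynomial.X 2)) = j (cc Q (MvPolynomial.X 2))
          rw [qh_X2, hΦ1]
    exact congrArg (fun f => f u) this
  have hgen : ∀ a ∈ Ideal.span {G}, Φ a = 0 := by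
    intro a ha
    rw [Ideal.mem_span_singleton] at ha
    obtain ⟨b, rfl⟩ := ha
    rw [map_mul, hG, map_add, map_pow, hΦ2, hΦq, ← map_pow, ← map_add, hroot, map_zero, zero_mul]
  -- the quotient
  obtain ⟨m, hm⟩ : ∃ m : MvPolynomial (Fin 3) (RatFunc C) →+*
      (MvPolynomial (Fin 3) (RatFunc C) ⧸ Ideal.span {G}), m = Ideal.Quotient.mk _ := ⟨_, rfl⟩
  have hmG : m G = 0 := by
    rw [hm]; exact Ideal.Quotient.eq_zero_iff_mem.2 (Ideal.mem_span_singleton_self _)
  obtain ⟨φ, hφm⟩ : ∃ φ : (MvPolynomial (Fin 3) (RatFunc C) ⧸ Ideal.span {G}) →+* L,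
      ∀ p, φ (m p) = Φ p :=
    ⟨Ideal.Quotient.lift _ Φ hgen, fun p => by rw [hm, Ideal.Quotient.lift_mk]⟩
  rw [← hm]
  refine ⟨φ, ?_, ?_, ?_, ?_, ?_, ?_⟩
  · -- injectivity
    have hκ : (Polynomial.X ^ 3 + Polynomial.C Q :
        Polynomial (MvPolynomial (Fin 3) C)).eval₂ (m.comp (qh C)) (m (MvPolynomial.X 2)) = 0 := by
      rw [Polynomial.eval₂_add, Polynomial.eval₂_pow, Polynomial.eval₂_X, Polynomial.eval₂_C,
        RingHom.comp_apply, ← map_pow, ← map_add, ← hG, hmG]
    obtain ⟨η, hη1, hη2⟩ : ∃ η : CR Q →+* (MvPolynomial (Fin 3) (RatFunc C) ⧸ Ideal.span {G}),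
        (∀ u, η (cc Q u) = m (qh C u)) ∧ η (zz Q) = m (MvPolynomial.X 2) :=
      ⟨AdjoinRoot.lift _ _ hκ, fun u => AdjoinRoot.lift_of hκ, AdjoinRoot.lift_root hκ⟩
    have hη : ∀ u, φ (η u) = j u := by
      intro u
      have : (φ.comp η) = j := by
        apply AdjoinRoot.ringHom_ext
        · apply RingHom.ext
          intro v
          change φ (η (cc Q v)) = j (cc Q v)
          rw [hη1, hφm, hΦq]
        · change φ (η (zz Q)) = j (zz Q)
          rw [hη2, hφm, hΦ2]
      rw [← this]; rfl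
    have key : ∀ p : MvPolynomial (Fin 3) (RatFunc C), ∃ s : RatFunc C, s ≠ 0 ∧
        (∃ v, m (MvPolynomial.C s) = η v) ∧ ∃ u, m (MvPolynomial.C s * p) = η u := by
      have hηp : ∀ q : Polynomial C, ∃ u, m (MvPolynomial.C (algebraMap _ _ q)) = η u := by
        intro q
        refine ⟨cc _ (Polynomial.eval₂RingHom (MvPolynomial.C : C →+* MvPolynomial (Fin 3) C)
          (MvPolynomial.X 0) q), ?_⟩
        rw [hη1, qh_ev]
      intro p
      induction p using MvPolynomial.induction_on with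
      | C a =>
        obtain ⟨u, hu⟩ := hηp (RatFunc.num a)
        refine ⟨algebraMap _ _ (RatFunc.denom a), ?_, hηp _, u, ?_⟩
        · exact RatFunc.algebraMap_ne_zero (RatFunc.denom_ne_zero a)
        · rw [← hu, ← MvPolynomial.C_mul]
          congr 2
          have h0 : (algebraMap (Polynomial C) (RatFunc C)) (RatFunc.denom a) ≠ 0 :=
            RatFunc.algebraMap_ne_zero (RatFunc.denom_ne_zero a)
          have h1 := RatFunc.num_div_denom a
          rw [div_eq_iff h0] at h1
          rw [h1, mul_comm]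
      | add p q hp hq =>
        obtain ⟨s, hs, ⟨v, hv⟩, u, hu⟩ := hp
        obtain ⟨s', hs', ⟨v', hv'⟩, u', hu'⟩ := hq
        refine ⟨s * s', mul_ne_zero hs hs', ⟨v * v', ?_⟩, v' * u + v * u', ?_⟩
        · rw [MvPolynomial.C_mul, map_mul, map_mul, hv, hv']
        · rw [map_add η, map_mul η, map_mul η, ← hv, ← hv', ← hu, ← hu', MvPolynomial.C_mul]
          simp only [map_mul, map_add]
          ring
      | mul_X p i hp =>
        obtain ⟨s, hs, ⟨v, hv⟩, u, hu⟩ := hp
        have hX : ∃ w, m (MvPolynomial.X i) = η w := by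
          fin_cases i
          · exact ⟨cc Q (MvPolynomial.X 1), by rw [hη1, qh_X1]; rfl⟩
          · exact ⟨cc Q (MvPolynomial.X 2), by rw [hη1, qh_X2]; rfl⟩
          · exact ⟨zz Q, by rw [hη2]; rfl⟩
        obtain ⟨w, hw⟩ := hX
        refine ⟨s, hs, ⟨v, hv⟩, u * w, ?_⟩
        rw [← mul_assoc, map_mul m, hu, hw, map_mul]
    rw [injective_iff_map_eq_zero]
    intro a ha
    obtain ⟨p, rfl⟩ : ∃ p, m p = a := by
      rw [hm]; exact Ideal.Quotient.mk_surjective a
    obtain ⟨s, hs, -, u, hu⟩ := key p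
    have h1 : j u = 0 := by
      rw [← hη, ← hu, map_mul m, map_mul, ha, mul_zero]
    have h2 : u = 0 := by
      apply hj; rw [h1, map_zero]
    rw [h2, map_zero, map_mul] at hu
    have h3 : m (MvPolynomial.C s⁻¹) * m (MvPolynomial.C s) = 1 := by
      rw [← map_mul, ← MvPolynomial.C_mul, inv_mul_cancel₀ hs, MvPolynomial.C_1, map_one]
    calc m p = (m (MvPolynomial.C s⁻¹) * m (MvPolynomial.C s)) * m p := by rw [h3, one_mul]
      _ = 0 := by rw [mul_assoc, hu, mul_zero]
  · rw [hφm, hΦC, hψX]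
  · intro c
    rw [hφm, hΦC, hψC]
  · rw [hφm, hΦ0]
  · rw [hφm, hΦ1]
  · rw [hφm, hΦ2]

theorem affRing_embed (C : Type) [Field C] [CharZero C] (L : Type*) [Field L]
    (j : CR (Q1 C) →+* L) (hj : Function.Injective j) :
    ∃ φ : affRing (RatFunc C) (FF C) →+* L, Function.Injective φ ∧
      φ (Ideal.Quotient.mk _ (MvPolynomial.C RatFunc.X)) = j (cc _ (MvPolynomial.X 0)) ∧
      (∀ c : C, φ (algebraMap C _ c) = j (cc _ (MvPolynomial.C c))) ∧
      φ (Ideal.Quotient.mk _ (MvPolynomial.X 0)) = j (cc _ (MvPolynomial.X 1)) ∧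
      φ (Ideal.Quotient.mk _ (MvPolynomial.X 1)) = j (cc _ (MvPolynomial.X 2)) ∧
      φ (Ideal.Quotient.mk _ (MvPolynomial.X 2)) = j (zz _) := by
  obtain ⟨φ, h1, h2, h3, h4, h5, h6⟩ := embed_gen C L (Q1 C) j hj _ (gen_eq C)
  refine ⟨φ, h1, h2, ?_, h4, h5, h6⟩
  intro c
  rw [← h3 c]
  rfl

theorem FF_smooth (C : Type) [Field C] [CharZero C] : IsSmoothCubic (RatFunc C) (FF C) := by
  have hX : (RatFunc.X : RatFunc C) ≠ 0 := RatFunc.X_ne_zero
  have hal : al C ≠ 0 := by
    have h1 : (RatFunc.X - 1 : RatFunc C) ≠ 0 := by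
      intro h
      have : (algebraMap (Polynomial C) (RatFunc C)) (Polynomial.X - 1) = 0 := by
        rw [map_sub, RatFunc.algebraMap_X, map_one, h]
      rw [FaithfulSMul.algebraMap_eq_zero_iff] at this
      exact Polynomial.X_sub_C_ne_zero (1 : C) (by simpa using this)
    have h2 : (1 - 2 * RatFunc.X : RatFunc C) ≠ 0 := by
      intro h
      have : (algebraMap (Polynomial C) (RatFunc C)) (1 - 2 * Polynomial.X) = 0 := by
        rw [map_sub, map_mul, RatFunc.algebraMap_X, map_one, map_ofNat, h]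
      rw [FaithfulSMul.algebraMap_eq_zero_iff] at this
      have h3 := congrArg (Polynomial.eval 0) this
      simp at h3
    unfold al
    exact mul_ne_zero (mul_ne_zero hX h1) (pow_ne_zero _ h2)
  refine ⟨?_, ?_⟩
  · unfold FF
    refine ((MvPolynomial.IsHomogeneous.add ?_ ?_).add ?_).add ?_
    · exact (MvPolynomial.isHomogeneous_C_mul_X_pow _ _ _)
    · exact (MvPolynomial.isHomogeneous_C_mul_X_pow _ _ _)
    · exact MvPolynomial.isHomogeneous_X_pow _ _
    · exact MvPolynomial.isHomogeneous_X_pow _ _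
  · intro Ω _ _ x hx _
    by_contra hcon
    have hcon' : ∀ i, MvPolynomial.aeval x (MvPolynomial.pderiv i (FF C)) = 0 := by
      intro i
      by_contra hi
      exact hcon ⟨i, hi⟩
    apply hx
    have h3 : (3 : Ω) ≠ 0 := by
      have : (3 : Ω) = algebraMap (RatFunc C) Ω 3 := by rw [map_ofNat]
      rw [this, Ne, FaithfulSMul.algebraMap_eq_zero_iff]
      have : (3 : RatFunc C) = algebraMap (Polynomial C) (RatFunc C) 3 := by rw [map_ofNat]
      rw [this, FaithfulSMul.algebraMap_eq_zero_iff]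
      intro h
      have h4 := congrArg (Polynomial.eval 0) h
      simp at h4
    have hA : algebraMap (RatFunc C) Ω (al C) ≠ 0 := by
      rwa [Ne, FaithfulSMul.algebraMap_eq_zero_iff]
    have hB : algebraMap (RatFunc C) Ω (al C * RatFunc.X) ≠ 0 := by
      rw [Ne, FaithfulSMul.algebraMap_eq_zero_iff]
      exact mul_ne_zero hal hX
    have e0 := hcon' 0
    have e1 := hcon' 1
    have e2 := hcon' 2
    have e3 := hcon' 3
    unfold FF at e0 e1 e2 e3
    simp only [map_add, Derivation.leibniz, Derivation.leibniz_pow, MvPolynomial.pderiv_C,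
      MvPolynomial.pderiv_X, smul_zero, add_zero, smul_eq_mul, nsmul_eq_mul, map_mul, map_pow,
      MvPolynomial.aeval_X, MvPolynomial.aeval_C, Pi.single_apply, Nat.cast_ofNat] at e0 e1 e2 e3
    simp [h3, hA] at e0 e1 e2 e3
    have e1' : x 1 = 0 := e1.resolve_left hX
    funext i
    fin_cases i
    · exact e0
    · exact e1'
    · exact e2
    · exact e3

end Pool.Agent.Helper346.Bra
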