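import Pool.Agent.Helper346.Bra.SA
import Pool.Agent.Helper346.Bra.SB
import Pool.Agent.Helper346.Bra.SC
import Pool.Agent.Helper346.Bra.SD
import Pool.Agent.Helper346.Bra.SE
import Pool.Agent.Helper346.Bra.SF
import Pool.Agent.Helper346.Bra.SG
import Pool.Agent.Helper346.Bra.SH
import Pool.Agent.Helper346.Bra.SI
import Pool.Agent.Helper346.Bra.TA
import Pool.Agent.Helper346.Bra.TB
import Pool.Agent.Helper346.Bra.TC
import Pool.Agent.Helper346.Bra.TD
import Pool.Agent.Helper346.Bra.TE
import Pool.Agent.Helper346.Bra.TF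
import Pool.Agent.Helper346.Bra.TG
import Pool.Agent.Helper346.Bra.TH
import Pool.Agent.Helper346.Bra.TI
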