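import Pool.Agent.Helper346.Bra.Defs5
import Pool.Agent.Helper346.Bra.SD

set_option autoImplicit false

open scoped TensorProduct

namespace Pool.Agent.Helper346.Bra



section Split5

open Polynomial in
theorem b5_detY {K : Type*} [Field K] {l : ℕ} (hl : l.Prime) (hl2 : l ≠ 2) (ζ a b : K)
    (hζ : IsPrimitiveRoot ζ l) (ha : a ≠ 0) (X Y : Matrix (Fin l) (Fin l) K)
    (hX : X ^ l = a • (1 : Matrix (Fin l) (Fin l) K)) (hY : Y ^ l = b • (1 : Matrix (Fin l) (Fin l) K))
    (hYX : Y * X = ζ • (X * Y)) : Y.det = b := by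
  have hlpos : 0 < l := hl.pos
  have hlodd : Odd l := hl.odd_of_ne_two hl2
  have hXdet : X.det ≠ 0 := by
    intro h0
    have := congrArg Matrix.det hX
    rw [Matrix.det_pow, Matrix.det_smul, Matrix.det_one, h0, zero_pow hlpos.ne', mul_one,
      Fintype.card_fin] at this
    exact pow_ne_zero l ha this.symm
  set χ := Y.charpoly with hχ
  have hcomp : χ.comp (C ζ * Polynomial.X) = χ := by
    have h1 : χ.comp (C ζ * Polynomial.X) =
        ((compRingHom (C ζ * Polynomial.X)).mapMatrix (Matrix.charmatrix Y)).det := by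
      rw [← RingHom.map_det, coe_compRingHom_apply]
      rfl
    set N := (compRingHom (C ζ * Polynomial.X)).mapMatrix (Matrix.charmatrix Y) with hN
    have hN' : N = (C ζ * Polynomial.X) • (1 : Matrix (Fin l) (Fin l) K[X]) - Y.map C := by
      ext i j
      rw [hN, RingHom.mapMatrix_apply, Matrix.map_apply, Matrix.sub_apply, Matrix.smul_apply,
        Matrix.map_apply, Matrix.charmatrix_apply, Matrix.one_apply, Matrix.diagonal_apply]
      simp only [coe_compRingHom_apply, sub_comp, C_comp]
      split_ifs <;> simp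
    have hC : (Matrix.charmatrix Y) = (Polynomial.X : K[X]) • (1 : Matrix (Fin l) (Fin l) K[X]) - Y.map C := by
      ext i j : 1
      rw [Matrix.charmatrix_apply, Matrix.sub_apply, Matrix.smul_apply, Matrix.map_apply,
        Matrix.one_apply, Matrix.diagonal_apply]
      split_ifs <;> simp
    have hYX' : Y.map C * X.map C = C ζ • (X.map C * Y.map C) := by
      have e1 : Y.map C * X.map C = (Y * X).map C := (Matrix.map_mul).symm
      have e2 : X.map C * Y.map C = (X * Y).map C := (Matrix.map_mul).symm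
      rw [e1, e2, hYX]
      ext i j : 1
      simp [Matrix.map_apply, -Matrix.map_mul]
    have hconj : N * X.map C = X.map C * (C ζ • Matrix.charmatrix Y) := by
      rw [hN', hC, sub_mul, hYX', smul_sub, mul_sub, Matrix.mul_smul, Matrix.mul_smul,
        Matrix.mul_smul, Matrix.mul_one, Matrix.smul_mul, Matrix.one_mul, smul_smul]
    have hdet := congrArg Matrix.det hconj
    rw [Matrix.det_mul, Matrix.det_mul, Matrix.det_smul, Fintype.card_fin, ← C_pow, hζ.pow_eq_one,
      C_1, one_mul, mul_comm] at hdet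
    have hXC : (X.map C).det ≠ (0 : K[X]) := by
      have : (X.map C).det = C X.det := by
        rw [RingHom.map_det]
        rfl
      rw [this]
      simpa using hXdet
    rw [h1]
    exact mul_left_cancel₀ hXC hdet
  have hcoef : ∀ i, 0 < i → i < l → χ.coeff i = 0 := by
    intro i hi hil
    have h1 := congrArg (fun q => Polynomial.coeff q i) hcomp
    simp only [comp_C_mul_X_coeff] at h1
    have h2 : ζ ^ i ≠ 1 := hζ.pow_ne_one_of_pos_of_lt hi.ne' hil
    have h3 : χ.coeff i * (ζ ^ i - 1) = 0 := by linear_combination h1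
    rcases mul_eq_zero.1 h3 with h4 | h4
    · exact h4
    · exact absurd (sub_eq_zero.1 h4) h2
  have hdeg : χ.natDegree = l := by rw [hχ, Matrix.charpoly_natDegree_eq_dim, Fintype.card_fin]
  have hmon : χ.Monic := Matrix.charpoly_monic Y
  have hform : χ = Polynomial.X ^ l + C (χ.coeff 0) := by
    ext i
    rw [coeff_add, coeff_X_pow, coeff_C]
    rcases Nat.eq_zero_or_pos i with hi | hi
    · subst hi
      simp [hlpos.ne]
    · rcases lt_trichotomy i l with h | h | h
      · rw [hcoef i hi h, if_neg h.ne, if_neg hi.ne']; simp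
      · subst h
        rw [if_pos rfl, if_neg hi.ne']
        have := hmon.coeff_natDegree
        rw [hdeg] at this
        rw [this]; simp
      · rw [if_neg h.ne', if_neg hi.ne', coeff_eq_zero_of_natDegree_lt (by omega)]; simp
  have hCH : (aeval Y) χ = 0 := Matrix.aeval_self_charpoly Y
  rw [hform, map_add, map_pow, aeval_X, aeval_C, hY, Algebra.algebraMap_eq_smul_one,
    ← add_smul] at hCH
  have h00 : b + χ.coeff 0 = 0 := by
    have := congrFun (congrFun hCH ⟨0, hlpos⟩) ⟨0, hlpos⟩
    simpa using this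
  rw [Matrix.det_eq_sign_charpoly_coeff, Fintype.card_fin, hlodd.neg_one_pow]
  linear_combination (-1 : K) * h00

theorem b5_pow {K : Type*} [Field K] (l : ℕ) [Fact l.Prime] (c : K) (hc : c ≠ 0) (b : K) :
    ∃ (d : K) (g : Fin l → K), ¬ (d = 0 ∧ g = 0) ∧ b * d ^ l = nform (c ^ l) g := by
  have hl : l.Prime := Fact.out
  have h2 : 2 ≤ l := hl.two_le
  refine ⟨0, fun j => c ^ (l - 1 - (j : ℕ)), ?_, ?_⟩
  · rintro ⟨-, h⟩
    have := congrFun h ⟨0, by omega⟩
    simp only [Pi.zero_apply] at this
    exact pow_ne_zero _ hc this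
  · rw [zero_pow (by omega), mul_zero]
    unfold nform
    symm
    rw [← Matrix.exists_mulVec_eq_zero_iff]
    have hM : ∀ i j : Fin l, (if j ≤ i then c ^ (l - 1 - ((i - j : Fin l) : ℕ))
        else c ^ l * c ^ (l - 1 - ((i - j : Fin l) : ℕ))) = c ^ (l - 1 - (i : ℕ)) * c ^ (j : ℕ) := by
      intro i j
      have hi := i.2
      have hj := j.2
      split_ifs with h
      · rw [Fin.coe_sub_iff_le.2 h, ← pow_add]
        congr 1
        have : (j : ℕ) ≤ i := h
        omega
      · rw [not_le] at h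
        rw [Fin.coe_sub_iff_lt.2 h, ← pow_add, ← pow_add]
        congr 1
        have : (i : ℕ) < j := h
        omega
    refine ⟨fun j => if j = ⟨0, by omega⟩ then c else if j = ⟨1, by omega⟩ then -1 else 0, ?_, ?_⟩
    · intro h
      have := congrFun h ⟨0, by omega⟩
      simp only [Pi.zero_apply, if_true] at this
      exact hc this
    · ext i
      rw [Matrix.mulVec, dotProduct]
      simp only [Matrix.of_apply, hM, Pi.zero_apply]
      rw [Finset.sum_eq_add (⟨0, by omega⟩ : Fin l) (⟨1, by omega⟩ : Fin l)]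
      · simp
      · simp
      · intro k _ hk
        rw [if_neg hk.1, if_neg hk.2, mul_zero]
      · simp
      · simp

open Polynomial in
theorem b5_nonpow {K : Type*} [Field K] (l : ℕ) [Fact l.Prime] (hl2 : l ≠ 2) (ζ a : K)
    (hζ : IsPrimitiveRoot ζ l) (hna : ∀ c : K, c ^ l ≠ a) (X Y : Matrix (Fin l) (Fin l) K)
    (hX : X ^ l = a • (1 : Matrix (Fin l) (Fin l) K))
    (hYX : Y * X = ζ • (X * Y)) : ∃ g : Fin l → K, Y.det = nform a g := by
  have hl : l.Prime := Fact.out
  have hlpos : 0 < l := hl.pos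
  have hirr : Irreducible (Polynomial.X ^ l - C a : K[X]) := X_pow_sub_C_irreducible_of_prime hl hna
  set v : Fin l → K := Pi.single ⟨0, hlpos⟩ 1 with hv
  have hv0 : v ≠ 0 := by
    intro h
    have := congrFun h ⟨0, hlpos⟩
    simp [hv] at this
  have hinj : ∀ q : K[X], q.degree < (l : WithBot ℕ) → (aeval X q).mulVec v = 0 → q = 0 := by
    intro q hq hqv
    by_contra hq0
    have hcop : IsCoprime q (Polynomial.X ^ l - C a : K[X]) := by
      rw [isCoprime_comm]
      refine (hirr.coprime_iff_not_dvd).2 ?_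
      intro hdvd
      have := Polynomial.degree_le_of_dvd hdvd hq0
      rw [degree_X_pow_sub_C hlpos] at this
      exact absurd hq (not_lt.2 this)
    obtain ⟨u, w, huw⟩ := hcop
    have h1 := congrArg (fun p => (aeval X p).mulVec v) huw
    simp only [map_add, map_mul, map_one, map_sub, map_pow, aeval_X, aeval_C, hX,
      Algebra.algebraMap_eq_smul_one, sub_self, mul_zero, add_zero, Matrix.one_mulVec,
      ← Matrix.mulVec_mulVec, hqv, Matrix.mulVec_zero] at h1
    exact hv0 h1.symm
  have hmul : ∀ (N : Matrix (Fin l) (Fin l) K) (f : Fin l → K),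
      ∑ i : Fin l, f i • (X ^ (i : ℕ)).mulVec v =
        (aeval X (∑ i : Fin l, C (f i) * Polynomial.X ^ (i : ℕ))).mulVec v := by
    intro N f
    rw [map_sum, Matrix.sum_mulVec]
    refine Finset.sum_congr rfl fun i _ => ?_
    rw [map_mul, aeval_C, map_pow, aeval_X, Algebra.algebraMap_eq_smul_one, smul_mul_assoc,
      one_mul, Matrix.smul_mulVec]
  set P : Matrix (Fin l) (Fin l) K := Matrix.of fun r j => (X ^ (j : ℕ)).mulVec v r with hP
  have hPcol : ∀ f : Fin l → K, P.mulVec f = ∑ i : Fin l, f i • (X ^ (i : ℕ)).mulVec v := by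
    intro f
    ext r
    rw [Matrix.mulVec, dotProduct, Finset.sum_apply]
    refine Finset.sum_congr rfl fun i _ => ?_
    rw [Pi.smul_apply, smul_eq_mul, mul_comm]
    rfl
  have hPu : IsUnit P := by
    rw [← Matrix.linearIndependent_cols_iff_isUnit]
    rw [Fintype.linearIndependent_iff]
    intro f hf i
    have h1 : ∑ i : Fin l, f i • (X ^ (i : ℕ)).mulVec v = 0 := hf
    rw [hmul 1] at h1
    have h2 := hinj _ (degree_sum_fin_lt f) h1
    have h3 := congrArg (fun q => Polynomial.coeff q (i : ℕ)) h2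
    simp only [finsetSum_coeff, coeff_C_mul, coeff_X_pow, coeff_zero] at h3
    rw [Finset.sum_eq_single i] at h3
    · simpa using h3
    · intro j _ hj
      have : (i : ℕ) ≠ j := fun h => hj (Fin.ext h.symm)
      simp [this]
    · simp
  have hPdet : P.det ≠ 0 := by
    have := (Matrix.isUnit_iff_isUnit_det P).1 hPu
    exact this.ne_zero
  set g : Fin l → K := P⁻¹.mulVec (Y.mulVec v) with hg
  have hPg : P.mulVec g = Y.mulVec v := by
    rw [hg, Matrix.mulVec_mulVec, Matrix.mul_nonsing_inv _ ((Matrix.isUnit_iff_isUnit_det P).1 hPu),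
      Matrix.one_mulVec]
  have hYXj : ∀ j : ℕ, Y * X ^ j = ζ ^ j • (X ^ j * Y) := by
    intro j
    induction j with
    | zero => simp
    | succ j ih =>
      rw [pow_succ, ← mul_assoc, ih, smul_mul_assoc, mul_assoc, hYX, mul_smul_comm, smul_smul,
        ← mul_assoc, pow_succ]
  set M : Matrix (Fin l) (Fin l) K :=
    Matrix.of fun i j : Fin l => if j ≤ i then g (i - j) else a * g (i - j) with hM
  have hPM : ∀ j : Fin l, P.mulVec (fun k => M k j) = (X ^ (j : ℕ)).mulVec (Y.mulVec v) := by
    intro j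
    rw [← hPg, hPcol, hPcol, Matrix.mulVec_sum]
    symm
    apply Fintype.sum_equiv (Equiv.addRight j)
    intro i
    rw [Matrix.mulVec_smul, Matrix.mulVec_mulVec, ← pow_add, Equiv.coe_addRight, hM, Matrix.of_apply,
      add_sub_cancel_right]
    have hi := i.2
    have hj := j.2
    by_cases h : (i : ℕ) + j < l
    · have h1 : ((i + j : Fin l) : ℕ) = i + j := Fin.val_add_eq_of_add_lt h
      have h2 : j ≤ i + j := by
        rw [Fin.le_def, h1]; omega
      rw [if_pos h2, h1, add_comm]
    · have h1 : ((i + j : Fin l) : ℕ) = i + j - l := by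
        rw [Fin.val_add_eq_ite, if_pos (by omega)]
      have h2 : ¬ j ≤ i + j := by
        rw [Fin.le_def, h1]; omega
      rw [if_neg h2, h1]
      have h3 : (j : ℕ) + i = (i + j - l) + l := by omega
      rw [h3, pow_add, hX, mul_smul_comm, mul_one, Matrix.smul_mulVec, smul_smul, mul_comm]
  have hkey : Y * P = P * (M * Matrix.diagonal fun j : Fin l => ζ ^ (j : ℕ)) := by
    rw [← mul_assoc]
    ext r j
    rw [Matrix.mul_diagonal]
    have h1 : (Y * P) r j = (Y.mulVec ((X ^ (j : ℕ)).mulVec v)) r := rfl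
    have h2 : (P * M) r j = (P.mulVec (fun k => M k j)) r := rfl
    rw [h1, h2, hPM, Matrix.mulVec_mulVec, hYXj, Matrix.smul_mulVec, Matrix.mulVec_mulVec,
      Pi.smul_apply, smul_eq_mul, mul_comm]
  have hdet := congrArg Matrix.det hkey
  rw [Matrix.det_mul, Matrix.det_mul, Matrix.det_mul, Matrix.det_diagonal, mul_comm] at hdet
  have hprod : ∏ i : Fin l, ζ ^ (i : ℕ) = 1 := by
    rw [Fin.prod_univ_eq_prod_range (fun i => ζ ^ i) l, Finset.prod_pow_eq_pow_sum,
      Finset.sum_range_id]
    obtain ⟨m, hm⟩ := hl.odd_of_ne_two hl2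
    have : l * (l - 1) / 2 = l * m := by
      have h1 : l - 1 = m * 2 := by omega
      rw [h1, ← mul_assoc, Nat.mul_div_cancel _ (by norm_num)]
    rw [this, pow_mul, hζ.pow_eq_one, one_pow]
  rw [hprod, mul_one] at hdet
  refine ⟨g, ?_⟩
  exact mul_left_cancel₀ hPdet hdet

end Split5

theorem split_normL {K : Type*} [Field K] (l : ℕ) [Fact l.Prime] (hl2 : l ≠ 2) (ζ a b : K)
    (hζ : IsPrimitiveRoot ζ l) (hl0 : (l : K) ≠ 0) (ha : a ≠ 0) (hb : b ≠ 0)
    (h : IsSplit K (Symb K l ζ a b)) :
    ∃ (d : K) (g : Fin l → K), ¬ (d = 0 ∧ g = 0) ∧ b * d ^ l = nform a g := by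
  have hl : l.Prime := Fact.out
  obtain ⟨n, ⟨e⟩⟩ := h
  have hfin := (symb_csa l hl.pos ζ a b hζ hl0 ha hb).2.2.2
  have hn : n = l := by
    have h1 := e.toLinearEquiv.finrank_eq
    rw [hfin, Module.finrank_matrix, Fintype.card_fin, Module.finrank_self, mul_one, ← sq] at h1
    exact (Nat.pow_left_injective (n := 2) (by norm_num) h1).symm
  subst hn
  by_cases hp : ∃ c : K, c ^ n = a
  · obtain ⟨c, hc⟩ := hp
    have hc0 : c ≠ 0 := by
      rintro rfl
      rw [zero_pow hl.pos.ne'] at hc
      exact ha hc.symm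
    rw [← hc]
    exact b5_pow n c hc0 b
  · push Not at hp
    have hX : (e (gx K n ζ a b)) ^ n = a • (1 : Matrix (Fin n) (Fin n) K) := by
      rw [← map_pow, gx_pow, AlgEquiv.commutes, Algebra.algebraMap_eq_smul_one]
    have hY : (e (gy K n ζ a b)) ^ n = b • (1 : Matrix (Fin n) (Fin n) K) := by
      rw [← map_pow, gy_pow, AlgEquiv.commutes, Algebra.algebraMap_eq_smul_one]
    have hYX : e (gy K n ζ a b) * e (gx K n ζ a b) =
        ζ • (e (gx K n ζ a b) * e (gy K n ζ a b)) := by
      rw [← map_mul, gy_gx, map_mul, AlgEquiv.commutes, Algebra.algebraMap_eq_smul_one,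
        smul_mul_assoc, one_mul, map_mul]
    obtain ⟨g, hg⟩ := b5_nonpow n hl2 ζ a hζ hp _ _ hX hYX
    have hd := b5_detY hl hl2 ζ a b hζ ha _ _ hX hY hYX
    refine ⟨1, g, fun h => one_ne_zero h.1, ?_⟩
    rw [one_pow, mul_one, ← hg, hd]

end Pool.Agent.Helper346.Bra
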