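import Pool.Agent.Helper346.Bra.Defs5

set_option autoImplicit false

open scoped TensorProduct

namespace Pool.Agent.Helper346.Bra



theorem dval_w_one {K κ : Type*} [Field K] [Field κ] (D : DVal K κ) : D.w 1 = 0 := by
  have h := D.w_mul 1 1 one_ne_zero one_ne_zero
  rw [mul_one] at h
  linarith

theorem dval_lc_one {K κ : Type*} [Field K] [Field κ] (D : DVal K κ) : D.lc 1 = 1 := by
  have h := D.lc_mul 1 1 one_ne_zero one_ne_zero
  rw [mul_one] at h
  have h1 := D.lc_ne 1 one_ne_zero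
  have h2 : D.lc 1 * 1 = D.lc 1 * D.lc 1 := by rw [mul_one]; exact h
  exact (mul_left_cancel₀ h1 h2).symm

theorem dval_w_neg {K κ : Type*} [Field K] [Field κ] (D : DVal K κ) (x : K) (hx : x ≠ 0) :
    D.w (-x) = D.w x := by
  have h1 : (-1 : K) ≠ 0 := neg_ne_zero.2 one_ne_zero
  have h := D.w_mul (-1) (-1) h1 h1
  rw [neg_mul_neg, one_mul, dval_w_one] at h
  have h2 := D.w_mul (-1) x h1 hx
  rw [neg_one_mul] at h2
  linarith

theorem dval_w_prod {K κ : Type*} [Field K] [Field κ] (D : DVal K κ) {ι : Type*} (s : Finset ι)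
    (f : ι → K) (h : ∀ i ∈ s, f i ≠ 0) :
    (∏ i ∈ s, f i) ≠ 0 ∧ D.w (∏ i ∈ s, f i) = ∑ i ∈ s, D.w (f i) := by
  classical
  induction s using Finset.induction_on with
  | empty => simp [dval_w_one]
  | insert j s hj ih =>
    obtain ⟨h1, h2⟩ := ih fun i hi => h i (Finset.mem_insert_of_mem hi)
    have h3 := h j (Finset.mem_insert_self _ _)
    rw [Finset.prod_insert hj, Finset.sum_insert hj]
    exact ⟨mul_ne_zero h3 h1, by rw [D.w_mul _ _ h3 h1, h2]⟩

theorem dval_w_pow {K κ : Type*} [Field K] [Field κ] (D : DVal K κ) (x : K) (hx : x ≠ 0) (n : ℕ) :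
    D.w (x ^ n) = n * D.w x := by
  induction n with
  | zero => simp [dval_w_one]
  | succ n ih =>
    rw [pow_succ, D.w_mul _ _ (pow_ne_zero n hx) hx, ih]
    push_cast
    ring

theorem dval_lc_pow {K κ : Type*} [Field K] [Field κ] (D : DVal K κ) (x : K) (hx : x ≠ 0) (n : ℕ) :
    D.lc (x ^ n) = D.lc x ^ n := by
  induction n with
  | zero => simp [dval_lc_one]
  | succ n ih =>
    rw [pow_succ, D.lc_mul _ _ (pow_ne_zero n hx) hx, ih, pow_succ]

theorem dval_dom {K κ : Type*} [Field K] [Field κ] (D : DVal K κ) {ι : Type*} [DecidableEq ι]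
    (s : Finset ι) (f : ι → K) (i0 : ι) (hi0 : i0 ∈ s) (h0 : f i0 ≠ 0)
    (hmin : ∀ i ∈ s, i ≠ i0 → f i ≠ 0 → D.w (f i0) < D.w (f i)) :
    (∑ i ∈ s, f i) ≠ 0 ∧ D.w (∑ i ∈ s, f i) = D.w (f i0) ∧ D.lc (∑ i ∈ s, f i) = D.lc (f i0) := by
  have key : ∀ t : Finset ι, (∀ i ∈ t, f i ≠ 0 → D.w (f i0) < D.w (f i)) →
      (f i0 + ∑ i ∈ t, f i) ≠ 0 ∧ D.w (f i0 + ∑ i ∈ t, f i) = D.w (f i0) ∧
        D.lc (f i0 + ∑ i ∈ t, f i) = D.lc (f i0) := by
    intro t
    induction t using Finset.induction_on with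
    | empty => intro _; simp [h0]
    | insert j t hj ih =>
      intro ht
      obtain ⟨k1, k2, k3⟩ := ih fun i hi => ht i (Finset.mem_insert_of_mem hi)
      rw [Finset.sum_insert hj]
      have e : f i0 + (f j + ∑ i ∈ t, f i) = (f i0 + ∑ i ∈ t, f i) + f j := by ring
      rw [e]
      by_cases hfj : f j = 0
      · rw [hfj, add_zero]
        exact ⟨k1, k2, k3⟩
      · have hlt := ht j (Finset.mem_insert_self _ _) hfj
        obtain ⟨m1, m2, m3⟩ := D.add_lt _ _ k1 hfj (by rw [k2]; exact hlt)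
        exact ⟨m1, m2.trans k2, m3.trans k3⟩
  rw [← Finset.add_sum_erase s f hi0]
  exact key (s.erase i0) fun i hi => hmin i (Finset.mem_of_mem_erase hi) (Finset.ne_of_mem_erase hi)

theorem norm_val {K κ : Type*} [Field K] [Field κ] (D : DVal K κ) (l : ℕ) [Fact l.Prime]
    (hl2 : l ≠ 2) (a b d : K) (g : Fin l → K) (ha : a ≠ 0) (hb : b ≠ 0)
    (hwa : ¬ (l : ℤ) ∣ D.w a) (hwb : D.w b = 0) (hlc : ∀ c : κ, c ^ l ≠ D.lc b)
    (h : b * d ^ l = nform a g) : d = 0 ∧ g = 0 := by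
  classical
  have hlp : l.Prime := Fact.out
  have hl0 : 0 < l := hlp.pos
  have hlz : (0 : ℤ) < l := by exact_mod_cast hl0
  -- the terms of the determinant
  obtain ⟨M, hM⟩ : ∃ M : Matrix (Fin l) (Fin l) K,
      M = Matrix.of fun i j : Fin l => if j ≤ i then g (i - j) else a * g (i - j) := ⟨_, rfl⟩
  have hdet : nform a g = ∑ σ : Equiv.Perm (Fin l), Equiv.Perm.sign σ • ∏ i, M (σ i) i := by
    unfold nform
    rw [← hM, Matrix.det_apply]
  have hMij : ∀ i j, M i j = if j ≤ i then g (i - j) else a * g (i - j) := by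
    intro i j; rw [hM]; rfl
  have hMne : ∀ i j, g (i - j) ≠ 0 → M i j ≠ 0 := by
    intro i j hg
    rw [hMij]
    split_ifs
    · exact hg
    · exact mul_ne_zero ha hg
  have hMz : ∀ i j, g (i - j) = 0 → M i j = 0 := by
    intro i j hg
    rw [hMij, hg]
    split_ifs <;> simp
  have hMw : ∀ i j, g (i - j) ≠ 0 → (l : ℤ) * D.w (M i j) =
      ((l : ℤ) * D.w (g (i - j)) + ((i - j : Fin l) : ℕ) * D.w a) - ((i : ℕ) - (j : ℕ) : ℤ) * D.w a := by
    intro i j hg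
    rw [hMij]
    have hv : ((i - j : Fin l) : ℕ) = (l - (j : ℕ) + (i : ℕ)) % l := Fin.val_sub i j
    have hi := i.2
    have hj := j.2
    split_ifs with hij
    · have hij' : (j : ℕ) ≤ i := hij
      have e1 : l - (j : ℕ) + (i : ℕ) = ((i : ℕ) - j) + l := by omega
      have e2 : ((i - j : Fin l) : ℕ) = (i : ℕ) - j := by
        rw [hv, e1, Nat.add_mod_right, Nat.mod_eq_of_lt (by omega)]
      rw [e2]
      push_cast [hij']
      ring
    · have hij' : (i : ℕ) < j := by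
        have := not_le.1 hij
        exact this
      have e2 : ((i - j : Fin l) : ℕ) = l - (j : ℕ) + (i : ℕ) := by
        rw [hv, Nat.mod_eq_of_lt (by omega)]
      rw [e2, D.w_mul _ _ ha hg]
      push_cast [hj.le]
      ring
  obtain ⟨φ, hφ⟩ : ∃ φ : Fin l → ℤ, φ = fun k => (l : ℤ) * D.w (g k) + ((k : ℕ) : ℤ) * D.w a :=
    ⟨_, rfl⟩
  -- the terms
  obtain ⟨T, hT⟩ : ∃ T : Equiv.Perm (Fin l) → K,
      T = fun σ => Equiv.Perm.sign σ • ∏ i, M (σ i) i := ⟨_, rfl⟩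
  have hdet' : nform a g = ∑ σ, T σ := by rw [hdet, hT]
  have hTz : ∀ σ : Equiv.Perm (Fin l), T σ ≠ 0 → ∀ i, g (σ i - i) ≠ 0 := by
    intro σ hσ i hi
    apply hσ
    have hTσ : T σ = Equiv.Perm.sign σ • ∏ i, M (σ i) i := by rw [hT]
    have hp : ∏ i, M (σ i) i = 0 := Finset.prod_eq_zero (Finset.mem_univ i) (hMz _ _ hi)
    rw [hTσ, hp, smul_zero]
  have hTw : ∀ σ : Equiv.Perm (Fin l), (∀ i, g (σ i - i) ≠ 0) →
      T σ ≠ 0 ∧ (l : ℤ) * D.w (T σ) = ∑ i, φ (σ i - i) := by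
    intro σ hσ
    obtain ⟨p1, p2⟩ := dval_w_prod D Finset.univ (fun i => M (σ i) i) (fun i _ => hMne _ _ (hσ i))
    have hTσ : T σ = Equiv.Perm.sign σ • ∏ i, M (σ i) i := by rw [hT]
    have hw : T σ ≠ 0 ∧ D.w (T σ) = ∑ i, D.w (M (σ i) i) := by
      rw [hTσ]
      rcases Int.units_eq_one_or (Equiv.Perm.sign σ) with hs | hs
      · rw [hs, one_smul]
        exact ⟨p1, p2⟩
      · rw [hs, Units.neg_smul, one_smul]
        exact ⟨neg_ne_zero.2 p1, by rw [dval_w_neg D _ p1]; exact p2⟩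
    refine ⟨hw.1, ?_⟩
    rw [hw.2, Finset.mul_sum, Finset.sum_congr rfl fun i _ => hMw (σ i) i (hσ i),
      Finset.sum_sub_distrib, ← Finset.sum_mul, Finset.sum_sub_distrib]
    have e1 : ∑ i : Fin l, (((σ i : Fin l) : ℕ) : ℤ) = ∑ i : Fin l, ((i : ℕ) : ℤ) :=
      Equiv.sum_comp σ (fun i : Fin l => ((i : ℕ) : ℤ))
    rw [e1, sub_self, zero_mul, sub_zero, hφ]
  by_cases hg : g = 0
  · refine ⟨?_, hg⟩
    have h0 : nform a g = 0 := by
      rw [hdet']
      apply Finset.sum_eq_zero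
      intro σ _
      by_contra hne
      exact hTz σ hne ⟨0, hl0⟩ (by rw [hg]; rfl)
    rw [h0] at h
    rcases mul_eq_zero.1 h with h1 | h1
    · exact absurd h1 hb
    · exact (pow_eq_zero_iff hl0.ne').1 h1
  exfalso
  -- the minimum of φ
  have hne : (Finset.univ.filter fun k : Fin l => g k ≠ 0).Nonempty := by
    by_contra hcon
    apply hg
    funext k
    by_contra hk
    exact hcon ⟨k, Finset.mem_filter.2 ⟨Finset.mem_univ _, fun h0 => hk (by rw [h0]; rfl)⟩⟩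
  obtain ⟨k0, hk0, hmin⟩ := Finset.exists_min_image _ φ hne
  have hgk0 : g k0 ≠ 0 := (Finset.mem_filter.1 hk0).2
  have hinj : ∀ k k' : Fin l, φ k = φ k' → k = k' := by
    intro k k' hkk
    rw [hφ] at hkk
    have hkk' : (l : ℤ) * D.w (g k) + ((k : ℕ) : ℤ) * D.w a =
      (l : ℤ) * D.w (g k') + ((k' : ℕ) : ℤ) * D.w a := hkk
    have h1 : (l : ℤ) ∣ (((k : ℕ) : ℤ) - ((k' : ℕ) : ℤ)) * D.w a :=
      ⟨D.w (g k') - D.w (g k), by linarith⟩
    have hpz : Prime (l : ℤ) := Nat.prime_iff_prime_int.1 hlp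
    rcases hpz.dvd_or_dvd h1 with h2 | h2
    · apply Fin.ext
      have h3 : (((k : ℕ) : ℤ) - ((k' : ℕ) : ℤ)) = 0 := by
        apply Int.eq_zero_of_abs_lt_dvd h2
        rw [abs_lt]
        have := k.2
        have := k'.2
        constructor <;> omega
      omega
    · exact absurd h2 hwa
  have hmin' : ∀ k : Fin l, g k ≠ 0 → φ k0 ≤ φ k := fun k hk =>
    hmin k (Finset.mem_filter.2 ⟨Finset.mem_univ _, hk⟩)
  -- the rotation
  obtain ⟨ρ, hρ⟩ : ∃ ρ : Equiv.Perm (Fin l), ∀ i, ρ i = i + k0 :=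
    ⟨Equiv.addRight k0, fun i => rfl⟩
  have hρi : ∀ i, ρ i - i = k0 := by
    intro i; rw [hρ]; exact add_sub_cancel_left i k0
  obtain ⟨r1, r2⟩ := hTw ρ (fun i => by rw [hρi]; exact hgk0)
  have r3 : ∑ i, φ (ρ i - i) = (l : ℤ) * φ k0 := by
    rw [Finset.sum_congr rfl fun i _ => by rw [hρi i]]
    simp
  rw [r3] at r2
  have r4 : D.w (T ρ) = φ k0 := mul_left_cancel₀ hlz.ne' r2
  obtain ⟨s1, s2, s3⟩ := dval_dom D Finset.univ T ρ (Finset.mem_univ _) r1 (by
    intro σ _ hσ hTσ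
    have hgσ := hTz σ hTσ
    have h1 := (hTw σ hgσ).2
    have h2 : (l : ℤ) * φ k0 < ∑ i, φ (σ i - i) := by
      have h3 : ∑ _i : Fin l, φ k0 < ∑ i, φ (σ i - i) := by
        apply Finset.sum_lt_sum
        · intro i _
          exact hmin' _ (hgσ i)
        · obtain ⟨i, hi⟩ : ∃ i, σ i ≠ ρ i := by
            by_contra hcon
            push Not at hcon
            exact hσ (Equiv.ext hcon)
          refine ⟨i, Finset.mem_univ _, lt_of_le_of_ne (hmin' _ (hgσ i)) ?_⟩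
          intro he
          apply hi
          have h4 := hinj _ _ he
          rw [hρ, h4]
          abel
      simpa using h3
    rw [r4]
    rw [← h1] at h2
    exact lt_of_mul_lt_mul_left h2 hlz.le)
  rw [← hdet', ← h] at s1 s2 s3
  have hd : d ≠ 0 := by
    intro hd
    apply s1
    rw [hd, zero_pow hl0.ne', mul_zero]
  rw [D.w_mul _ _ hb (pow_ne_zero l hd), dval_w_pow D d hd, hwb, r4, hφ] at s2
  have s2' : 0 + (l : ℤ) * D.w d = (l : ℤ) * D.w (g k0) + ((k0 : ℕ) : ℤ) * D.w a := s2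
  have hk0' : (k0 : ℕ) = 0 := by
    have h1 : (l : ℤ) ∣ ((k0 : ℕ) : ℤ) * D.w a := ⟨D.w d - D.w (g k0), by linarith⟩
    have hpz : Prime (l : ℤ) := Nat.prime_iff_prime_int.1 hlp
    rcases hpz.dvd_or_dvd h1 with h2 | h2
    · have h3 : l ∣ (k0 : ℕ) := by exact_mod_cast h2
      exact Nat.eq_zero_of_dvd_of_lt h3 k0.2
    · exact absurd h2 hwa
  have hρ1 : ρ = 1 := by
    apply Equiv.ext
    intro i
    rw [hρ]
    show i + k0 = i
    have : k0 = 0 := Fin.ext hk0'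
    rw [this, add_zero]
  have hT1 : T ρ = g k0 ^ l := by
    rw [hρ1, hT]
    show Equiv.Perm.sign (1 : Equiv.Perm (Fin l)) • ∏ i, M ((1 : Equiv.Perm (Fin l)) i) i = _
    rw [Equiv.Perm.sign_one, one_smul]
    have h1 : ∀ i : Fin l, M ((1 : Equiv.Perm (Fin l)) i) i = g k0 := by
      intro i
      rw [hMij]
      have e : ((1 : Equiv.Perm (Fin l)) i) = i := rfl
      rw [e, if_pos le_rfl, sub_self]
      congr 1
      exact (Fin.ext hk0').symm
    rw [Finset.prod_congr rfl fun i _ => h1 i]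
    simp
  rw [hT1, dval_lc_pow D _ hgk0, D.lc_mul _ _ hb (pow_ne_zero l hd), dval_lc_pow D _ hd] at s3
  have hlcd : D.lc d ≠ 0 := D.lc_ne d hd
  apply hlc (D.lc (g k0) / D.lc d)
  rw [div_pow, ← s3]
  field_simp

end Pool.Agent.Helper346.Bra
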