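import Pool.Agent.Helper346.Bra.Defs5
import Pool.Agent.Helper346.Bra.SD
import Pool.Agent.Helper346.Bra.SH

set_option autoImplicit false

open scoped TensorProduct

namespace Pool.Agent.Helper346.Bra



private noncomputable def tensorMat5 {K A B : Type*} [Field K] [Ring A] [Algebra K A] [Ring B]
    [Algebra K B] (n : Type*) [Fintype n] [DecidableEq n] :
    A ⊗[K] Matrix n n B ≃ₐ[K] Matrix n n (A ⊗[K] B) :=
  (Algebra.TensorProduct.congr AlgEquiv.refl (matrixEquivTensor n K B)).trans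
    ((Algebra.TensorProduct.assoc K K K A B (Matrix n n K)).symm.trans
      (matrixEquivTensor n K (A ⊗[K] B)).symm)

private theorem step5a {K S T B C : Type*} [Field K] [Ring S] [Algebra K S] [Ring T]
    [Algebra K T] [Ring B] [Algebra K B] [Ring C] [Algebra K C] {n l : ℕ}
    (e : T ≃ₐ[K] Matrix (Fin n) (Fin n) B) (f : S ⊗[K] B ≃ₐ[K] Matrix (Fin l) (Fin l) C) :
    Nonempty (S ⊗[K] T ≃ₐ[K] Matrix (Fin (n * l)) (Fin (n * l)) C) := by
  let f1 := Algebra.TensorProduct.congr (AlgEquiv.refl (R := K) (A₁ := S)) e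
  let f2 := tensorMat5 (K := K) (A := S) (B := B) (Fin n)
  let f3 : Matrix (Fin n) (Fin n) (S ⊗[K] B) ≃ₐ[K]
      Matrix (Fin n) (Fin n) (Matrix (Fin l) (Fin l) C) := f.mapMatrix
  let f4 := Matrix.compAlgEquiv (Fin n) (Fin l) C K
  let f5 := Matrix.reindexAlgEquiv K C (finProdFinEquiv (m := n) (n := l))
  exact ⟨f1.trans (f2.trans (f3.trans (f4.trans f5)))⟩

private theorem step5b {K S T A B C : Type*} [Field K] [Ring S] [Algebra K S] [Ring T]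
    [Algebra K T] [Ring A] [Algebra K A] [Ring B] [Algebra K B] [Ring C] [Algebra K C] {m n l : ℕ}
    (d : S ≃ₐ[K] Matrix (Fin m) (Fin m) A)
    (e : T ≃ₐ[K] Matrix (Fin n) (Fin n) B) (f : A ⊗[K] B ≃ₐ[K] Matrix (Fin l) (Fin l) C) :
    Nonempty (S ⊗[K] T ≃ₐ[K] Matrix (Fin (n * (m * l))) (Fin (n * (m * l))) C) := by
  obtain ⟨g⟩ := step5a (S := B) d ((Algebra.TensorProduct.comm K B A).trans f)
  exact step5a (S := S) e ((Algebra.TensorProduct.comm K S B).trans g)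

theorem symb_quint {K : Type*} [Field K] (ζ a b : K) (hζ : IsPrimitiveRoot ζ 5)
    (h5 : (5 : K) ≠ 0) (ha : a ≠ 0) (hb : b ≠ 0) :
    IsSplit K (Symb K 5 ζ a b ⊗[K] ((Symb K 5 ζ a b ⊗[K] Symb K 5 ζ a b) ⊗[K]
      (Symb K 5 ζ a b ⊗[K] Symb K 5 ζ a b))) := by
  have h5' : ((5 : ℕ) : K) ≠ 0 := by exact_mod_cast h5
  have hbb : b * b ≠ 0 := mul_ne_zero hb hb
  have hb4 : (b * b) * (b * b) ≠ 0 := mul_ne_zero hbb hbb
  obtain ⟨e1⟩ := symb_tensor 5 (by norm_num) ζ a b b hζ h5' ha hb hb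
  obtain ⟨e2⟩ := symb_tensor 5 (by norm_num) ζ a (b * b) (b * b) hζ h5' ha hbb hbb
  obtain ⟨e3⟩ := symb_tensor 5 (by norm_num) ζ a b ((b * b) * (b * b)) hζ h5' ha hb hb4
  obtain ⟨e4⟩ := symb_split 5 (by norm_num) ζ a b hζ h5' ha hb
  have hb5 : b * ((b * b) * (b * b)) = b ^ 5 := by ring
  rw [hb5] at e3
  obtain ⟨g1⟩ := step5b e1 e1 e2
  obtain ⟨g2⟩ := step5a (S := Symb K 5 ζ a b) g1 e3
  let g3 : Matrix (Fin (5 * (5 * 5) * 5)) (Fin (5 * (5 * 5) * 5)) (Symb K 5 ζ a (b ^ 5)) ≃ₐ[K]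
      Matrix (Fin (5 * (5 * 5) * 5)) (Fin (5 * (5 * 5) * 5)) (Matrix (Fin 5) (Fin 5) K) :=
    e4.mapMatrix
  let g4 := Matrix.compAlgEquiv (Fin (5 * (5 * 5) * 5)) (Fin 5) K K
  let g5 := Matrix.reindexAlgEquiv K K (Fintype.equivFin (Fin (5 * (5 * 5) * 5) × Fin 5))
  exact ⟨_, ⟨g2.trans (g3.trans (g4.trans g5))⟩⟩

end Pool.Agent.Helper346.Bra
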