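import Pool.Agent.Helper346.Bra.Defs5

set_option autoImplicit false

open scoped TensorProduct

namespace Pool.Agent.Helper346.Bra




section coordsL

variable {A A' : Type*} [CommRing A] [CommRing A']

theorem zl_pow (l : ℕ) (Q : A) : zl l Q ^ l = cl l Q Q := by
  have h : AdjoinRoot.mk (Polynomial.X ^ l - Polynomial.C Q : Polynomial A)
      (Polynomial.X ^ l - Polynomial.C Q) = 0 := AdjoinRoot.mk_self
  rw [map_sub, map_pow, sub_eq_zero] at h
  exact h

/-- coordinates -/
noncomputable def EEl (l : ℕ) (Q : A) (a : Fin l → A) : CRl l Q :=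
  ∑ i, cl l Q (a i) * zl l Q ^ (i : ℕ)

theorem EEl_eq (l : ℕ) (Q : A) (a : Fin l → A) : EEl l Q a =
    AdjoinRoot.mk (Polynomial.X ^ l - Polynomial.C Q : Polynomial A)
      (∑ i : Fin l, Polynomial.C (a i) * Polynomial.X ^ (i : ℕ)) := by
  rw [map_sum]
  unfold EEl
  apply Finset.sum_congr rfl
  intro i _
  rw [map_mul, map_pow]
  rfl

theorem CRl_monic (l : ℕ) [NeZero l] (Q : A) : (Polynomial.X ^ l - Polynomial.C Q : Polynomial A).Monic :=
  Polynomial.monic_X_pow_sub_C Q (NeZero.ne l)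

theorem EEl_surj (l : ℕ) [NeZero l] [Nontrivial A] (Q : A) (b : CRl l Q) : ∃ a, EEl l Q a = b := by
  obtain ⟨p, rfl⟩ := AdjoinRoot.mk_surjective b
  set f : Polynomial A := Polynomial.X ^ l - Polynomial.C Q with hf
  have hm : f.Monic := CRl_monic l Q
  set r := p %ₘ f with hr
  have hdeg : r.degree < l := by
    have h1 := Polynomial.degree_modByMonic_lt p hm
    have h2 : f.degree = l := Polynomial.degree_X_pow_sub_C (Nat.pos_of_ne_zero (NeZero.ne l)) Q
    rw [h2] at h1
    exact h1
  have hmk : AdjoinRoot.mk f p = AdjoinRoot.mk f r := by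
    rw [AdjoinRoot.mk_eq_mk]
    refine ⟨p /ₘ f, ?_⟩
    have := Polynomial.modByMonic_add_div p f
    rw [← hr] at this
    linear_combination -this
  have hr3 : r = ∑ i : Fin l, Polynomial.C (r.coeff i) * Polynomial.X ^ (i : ℕ) := by
    have h1 : r.natDegree < l := by
      rcases eq_or_ne r 0 with h0 | h0
      · rw [h0]; simpa using Nat.pos_of_ne_zero (NeZero.ne l)
      · rw [Polynomial.degree_eq_natDegree h0] at hdeg
        exact_mod_cast hdeg
    conv_lhs => rw [Polynomial.as_sum_range' r l h1]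
    rw [← Fin.sum_univ_eq_sum_range (fun i => Polynomial.monomial i (r.coeff i)) l]
    simp only [← Polynomial.C_mul_X_pow_eq_monomial]
  refine ⟨fun i => r.coeff i, ?_⟩
  rw [EEl_eq, hmk]
  congr 1
  exact hr3.symm

theorem EEl_inj (l : ℕ) [NeZero l] [Nontrivial A] (Q : A) {a : Fin l → A} (h : EEl l Q a = 0) (i : Fin l) :
    a i = 0 := by
  rw [EEl_eq, AdjoinRoot.mk_eq_zero] at h
  set g : Polynomial A := ∑ i : Fin l, Polynomial.C (a i) * Polynomial.X ^ (i : ℕ) with hg
  have hg0 : g = 0 := by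
    by_contra hne
    refine (CRl_monic l Q).not_dvd_of_degree_lt hne ?_ h
    rw [Polynomial.degree_X_pow_sub_C (Nat.pos_of_ne_zero (NeZero.ne l)) Q]
    rw [Polynomial.degree_lt_iff_coeff_zero]
    intro m hm
    rw [hg, Polynomial.finsetSum_coeff]
    apply Finset.sum_eq_zero
    intro j _
    rw [Polynomial.coeff_C_mul_X_pow, if_neg]
    have := j.2
    omega
  have hc : g.coeff (i : ℕ) = 0 := by rw [hg0, Polynomial.coeff_zero]
  rw [hg, Polynomial.finsetSum_coeff, Finset.sum_eq_single i] at hc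
  · simpa using hc
  · intro j _ hj
    rw [Polynomial.coeff_C_mul_X_pow, if_neg]
    intro h2
    exact hj (Fin.ext h2.symm)
  · intro h2
    exact absurd (Finset.mem_univ _) h2

/-- functoriality -/
noncomputable def CRlmap (l : ℕ) (φ : A →+* A') (Q : A) : CRl l Q →+* CRl l (φ Q) :=
  AdjoinRoot.lift ((cl l (φ Q)).comp φ) (zl l (φ Q)) (by
    simp only [Polynomial.eval₂_sub, Polynomial.eval₂_X_pow, Polynomial.eval₂_C, RingHom.comp_apply]
    rw [sub_eq_zero]
    exact zl_pow l (φ Q))

theorem CRlmap_cl (l : ℕ) (φ : A →+* A') (Q : A) (x : A) :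
    CRlmap l φ Q (cl l Q x) = cl l (φ Q) (φ x) :=
  AdjoinRoot.lift_of _

theorem CRlmap_zl (l : ℕ) (φ : A →+* A') (Q : A) : CRlmap l φ Q (zl l Q) = zl l (φ Q) :=
  AdjoinRoot.lift_root _

theorem CRlmap_EEl (l : ℕ) (φ : A →+* A') (Q : A) (a : Fin l → A) :
    CRlmap l φ Q (EEl l Q a) = EEl l (φ Q) (fun i => φ (a i)) := by
  unfold EEl
  simp only [map_sum, map_mul, map_pow, CRlmap_cl, CRlmap_zl]

theorem CRlmap_inj (l : ℕ) [NeZero l] [Nontrivial A] [Nontrivial A'] (φ : A →+* A')
    (hφ : Function.Injective φ) (Q : A) : Function.Injective (CRlmap l φ Q) := by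
  rw [injective_iff_map_eq_zero]
  intro x hx
  obtain ⟨a, rfl⟩ := EEl_surj l Q x
  rw [CRlmap_EEl] at hx
  have : a = 0 := by
    funext i
    have := EEl_inj l (φ Q) hx i
    exact hφ (by rw [Pi.zero_apply, map_zero]; exact this)
  rw [this]
  simp [EEl]

theorem nform_map {l : ℕ} [NeZero l] (φ : A →+* A') (t : A) (g : Fin l → A) :
    φ (nform t g) = nform (φ t) (fun i => φ (g i)) := by
  unfold nform
  rw [RingHom.map_det]
  congr 1
  ext i j
  simp only [RingHom.mapMatrix_apply, Matrix.map_apply, Matrix.of_apply]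
  split_ifs
  · rfl
  · rw [map_mul]

theorem nform_smul {l : ℕ} [NeZero l] (t c : A) (g : Fin l → A) :
    nform t (fun i => c * g i) = c ^ l * nform t g := by
  unfold nform
  have h : (Matrix.of fun i j : Fin l => if j ≤ i then c * g (i - j) else t * (c * g (i - j))) =
      c • (Matrix.of fun i j : Fin l => if j ≤ i then g (i - j) else t * g (i - j)) := by
    ext i j
    simp only [Matrix.of_apply, Matrix.smul_apply, smul_eq_mul]
    split_ifs
    · rfl
    · ring
  rw [h, Matrix.det_smul, Fintype.card_fin]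

end coordsL

theorem lift_mvL {C : Type} [Field C] (V : ValuationSubring C) (q : MvPolynomial (Fin 3) C)
    (h : ∀ m, MvPolynomial.coeff m q ∈ V) :
    ∃ q' : MvPolynomial (Fin 3) V, MvPolynomial.map (algebraMap V C) q' = q := by
  refine ⟨∑ m ∈ q.support, MvPolynomial.monomial m (⟨MvPolynomial.coeff m q, h m⟩ : V), ?_⟩
  rw [map_sum]
  simp only [MvPolynomial.map_monomial]
  exact MvPolynomial.support_sum_monomial_coeff q

theorem aniso_specializeL (l : ℕ) [NeZero l] {C : Type} [Field C] (V : ValuationSubring C)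
    (Q T M : MvPolynomial (Fin 3) V)
    (h : AnisoL l (CRl l (MvPolynomial.map (IsLocalRing.residue V) Q))
      (cl l _ (MvPolynomial.map (IsLocalRing.residue V) T))
      (cl l _ (MvPolynomial.map (IsLocalRing.residue V) M))) :
    AnisoL l (CRl l (MvPolynomial.map (algebraMap V C) Q))
      (cl l _ (MvPolynomial.map (algebraMap V C) T))
      (cl l _ (MvPolynomial.map (algebraMap V C) M)) := by
  classical
  set φ : MvPolynomial (Fin 3) V →+* MvPolynomial (Fin 3) C := MvPolynomial.map (algebraMap V C) with hφ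
  set ψ : MvPolynomial (Fin 3) V →+* MvPolynomial (Fin 3) (IsLocalRing.ResidueField V) :=
    MvPolynomial.map (IsLocalRing.residue V) with hψ
  intro d g heq
  by_contra hcon
  have hφinj : Function.Injective φ :=
    MvPolynomial.map_injective _ (FaithfulSMul.algebraMap_injective V C)
  obtain ⟨ad, had⟩ := EEl_surj l (φ Q) d
  choose ag hag using fun i => EEl_surj l (φ Q) (g i)
  set a : Option (Fin l) → Fin l → MvPolynomial (Fin 3) C := fun o => o.elim ad ag with ha
  have hex : ∃ i j m, MvPolynomial.coeff m (a i j) ≠ 0 := by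
    by_contra hno
    push Not at hno
    have hz : ∀ i, a i = 0 := by
      intro i; funext j; ext m; rw [hno i j m]; simp
    have hE : EEl l (φ Q) (0 : Fin l → MvPolynomial (Fin 3) C) = 0 := by simp [EEl]
    apply hcon
    refine ⟨?_, ?_⟩
    · rw [← had, show ad = 0 from hz none, hE]
    · funext i
      rw [← hag i, show ag i = 0 from hz (some i), hE]
      rfl
  obtain ⟨i₁, j₁, m₁, hne⟩ := hex
  set supp : Finset (Fin 3 →₀ ℕ) := Finset.univ.biUnion fun i : Option (Fin l) =>
    Finset.univ.biUnion fun j : Fin l => (a i j).support with hsupp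
  have hmem : ∀ i j m, MvPolynomial.coeff m (a i j) ≠ 0 → m ∈ supp := by
    intro i j m hm
    rw [hsupp]
    simp only [Finset.mem_biUnion, Finset.mem_univ, true_and]
    exact ⟨i, j, MvPolynomial.mem_support_iff.2 hm⟩
  obtain ⟨⟨i₀, j₀, m₀⟩, -, hmax⟩ := Finset.exists_max_image
    ((Finset.univ : Finset (Option (Fin l))) ×ˢ ((Finset.univ : Finset (Fin l)) ×ˢ supp))
    (fun x => V.valuation (MvPolynomial.coeff x.2.2 (a x.1 x.2.1)))
    ⟨(i₁, j₁, m₁), by simp [hmem i₁ j₁ m₁ hne]⟩
  set c₀ : C := MvPolynomial.coeff m₀ (a i₀ j₀) with hc₀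
  have hmax' : ∀ i j m, V.valuation (MvPolynomial.coeff m (a i j)) ≤ V.valuation c₀ := by
    intro i j m
    by_cases hm : MvPolynomial.coeff m (a i j) = 0
    · rw [hm, map_zero]; exact zero_le
    · exact hmax (i, j, m) (by simp [hmem i j m hm])
  have hc₀ne : c₀ ≠ 0 := by
    intro h0
    have := hmax' i₁ j₁ m₁
    rw [h0, map_zero, le_zero_iff] at this
    exact hne ((Valuation.zero_iff _).1 this)
  have hV : ∀ i j m, MvPolynomial.coeff m (MvPolynomial.C c₀⁻¹ * a i j) ∈ V := by
    intro i j m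
    rw [MvPolynomial.coeff_C_mul, ← ValuationSubring.valuation_le_one_iff, map_mul, map_inv₀]
    have h0 : V.valuation c₀ ≠ 0 := (Valuation.ne_zero_iff _).2 hc₀ne
    calc (V.valuation c₀)⁻¹ * V.valuation (MvPolynomial.coeff m (a i j))
        ≤ (V.valuation c₀)⁻¹ * V.valuation c₀ := by gcongr; exact hmax' i j m
      _ = 1 := inv_mul_cancel₀ h0
  have hlift : ∀ i j, ∃ q' : MvPolynomial (Fin 3) V, φ q' = MvPolynomial.C c₀⁻¹ * a i j :=
    fun i j => lift_mvL V _ (hV i j)
  choose b hb using hlift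
  have hbE : ∀ i, CRlmap l φ Q (EEl l Q (b i)) =
      cl l (φ Q) (MvPolynomial.C c₀⁻¹) * EEl l (φ Q) (a i) := by
    intro i
    rw [CRlmap_EEl]
    unfold EEl
    rw [Finset.mul_sum]
    apply Finset.sum_congr rfl
    intro j _
    simp only [hb, map_mul]
    ring
  -- the equation over V
  have heqV : cl l Q M * (EEl l Q (b none)) ^ l =
      nform (cl l Q T) (fun i => EEl l Q (b (some i))) := by
    apply CRlmap_inj l φ hφinj Q
    have e0 : EEl l (φ Q) (a none) = d := had
    have e1 : ∀ i, EEl l (φ Q) (a (some i)) = g i := hag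
    rw [map_mul, map_pow, nform_map]
    simp only [CRlmap_cl, hbE, e0, e1]
    rw [nform_smul, ← heq]
    ring
  have heqκ := congrArg (CRlmap l ψ Q) heqV
  rw [map_mul, map_pow, nform_map] at heqκ
  simp only [CRlmap_cl, CRlmap_EEl] at heqκ
  obtain ⟨z0, z1⟩ := h _ _ heqκ
  have hall : ∀ i j, ψ (b i j) = 0 := by
    intro i j
    cases i with
    | none => exact EEl_inj l (ψ Q) z0 j
    | some i => exact EEl_inj l (ψ Q) (congrFun z1 i) j
  have h1 := congrArg (MvPolynomial.coeff m₀) (hb i₀ j₀)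
  rw [MvPolynomial.coeff_C_mul, ← hc₀, inv_mul_cancel₀ hc₀ne, hφ, MvPolynomial.coeff_map] at h1
  have h2 : MvPolynomial.coeff m₀ (b i₀ j₀) = 1 := by
    apply FaithfulSMul.algebraMap_injective V C
    rw [h1, map_one]
  have h3 := congrArg (MvPolynomial.coeff m₀) (hall i₀ j₀)
  rw [hψ, MvPolynomial.coeff_map, h2, map_one, MvPolynomial.coeff_zero] at h3
  exact one_ne_zero h3

end Pool.Agent.Helper346.Bra
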