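import Pool.Agent.Helper346.Bra.Defs5

set_option autoImplicit false

open scoped TensorProduct

namespace Pool.Agent.Helper346.Bra



theorem crl_domain {A : Type*} [CommRing A] [IsDomain A] [IsIntegrallyClosed A] (l : ℕ)
    [Fact l.Prime] (Q : A) (h : ∀ c : A, c ^ l ≠ Q) : IsDomain (CRl l Q) := by
  have hl : l.Prime := Fact.out
  have hm : (Polynomial.X ^ l - Polynomial.C Q : Polynomial A).Monic :=
    Polynomial.monic_X_pow_sub_C Q hl.ne_zero
  set f : Polynomial A := Polynomial.X ^ l - Polynomial.C Q with hf
  let K := FractionRing A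
  have hinj : Function.Injective (algebraMap A K) := IsFractionRing.injective A K
  have hmap : f.map (algebraMap A K) = Polynomial.X ^ l - Polynomial.C (algebraMap A K Q) := by
    simp [hf]
  have hirr : Irreducible (f.map (algebraMap A K)) := by
    rw [hmap]
    apply X_pow_sub_C_irreducible_of_prime hl
    intro r hr
    have h3 : IsIntegral A (r ^ l) := by rw [hr]; exact isIntegral_algebraMap
    obtain ⟨y, hy⟩ := IsIntegrallyClosed.exists_algebraMap_eq_of_isIntegral_pow hl.pos h3
    apply h y
    apply hinj
    rw [map_pow, hy, hr]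
  have hprime : Prime (f.map (algebraMap A K)) := hirr.prime
  have hp : Prime f := by
    refine ⟨hm.ne_zero, ?_, ?_⟩
    · intro hu
      apply hirr.not_isUnit
      exact hu.map (Polynomial.mapRingHom (algebraMap A K))
    · intro a b hab
      have h1 : f.map (algebraMap A K) ∣ a.map (algebraMap A K) * b.map (algebraMap A K) := by
        rw [← Polynomial.map_mul]
        exact Polynomial.map_dvd _ hab
      rcases hprime.2.2 _ _ h1 with h2 | h2
      · left; exact (Polynomial.map_dvd_map _ hinj hm).1 h2
      · right; exact (Polynomial.map_dvd_map _ hinj hm).1 h2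
  exact AdjoinRoot.isDomain_of_prime hp

theorem no_fifth_aux {k : Type*} [Field k] (r : k) (hr : r ≠ 0) (c : Polynomial k)
    (h : c ^ 5 = Polynomial.C r * Polynomial.X ^ 3 + Polynomial.X ^ 2) : False := by
  have h1 := congrArg Polynomial.natDegree h
  rw [Polynomial.natDegree_pow] at h1
  have h2 : (Polynomial.C r * Polynomial.X ^ 3 + Polynomial.X ^ 2 : Polynomial k).natDegree = 3 := by
    compute_degree!
  omega

theorem nonfifth (k : Type*) [Field k] (r1 r2 : k) (h1 : r1 ^ 2 = 11 * r1 + 1)
    (h2 : r2 = 11 - r1) : (∀ c, c ^ 5 ≠ Q51 r1 r2) ∧ (∀ c, c ^ 5 ≠ Q52 r1 r2) := by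
  have h12 : r1 * r2 = -1 := by rw [h2]; linear_combination -h1
  have hr2 : r2 ≠ 0 := by
    rintro rfl
    rw [mul_zero] at h12
    exact one_ne_zero (neg_eq_zero.1 h12.symm)
  have hC : (Polynomial.C r1 * Polynomial.C r2 : Polynomial k) = -1 := by
    rw [← Polynomial.C_mul, h12]; simp
  refine ⟨?_, ?_⟩
  · intro c hc
    have h3 := congrArg (MvPolynomial.aeval (R := k)
      (![0, Polynomial.X, 0] : Fin 3 → Polynomial k)) hc
    simp only [Q51, gg, map_pow, map_neg, map_add, map_mul, map_sub, map_one, map_ofNat,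
      MvPolynomial.aeval_X, MvPolynomial.aeval_C] at h3
    simp only [Matrix.cons_val_zero, Matrix.cons_val_one, Matrix.cons_val,
      Polynomial.algebraMap_eq] at h3
    refine no_fifth_aux r2 hr2 _ (h3.trans ?_)
    linear_combination (-Polynomial.X ^ 2) * hC
  · intro c hc
    have h3 := congrArg (MvPolynomial.aeval (R := k)
      (![0, Polynomial.X, 0] : Fin 3 → Polynomial k)) hc
    simp only [Q52, gg, map_pow, map_neg, map_add, map_mul, map_sub, map_one, map_ofNat,
      MvPolynomial.aeval_X, MvPolynomial.aeval_C] at h3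
    simp only [Matrix.cons_val_zero, Matrix.cons_val_one, Matrix.cons_val,
      Polynomial.algebraMap_eq] at h3
    refine no_fifth_aux r2 hr2 _ (h3.trans ?_)
    linear_combination (-Polynomial.X ^ 2) * hC

end Pool.Agent.Helper346.Bra
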