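import Pool.Agent.Helper346.Bra.Defs5

set_option autoImplicit false

open scoped TensorProduct

namespace Pool.Agent.Helper346.Bra



theorem laurent_order_aux {E : Type*} [Field E] (c : LaurentSeries E) (n : ℤ)
    (h1 : c.coeff n ≠ 0) (h2 : ∀ m < n, c.coeff m = 0) :
    c ≠ 0 ∧ c.order = n ∧ c.leadingCoeff = c.coeff n := by
  have hc : c ≠ 0 := by
    rintro rfl
    simp at h1
  have ho : c.order = n := by
    apply le_antisymm
    · exact HahnSeries.order_le_of_coeff_ne_zero h1
    · by_contra hlt
      push Not at hlt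
      exact HahnSeries.coeff_order_eq_zero.not.2 hc (h2 _ hlt)
  refine ⟨hc, ho, ?_⟩
  rw [HahnSeries.leadingCoeff_eq, ho]

theorem laurent_dval (E : Type*) [Field E] : ∃ D : DVal (LaurentSeries E) E,
    ∀ a : LaurentSeries E, a ≠ 0 → D.w a = a.order ∧ D.lc a = a.leadingCoeff := by
  refine ⟨⟨fun a => a.order, fun a => a.leadingCoeff, ?_, ?_, ?_, ?_, ?_, ?_⟩,
    fun a _ => ⟨rfl, rfl⟩⟩
  · intro a ha
    exact HahnSeries.leadingCoeff_ne_zero.2 ha
  · intro a b ha hb
    exact HahnSeries.order_mul ha hb
  · intro a b ha hb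
    exact HahnSeries.leadingCoeff_mul a b
  · intro a b ha hb hlt
    have h := laurent_order_aux (a + b) a.order ?_ ?_
    · refine ⟨h.1, h.2.1, ?_⟩
      rw [h.2.2, HahnSeries.coeff_add, HahnSeries.coeff_eq_zero_of_lt_order hlt, add_zero,
        HahnSeries.leadingCoeff_eq]
    · rw [HahnSeries.coeff_add, HahnSeries.coeff_eq_zero_of_lt_order hlt, add_zero]
      exact HahnSeries.coeff_order_eq_zero.not.2 ha
    · intro m hm
      rw [HahnSeries.coeff_add, HahnSeries.coeff_eq_zero_of_lt_order hm,
        HahnSeries.coeff_eq_zero_of_lt_order (hm.trans hlt), add_zero]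
  · intro a b ha hb heq hne
    have hs : (a + b).coeff a.order = a.leadingCoeff + b.leadingCoeff := by
      rw [HahnSeries.coeff_add, HahnSeries.leadingCoeff_eq, HahnSeries.leadingCoeff_eq]
      congr 2
    have h := laurent_order_aux (a + b) a.order ?_ ?_
    · refine ⟨h.1, h.2.1, ?_⟩
      rw [h.2.2, hs]
    · rw [hs]
      exact hne
    · intro m hm
      have hm' : m < b.order := by
        have : a.order = b.order := heq
        omega
      rw [HahnSeries.coeff_add, HahnSeries.coeff_eq_zero_of_lt_order hm,
        HahnSeries.coeff_eq_zero_of_lt_order hm', add_zero]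
  · intro a b ha hb hab heq hz
    have heq' : a.order = b.order := heq
    have hs : (a + b).coeff a.order = a.leadingCoeff + b.leadingCoeff := by
      rw [HahnSeries.coeff_add, HahnSeries.leadingCoeff_eq, HahnSeries.leadingCoeff_eq]
      congr 2
    show a.order < (a + b).order
    by_contra hle
    push Not at hle
    have hc := HahnSeries.coeff_order_eq_zero.not.2 hab
    apply hc
    rcases hle.lt_or_eq with h | h
    · have hm' : (a + b).order < b.order := by omega
      rw [HahnSeries.coeff_add, HahnSeries.coeff_eq_zero_of_lt_order h,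
        HahnSeries.coeff_eq_zero_of_lt_order hm', add_zero]
    · rw [h, hs]
      exact hz

end Pool.Agent.Helper346.Bra
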