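import Pool.Agent.Helper346.Bra.Defs5
import Pool.Agent.Helper346.Bra.UE

set_option autoImplicit false

open scoped TensorProduct

namespace Pool.Agent.Helper346.Bra



theorem eval_inj_aux {A2 L : Type*} [CommRing A2] [IsDomain A2] [Field L]
    (J : Polynomial A2 →+* L) (hJ : Function.Injective J) (a0 b0 : A2) (ha0 : a0 ≠ 0) (t : L)
    (ht : J (Polynomial.C a0) * t = J (-(Polynomial.X ^ 5 + Polynomial.C b0))) (p : Polynomial A2)
    (hp : Polynomial.eval₂ (J.comp Polynomial.C) t p = 0) : p = 0 := by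
  have h1 := Polynomial.scaleRoots_eval₂_eq_zero (J.comp Polynomial.C) (s := a0) hp
  rw [RingHom.comp_apply, ht] at h1
  have h2 : Polynomial.eval₂ (J.comp Polynomial.C) (J (-(Polynomial.X ^ 5 + Polynomial.C b0)))
      (p.scaleRoots a0) =
      J ((p.scaleRoots a0).comp (-(Polynomial.X ^ 5 + Polynomial.C b0))) := by
    rw [Polynomial.comp, Polynomial.hom_eval₂]
  rw [h2, map_eq_zero_iff J hJ, Polynomial.comp_eq_zero_iff] at h1
  rcases h1 with h1 | ⟨-, h1⟩
  · by_contra hne
    exact Polynomial.scaleRoots_ne_zero hne a0 h1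
  · exfalso
    have h3 := congrArg (fun q => Polynomial.coeff q 5) h1
    simp [Polynomial.coeff_X_pow, Polynomial.coeff_C] at h3

theorem alg_inj_aux (k : Type) [Field k] (L : Type) [Field L]
    (j : MvPolynomial (Fin 3) k →+* L) (hj : Function.Injective j) (t : L)
    (a0 b0 : MvPolynomial (Fin 2) k) (ha0 : a0 ≠ 0)
    (ht : j (MvPolynomial.rename (![0, 1] : Fin 2 → Fin 3) a0) * t =
      -(j (MvPolynomial.X 2) ^ 5 + j (MvPolynomial.rename (![0, 1] : Fin 2 → Fin 3) b0))) :
    Function.Injective (MvPolynomial.eval₂Hom (j.comp MvPolynomial.C)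
      ![t, j (MvPolynomial.X 0), j (MvPolynomial.X 1)]) := by
  let σ : Fin 3 → Fin 3 := ![2, 0, 1]
  have hσ : Function.Injective σ := by decide
  let J : Polynomial (MvPolynomial (Fin 2) k) →+* L :=
    j.comp ((MvPolynomial.rename (R := k) σ).toRingHom.comp
      ((MvPolynomial.finSuccEquiv k 2).symm : _ ≃+* _).toRingHom)
  have hJ : Function.Injective J := by
    intro p q hpq
    exact (MvPolynomial.finSuccEquiv k 2).symm.injective
      (MvPolynomial.rename_injective σ hσ (hj hpq))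
  have hJX : J Polynomial.X = j (MvPolynomial.X 2) := by
    change j (MvPolynomial.rename σ ((MvPolynomial.finSuccEquiv k 2).symm Polynomial.X)) = _
    have : (MvPolynomial.finSuccEquiv k 2).symm Polynomial.X = MvPolynomial.X 0 := by
      rw [AlgEquiv.symm_apply_eq, MvPolynomial.finSuccEquiv_X_zero]
    rw [this, MvPolynomial.rename_X]
    rfl
  have hJC : ∀ a : MvPolynomial (Fin 2) k, J (Polynomial.C a) =
      j (MvPolynomial.rename (![0, 1] : Fin 2 → Fin 3) a) := by
    intro a
    change j (MvPolynomial.rename σ ((MvPolynomial.finSuccEquiv k 2).symm (Polynomial.C a))) = _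
    have : (MvPolynomial.finSuccEquiv k 2).symm (Polynomial.C a) = MvPolynomial.rename Fin.succ a := by
      rw [AlgEquiv.symm_apply_eq]
      induction a using MvPolynomial.induction_on with
      | C c => rw [MvPolynomial.rename_C, MvPolynomial.finSuccEquiv_apply]; simp
      | add p q hp hq => rw [map_add, map_add, map_add, hp, hq]
      | mul_X p i hp =>
        rw [map_mul, map_mul, map_mul, hp, MvPolynomial.rename_X, MvPolynomial.finSuccEquiv_X_succ]
    rw [this, MvPolynomial.rename_rename]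
    have h2 : σ ∘ Fin.succ = (![0, 1] : Fin 2 → Fin 3) := by
      funext i
      fin_cases i <;> rfl
    rw [h2]
  have hi : MvPolynomial.eval₂Hom (j.comp MvPolynomial.C)
      ![t, j (MvPolynomial.X 0), j (MvPolynomial.X 1)] =
      (Polynomial.eval₂RingHom (J.comp Polynomial.C) t).comp
        ((MvPolynomial.finSuccEquiv k 2) : _ ≃+* _).toRingHom := by
    apply MvPolynomial.ringHom_ext
    · intro c
      change _ = Polynomial.eval₂ (J.comp Polynomial.C) t (MvPolynomial.finSuccEquiv k 2 (MvPolynomial.C c))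
      rw [MvPolynomial.finSuccEquiv_apply]
      simp only [MvPolynomial.eval₂Hom_C, RingHom.comp_apply, Polynomial.eval₂_C, hJC,
        MvPolynomial.rename_C]
    · intro i
      change _ = Polynomial.eval₂ (J.comp Polynomial.C) t (MvPolynomial.finSuccEquiv k 2 (MvPolynomial.X i))
      rw [MvPolynomial.eval₂Hom_X']
      induction i using Fin.cases with
      | zero =>
        rw [MvPolynomial.finSuccEquiv_X_zero, Polynomial.eval₂_X]
        rfl
      | succ i =>
        rw [MvPolynomial.finSuccEquiv_X_succ, Polynomial.eval₂_C, RingHom.comp_apply, hJC,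
          MvPolynomial.rename_X]
        fin_cases i <;> rfl
  rw [hi, injective_iff_map_eq_zero]
  intro P hP
  have h1 := eval_inj_aux J hJ a0 b0 ha0 t (by
    rw [map_neg, map_add, map_pow, hJX, hJC, hJC]
    exact ht) (MvPolynomial.finSuccEquiv k 2 P) hP
  rwa [map_eq_zero_iff _ (MvPolynomial.finSuccEquiv k 2).injective] at h1

theorem embed_Q52 (k : Type) [Field k] (r1 r2 : k) (h1 : r1 ^ 2 = 11 * r1 + 1)
    (h2 : r2 = 11 - r1) (h5 : (5 : k) ≠ 0) (L : Type) [Field L]
    (j : MvPolynomial (Fin 3) k →+* L) (hj : Function.Injective j) :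
    ∃ φ : CRl 5 (Q52 r1 r2) →+* L, Function.Injective φ ∧
      φ (cl 5 _ (MvPolynomial.X 1)) = j (MvPolynomial.X 0) ∧
      φ (cl 5 _ (MvPolynomial.X 2)) = j (MvPolynomial.X 1) ∧
      (∀ c : k, φ (cl 5 _ (MvPolynomial.C c)) = j (MvPolynomial.C c)) ∧
      φ (zl 5 _) = j (MvPolynomial.X 2) ∧
      φ (cl 5 _ (MvPolynomial.X 0)) * (j (MvPolynomial.C (r1 - r2)) *
        gg 0 (j (MvPolynomial.X 0)) (j (MvPolynomial.X 1))) =
        -(j (MvPolynomial.X 2) ^ 5 + j (MvPolynomial.C r2) *
          gg (j (MvPolynomial.C r1)) (j (MvPolynomial.X 0)) (j (MvPolynomial.X 1))) := by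
  haveI : Fact (Nat.Prime 5) := ⟨by norm_num⟩
  have hdom : IsDomain (CRl 5 (Q52 r1 r2)) := crl_domain 5 _ (nonfifth k r1 r2 h1 h2).2
  have hδ : r1 - r2 ≠ 0 := by
    intro h
    have h3 : (r1 - r2) ^ 2 = 125 := by
      rw [h2]; linear_combination 4 * h1
    rw [h] at h3
    have h4 : (5 : k) ^ 3 = 0 := by
      have : (5 : k) ^ 3 = 125 := by norm_num
      rw [this, ← h3]; ring
    exact h5 (pow_eq_zero_iff (by norm_num) |>.1 h4)
  let a0 : MvPolynomial (Fin 2) k := MvPolynomial.C (r1 - r2) * gg 0 (MvPolynomial.X 0) (MvPolynomial.X 1)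
  let b0 : MvPolynomial (Fin 2) k := MvPolynomial.C r2 *
    gg (MvPolynomial.C r1) (MvPolynomial.X 0) (MvPolynomial.X 1)
  have ha0 : a0 ≠ 0 := by
    refine mul_ne_zero ?_ ?_
    · rwa [Ne, MvPolynomial.C_eq_zero]
    · intro h
      have h3 := congrArg (MvPolynomial.eval (![0, 1] : Fin 2 → k)) h
      simp [gg] at h3
  have ea : MvPolynomial.rename (![0, 1] : Fin 2 → Fin 3) a0 =
      MvPolynomial.C (r1 - r2) * gg 0 (MvPolynomial.X 0) (MvPolynomial.X 1) := by
    simp [a0, gg]
  have eb : MvPolynomial.rename (![0, 1] : Fin 2 → Fin 3) b0 =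
      MvPolynomial.C r2 * gg (MvPolynomial.C r1) (MvPolynomial.X 0) (MvPolynomial.X 1) := by
    simp [b0, gg]
  have ea' : j (MvPolynomial.rename (![0, 1] : Fin 2 → Fin 3) a0) =
      j (MvPolynomial.C (r1 - r2)) * gg 0 (j (MvPolynomial.X 0)) (j (MvPolynomial.X 1)) := by
    rw [ea]; simp only [gg, map_mul, map_add, map_sub, map_pow, map_one, map_zero]
  have eb' : j (MvPolynomial.rename (![0, 1] : Fin 2 → Fin 3) b0) =
      j (MvPolynomial.C r2) * gg (j (MvPolynomial.C r1)) (j (MvPolynomial.X 0)) (j (MvPolynomial.X 1)) := by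
    rw [eb]; simp only [gg, map_mul, map_add, map_sub, map_pow, map_one]
  have hane : j (MvPolynomial.rename (![0, 1] : Fin 2 → Fin 3) a0) ≠ 0 := by
    rw [Ne, map_eq_zero_iff j hj, map_eq_zero_iff _ (MvPolynomial.rename_injective _ (by decide))]
    exact ha0
  obtain ⟨t, ht⟩ : ∃ t : L, j (MvPolynomial.rename (![0, 1] : Fin 2 → Fin 3) a0) * t =
      -(j (MvPolynomial.X 2) ^ 5 + j (MvPolynomial.rename (![0, 1] : Fin 2 → Fin 3) b0)) :=
    ⟨_, mul_div_cancel₀ _ hane⟩
  have hinj := alg_inj_aux k L j hj t a0 b0 ha0 ht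
  set i := MvPolynomial.eval₂Hom (j.comp MvPolynomial.C)
      ![t, j (MvPolynomial.X 0), j (MvPolynomial.X 1)] with hidef
  have i0 : i (MvPolynomial.X 0) = t := by
    rw [hidef, MvPolynomial.eval₂Hom_X']; rfl
  have i1 : i (MvPolynomial.X 1) = j (MvPolynomial.X 0) := by
    rw [hidef, MvPolynomial.eval₂Hom_X']; rfl
  have i2 : i (MvPolynomial.X 2) = j (MvPolynomial.X 1) := by
    rw [hidef, MvPolynomial.eval₂Hom_X']; rfl
  have iC : ∀ c : k, i (MvPolynomial.C c) = j (MvPolynomial.C c) := by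
    intro c
    rw [hidef, MvPolynomial.eval₂Hom_C]; rfl
  rw [ea', eb'] at ht
  have hrel : i (Q52 r1 r2) = j (MvPolynomial.X 2) ^ 5 := by
    have hQ : i (Q52 r1 r2) = j (MvPolynomial.C r2) * (t - 1) *
        gg (j (MvPolynomial.C r1)) (j (MvPolynomial.X 0)) (j (MvPolynomial.X 1)) -
        j (MvPolynomial.C r1) * t *
        gg (j (MvPolynomial.C r2)) (j (MvPolynomial.X 0)) (j (MvPolynomial.X 1)) := by
      unfold Q52 gg
      simp only [map_mul, map_add, map_sub, map_pow, map_one, i0, i1, i2, iC]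
    rw [hQ]
    have hd : j (MvPolynomial.C (r1 - r2)) = j (MvPolynomial.C r1) - j (MvPolynomial.C r2) := by
      rw [map_sub, map_sub]
    rw [hd] at ht
    unfold gg at ht ⊢
    linear_combination -ht
  have hroot : (Polynomial.X ^ 5 - Polynomial.C (Q52 r1 r2) : Polynomial (MvPolynomial (Fin 3) k)).eval₂ i
      (j (MvPolynomial.X 2)) = 0 := by
    rw [Polynomial.eval₂_sub, Polynomial.eval₂_X_pow, Polynomial.eval₂_C, hrel, sub_self]
  let φ : CRl 5 (Q52 r1 r2) →+* L := AdjoinRoot.lift i (j (MvPolynomial.X 2)) hroot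
  have hφc : ∀ a, φ (cl 5 _ a) = i a := fun a => AdjoinRoot.lift_of hroot
  refine ⟨φ, ?_, ?_, ?_, ?_, ?_, ?_⟩
  · rw [RingHom.injective_iff_ker_eq_bot]
    have hmon : (Polynomial.X ^ 5 - Polynomial.C (Q52 r1 r2) : Polynomial (MvPolynomial (Fin 3) k)).Monic :=
      Polynomial.monic_X_pow_sub_C _ (by norm_num)
    haveI : Module.Finite (MvPolynomial (Fin 3) k) (CRl 5 (Q52 r1 r2)) := hmon.finite_adjoinRoot
    haveI : Algebra.IsIntegral (MvPolynomial (Fin 3) k) (CRl 5 (Q52 r1 r2)) :=
      Algebra.IsIntegral.of_finite _ _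
    apply Ideal.eq_bot_of_comap_eq_bot (R := MvPolynomial (Fin 3) k)
    rw [RingHom.comap_ker]
    have : φ.comp (algebraMap (MvPolynomial (Fin 3) k) (CRl 5 (Q52 r1 r2))) = i := by
      ext a
      · exact hφc _
      · exact hφc _
    rw [this]
    exact (RingHom.injective_iff_ker_eq_bot i).1 hinj
  · rw [hφc, i1]
  · rw [hφc, i2]
  · intro c
    rw [hφc, iC]
  · exact AdjoinRoot.lift_root hroot
  · rw [hφc, i0, mul_comm]
    exact ht

end Pool.Agent.Helper346.Bra
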