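import Pool.Agent.Helper346.Bra.Defs5

set_option autoImplicit false

open scoped TensorProduct

namespace Pool.Agent.Helper346.Bra



theorem aux_order_ofPS {E : Type} [Field E] (f : PowerSeries E)
    (hf : PowerSeries.constantCoeff f ≠ 0) :
    HahnSeries.ofPowerSeries ℤ E f ≠ 0 ∧ (HahnSeries.ofPowerSeries ℤ E f).order = 0 ∧
      (HahnSeries.ofPowerSeries ℤ E f).leadingCoeff = PowerSeries.constantCoeff f := by
  have hne : HahnSeries.ofPowerSeries ℤ E f ≠ 0 := by
    intro h
    rw [map_eq_zero_iff _ HahnSeries.ofPowerSeries_injective] at h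
    rw [h] at hf
    simp at hf
  have hc : (HahnSeries.ofPowerSeries ℤ E f).coeff 0 = PowerSeries.constantCoeff f := by
    have := HahnSeries.ofPowerSeries_apply_coeff (Γ := ℤ) f 0
    simpa using this
  have hord : (HahnSeries.ofPowerSeries ℤ E f).order = 0 := by
    apply le_antisymm
    · apply HahnSeries.order_le_of_coeff_ne_zero
      rw [hc]; exact hf
    · rw [← HahnSeries.zero_le_orderTop_iff, HahnSeries.ofPowerSeries_apply,
        HahnSeries.orderTop_embDomain]
      cases h : (HahnSeries.toPowerSeries.symm f).orderTop with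
      | top => simp
      | coe n => simp
  exact ⟨hne, hord, by rw [HahnSeries.leadingCoeff_eq, hord, hc]⟩

theorem aux_j1 (k : Type) [Field k] :
    ∃ j1 : MvPolynomial (Fin 3) k →+* Polynomial (MvPolynomial (Fin 2) k),
      Function.Injective j1 ∧
      j1 (MvPolynomial.X 0) = Polynomial.C (MvPolynomial.X 0 ^ 2 + MvPolynomial.X 0) - Polynomial.X ∧
      j1 (MvPolynomial.X 1) = Polynomial.C (MvPolynomial.X 0) *
        (Polynomial.C (MvPolynomial.X 0 ^ 2 + MvPolynomial.X 0) - Polynomial.X) ∧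
      j1 (MvPolynomial.X 2) = Polynomial.C (MvPolynomial.X 1) ∧
      ∀ c : k, j1 (MvPolynomial.C c) = Polynomial.C (MvPolynomial.C c) := by
  classical
  let A := MvPolynomial (Fin 2) k
  let s : A := MvPolynomial.X 0
  let q : A := MvPolynomial.X 1
  -- the map into polynomials over A
  let xP : Polynomial A := Polynomial.C (s ^ 2 + s) - Polynomial.X
  let yP : Polynomial A := Polynomial.C s * xP
  let zP : Polynomial A := Polynomial.C q
  let j1 : MvPolynomial (Fin 3) k →+* Polynomial A :=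
    MvPolynomial.eval₂Hom (Polynomial.C.comp MvPolynomial.C) ![xP, yP, zP]
  have hj1x : j1 (MvPolynomial.X 0) = xP := by simp [j1]
  have hj1y : j1 (MvPolynomial.X 1) = yP := by simp [j1]
  have hj1z : j1 (MvPolynomial.X 2) = zP := by simp [j1]
  have hj1c : ∀ c : k, j1 (MvPolynomial.C c) = Polynomial.C (MvPolynomial.C c) := by
    intro c; simp [j1]
  refine ⟨j1, ?_, hj1x, hj1y, hj1z, hj1c⟩
  let L := FractionRing (MvPolynomial (Fin 3) k)
  let i : MvPolynomial (Fin 3) k →+* L := algebraMap _ _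
  have hi : Function.Injective i := IsFractionRing.injective _ _
  let S : L := i (MvPolynomial.X 1) / i (MvPolynomial.X 0)
  have hx0 : i (MvPolynomial.X 0) ≠ 0 := by
    intro h
    rw [map_eq_zero_iff i hi] at h
    exact MvPolynomial.X_ne_zero _ h
  let ψ0 : A →+* L := MvPolynomial.eval₂Hom (i.comp MvPolynomial.C) ![S, i (MvPolynomial.X 2)]
  have h0s : ψ0 s = S := MvPolynomial.eval₂Hom_X' _ _ _
  have h0q : ψ0 q = i (MvPolynomial.X 2) := MvPolynomial.eval₂Hom_X' _ _ _
  have h0c : ∀ c, ψ0 (MvPolynomial.C c) = i (MvPolynomial.C c) := by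
    intro c
    exact MvPolynomial.eval₂Hom_C _ _ _
  let ψ : Polynomial A →+* L := Polynomial.eval₂RingHom ψ0 (S ^ 2 + S - i (MvPolynomial.X 0))
  have hψC : ∀ a, ψ (Polynomial.C a) = ψ0 a := by
    intro a
    exact Polynomial.eval₂_C _ _
  have hψX : ψ Polynomial.X = S ^ 2 + S - i (MvPolynomial.X 0) := Polynomial.eval₂_X _ _
  have hψx : ψ xP = i (MvPolynomial.X 0) := by
    simp only [xP]
    rw [map_sub, hψC, hψX, map_add, map_pow, h0s]
    ring
  have hcomp : ψ.comp j1 = i := by
    apply MvPolynomial.ringHom_ext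
    · intro c
      rw [RingHom.comp_apply, hj1c, hψC, h0c]
    · intro n
      rw [RingHom.comp_apply]
      fin_cases n
      · change ψ (j1 (MvPolynomial.X 0)) = i (MvPolynomial.X 0)
        rw [hj1x, hψx]
      · change ψ (j1 (MvPolynomial.X 1)) = i (MvPolynomial.X 1)
        rw [hj1y]
        simp only [yP]
        rw [map_mul, hψC, hψx, h0s]
        exact div_mul_cancel₀ _ hx0
      · change ψ (j1 (MvPolynomial.X 2)) = i (MvPolynomial.X 2)
        rw [hj1z]
        simp only [zP]
        rw [hψC, h0q]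
  intro a b hab
  apply hi
  rw [← hcomp, RingHom.comp_apply, RingHom.comp_apply, hab]

theorem aux_fifth (k : Type) [Field k] (r1 : k) (hr1 : r1 ≠ 0)
    (c : FractionRing (MvPolynomial (Fin 2) k)) :
    c ^ 5 ≠ algebraMap (MvPolynomial (Fin 2) k) _
      (-(MvPolynomial.C r1 * MvPolynomial.X 0 ^ 4 * (MvPolynomial.X 0 + 1))) := by
  intro hc
  have hint : IsIntegral (MvPolynomial (Fin 2) k) c := by
    refine IsIntegral.of_pow (n := 5) (by norm_num) ?_
    rw [hc]
    exact isIntegral_algebraMap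
  obtain ⟨c', hc'⟩ := IsIntegrallyClosed.isIntegral_iff.mp hint
  rw [← hc', ← map_pow] at hc
  have hc2 := IsFractionRing.injective (MvPolynomial (Fin 2) k)
    (FractionRing (MvPolynomial (Fin 2) k)) hc
  let ev : MvPolynomial (Fin 2) k →+* Polynomial k :=
    MvPolynomial.eval₂Hom Polynomial.C ![Polynomial.X, 0]
  have h3 := congrArg ev hc2
  have evX : ev (MvPolynomial.X 0) = Polynomial.X := by simp [ev]
  have evC : ev (MvPolynomial.C r1) = Polynomial.C r1 := by simp [ev]
  rw [map_pow, map_neg, map_mul, map_mul, map_pow, map_add, evX, evC, map_one] at h3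
  have h4 := congrArg (Polynomial.eval 0) h3
  have h5 : (ev c').eval 0 = 0 := by
    simpa using h4
  have h6 : Polynomial.X ∣ ev c' := by
    rw [Polynomial.X_dvd_iff, Polynomial.coeff_zero_eq_eval_zero, h5]
  obtain ⟨d, hd⟩ := h6
  rw [hd] at h3
  have h7 : Polynomial.X ^ 4 * (Polynomial.X * d ^ 5) =
      Polynomial.X ^ 4 * (-(Polynomial.C r1 * (Polynomial.X + 1))) := by
    linear_combination h3
  have h8 := mul_left_cancel₀ (pow_ne_zero 4 Polynomial.X_ne_zero) h7
  have h9 := congrArg (Polynomial.eval 0) h8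
  simp at h9
  exact hr1 h9

theorem embed_laurent (k : Type) [Field k] (r1 r2 : k) (h1 : r1 ^ 2 = 11 * r1 + 1)
    (h2 : r2 = 11 - r1) :
    ∃ (E : Type) (_ : Field E) (j : MvPolynomial (Fin 3) k →+* LaurentSeries E),
      Function.Injective j ∧
      gg 0 (j (MvPolynomial.X 0)) (j (MvPolynomial.X 1)) ≠ 0 ∧
      (gg 0 (j (MvPolynomial.X 0)) (j (MvPolynomial.X 1))).order = 1 ∧
      gg (j (MvPolynomial.C r1)) (j (MvPolynomial.X 0)) (j (MvPolynomial.X 1)) ≠ 0 ∧
      (gg (j (MvPolynomial.C r1)) (j (MvPolynomial.X 0)) (j (MvPolynomial.X 1))).order = 0 ∧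
      (∀ c : E, c ^ 5 ≠
        (gg (j (MvPolynomial.C r1)) (j (MvPolynomial.X 0)) (j (MvPolynomial.X 1))).leadingCoeff) ∧
      (∀ c : k, c ≠ 0 → (j (MvPolynomial.C c)).order = 0) ∧
      (j (MvPolynomial.X 2) ^ 5 + j (MvPolynomial.C r2) *
        gg (j (MvPolynomial.C r1)) (j (MvPolynomial.X 0)) (j (MvPolynomial.X 1))) ≠ 0 ∧
      (j (MvPolynomial.X 2) ^ 5 + j (MvPolynomial.C r2) *
        gg (j (MvPolynomial.C r1)) (j (MvPolynomial.X 0)) (j (MvPolynomial.X 1))).order = 0 := by
  classical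
  have hr1 : r1 ≠ 0 := by
    intro h
    rw [h] at h1
    norm_num at h1
  have hr12 : r2 * r1 = -1 := by
    rw [h2]
    linear_combination -h1
  obtain ⟨j1, hj1inj, hj1x, hj1y, hj1z, hj1c⟩ := aux_j1 k
  set A := MvPolynomial (Fin 2) k with hA
  let E := FractionRing A
  have hinjAE : Function.Injective (algebraMap A E) := IsFractionRing.injective A E
  -- the map into power series
  let κ : Polynomial A →+* PowerSeries E :=
    (Polynomial.coeToPowerSeries.ringHom (R := E)).comp (Polynomial.mapRingHom (algebraMap A E))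
  have hκinj : Function.Injective κ := by
    intro a b hab
    simp only [κ, RingHom.comp_apply, Polynomial.coeToPowerSeries.ringHom_apply] at hab
    have := Polynomial.coe_injective E hab
    exact Polynomial.map_injective _ hinjAE this
  let μ : PowerSeries E →+* LaurentSeries E := HahnSeries.ofPowerSeries ℤ E
  have hμinj : Function.Injective μ := HahnSeries.ofPowerSeries_injective
  have hκ0 : ∀ P : Polynomial A, PowerSeries.constantCoeff (κ P) = algebraMap A E (P.eval 0) := by
    intro P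
    rw [← Polynomial.coeff_zero_eq_eval_zero]
    simp only [κ, RingHom.comp_apply, Polynomial.coeToPowerSeries.ringHom_apply,
      Polynomial.coe_mapRingHom]
    rw [← PowerSeries.coeff_zero_eq_constantCoeff_apply, Polynomial.coeff_coe, Polynomial.coeff_map]
  have key : ∀ P : Polynomial A, P.eval 0 ≠ 0 →
      μ (κ P) ≠ 0 ∧ (μ (κ P)).order = 0 ∧ (μ (κ P)).leadingCoeff = algebraMap A E (P.eval 0) := by
    intro P hP
    have := aux_order_ofPS (κ P) (by
      rw [hκ0]
      intro h
      exact hP ((map_eq_zero_iff _ hinjAE).mp h))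
    rw [hκ0] at this
    exact this
  let j : MvPolynomial (Fin 3) k →+* LaurentSeries E := μ.comp (κ.comp j1)
  have hj : ∀ a, j a = μ (κ (j1 a)) := fun a => rfl
  refine ⟨E, inferInstance, j, ?_, ?_⟩
  · exact hμinj.comp (hκinj.comp hj1inj)
  have e0 : gg 0 (j (MvPolynomial.X 0)) (j (MvPolynomial.X 1)) =
      μ (κ (j1 (MvPolynomial.X 0) ^ 2)) * HahnSeries.single 1 1 := by
    have : (HahnSeries.single 1 1 : LaurentSeries E) = μ (κ Polynomial.X) := by
      simp [μ, κ]
    rw [this, ← map_mul, ← map_mul, hj, hj]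
    have : gg 0 (μ (κ (j1 (MvPolynomial.X 0)))) (μ (κ (j1 (MvPolynomial.X 1)))) =
        μ (κ (gg 0 (j1 (MvPolynomial.X 0)) (j1 (MvPolynomial.X 1)))) := by
      simp only [gg, map_add, map_sub, map_mul, map_pow, map_one, map_zero]
    rw [this]
    congr 2
    rw [hj1x, hj1y]
    simp only [gg, map_add, map_pow]
    ring
  have e1 : gg (j (MvPolynomial.C r1)) (j (MvPolynomial.X 0)) (j (MvPolynomial.X 1)) =
      μ (κ (gg (Polynomial.C (MvPolynomial.C r1)) (j1 (MvPolynomial.X 0)) (j1 (MvPolynomial.X 1)))) := by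
    rw [hj, hj, hj, hj1c]
    simp only [gg, map_add, map_sub, map_mul, map_pow, map_one]
  have v1 : (gg (Polynomial.C (MvPolynomial.C r1)) (j1 (MvPolynomial.X 0))
      (j1 (MvPolynomial.X 1)) : Polynomial A).eval 0 =
      -(MvPolynomial.C r1 * MvPolynomial.X 0 ^ 4 * (MvPolynomial.X 0 + 1)) := by
    rw [hj1x, hj1y]
    simp only [gg, Polynomial.eval_add, Polynomial.eval_sub, Polynomial.eval_mul,
      Polynomial.eval_pow, Polynomial.eval_C, Polynomial.eval_X, Polynomial.eval_one]
    ring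
  have evs : ∀ (u v : k), (MvPolynomial.eval ![u, v] : MvPolynomial (Fin 2) k →+* k)
      (MvPolynomial.X 0) = u ∧ (MvPolynomial.eval ![u, v] : MvPolynomial (Fin 2) k →+* k)
      (MvPolynomial.X 1) = v := by
    intro u v
    constructor <;> simp
  have n1 : (gg (Polynomial.C (MvPolynomial.C r1)) (j1 (MvPolynomial.X 0))
      (j1 (MvPolynomial.X 1)) : Polynomial A).eval 0 ≠ 0 := by
    rw [v1]
    intro h
    apply aux_fifth k r1 hr1 0
    rw [h, map_zero]
    simp
  have e2 : j (MvPolynomial.X 2) ^ 5 + j (MvPolynomial.C r2) *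
        gg (j (MvPolynomial.C r1)) (j (MvPolynomial.X 0)) (j (MvPolynomial.X 1)) =
      μ (κ (j1 (MvPolynomial.X 2) ^ 5 + Polynomial.C (MvPolynomial.C r2) *
        gg (Polynomial.C (MvPolynomial.C r1)) (j1 (MvPolynomial.X 0)) (j1 (MvPolynomial.X 1)))) := by
    rw [e1, hj, hj, hj1c]
    simp only [map_add, map_mul, map_pow]
  have n2 : (j1 (MvPolynomial.X 2) ^ 5 + Polynomial.C (MvPolynomial.C r2) *
        gg (Polynomial.C (MvPolynomial.C r1)) (j1 (MvPolynomial.X 0))
        (j1 (MvPolynomial.X 1)) : Polynomial A).eval 0 ≠ 0 := by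
    rw [Polynomial.eval_add, Polynomial.eval_mul, v1, hj1z]
    intro h
    have h := congrArg (MvPolynomial.eval ![(0 : k), 1]) h
    simp at h
  have n3 : (j1 (MvPolynomial.X 0) ^ 2 : Polynomial A).eval 0 ≠ 0 := by
    rw [hj1x]
    simp only [Polynomial.eval_sub, Polynomial.eval_C, Polynomial.eval_X, Polynomial.eval_pow,
      sub_zero]
    apply pow_ne_zero
    intro h
    apply n1
    rw [v1]
    linear_combination (-(MvPolynomial.C r1 * MvPolynomial.X 0 ^ 3)) * h
  obtain ⟨k1, k2, k3⟩ := key _ n1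
  obtain ⟨l1, l2, l3⟩ := key _ n2
  obtain ⟨m1, m2, m3⟩ := key _ n3
  have hs : (HahnSeries.single 1 1 : LaurentSeries E) ≠ 0 := by
    intro h
    have := congrArg (fun f => HahnSeries.coeff f 1) h
    simp at this
  refine ⟨?_, ?_, ?_, ?_, ?_, ?_, ?_, ?_⟩
  · rw [e0]; exact mul_ne_zero m1 hs
  · rw [e0, HahnSeries.order_mul m1 hs, m2, HahnSeries.order_single one_ne_zero, zero_add]
  · rw [e1]; exact k1
  · rw [e1]; exact k2
  · intro c
    rw [e1, k3, v1]
    exact aux_fifth k r1 hr1 c
  · intro c hc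
    rw [hj, hj1c]
    refine (key _ ?_).2.1
    rw [Polynomial.eval_C]
    intro h
    apply hc
    exact (MvPolynomial.C_eq_zero).mp h
  · rw [e2]; exact l1
  · rw [e2]; exact l2

end Pool.Agent.Helper346.Bra
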