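import Pool.Agent.Helper346.Bra.Defs5

set_option autoImplicit false

open scoped TensorProduct

namespace Pool.Agent.Helper346.Bra



theorem ev_inj_ui (C : Type) [Field C] :
    Function.Injective (Polynomial.eval₂RingHom (MvPolynomial.C : C →+* MvPolynomial (Fin 3) C)
      (MvPolynomial.X 0)) := by
  have h : ((MvPolynomial.eval₂Hom (Polynomial.C : C →+* Polynomial C)
      (fun _ : Fin 3 => (Polynomial.X : Polynomial C))).comp
      (Polynomial.eval₂RingHom (MvPolynomial.C : C →+* MvPolynomial (Fin 3) C)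
      (MvPolynomial.X 0))) = RingHom.id _ := by
    apply Polynomial.ringHom_ext
    · intro a; simp
    · simp
  intro a b hab
  have h1 := congrArg (MvPolynomial.eval₂Hom (Polynomial.C : C →+* Polynomial C)
      (fun _ : Fin 3 => (Polynomial.X : Polynomial C))) hab
  rw [← RingHom.comp_apply, ← RingHom.comp_apply, h] at h1
  exact h1

theorem cl_inj {A : Type*} [CommRing A] [IsDomain A] (Q : A) : Function.Injective (cl 5 Q) := by
  unfold cl
  apply AdjoinRoot.of.injective_of_degree_ne_zero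
  rw [show (Polynomial.X ^ 5 - Polynomial.C Q : Polynomial A).degree = 5 from by
    compute_degree!]
  decide

/-- base change of coefficients, `t` becoming a constant -/
noncomputable def qh_ui (C : Type) [Field C] :
    MvPolynomial (Fin 3) C →+* MvPolynomial (Fin 3) (RatFunc C) :=
  MvPolynomial.eval₂Hom ((MvPolynomial.C).comp (RatFunc.C))
    ![MvPolynomial.C RatFunc.X, MvPolynomial.X 1, MvPolynomial.X 2]

theorem qh_C_ui (C : Type) [Field C] (c : C) :
    qh_ui C (MvPolynomial.C c) = MvPolynomial.C (RatFunc.C c) := by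
  simp [qh_ui]
theorem qh_X0_ui (C : Type) [Field C] : qh_ui C (MvPolynomial.X 0) = MvPolynomial.C RatFunc.X := by
  simp [qh_ui]
theorem qh_X1_ui (C : Type) [Field C] : qh_ui C (MvPolynomial.X 1) = MvPolynomial.X 1 := by
  simp [qh_ui]
theorem qh_X2_ui (C : Type) [Field C] : qh_ui C (MvPolynomial.X 2) = MvPolynomial.X 2 := by
  simp [qh_ui]

theorem gen_eq_ui (C : Type) [Field C] (r1 r2 : C) : MvPolynomial.aeval
    (![MvPolynomial.X 0, 1, MvPolynomial.X 1, MvPolynomial.X 2] :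
      Fin 4 → MvPolynomial (Fin 3) (RatFunc C)) (F5 r1 r2) =
      MvPolynomial.X 0 ^ 5 - qh_ui C (Q51 r1 r2) := by
  simp only [F5, aa, bb, gh, gg, Q51, map_add, map_mul, map_pow, map_sub, map_one,
        MvPolynomial.aeval_X,
        MvPolynomial.algHom_C, MvPolynomial.algebraMap_eq, qh_X0_ui, qh_X1_ui, qh_X2_ui, qh_C_ui, map_ofNat]
  simp
  ring

theorem qh_ev_ui (C : Type) [Field C] (q : Polynomial C) :
    qh_ui C (Polynomial.eval₂RingHom (MvPolynomial.C : C →+* MvPolynomial (Fin 3) C)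
      (MvPolynomial.X 0) q) = MvPolynomial.C (algebraMap _ _ q) := by
  have : (qh_ui C).comp (Polynomial.eval₂RingHom (MvPolynomial.C : C →+* MvPolynomial (Fin 3) C)
      (MvPolynomial.X 0)) = MvPolynomial.C.comp (algebraMap (Polynomial C) (RatFunc C)) := by
    apply Polynomial.ringHom_ext
    · intro a; simp [qh_C_ui]
    · simp [qh_X0_ui]
  exact congrArg (fun f => f q) this

theorem embed_gen_ui (C : Type) [Field C] (L : Type*) [Field L] (Q : MvPolynomial (Fin 3) C)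
    (j : CRl 5 Q →+* L) (hj : Function.Injective j) (G : MvPolynomial (Fin 3) (RatFunc C))
    (hG : G = MvPolynomial.X 0 ^ 5 - qh_ui C Q) :
    ∃ φ : (MvPolynomial (Fin 3) (RatFunc C) ⧸ Ideal.span {G}) →+* L, Function.Injective φ ∧
      φ (Ideal.Quotient.mk _ (MvPolynomial.C RatFunc.X)) = j (cl 5 _ (MvPolynomial.X 0)) ∧
      (∀ c : C, φ (Ideal.Quotient.mk _ (MvPolynomial.C (RatFunc.C c))) =
        j (cl 5 _ (MvPolynomial.C c))) ∧
      φ (Ideal.Quotient.mk _ (MvPolynomial.X 1)) = j (cl 5 _ (MvPolynomial.X 1)) ∧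
      φ (Ideal.Quotient.mk _ (MvPolynomial.X 2)) = j (cl 5 _ (MvPolynomial.X 2)) ∧
      φ (Ideal.Quotient.mk _ (MvPolynomial.X 0)) = j (zl 5 _) := by
  classical
  have hg : Function.Injective ((j.comp (cl 5 Q)).comp
      (Polynomial.eval₂RingHom (MvPolynomial.C : C →+* MvPolynomial (Fin 3) C)
      (MvPolynomial.X 0))) :=
    (hj.comp (cl_inj _)).comp (ev_inj_ui C)
  obtain ⟨ψ, hψ⟩ : ∃ ψ : RatFunc C →+* L, ∀ p : Polynomial C, ψ (algebraMap _ _ p) =
      j (cl 5 Q (Polynomial.eval₂RingHom (MvPolynomial.C : C →+* MvPolynomial (Fin 3) C)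
      (MvPolynomial.X 0) p)) :=
    ⟨IsFractionRing.lift hg, fun p => IsFractionRing.lift_algebraMap hg p⟩
  have hψX : ψ RatFunc.X = j (cl 5 Q (MvPolynomial.X 0)) := by
    have := hψ Polynomial.X
    simpa using this
  have hψC : ∀ c : C, ψ (RatFunc.C c) = j (cl 5 Q (MvPolynomial.C c)) := by
    intro c
    have := hψ (Polynomial.C c)
    simpa using this
  have hroot : (zl 5 Q) ^ 5 - cl 5 Q Q = 0 := by
    have h := AdjoinRoot.eval₂_root (Polynomial.X ^ 5 - Polynomial.C Q :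
      Polynomial (MvPolynomial (Fin 3) C))
    rw [Polynomial.eval₂_sub, Polynomial.eval₂_pow, Polynomial.eval₂_X, Polynomial.eval₂_C] at h
    exact h
  obtain ⟨Φ, hΦ⟩ : ∃ Φ : MvPolynomial (Fin 3) (RatFunc C) →+* L,
      Φ = MvPolynomial.eval₂Hom ψ (![j (zl 5 Q), j (cl 5 Q (MvPolynomial.X 1)),
        j (cl 5 Q (MvPolynomial.X 2))]) := ⟨_, rfl⟩
  have hΦC : ∀ a, Φ (MvPolynomial.C a) = ψ a := by intro a; rw [hΦ]; simp
  have hΦ0 : Φ (MvPolynomial.X 0) = j (zl 5 Q) := by rw [hΦ]; simp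
  have hΦ1 : Φ (MvPolynomial.X 1) = j (cl 5 Q (MvPolynomial.X 1)) := by rw [hΦ]; simp
  have hΦ2 : Φ (MvPolynomial.X 2) = j (cl 5 Q (MvPolynomial.X 2)) := by rw [hΦ]; simp
  have hΦq : ∀ u, Φ (qh_ui C u) = j (cl 5 Q u) := by
    intro u
    have : Φ.comp (qh_ui C) = j.comp (cl 5 Q) := by
      apply MvPolynomial.ringHom_ext
      · intro r; rw [RingHom.comp_apply, qh_C_ui, hΦC, hψC]; rfl
      · intro i
        fin_cases i
        · change Φ (qh_ui C (MvPolynomial.X 0)) = j (cl 5 Q (MvPolynomial.X 0))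
          rw [qh_X0_ui, hΦC, hψX]
        · change Φ (qh_ui C (MvPolynomial.X 1)) = j (cl 5 Q (MvPolynomial.X 1))
          rw [qh_X1_ui, hΦ1]
        · change Φ (qh_ui C (MvPolynomial.X 2)) = j (cl 5 Q (MvPolynomial.X 2))
          rw [qh_X2_ui, hΦ2]
    exact congrArg (fun f => f u) this
  have hgen : ∀ a ∈ Ideal.span {G}, Φ a = 0 := by
    intro a ha
    rw [Ideal.mem_span_singleton] at ha
    obtain ⟨b, rfl⟩ := ha
    rw [map_mul, hG, map_sub, map_pow, hΦ0, hΦq, ← map_pow, ← map_sub, hroot, map_zero, zero_mul]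
  -- the quotient
  obtain ⟨m, hm⟩ : ∃ m : MvPolynomial (Fin 3) (RatFunc C) →+*
      (MvPolynomial (Fin 3) (RatFunc C) ⧸ Ideal.span {G}), m = Ideal.Quotient.mk _ := ⟨_, rfl⟩
  have hmG : m G = 0 := by
    rw [hm]; exact Ideal.Quotient.eq_zero_iff_mem.2 (Ideal.mem_span_singleton_self _)
  obtain ⟨φ, hφm⟩ : ∃ φ : (MvPolynomial (Fin 3) (RatFunc C) ⧸ Ideal.span {G}) →+* L,
      ∀ p, φ (m p) = Φ p :=
    ⟨Ideal.Quotient.lift _ Φ hgen, fun p => by rw [hm, Ideal.Quotient.lift_mk]⟩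
  rw [← hm]
  refine ⟨φ, ?_, ?_, ?_, ?_, ?_, ?_⟩
  · -- injectivity
    have hκ : (Polynomial.X ^ 5 - Polynomial.C Q :
        Polynomial (MvPolynomial (Fin 3) C)).eval₂ (m.comp (qh_ui C)) (m (MvPolynomial.X 0)) = 0 := by
      rw [Polynomial.eval₂_sub, Polynomial.eval₂_pow, Polynomial.eval₂_X, Polynomial.eval₂_C,
        RingHom.comp_apply, ← map_pow, ← map_sub, ← hG, hmG]
    obtain ⟨η, hη1, hη2⟩ : ∃ η : CRl 5 Q →+* (MvPolynomial (Fin 3) (RatFunc C) ⧸ Ideal.span {G}),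
        (∀ u, η (cl 5 Q u) = m (qh_ui C u)) ∧ η (zl 5 Q) = m (MvPolynomial.X 0) :=
      ⟨AdjoinRoot.lift _ _ hκ, fun u => AdjoinRoot.lift_of hκ, AdjoinRoot.lift_root hκ⟩
    have hη : ∀ u, φ (η u) = j u := by
      intro u
      have : (φ.comp η) = j := by
        apply AdjoinRoot.ringHom_ext
        · apply RingHom.ext
          intro v
          change φ (η (cl 5 Q v)) = j (cl 5 Q v)
          rw [hη1, hφm, hΦq]
        · change φ (η (zl 5 Q)) = j (zl 5 Q)
          rw [hη2, hφm, hΦ0]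
      rw [← this]; rfl
    have key : ∀ p : MvPolynomial (Fin 3) (RatFunc C), ∃ s : RatFunc C, s ≠ 0 ∧
        (∃ v, m (MvPolynomial.C s) = η v) ∧ ∃ u, m (MvPolynomial.C s * p) = η u := by
      have hηp : ∀ q : Polynomial C, ∃ u, m (MvPolynomial.C (algebraMap _ _ q)) = η u := by
        intro q
        refine ⟨cl 5 Q (Polynomial.eval₂RingHom (MvPolynomial.C : C →+* MvPolynomial (Fin 3) C)
          (MvPolynomial.X 0) q), ?_⟩
        rw [hη1, qh_ev_ui]
      intro p
      induction p using MvPolynomial.induction_on with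
      | C a =>
        obtain ⟨u, hu⟩ := hηp (RatFunc.num a)
        refine ⟨algebraMap _ _ (RatFunc.denom a), ?_, hηp _, u, ?_⟩
        · exact RatFunc.algebraMap_ne_zero (RatFunc.denom_ne_zero a)
        · rw [← hu, ← MvPolynomial.C_mul]
          congr 2
          have h0 : (algebraMap (Polynomial C) (RatFunc C)) (RatFunc.denom a) ≠ 0 :=
            RatFunc.algebraMap_ne_zero (RatFunc.denom_ne_zero a)
          have h1 := RatFunc.num_div_denom a
          rw [div_eq_iff h0] at h1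
          rw [h1, mul_comm]
      | add p q hp hq =>
        obtain ⟨s, hs, ⟨v, hv⟩, u, hu⟩ := hp
        obtain ⟨s', hs', ⟨v', hv'⟩, u', hu'⟩ := hq
        refine ⟨s * s', mul_ne_zero hs hs', ⟨v * v', ?_⟩, v' * u + v * u', ?_⟩
        · rw [MvPolynomial.C_mul, map_mul, map_mul, hv, hv']
        · rw [map_add η, map_mul η, map_mul η, ← hv, ← hv', ← hu, ← hu', MvPolynomial.C_mul]
          simp only [map_mul, map_add]
          ring
      | mul_X p i hp =>
        obtain ⟨s, hs, ⟨v, hv⟩, u, hu⟩ := hp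
        have hX : ∃ w, m (MvPolynomial.X i) = η w := by
          fin_cases i
          · exact ⟨zl 5 Q, by rw [hη2]; rfl⟩
          · exact ⟨cl 5 Q (MvPolynomial.X 1), by rw [hη1, qh_X1_ui]; rfl⟩
          · exact ⟨cl 5 Q (MvPolynomial.X 2), by rw [hη1, qh_X2_ui]; rfl⟩
        obtain ⟨w, hw⟩ := hX
        refine ⟨s, hs, ⟨v, hv⟩, u * w, ?_⟩
        rw [← mul_assoc, map_mul m, hu, hw, map_mul]
    rw [injective_iff_map_eq_zero]
    intro a ha
    obtain ⟨p, rfl⟩ : ∃ p, m p = a := by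
      rw [hm]; exact Ideal.Quotient.mk_surjective a
    obtain ⟨s, hs, -, u, hu⟩ := key p
    have h1 : j u = 0 := by
      rw [← hη, ← hu, map_mul m, map_mul, ha, mul_zero]
    have h2 : u = 0 := by
      apply hj; rw [h1, map_zero]
    rw [h2, map_zero, map_mul] at hu
    have h3 : m (MvPolynomial.C s⁻¹) * m (MvPolynomial.C s) = 1 := by
      rw [← map_mul, ← MvPolynomial.C_mul, inv_mul_cancel₀ hs, MvPolynomial.C_1, map_one]
    calc m p = (m (MvPolynomial.C s⁻¹) * m (MvPolynomial.C s)) * m p := by rw [h3, one_mul]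
      _ = 0 := by rw [mul_assoc, hu, mul_zero]
  · rw [hφm, hΦC, hψX]
  · intro c
    rw [hφm, hΦC, hψC]
  · rw [hφm, hΦ1]
  · rw [hφm, hΦ2]
  · rw [hφm, hΦ0]

theorem affRing1_embed (C : Type) [Field C] (r1 r2 : C) (L : Type*) [Field L]
    (j : CRl 5 (Q51 r1 r2) →+* L) (hj : Function.Injective j) :
    ∃ φ : affRing1 (RatFunc C) (F5 r1 r2) →+* L, Function.Injective φ ∧
      φ (Ideal.Quotient.mk _ (MvPolynomial.C RatFunc.X)) = j (cl 5 _ (MvPolynomial.X 0)) ∧
      (∀ c : C, φ (algebraMap C _ c) = j (cl 5 _ (MvPolynomial.C c))) ∧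
      φ (Ideal.Quotient.mk _ (MvPolynomial.X 1)) = j (cl 5 _ (MvPolynomial.X 1)) ∧
      φ (Ideal.Quotient.mk _ (MvPolynomial.X 2)) = j (cl 5 _ (MvPolynomial.X 2)) ∧
      φ (Ideal.Quotient.mk _ (MvPolynomial.X 0)) = j (zl 5 _) := by
  obtain ⟨φ, h1, h2, h3, h4, h5, h6⟩ := embed_gen_ui C L (Q51 r1 r2) j hj _ (gen_eq_ui C r1 r2)
  refine ⟨φ, h1, h2, ?_, h4, h5, h6⟩
  intro c
  rw [← h3 c]
  rfl

end Pool.Agent.Helper346.Bra
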