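import Pool.Agent.Helper346.Bra.Defs5

set_option autoImplicit false

open scoped TensorProduct

namespace Pool.Agent.Helper346.Bra



theorem F5_core {Ω : Type*} [Field Ω] [CharZero Ω] (A B R1 R2 z w x y : Ω)
    (hR1 : R1 ^ 2 = 11 * R1 + 1) (hR2 : R2 = 11 - R1) (hA : A ≠ 0) (hB : B ≠ 0)
    (hD : B - A ≠ 0) (hE : B * R1 - A * R2 ≠ 0)
    (f0 : z ^ 5 * w - B * (y ^ 2 + (1 - R1) * w * x * y - R1 * w ^ 3 * y - x ^ 3 +
      R1 * w ^ 2 * x ^ 2) + A * (y ^ 2 + (1 - R2) * w * x * y - R2 * w ^ 3 * y - x ^ 3 +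
      R2 * w ^ 2 * x ^ 2) = 0)
    (d0 : 5 * z ^ 4 * w = 0)
    (d1 : z ^ 5 - B * ((1 - R1) * x * y - 3 * R1 * w ^ 2 * y + 2 * R1 * w * x ^ 2) +
      A * ((1 - R2) * x * y - 3 * R2 * w ^ 2 * y + 2 * R2 * w * x ^ 2) = 0)
    (d2 : - B * ((1 - R1) * w * y - 3 * x ^ 2 + 2 * R1 * w ^ 2 * x) +
      A * ((1 - R2) * w * y - 3 * x ^ 2 + 2 * R2 * w ^ 2 * x) = 0)
    (d3 : - B * (2 * y + (1 - R1) * w * x - R1 * w ^ 3) +
      A * (2 * y + (1 - R2) * w * x - R2 * w ^ 3) = 0) : z = 0 ∧ w = 0 ∧ x = 0 ∧ y = 0 := by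
  have hR12 : R1 - R2 ≠ 0 := by
    intro h
    have h2 : (125:Ω) = 0 := by
      have : (R1 - R2) ^ 2 = 125 := by
        rw [hR2]; linear_combination 4 * hR1
      rw [← this, h]; ring
    norm_num at h2
  by_cases hw : w = 0
  · subst hw
    have hy : y = 0 := by
      have h3 : 2 * (B - A) * y = 0 := by linear_combination - d3
      rcases mul_eq_zero.1 h3 with h4 | h4
      · exact absurd h4 (mul_ne_zero two_ne_zero hD)
      · exact h4
    subst hy
    have hx : x = 0 := by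
      have h3 : 3 * (B - A) * x ^ 2 = 0 := by linear_combination d2
      rcases mul_eq_zero.1 h3 with h4 | h4
      · exact absurd h4 (mul_ne_zero three_ne_zero hD)
      · exact pow_eq_zero_iff (two_ne_zero) |>.1 h4
    subst hx
    have hz : z = 0 := by
      have h3 : z ^ 5 = 0 := by linear_combination d1
      exact pow_eq_zero_iff (by norm_num) |>.1 h3
    exact ⟨hz, rfl, rfl, rfl⟩
  · exfalso
    have hz : z = 0 := by
      have h3 : z ^ 4 * (5 * w) = 0 := by linear_combination d0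
      rcases mul_eq_zero.1 h3 with h4 | h4
      · exact pow_eq_zero_iff (by norm_num) |>.1 h4
      · exact absurd h4 (mul_ne_zero (by norm_num) hw)
    subst hz
    obtain ⟨D, hDd⟩ : ∃ D, D = B - A := ⟨_, rfl⟩
    obtain ⟨E, hEd⟩ : ∃ E, E = B * R1 - A * R2 := ⟨_, rfl⟩
    rw [← hDd] at hD
    rw [← hEd] at hE
    obtain ⟨L, hL⟩ : ∃ L, L = E / D := ⟨_, rfl⟩
    have hLD : L * D = E := by rw [hL, div_mul_cancel₀ _ hD]
    obtain ⟨x', hx'⟩ : ∃ x', x' = x / w ^ 2 := ⟨_, rfl⟩
    obtain ⟨y', hy'⟩ : ∃ y', y' = y / w ^ 3 := ⟨_, rfl⟩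
    have hxw : x = x' * w ^ 2 := by rw [hx', div_mul_cancel₀ _ (pow_ne_zero _ hw)]
    have hyw : y = y' * w ^ 3 := by rw [hy', div_mul_cancel₀ _ (pow_ne_zero _ hw)]
    have hL0 : L ≠ 0 := by
      intro h; apply hE; rw [← hLD, h, zero_mul]
    have hL1 : L - R1 ≠ 0 := by
      intro h
      have h3 : A * (R1 - R2) = 0 := by
        have : A * (R1 - R2) = D * (L - R1) := by
          rw [mul_sub D, mul_comm D L, hLD, hEd, hDd]; ring
        rw [this, h, mul_zero]
      exact mul_ne_zero hA hR12 h3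
    have hL2 : L - R2 ≠ 0 := by
      intro h
      have h3 : B * (R1 - R2) = 0 := by
        have : B * (R1 - R2) = D * (L - R2) := by
          rw [mul_sub D, mul_comm D L, hLD, hEd, hDd]; ring
        rw [this, h, mul_zero]
      exact mul_ne_zero hB hR12 h3
    have hprod : L ^ 2 - 11 * L - 1 ≠ 0 := by
      have : L ^ 2 - 11 * L - 1 = (L - R1) * (L - R2) := by
        rw [hR2]; linear_combination hR1
      rw [this]
      exact mul_ne_zero hL1 hL2
    obtain ⟨W, hW⟩ : ∃ W : WeierstrassCurve Ω, W = ⟨1 - L, -L, -L, 0, 0⟩ := ⟨_, rfl⟩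
    have hΔ : W.Δ ≠ 0 := by
      have : W.Δ = L ^ 5 * (L ^ 2 - 11 * L - 1) := by
        rw [hW]
        simp only [WeierstrassCurve.Δ, WeierstrassCurve.b₂, WeierstrassCurve.b₄,
          WeierstrassCurve.b₆, WeierstrassCurve.b₈]
        ring
      rw [this]
      exact mul_ne_zero (pow_ne_zero _ hL0) hprod
    have hw6 : w ^ 6 ≠ 0 := pow_ne_zero _ hw
    have hw4 : w ^ 4 ≠ 0 := pow_ne_zero _ hw
    have hw3 : w ^ 3 ≠ 0 := pow_ne_zero _ hw
    have F0 : y' ^ 2 + (1 - L) * x' * y' - L * y' - x' ^ 3 + L * x' ^ 2 = 0 := by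
      have h3 : (w ^ 6 * D) * (y' ^ 2 + (1 - L) * x' * y' - L * y' - x' ^ 3 + L * x' ^ 2) = 0 := by
        rw [hxw, hyw] at f0
        have e1 : (w ^ 6 * D) * (y' ^ 2 + (1 - L) * x' * y' - L * y' - x' ^ 3 + L * x' ^ 2) =
          w ^ 6 * (D * (y' ^ 2 + x' * y' - x' ^ 3) - (L * D) * (x' * y' + y' - x' ^ 2)) := by ring
        rw [e1, hLD, hEd, hDd]
        linear_combination - f0
      exact (mul_eq_zero.1 h3).resolve_left (mul_ne_zero hw6 hD)
    have F2 : (1 - L) * y' - 3 * x' ^ 2 + 2 * L * x' = 0 := by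
      have h3 : (w ^ 4 * D) * ((1 - L) * y' - 3 * x' ^ 2 + 2 * L * x') = 0 := by
        rw [hxw, hyw] at d2
        have e1 : (w ^ 4 * D) * ((1 - L) * y' - 3 * x' ^ 2 + 2 * L * x') =
          w ^ 4 * (D * (y' - 3 * x' ^ 2) - (L * D) * (y' - 2 * x')) := by ring
        rw [e1, hLD, hEd, hDd]
        linear_combination - d2
      exact (mul_eq_zero.1 h3).resolve_left (mul_ne_zero hw4 hD)
    have F3 : 2 * y' + (1 - L) * x' - L = 0 := by
      have h3 : (w ^ 3 * D) * (2 * y' + (1 - L) * x' - L) = 0 := by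
        rw [hxw, hyw] at d3
        have e1 : (w ^ 3 * D) * (2 * y' + (1 - L) * x' - L) =
          w ^ 3 * (D * (2 * y' + x') - (L * D) * (x' + 1)) := by ring
        rw [e1, hLD, hEd, hDd]
        linear_combination - d3
      exact (mul_eq_zero.1 h3).resolve_left (mul_ne_zero hw3 hD)
    have hEq : W.toAffine.Equation x' y' := by
      rw [WeierstrassCurve.Affine.equation_iff, hW]
      simp only
      linear_combination F0
    have hNs := (WeierstrassCurve.Affine.equation_iff_nonsingular_of_Δ_ne_zero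
      (W := W.toAffine) hΔ).1 hEq
    rw [WeierstrassCurve.Affine.nonsingular_iff, hW] at hNs
    simp only at hNs
    rcases hNs.2 with h | h
    · apply h
      linear_combination F2
    · apply h
      linear_combination F3

theorem F5_wh {K : Type} [Field K] (a b r s : K) :
    (MvPolynomial.X 0 ^ 5 * MvPolynomial.X 1 - MvPolynomial.C b * gh r +
      MvPolynomial.C a * gh s : MvPolynomial (Fin 4) K).IsWeightedHomogeneous ![1, 1, 2, 3] 6 := by
  have hX : ∀ i : Fin 4, (MvPolynomial.X i : MvPolynomial (Fin 4) K).IsWeightedHomogeneous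
      (![1, 1, 2, 3] : Fin 4 → ℕ) ((![1, 1, 2, 3] : Fin 4 → ℕ) i) := fun i =>
    MvPolynomial.isWeightedHomogeneous_X K _ i
  have hX0 : (MvPolynomial.X 0 : MvPolynomial (Fin 4) K).IsWeightedHomogeneous
      (![1, 1, 2, 3] : Fin 4 → ℕ) 1 := hX 0
  have hX1 : (MvPolynomial.X 1 : MvPolynomial (Fin 4) K).IsWeightedHomogeneous
      (![1, 1, 2, 3] : Fin 4 → ℕ) 1 := hX 1
  have hX2 : (MvPolynomial.X 2 : MvPolynomial (Fin 4) K).IsWeightedHomogeneous
      (![1, 1, 2, 3] : Fin 4 → ℕ) 2 := hX 2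
  have hX3 : (MvPolynomial.X 3 : MvPolynomial (Fin 4) K).IsWeightedHomogeneous
      (![1, 1, 2, 3] : Fin 4 → ℕ) 3 := hX 3
  have hC : ∀ c : K, (MvPolynomial.C c : MvPolynomial (Fin 4) K).IsWeightedHomogeneous
      (![1, 1, 2, 3] : Fin 4 → ℕ) 0 := fun c => MvPolynomial.isWeightedHomogeneous_C _ c
  have hg : ∀ r : K, (gh r : MvPolynomial (Fin 4) K).IsWeightedHomogeneous
      (![1, 1, 2, 3] : Fin 4 → ℕ) 6 := by
    intro r
    have t1 := hX3.pow 2
    have t2 := (((MvPolynomial.isWeightedHomogeneous_one K (![1, 1, 2, 3] : Fin 4 → ℕ)).sub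
      (hC r)).mul (hX1.mul (hX2.mul hX3)))
    have t3 := (hC r).mul ((hX1.pow 3).mul hX3)
    have t4 := hX2.pow 3
    have t5 := (hC r).mul ((hX1.pow 2).mul (hX2.pow 2))
    have t := (((t1.add t2).sub t3).sub t4).add t5
    have e : (gh r : MvPolynomial (Fin 4) K) = MvPolynomial.X 3 ^ 2 +
      (1 - MvPolynomial.C r) * (MvPolynomial.X 1 * (MvPolynomial.X 2 * MvPolynomial.X 3)) -
      MvPolynomial.C r * (MvPolynomial.X 1 ^ 3 * MvPolynomial.X 3) - MvPolynomial.X 2 ^ 3 +
      MvPolynomial.C r * (MvPolynomial.X 1 ^ 2 * MvPolynomial.X 2 ^ 2) := by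
      unfold gh; ring
    rw [e]
    exact t
  have u1 := (hX0.pow 5).mul hX1
  have u2 := (hC b).mul (hg r)
  have u3 := (hC a).mul (hg s)
  rw [zero_add] at u2 u3
  exact (u1.sub u2).add u3

theorem F5_smooth (C : Type) [Field C] [CharZero C] (r1 r2 : C) (h1 : r1 ^ 2 = 11 * r1 + 1)
    (h2 : r2 = 11 - r1) : IsDelPezzoOne (RatFunc C) (F5 r1 r2) := by
  refine ⟨F5_wh _ _ _ _, ?_⟩
  intro Ω _ _ v hv hF
  by_contra hcon
  push Not at hcon
  have hr1 : r1 ≠ 0 := by
    intro h; rw [h] at h1; norm_num at h1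
  have hr12 : r1 * r2 = -1 := by rw [h2]; linear_combination - h1
  have hr2 : r2 ≠ 0 := by
    intro h; rw [h, mul_zero] at hr12; norm_num at hr12
  have hinj : Function.Injective (algebraMap (Polynomial C) (RatFunc C)) :=
    RatFunc.algebraMap_injective C
  have hA : aa r1 ≠ 0 := by
    unfold aa
    refine mul_ne_zero ?_ RatFunc.X_ne_zero
    rw [← RatFunc.algebraMap_C]
    intro h
    rw [← map_zero (algebraMap (Polynomial C) (RatFunc C))] at h
    have := hinj h
    rw [Polynomial.C_eq_zero] at this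
    exact hr1 this
  have hBp : bb r2 = algebraMap (Polynomial C) (RatFunc C)
      (Polynomial.C r2 * (Polynomial.X - 1) * (1 - 2 * Polynomial.X) ^ 4) := by
    unfold bb
    simp only [map_mul, map_pow, map_sub, map_one, RatFunc.algebraMap_C, RatFunc.algebraMap_X,
      map_ofNat]
  have hAp : aa r1 = algebraMap (Polynomial C) (RatFunc C) (Polynomial.C r1 * Polynomial.X) := by
    unfold aa
    simp only [map_mul, RatFunc.algebraMap_C, RatFunc.algebraMap_X]
  have hne : ∀ p : Polynomial C, p.eval 0 ≠ 0 → algebraMap (Polynomial C) (RatFunc C) p ≠ 0 := by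
    intro p hp h
    rw [← map_zero (algebraMap (Polynomial C) (RatFunc C))] at h
    have := hinj h
    rw [this] at hp
    simp at hp
  have hB : bb r2 ≠ 0 := by
    rw [hBp]
    apply hne
    simp [hr2]
  have hD : bb r2 - aa r1 ≠ 0 := by
    rw [hBp, hAp, ← map_sub]
    apply hne
    simp [hr2]
  have hE : bb r2 * RatFunc.C r1 - aa r1 * RatFunc.C r2 ≠ 0 := by
    rw [hBp, hAp, ← RatFunc.algebraMap_C, ← RatFunc.algebraMap_C, ← map_mul, ← map_mul, ← map_sub]
    apply hne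
    simp [hr2, hr1]
  haveI : CharZero (RatFunc C) := charZero_of_injective_algebraMap (R := C)
    (algebraMap C (RatFunc C)).injective
  haveI : CharZero Ω := charZero_of_injective_algebraMap (R := RatFunc C)
    (algebraMap (RatFunc C) Ω).injective
  obtain ⟨m, hm⟩ : ∃ m : RatFunc C →+* Ω, m = algebraMap (RatFunc C) Ω := ⟨_, rfl⟩
  have hmi : Function.Injective m := m.injective
  have hm0 : ∀ a, a ≠ 0 → m a ≠ 0 := fun a ha h => ha (hmi (by rw [h, map_zero]))
  have h11 : m (RatFunc.C 11) = 11 := map_ofNat (m.comp RatFunc.C) 11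
  have h5 := hcon 0
  have h6 := hcon 1
  have h7 := hcon 2
  have h8 := hcon 3
  have key := F5_core (m (aa r1)) (m (bb r2)) (m (RatFunc.C r1)) (m (RatFunc.C r2))
    (v 0) (v 1) (v 2) (v 3) ?_ ?_ (hm0 _ hA) (hm0 _ hB) ?_ ?_ ?_ ?_ ?_ ?_ ?_
  · apply hv
    funext i
    fin_cases i
    · exact key.1
    · exact key.2.1
    · exact key.2.2.1
    · exact key.2.2.2
  · rw [← map_pow, ← map_pow, h1, map_add, map_mul, map_add, map_mul, h11, map_one, map_one]
  · rw [h2, map_sub, map_sub, h11]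
  · rw [← map_sub]; exact hm0 _ hD
  · rw [← map_mul, ← map_mul, ← map_sub]; exact hm0 _ hE
  · simp [F5, gh, ← hm] at hF
    linear_combination hF
  · simp [F5, gh, ← hm, MvPolynomial.pderiv_X, Pi.single_apply, Derivation.leibniz, Derivation.leibniz_pow] at h5
    rcases h5 with h5 | h5
    · rw [h5]; ring
    · rw [h5]; ring
  · simp [F5, gh, ← hm, MvPolynomial.pderiv_X, Pi.single_apply, Derivation.leibniz, Derivation.leibniz_pow] at h6
    linear_combination h6
  · simp [F5, gh, ← hm, MvPolynomial.pderiv_X, Pi.single_apply, Derivation.leibniz, Derivation.leibniz_pow] at h7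
    linear_combination h7
  · simp [F5, gh, ← hm, MvPolynomial.pderiv_X, Pi.single_apply, Derivation.leibniz, Derivation.leibniz_pow] at h8
    linear_combination h8

end Pool.Agent.Helper346.Bra
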