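import Pool.Agent.Helper346.Bra.Defs5

set_option autoImplicit false

open scoped TensorProduct

namespace Pool.Agent.Helper346.Bra



section StarAux

/-- `a = v π^n + higher terms` -/
def SHas {K κ : Type*} [Field K] [Field κ] (D : DVal K κ) (n : ℤ) (a : K) (v : κ) : Prop :=
  (v = 0 ∧ (a = 0 ∨ n < D.w a)) ∨ (v ≠ 0 ∧ a ≠ 0 ∧ D.w a = n ∧ D.lc a = v)

variable {K κ : Type*} [Field K] [Field κ] {D : DVal K κ}

theorem SHas.of_ne {n : ℤ} {a : K} {v : κ} (h : SHas D n a v) (hv : v ≠ 0) :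
    a ≠ 0 ∧ D.w a = n ∧ D.lc a = v := by
  rcases h with ⟨h1, -⟩ | ⟨-, h2⟩
  · exact absurd h1 hv
  · exact h2

theorem SHas.of_zero {n : ℤ} {a : K} (h : SHas D n a 0) (ha : a ≠ 0) : n < D.w a := by
  rcases h with ⟨-, h1⟩ | ⟨h2, -⟩
  · exact h1.resolve_left ha
  · exact absurd rfl h2

theorem SHas.self (D : DVal K κ) {a : K} (ha : a ≠ 0) : SHas D (D.w a) a (D.lc a) :=
  Or.inr ⟨D.lc_ne a ha, ha, rfl, rfl⟩

theorem SHas.lt (D : DVal K κ) {n : ℤ} {a : K} (h : n < D.w a) : SHas D n a 0 :=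
  Or.inl ⟨rfl, Or.inr h⟩

theorem SHas.zero (D : DVal K κ) (n : ℤ) : SHas D n 0 0 := Or.inl ⟨rfl, Or.inl rfl⟩

theorem SHas.lower {n m : ℤ} {a : K} {v : κ} (h : SHas D n a v) (hm : m < n) : SHas D m a 0 := by
  rcases h with ⟨-, h1⟩ | ⟨h1, h2, h3, h4⟩
  · refine Or.inl ⟨rfl, ?_⟩
    rcases h1 with h1 | h1
    · exact Or.inl h1
    · exact Or.inr (hm.trans h1)
  · exact Or.inl ⟨rfl, Or.inr (by omega)⟩

theorem SHas.uniq {n : ℤ} {a : K} {v u : κ} (h : SHas D n a v) (h' : SHas D n a u) : v = u := by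
  rcases h with ⟨h1, h2⟩ | ⟨h1, h2, h3, h4⟩ <;> rcases h' with ⟨g1, g2⟩ | ⟨g1, g2, g3, g4⟩
  · rw [h1, g1]
  · exfalso
    rcases h2 with h2 | h2
    · exact g2 h2
    · omega
  · exfalso
    rcases g2 with g2 | g2
    · exact h2 g2
    · omega
  · rw [← h4, ← g4]

theorem dval_w_one_uk (D : DVal K κ) : D.w 1 = 0 := by
  have := D.w_mul 1 1 one_ne_zero one_ne_zero
  rw [one_mul] at this
  omega

theorem dval_w_neg_uk (D : DVal K κ) {a : K} (ha : a ≠ 0) : D.w (-a) = D.w a := by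
  have h1 := D.w_mul (-1) (-1) (by simp) (by simp)
  rw [neg_one_mul, neg_neg, dval_w_one_uk] at h1
  have h2 := D.w_mul (-1) a (by simp) ha
  rw [neg_one_mul] at h2
  omega

theorem dval_lc_neg (D : DVal K κ) {a : K} (ha : a ≠ 0) : D.lc (-a) = -D.lc a := by
  by_contra h
  have h1 := D.add_eq a (-a) ha (neg_ne_zero.2 ha) (dval_w_neg_uk D ha).symm (by
    intro h2
    exact h (eq_neg_of_add_eq_zero_right h2))
  exact h1.1 (add_neg_cancel a)

theorem SHas.neg {n : ℤ} {a : K} {v : κ} (h : SHas D n a v) : SHas D n (-a) (-v) := by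
  rcases h with ⟨h1, h2⟩ | ⟨h1, h2, h3, h4⟩
  · refine Or.inl ⟨by rw [h1, neg_zero], ?_⟩
    by_cases ha : a = 0
    · exact Or.inl (by rw [ha, neg_zero])
    · rw [dval_w_neg_uk D ha]
      exact Or.inr (h2.resolve_left ha)
  · refine Or.inr ⟨neg_ne_zero.2 h1, neg_ne_zero.2 h2, ?_, ?_⟩
    · rw [dval_w_neg_uk D h2, h3]
    · rw [dval_lc_neg D h2, h4]

theorem SHas.add {n : ℤ} {a b : K} {v u : κ} (h : SHas D n a v) (h' : SHas D n b u) :
    SHas D n (a + b) (v + u) := by
  by_cases ha : a = 0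
  · subst ha
    have : v = 0 := h.uniq (SHas.zero D n)
    rw [this, zero_add, zero_add]
    exact h'
  by_cases hb : b = 0
  · subst hb
    have : u = 0 := h'.uniq (SHas.zero D n)
    rw [this, add_zero, add_zero]
    exact h
  rcases lt_trichotomy (D.w a) (D.w b) with hw | hw | hw
  · obtain ⟨e1, e2, e3⟩ := D.add_lt a b ha hb hw
    rcases h with ⟨h1, h2⟩ | ⟨h1, h2, h3, h4⟩ <;> rcases h' with ⟨g1, g2⟩ | ⟨g1, g2, g3, g4⟩
    · refine Or.inl ⟨by rw [h1, g1, add_zero], Or.inr ?_⟩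
      have := h2.resolve_left ha
      omega
    · have := h2.resolve_left ha
      omega
    · refine Or.inr ⟨by rwa [g1, add_zero], e1, by omega, ?_⟩
      rw [e3, h4, g1, add_zero]
    · omega
  · by_cases hl : D.lc a + D.lc b = 0
    · rcases h with ⟨h1, h2⟩ | ⟨h1, h2, h3, h4⟩ <;> rcases h' with ⟨g1, g2⟩ | ⟨g1, g2, g3, g4⟩
      · refine Or.inl ⟨by rw [h1, g1, add_zero], ?_⟩
        by_cases hab : a + b = 0
        · exact Or.inl hab
        · have := D.add_gt a b ha hb hab hw hl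
          have := h2.resolve_left ha
          right
          omega
      · have := h2.resolve_left ha
        omega
      · have := g2.resolve_left hb
        omega
      · refine Or.inl ⟨by rw [← h4, ← g4, hl], ?_⟩
        by_cases hab : a + b = 0
        · exact Or.inl hab
        · have := D.add_gt a b ha hb hab hw hl
          right
          omega
    · obtain ⟨e1, e2, e3⟩ := D.add_eq a b ha hb hw hl
      rcases h with ⟨h1, h2⟩ | ⟨h1, h2, h3, h4⟩ <;> rcases h' with ⟨g1, g2⟩ | ⟨g1, g2, g3, g4⟩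
      · refine Or.inl ⟨by rw [h1, g1, add_zero], Or.inr ?_⟩
        have := h2.resolve_left ha
        omega
      · have := h2.resolve_left ha
        omega
      · have := g2.resolve_left hb
        omega
      · refine Or.inr ⟨by rwa [← h4, ← g4], e1, by omega, ?_⟩
        rw [e3, h4, g4]
  · obtain ⟨e1, e2, e3⟩ := D.add_lt b a hb ha hw
    rw [add_comm b a] at e1 e2 e3
    rcases h with ⟨h1, h2⟩ | ⟨h1, h2, h3, h4⟩ <;> rcases h' with ⟨g1, g2⟩ | ⟨g1, g2, g3, g4⟩
    · refine Or.inl ⟨by rw [h1, g1, add_zero], Or.inr ?_⟩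
      have := g2.resolve_left hb
      omega
    · refine Or.inr ⟨by rwa [h1, zero_add], e1, by omega, ?_⟩
      rw [e3, g4, h1, zero_add]
    · have := g2.resolve_left hb
      omega
    · omega

theorem SHas.sub {n : ℤ} {a b : K} {v u : κ} (h : SHas D n a v) (h' : SHas D n b u) :
    SHas D n (a - b) (v - u) := by
  rw [sub_eq_add_neg, sub_eq_add_neg]
  exact h.add h'.neg

theorem SHas.mul {n m k : ℤ} {a b : K} {v u : κ} (h : SHas D n a v) (h' : SHas D m b u)
    (hk : k = n + m) : SHas D k (a * b) (v * u) := by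
  by_cases ha : a = 0
  · subst ha
    have : v = 0 := h.uniq (SHas.zero D n)
    rw [this, zero_mul, zero_mul]
    exact SHas.zero D k
  by_cases hb : b = 0
  · subst hb
    have : u = 0 := h'.uniq (SHas.zero D m)
    rw [this, mul_zero, mul_zero]
    exact SHas.zero D k
  have e1 := D.w_mul a b ha hb
  have e2 := D.lc_mul a b ha hb
  rcases h with ⟨h1, h2⟩ | ⟨h1, h2, h3, h4⟩ <;> rcases h' with ⟨g1, g2⟩ | ⟨g1, g2, g3, g4⟩
  · refine Or.inl ⟨by rw [h1, zero_mul], Or.inr ?_⟩
    have := h2.resolve_left ha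
    have := g2.resolve_left hb
    omega
  · refine Or.inl ⟨by rw [h1, zero_mul], Or.inr ?_⟩
    have := h2.resolve_left ha
    omega
  · refine Or.inl ⟨by rw [g1, mul_zero], Or.inr ?_⟩
    have := g2.resolve_left hb
    omega
  · refine Or.inr ⟨mul_ne_zero h1 g1, mul_ne_zero ha hb, by omega, ?_⟩
    rw [e2, h4, g4]

theorem SHas.pow0 {a : K} {v : κ} (h : SHas D 0 a v) (h1 : SHas D 0 (1 : K) (1 : κ)) (j : ℕ) :
    SHas D 0 (a ^ j) (v ^ j) := by
  induction j with
  | zero => simpa using h1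
  | succ j ih =>
    rw [pow_succ, pow_succ]
    exact ih.mul h (by ring)

theorem shas_const {C : Type*} [Field C] (D : DVal K κ) (iK : C →+* K) (ik : C →+* κ)
    (hc : ∀ c : C, c ≠ 0 → D.w (iK c) = 0 ∧ D.lc (iK c) = ik c) (c : C) :
    SHas D 0 (iK c) (ik c) := by
  by_cases h : c = 0
  · rw [h, map_zero, map_zero]
    exact SHas.zero D 0
  · obtain ⟨h1, h2⟩ := hc c h
    exact Or.inr ⟨(map_ne_zero ik).2 h, (map_ne_zero iK).2 h, h1, h2⟩

theorem shas_one (D : DVal K κ) : SHas D 0 (1 : K) (1 : κ) := by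
  refine Or.inr ⟨one_ne_zero, one_ne_zero, dval_w_one_uk D, ?_⟩
  have := D.lc_mul 1 1 one_ne_zero one_ne_zero
  rw [one_mul] at this
  have h2 := D.lc_ne 1 one_ne_zero
  exact (mul_right_cancel₀ h2 (by rw [one_mul]; exact this)).symm

theorem star_ident {B : Type*} [CommRing B] (r x y : B) :
    x ^ 5 = ff x y * ff x y + ff x y * (2 * x ^ 2 + (x + 1) * ((1 - r) * x - r)) -
      (x + 1) ^ 2 * gg r x y := by
  unfold ff gg
  ring

/-- non-integral points -/
theorem star_I {C : Type*} [Field C] (D : DVal K κ) (iK : C →+* K) (ik : C →+* κ)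
    (hc : ∀ c : C, c ≠ 0 → D.w (iK c) = 0 ∧ D.lc (iK c) = ik c) (r : C)
    (x y : K) (hf : ff x y ≠ 0) (hg : gg (iK r) x y ≠ 0)
    (h : D.w (ff x y) ≤ D.w (gg (iK r) x y))
    (hxy : (x ≠ 0 ∧ D.w x < 0) ∨ (y ≠ 0 ∧ D.w y < 0)) :
    ∃ (m : ℤ) (c : κ), D.w (ff x y) = 5 * m ∧ D.lc (ff x y) = c ^ 5 := by
  have hr := shas_const D iK ik hc r
  have h1 := shas_one D
  by_cases hx : x = 0
  · exfalso
    subst hx
    rcases hxy with ⟨h2, -⟩ | ⟨hy, hy0⟩
    · exact h2 rfl
    have hY := SHas.self D hy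
    have e1 : ff (0 : K) y = y := by unfold ff; ring
    have e2 : gg (iK r) 0 y = y * y - iK r * y := by unfold gg; ring
    have h3 : SHas D (D.w y + D.w y) (gg (iK r) 0 y) (D.lc y * D.lc y - 0) := by
      rw [e2]
      exact (hY.mul hY rfl).sub ((hr.mul hY rfl).lower (by omega))
    have h4 := h3.of_ne (by
      rw [sub_zero]
      exact mul_ne_zero (D.lc_ne y hy) (D.lc_ne y hy))
    rw [e1, h4.2.1] at h
    omega
  by_cases hy : y = 0
  · exfalso
    subst hy
    rcases hxy with ⟨-, hx0⟩ | ⟨h2, -⟩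
    swap
    · exact h2 rfl
    have hX := SHas.self D hx
    have e1 : ff x (0 : K) = -(x * x) := by unfold ff; ring
    have e2 : gg (iK r) x 0 = iK r * (x * x) - x * (x * x) := by unfold gg; ring
    have h3 : SHas D (D.w x + (D.w x + D.w x)) (gg (iK r) x 0)
        (0 - D.lc x * (D.lc x * D.lc x)) := by
      rw [e2]
      exact ((hr.mul (hX.mul hX rfl) rfl).lower (by omega)).sub (hX.mul (hX.mul hX rfl) rfl)
    have h4 := h3.of_ne (by
      rw [zero_sub]
      exact neg_ne_zero.2 (mul_ne_zero (D.lc_ne x hx) (mul_ne_zero (D.lc_ne x hx) (D.lc_ne x hx))))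
    rw [e1, h4.2.1, dval_w_neg_uk D (mul_ne_zero hx hx), D.w_mul x x hx hx] at h
    omega
  have hX := SHas.self D hx
  have hY := SHas.self D hy
  obtain ⟨m, hm⟩ : ∃ m : ℤ, m = min (2 * D.w y) (3 * D.w x) := ⟨_, rfl⟩
  have hm1 : m ≤ 2 * D.w y := by rw [hm]; exact min_le_left _ _
  have hm2 : m ≤ 3 * D.w x := by rw [hm]; exact min_le_right _ _
  have hm3 : m = 2 * D.w y ∨ m = 3 * D.w x := by
    rw [hm]
    exact min_choice _ _
  have hm0 : m < 0 := by
    rcases hxy with ⟨-, h2⟩ | ⟨-, h2⟩ <;> omega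
  have hxy1 := hX.mul hY rfl
  have hfm : SHas D m (ff x y) 0 := by
    have e : ff x y = x * y + y - x * x := by unfold ff; ring
    rw [e]
    have := ((hxy1.lower (m := m) (by omega)).add (hY.lower (m := m) (by omega))).sub
      ((hX.mul hX rfl).lower (m := m) (by omega))
    simpa using this
  have hfm' := hfm.of_zero hf
  have heg : gg (iK r) x y = y * y + (1 - iK r) * (x * y) - iK r * y - x * (x * x) +
    iK r * (x * x) := by unfold gg; ring
  have hmix : SHas D m ((1 - iK r) * (x * y)) 0 :=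
    ((h1.sub hr).mul hxy1 rfl).lower (by omega)
  have hry : SHas D m (iK r * y) 0 := (hr.mul hY rfl).lower (by omega)
  have hxx : SHas D m (iK r * (x * x)) 0 := (hr.mul (hX.mul hX rfl) rfl).lower (by omega)
  by_cases hcase : 2 * D.w y = 3 * D.w x
  · -- cancellation
    have hgm : SHas D m (gg (iK r) x y) (D.lc y * D.lc y + 0 - 0 - D.lc x * (D.lc x * D.lc x) + 0) := by
      rw [heg]
      exact ((((hY.mul hY (by omega)).add hmix).sub hry).sub
        (hX.mul (hX.mul hX rfl) (by omega))).add hxx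
    have hcan : D.lc y * D.lc y = D.lc x * (D.lc x * D.lc x) := by
      by_contra hne
      have := hgm.of_ne (by
        intro h0
        apply hne
        linear_combination h0)
      omega
    obtain ⟨p, hp⟩ : ∃ p : ℤ, D.w x = 2 * p := ⟨D.w y - D.w x, by omega⟩
    have hpy : D.w y = 3 * p := by omega
    have hf5 : SHas D (5 * p) (ff x y) (D.lc x * D.lc y + 0 - 0) := by
      have e : ff x y = x * y + y - x * x := by unfold ff; ring
      rw [e]
      exact ((hX.mul hY (by omega)).add (hY.lower (by omega))).sub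
        ((hX.mul hX rfl).lower (by omega))
    have hlx := D.lc_ne x hx
    have hly := D.lc_ne y hy
    have h5 := hf5.of_ne (by
      rw [add_zero, sub_zero]
      exact mul_ne_zero hlx hly)
    refine ⟨p, D.lc y / D.lc x, h5.2.1, ?_⟩
    rw [h5.2.2, div_pow, eq_div_iff (pow_ne_zero 5 hlx)]
    linear_combination (-(D.lc y * D.lc y * D.lc y) - D.lc y * D.lc x ^ 3) * hcan
  · exfalso
    rcases hm3 with hm3 | hm3
    · have hgm : SHas D m (gg (iK r) x y) (D.lc y * D.lc y + 0 - 0 - 0 + 0) := by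
        rw [heg]
        exact ((((hY.mul hY (by omega)).add hmix).sub hry).sub
          ((hX.mul (hX.mul hX rfl) rfl).lower (by omega))).add hxx
      have := hgm.of_ne (by
        simp only [add_zero, sub_zero]
        exact mul_ne_zero (D.lc_ne y hy) (D.lc_ne y hy))
      omega
    · have hgm : SHas D m (gg (iK r) x y) (0 + 0 - 0 - D.lc x * (D.lc x * D.lc x) + 0) := by
        rw [heg]
        exact (((((hY.mul hY rfl).lower (by omega)).add hmix).sub hry).sub
          (hX.mul (hX.mul hX rfl) (by omega))).add hxx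
      have := hgm.of_ne (by
        simp only [add_zero, sub_zero, zero_sub]
        exact neg_ne_zero.2 (mul_ne_zero (D.lc_ne x hx) (mul_ne_zero (D.lc_ne x hx) (D.lc_ne x hx))))
      omega

/-- residues of integral elements -/
theorem shas_exists (D : DVal K κ) (x : K) (h : ¬ (x ≠ 0 ∧ D.w x < 0)) : ∃ X, SHas D 0 x X := by
  by_cases hx : x = 0
  · rw [hx]
    exact ⟨0, SHas.zero D 0⟩
  · have h1 : ¬ D.w x < 0 := fun h2 => h ⟨hx, h2⟩
    rcases (not_lt.1 h1).lt_or_eq with h2 | h2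
    · exact ⟨0, SHas.lt D h2⟩
    · refine ⟨D.lc x, ?_⟩
      have := SHas.self D hx
      rwa [← h2] at this

theorem shas_ff {x y : K} {X Y : κ} (hX : SHas D 0 x X) (hY : SHas D 0 y Y) :
    SHas D 0 (ff x y) (ff X Y) := by
  have e1 : ff x y = y * (x + 1) - x * x := by
    unfold ff
    ring
  have e2 : ff X Y = Y * (X + 1) - X * X := by
    unfold ff
    ring
  rw [e1, e2]
  exact (hY.mul (hX.add (shas_one D)) (by ring)).sub (hX.mul hX (by ring))

theorem shas_gg {x y r : K} {X Y R : κ} (hX : SHas D 0 x X) (hY : SHas D 0 y Y)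
    (hR : SHas D 0 r R) : SHas D 0 (gg r x y) (gg R X Y) := by
  have h1 := shas_one D
  unfold gg
  have hm : SHas D 0 ((1 - r) * x) ((1 - R) * X) := (h1.sub hR).mul hX (by ring)
  exact (((((hY.pow0 h1 2).add (hm.mul hY (by ring))).sub
    (hR.mul hY (by ring))).sub (hX.pow0 h1 3)).add (hR.mul (hX.pow0 h1 2) (by ring)))

/-- points reducing to the base point -/
theorem star_III {C : Type*} [Field C] (D : DVal K κ) (iK : C →+* K) (ik : C →+* κ)
    (hc : ∀ c : C, c ≠ 0 → D.w (iK c) = 0 ∧ D.lc (iK c) = ik c) (r : C)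
    (x y : K) {X Y : κ} (hX : SHas D 0 x X) (hY : SHas D 0 y Y)
    (hf : ff X Y = 0) (hg : gg (ik r) X Y = 0) : X = 0 ∧ Y = 0 := by
  have h1 := star_ident (ik r) X Y
  rw [hf, hg] at h1
  have h2 : X = 0 := by
    have : X ^ 5 = 0 := by rw [h1]; ring
    exact pow_eq_zero_iff (by norm_num) |>.1 this
  refine ⟨h2, ?_⟩
  rw [h2] at hf
  unfold ff at hf
  linear_combination hf

/-- the leading coefficient of `x^5` -/
theorem star_x5 {C : Type*} [Field C] (D : DVal K κ) (iK : C →+* K) (ik : C →+* κ)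
    (hc : ∀ c : C, c ≠ 0 → D.w (iK c) = 0 ∧ D.lc (iK c) = ik c) (r : C)
    (x y : K) (hX : SHas D 0 x 0) (hf : ff x y ≠ 0) (hk : 0 < D.w (ff x y)) {G : κ}
    (hG : SHas D (D.w (ff x y)) (gg (iK r) x y) G) :
    SHas D (D.w (ff x y)) (x ^ 5) (-ik r * D.lc (ff x y) - G) := by
  have h1 := shas_one D
  have hr := shas_const D iK ik hc r
  have hF := SHas.self D hf
  have e1 : SHas D 0 (2 * x ^ 2 + (x + 1) * ((1 - iK r) * x - iK r)) (-ik r) := by
    have : 2 * x ^ 2 + (x + 1) * ((1 - iK r) * x - iK r) =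
      (1 + 1) * (x * x) + (x + 1) * ((1 - iK r) * x - iK r) := by ring
    rw [this]
    have h2 := ((h1.add h1).mul (hX.mul hX (k := 0) (by ring)) (k := 0) (by ring)).add
      ((hX.add h1).mul (((h1.sub hr).mul hX (k := 0) (by ring)).sub hr) (k := 0) (by ring))
    have e : (1 + 1) * (0 * 0) + (0 + 1) * ((1 - ik r) * 0 - ik r) = -ik r := by ring
    rwa [e] at h2
  have e2 : SHas D 0 ((x + 1) ^ 2) 1 := by
    have h2 := (hX.add h1).pow0 h1 2
    simpa using h2
  rw [star_ident (iK r) x y]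
  have h3 := (((hF.mul hF rfl).lower (m := D.w (ff x y)) (by omega)).add
    (hF.mul e1 (k := D.w (ff x y)) (by ring))).sub (e2.mul hG (k := D.w (ff x y)) (by ring))
  have e : 0 + D.lc (ff x y) * (-ik r) - 1 * G = -ik r * D.lc (ff x y) - G := by ring
  rwa [e] at h3

end StarAux

theorem star5 {C K κ : Type*} [Field C] [IsAlgClosed C] [CharZero C] [Field K] [Field κ]
    (D : DVal K κ) (iK : C →+* K) (ik : C →+* κ)
    (hc : ∀ c : C, c ≠ 0 → D.w (iK c) = 0 ∧ D.lc (iK c) = ik c) (r : C)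
    (hr : r ^ 2 = 11 * r + 1) (x y : K) (hf : ff x y ≠ 0) (hg : gg (iK r) x y ≠ 0)
    (h : D.w (ff x y) < D.w (gg (iK r) x y)) :
    ∃ (m : ℤ) (c : κ), D.w (ff x y) = 5 * m ∧ D.lc (ff x y) = c ^ 5 := by
  by_cases hxy : (x ≠ 0 ∧ D.w x < 0) ∨ (y ≠ 0 ∧ D.w y < 0)
  · exact star_I D iK ik hc r x y hf hg h.le hxy
  rw [not_or] at hxy
  obtain ⟨X, hX⟩ := shas_exists D x hxy.1
  obtain ⟨Y, hY⟩ := shas_exists D y hxy.2
  have hR := shas_const D iK ik hc r
  have hF := shas_ff hX hY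
  have hG := shas_gg hX hY hR
  have hw0 : 0 ≤ D.w (ff x y) := by
    by_contra h0
    rcases hF with ⟨-, h2⟩ | ⟨-, -, h2, -⟩
    · have := h2.resolve_left hf
      omega
    · omega
  have hG0 : gg (ik r) X Y = 0 := hG.uniq (SHas.lt D (by omega))
  haveI : CharZero κ := charZero_of_injective_ringHom ik.injective
  have hr' : (ik r) ^ 2 = 11 * ik r + 1 := by
    have := congrArg ik hr
    rw [map_pow, map_add, map_mul, map_ofNat, map_one] at this
    exact this
  rcases hw0.lt_or_eq with hk | hk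
  · -- positive
    have hF0 : ff X Y = 0 := hF.uniq (SHas.lt D hk)
    obtain ⟨hX0, -⟩ := star_III D iK ik hc r x y hX hY hF0 hG0
    rw [hX0] at hX
    have hx5 := star_x5 D iK ik hc r x y hX hf hk (SHas.lt D h)
    have hr0 : r ≠ 0 := by
      intro h0
      rw [h0] at hr
      norm_num at hr
    have hkr : ik r ≠ 0 := (map_ne_zero ik).2 hr0
    have hne : -ik r * D.lc (ff x y) - 0 ≠ 0 := by
      rw [sub_zero]
      exact mul_ne_zero (neg_ne_zero.2 hkr) (D.lc_ne _ hf)
    obtain ⟨h6, h7, h8⟩ := hx5.of_ne hne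
    have hx0 : x ≠ 0 := by
      intro h0
      rw [h0] at h6
      norm_num at h6
    have hw5 : ∀ j : ℕ, D.w (x ^ (j + 1)) = (j + 1) * D.w x ∧
        D.lc (x ^ (j + 1)) = D.lc x ^ (j + 1) := by
      intro j
      induction j with
      | zero => simp
      | succ j ih =>
        rw [pow_succ, D.w_mul _ _ (pow_ne_zero _ hx0) hx0, D.lc_mul _ _ (pow_ne_zero _ hx0) hx0,
          ih.1, ih.2]
        constructor
        · push_cast
          ring
        · rw [← pow_succ]
    obtain ⟨s, hs⟩ := IsAlgClosed.exists_pow_nat_eq (-r⁻¹) (n := 5) (by norm_num)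
    have e5 := hw5 4
    norm_num at e5
    refine ⟨D.w x, D.lc x * ik s, ?_, ?_⟩
    · rw [← h7, e5.1]
    · rw [mul_pow, ← e5.2, h8, ← map_pow, hs, map_neg, map_inv₀]
      field_simp
      ring
  · -- zero
    have h0 : D.w (ff x y) = 5 * 0 := by omega
    have hlf : D.lc (ff x y) = ff X Y := by
      apply SHas.uniq (D := D) (n := 0) (a := ff x y) _ hF
      have := SHas.self D hf
      rwa [← hk] at this
    rw [hlf]
    obtain ⟨R, hRdef⟩ : ∃ R, R = ik r := ⟨_, rfl⟩
    rw [← hRdef] at hG0 hr'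
    by_cases hX' : X + (3 * R + 1) / 5 = 0
    · have hid : (Y + (13 * R + 1) / 5) ^ 2 = 0 := by
        have e1 : gg R X Y = (Y + (13 * R + 1) / 5) ^ 2 +
            (1 - R) * (X + (3 * R + 1) / 5) * (Y + (13 * R + 1) / 5) +
            (14 * R + 3) / 5 * (X + (3 * R + 1) / 5) ^ 2 - (X + (3 * R + 1) / 5) ^ 3 := by
          unfold gg
          field_simp
          linear_combination (12 + 96 * R + 40 * X + 75 * Y) * hr'
        rw [hX'] at e1
        rw [hG0] at e1
        linear_combination -e1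
      have hY' : Y = -((13 * R + 1) / 5) := by
        have := pow_eq_zero_iff (two_ne_zero) |>.1 hid
        linear_combination this
      have hX'' : X = -((3 * R + 1) / 5) := by linear_combination hX'
      obtain ⟨s, hs⟩ := IsAlgClosed.exists_pow_nat_eq (r ^ 2) (n := 5) (by norm_num)
      refine ⟨0, ik s, h0, ?_⟩
      rw [← map_pow, hs, map_pow, ← hRdef, hX'', hY']
      unfold ff
      field_simp
      linear_combination 5 * hr'
    · obtain ⟨m, hm⟩ : ∃ m, m = (Y + (13 * R + 1) / 5) / (X + (3 * R + 1) / 5) := ⟨_, rfl⟩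
      have hYm : Y = m * (X + (3 * R + 1) / 5) - (13 * R + 1) / 5 := by
        rw [hm, div_mul_cancel₀ _ hX']
        ring
      have hXm : X = m ^ 2 + (1 - R) * m + (14 * R + 3) / 5 - (3 * R + 1) / 5 := by
        have e1 : gg R X Y = (Y + (13 * R + 1) / 5) ^ 2 +
            (1 - R) * (X + (3 * R + 1) / 5) * (Y + (13 * R + 1) / 5) +
            (14 * R + 3) / 5 * (X + (3 * R + 1) / 5) ^ 2 - (X + (3 * R + 1) / 5) ^ 3 := by
          unfold gg
          field_simp
          linear_combination (12 + 96 * R + 40 * X + 75 * Y) * hr'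
        have e2 : (X + (3 * R + 1) / 5) ^ 2 *
            (m ^ 2 + (1 - R) * m + (14 * R + 3) / 5 - (X + (3 * R + 1) / 5)) = 0 := by
          rw [hG0] at e1
          have e3 : Y + (13 * R + 1) / 5 = m * (X + (3 * R + 1) / 5) := by
            rw [hYm]
            ring
          rw [e3] at e1
          linear_combination -e1
        rcases mul_eq_zero.1 e2 with e3 | e3
        · exact absurd (pow_eq_zero_iff (two_ne_zero) |>.1 e3) hX'
        · linear_combination -e3
      refine ⟨0, m - (2 * R - 1) / 5, h0, ?_⟩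
      rw [hXm] at hYm
      rw [hXm, hYm]
      unfold ff
      linear_combination ((1376/3125) + (21/125)*m + (-144/125)*m*R + (-16/125)*m*R^2 + (2/25)*m^2 + (16/25)*m^2*R + (-3/5)*m^3 + (3104/3125)*R + (272/3125)*R^2 + (32/3125)*R^3) * hr'

theorem star2 {C K κ : Type*} [Field C] [CharZero C] [Field K] [Field κ]
    (D : DVal K κ) (iK : C →+* K) (ik : C →+* κ)
    (hc : ∀ c : C, c ≠ 0 → D.w (iK c) = 0 ∧ D.lc (iK c) = ik c) (r1 r2 : C)
    (hr1 : r1 ≠ 0) (hr2 : r2 ≠ 0) (x y : K) (hf : ff x y ≠ 0) (hg1 : gg (iK r1) x y ≠ 0)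
    (hg2 : gg (iK r2) x y ≠ 0) (h1 : D.w (gg (iK r1) x y) = D.w (ff x y))
    (h2 : D.w (gg (iK r2) x y) = D.w (ff x y)) :
    (5 : ℤ) ∣ D.w (ff x y) ∨ (D.lc (gg (iK r1) x y) = -ik r1 * D.lc (ff x y) ∧
      D.lc (gg (iK r2) x y) = -ik r2 * D.lc (ff x y)) := by
  by_cases hxy : (x ≠ 0 ∧ D.w x < 0) ∨ (y ≠ 0 ∧ D.w y < 0)
  · obtain ⟨m, c, hm, -⟩ := star_I D iK ik hc r1 x y hf hg1 h1.ge hxy
    exact Or.inl ⟨m, hm⟩
  rw [not_or] at hxy
  obtain ⟨X, hX⟩ := shas_exists D x hxy.1
  obtain ⟨Y, hY⟩ := shas_exists D y hxy.2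
  have hR := shas_const D iK ik hc r1
  have hF := shas_ff hX hY
  have hG := shas_gg hX hY hR
  have hw0 : 0 ≤ D.w (ff x y) := by
    by_contra h0
    rcases hF with ⟨-, h2⟩ | ⟨-, -, h2, -⟩
    · have := h2.resolve_left hf
      omega
    · omega
  rcases hw0.lt_or_eq with hk | hk
  · have hF0 : ff X Y = 0 := hF.uniq (SHas.lt D hk)
    have hG0 : gg (ik r1) X Y = 0 := hG.uniq (SHas.lt D (by omega))
    obtain ⟨hX0, -⟩ := star_III D iK ik hc r1 x y hX hY hF0 hG0
    rw [hX0] at hX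
    have hs1 := SHas.self D hg1
    have hs2 := SHas.self D hg2
    rw [h1] at hs1
    rw [h2] at hs2
    have hx1 := star_x5 D iK ik hc r1 x y hX hf hk hs1
    have hx2 := star_x5 D iK ik hc r2 x y hX hf hk hs2
    by_cases hz : -ik r1 * D.lc (ff x y) - D.lc (gg (iK r1) x y) = 0
    · right
      rw [hz] at hx1
      have := hx2.uniq hx1
      exact ⟨by linear_combination -hz, by linear_combination -this⟩
    · left
      obtain ⟨h6, h7, h8⟩ := hx1.of_ne hz
      have hx0 : x ≠ 0 := by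
        intro h0
        rw [h0] at h6
        norm_num at h6
      refine ⟨D.w x, ?_⟩
      rw [← h7]
      have e : x ^ 5 = x * (x * (x * (x * x))) := by ring
      rw [e, D.w_mul _ _ hx0 (by positivity), D.w_mul _ _ hx0 (by positivity),
        D.w_mul _ _ hx0 (by positivity), D.w_mul _ _ hx0 hx0]
      ring
  · left
    rw [← hk]
    exact dvd_zero 5

end Pool.Agent.Helper346.Bra
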