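import Pool.Agent.Helper346.Bra.Defs5
import Pool.Agent.Helper346.Bra.UK

set_option autoImplicit false

open scoped TensorProduct

namespace Pool.Agent.Helper346.Bra




section tame5aux

variable {C K κ : Type*} [Field C] [Field K] [Field κ]

theorem DVal.w_one' (D : DVal K κ) : D.w 1 = 0 := by
  have := D.w_mul 1 1 one_ne_zero one_ne_zero
  rw [one_mul] at this; omega

theorem DVal.lc_one' (D : DVal K κ) : D.lc 1 = 1 := by
  have := D.lc_mul 1 1 one_ne_zero one_ne_zero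
  rw [one_mul] at this
  exact (mul_eq_left₀ (D.lc_ne 1 one_ne_zero)).1 this.symm

theorem DVal.w_pow' (D : DVal K κ) {a : K} (ha : a ≠ 0) (n : ℕ) : D.w (a ^ n) = n * D.w a := by
  induction n with
  | zero => simp [D.w_one']
  | succ n ih => rw [pow_succ, D.w_mul _ _ (pow_ne_zero n ha) ha, ih]; push_cast; ring

theorem DVal.lc_pow' (D : DVal K κ) {a : K} (ha : a ≠ 0) (n : ℕ) : D.lc (a ^ n) = D.lc a ^ n := by
  induction n with
  | zero => simp [D.lc_one']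
  | succ n ih => rw [pow_succ, D.lc_mul _ _ (pow_ne_zero n ha) ha, ih, pow_succ]

theorem DVal.w_inv' (D : DVal K κ) {a : K} (ha : a ≠ 0) : D.w a⁻¹ = - D.w a := by
  have := D.w_mul a a⁻¹ ha (inv_ne_zero ha)
  rw [mul_inv_cancel₀ ha, D.w_one'] at this; omega

theorem DVal.lc_inv' (D : DVal K κ) {a : K} (ha : a ≠ 0) : D.lc a⁻¹ = (D.lc a)⁻¹ := by
  have := D.lc_mul a a⁻¹ ha (inv_ne_zero ha)
  rw [mul_inv_cancel₀ ha, D.lc_one'] at this
  exact (eq_inv_of_mul_eq_one_right this.symm)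

/-- fifth powers -/
def P5 (a : κ) : Prop := ∃ c : κ, a = c ^ 5

theorem P5.mul {a b : κ} (ha : P5 a) (hb : P5 b) : P5 (a * b) := by
  obtain ⟨c, rfl⟩ := ha; obtain ⟨d, rfl⟩ := hb; exact ⟨c * d, by ring⟩

theorem P5.inv {a : κ} (ha : P5 a) : P5 a⁻¹ := by
  obtain ⟨c, rfl⟩ := ha; exact ⟨c⁻¹, by rw [inv_pow]⟩

theorem P5.zpow {a : κ} (ha : P5 a) (n : ℤ) : P5 (a ^ n) := by
  obtain ⟨c, rfl⟩ := ha
  exact ⟨c ^ n, by rw [← zpow_natCast c 5, ← zpow_mul, ← zpow_natCast (c ^ n) 5, ← zpow_mul, mul_comm]⟩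

theorem P5.of_dvd {a : κ} {n : ℤ} (h : (5 : ℤ) ∣ n) : P5 (a ^ n) := by
  obtain ⟨m, rfl⟩ := h
  exact ⟨a ^ m, by rw [← zpow_natCast (a ^ m) 5, ← zpow_mul, mul_comm]; rfl⟩

theorem P5.const [IsAlgClosed C] (ik : C →+* κ) (c : C) : P5 (ik c) := by
  obtain ⟨d, hd⟩ := IsAlgClosed.exists_pow_nat_eq c (n := 5) (by norm_num)
  exact ⟨ik d, by rw [← map_pow, hd]⟩

/-- an element of `κ` which is not a constant is not a root of a nonzero polynomial -/
theorem not_root [IsAlgClosed C] (ik : C →+* κ) (x : κ) (hx : ∀ c, x ≠ ik c)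
    (P : Polynomial C) (hP : P ≠ 0) : P.eval₂ ik x ≠ 0 := by
  intro h
  have h1 := (IsAlgClosed.splits P).eq_prod_roots
  rw [h1, Polynomial.eval₂_mul, Polynomial.eval₂_C, Polynomial.eval₂_multiset_prod] at h
  rcases mul_eq_zero.1 h with h | h
  · rw [map_eq_zero, Polynomial.leadingCoeff_eq_zero] at h
    exact hP h
  · rw [Multiset.prod_eq_zero_iff, Multiset.mem_map] at h
    obtain ⟨q, hq, hq0⟩ := h
    rw [Multiset.mem_map] at hq
    obtain ⟨c, _, rfl⟩ := hq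
    rw [Polynomial.eval₂_sub, Polynomial.eval₂_X, Polynomial.eval₂_C, sub_eq_zero] at hq0
    exact hx c hq0

theorem gg_add {B : Type*} [CommRing B] (r1 r2 x y : B) :
    gg r2 x y = gg r1 x y + (r1 - r2) * ff x y := by
  unfold gg ff; ring

variable [IsAlgClosed C] [CharZero C]

/-- the situation after normalisation -/
theorem tame5_pos (D : DVal K κ) (iK : C →+* K) (ik : C →+* κ)
    (hc : ∀ c : C, c ≠ 0 → D.w (iK c) = 0 ∧ D.lc (iK c) = ik c) (r1 δ : C)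
    (h1 : r1 ^ 2 = 11 * r1 + 1) (hδ : δ ≠ 0) (x y g2 A B z : K) 
    (hz : z ≠ 0) (hf : ff x y ≠ 0) (hg1 : gg (iK r1) x y ≠ 0) (hg2 : g2 ≠ 0)
    (hg : g2 = gg (iK r1) x y + iK δ * ff x y)
    (hA : A ≠ 0) (hB : B ≠ 0) (hwA : 0 < D.w A) (hwB : D.w B = 0) (β : C) (hβ : β ≠ 0)
    (hlB : D.lc B = ik β)
    (hS : z ^ 5 = B * gg (iK r1) x y - A * g2) :
    P5 (D.lc A ^ (D.w (gg (iK r1) x y)) * D.lc (gg (iK r1) x y) ^ (-(D.w A))) := by
  set g1 := gg (iK r1) x y with hg1d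
  set f := ff x y with hfd
  have hneg : D.w (iK (-1)) = 0 ∧ D.lc (iK (-1)) = ik (-1) := hc (-1) (by simp)
  have hm1 : iK (-1) = -1 := by simp
  have hik1 : ik (-1) = -1 := by simp
  rw [hm1, hik1] at hneg
  have hn1 : (-1 : K) ≠ 0 := by simp
  have hδK : iK δ ≠ 0 := (map_ne_zero iK).2 hδ
  have hδw := hc δ hδ
  -- negatives
  have wneg : ∀ a : K, a ≠ 0 → D.w (-a) = D.w a ∧ D.lc (-a) = -D.lc a := by
    intro a ha
    have e1 := D.w_mul (-1) a hn1 ha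
    have e2 := D.lc_mul (-1) a hn1 ha
    rw [neg_one_mul] at e1 e2
    rw [e1, e2, hneg.1, hneg.2]
    constructor <;> ring
  have hzw : D.w (z ^ 5) = 5 * D.w z := by rw [D.w_pow' hz]; norm_num
  have hzl : D.lc (z ^ 5) = D.lc z ^ 5 := D.lc_pow' hz 5
  have hBg : D.w (B * g1) = D.w g1 := by rw [D.w_mul _ _ hB hg1, hwB, zero_add]
  have hBgl : D.lc (B * g1) = ik β * D.lc g1 := by rw [D.lc_mul _ _ hB hg1, hlB]
  have hBgn : B * g1 ≠ 0 := mul_ne_zero hB hg1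
  have hAgn : A * g2 ≠ 0 := mul_ne_zero hA hg2
  have hAgn' : -(A * g2) ≠ 0 := neg_ne_zero.2 hAgn
  have hAg : D.w (-(A * g2)) = D.w A + D.w g2 := by rw [(wneg _ hAgn).1, D.w_mul _ _ hA hg2]
  have hAgl : D.lc (-(A * g2)) = -(D.lc A * D.lc g2) := by
    rw [(wneg _ hAgn).2, D.lc_mul _ _ hA hg2]
  have hS' : z ^ 5 = B * g1 + -(A * g2) := by rw [hS]; ring
  have hβ' : ik β ≠ 0 := (map_ne_zero ik).2 hβ
  have hlg1 := D.lc_ne g1 hg1
  have hlg2 := D.lc_ne g2 hg2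
  have hlA := D.lc_ne A hA
  have hlf := D.lc_ne f hf
  rcases lt_or_ge (D.w g1) (D.w A + D.w g2) with hlt | hge
  · -- (2a)
    obtain ⟨-, e1, e2⟩ := D.add_lt _ _ hBgn hAgn' (by rw [hBg, hAg]; exact hlt)
    rw [← hS', hzw, hBg] at e1
    rw [← hS', hzl, hBgl] at e2
    have e3 : D.lc g1 = D.lc z ^ 5 * (ik β)⁻¹ := by rw [e2]; field_simp
    apply P5.mul
    · exact P5.of_dvd ⟨D.w z, e1.symm⟩
    · rw [e3]
      exact (P5.mul ⟨_, rfl⟩ (P5.const ik β).inv).zpow _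
  · -- (2b)
    have hW : D.w g2 < D.w g1 := by omega
    have hδf : D.w (iK δ * f) = D.w f := by rw [D.w_mul _ _ hδK hf, hδw.1, zero_add]
    have hδfl : D.lc (iK δ * f) = ik δ * D.lc f := by rw [D.lc_mul _ _ hδK hf, hδw.2]
    have hδfn : iK δ * f ≠ 0 := mul_ne_zero hδK hf
    have hwf : D.w f < D.w g1 := by
      by_contra hcon
      rw [not_lt] at hcon
      rcases lt_or_eq_of_le hcon with hc1 | hc1
      · obtain ⟨-, e1, -⟩ := D.add_lt g1 (iK δ * f) hg1 hδfn (by rw [hδf]; exact hc1)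
        rw [← hg] at e1; omega
      · by_cases hs : D.lc g1 + D.lc (iK δ * f) = 0
        · have := D.add_gt g1 (iK δ * f) hg1 hδfn (by rw [← hg]; exact hg2) (by rw [hδf]; exact hc1) hs
          rw [← hg] at this; omega
        · obtain ⟨-, e1, -⟩ := D.add_eq g1 (iK δ * f) hg1 hδfn (by rw [hδf]; exact hc1) hs
          rw [← hg] at e1; omega
    obtain ⟨m, c, hm, hcf⟩ := star5 D iK ik hc r1 h1 x y hf hg1 hwf
    have hcn : c ≠ 0 := by
      rintro rfl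
      rw [← hfd] at hcf
      apply hlf; rw [hcf]; simp
    obtain ⟨-, e1, e2⟩ := D.add_lt (iK δ * f) g1 hδfn hg1 (by rw [hδf]; exact hwf)
    rw [add_comm, ← hg, hδf] at e1
    rw [add_comm, ← hg, hδfl, hfd, hcf] at e2
    rw [← hfd] at hm
    have hδk : ik δ ≠ 0 := (map_ne_zero ik).2 hδ
    rcases lt_or_eq_of_le hge with hgt | heq
    · obtain ⟨-, e3, e4⟩ := D.add_lt (-(A * g2)) (B * g1) hAgn' hBgn (by rw [hBg, hAg]; exact hgt)
      rw [add_comm, ← hS', hzw, hAg, e1, hm] at e3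
      rw [add_comm, ← hS', hzl, hAgl, e2] at e4
      have e5 : (5 : ℤ) ∣ D.w A := ⟨D.w z - m, by linarith⟩
      have e6 : D.lc A = ((-1) ^ 5 * D.lc z ^ 5) * (ik δ * c ^ 5)⁻¹ := by
        rw [e4]; field_simp
      apply P5.mul
      · rw [e6]
        exact (P5.mul (P5.mul ⟨_, rfl⟩ ⟨_, rfl⟩) (P5.mul (P5.const ik δ) ⟨_, rfl⟩).inv).zpow _
      · exact P5.of_dvd (Dvd.dvd.neg_right e5)
    · rw [e1, hm] at heq
      have key : D.lc A ^ (D.w g1) * D.lc g1 ^ (-(D.w A)) =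
          (D.lc A * (D.lc g1)⁻¹) ^ (D.w A) * D.lc A ^ (5 * m) := by
        rw [← heq, zpow_add₀ hlA, mul_zpow, inv_zpow, zpow_neg]; ring
      rw [key]
      apply P5.mul _ (P5.of_dvd ⟨m, rfl⟩)
      by_cases hs : D.lc (B * g1) + D.lc (-(A * g2)) = 0
      · rw [hBgl, hAgl, e2] at hs
        have : D.lc A * (D.lc g1)⁻¹ = ik β * (ik δ * c ^ 5)⁻¹ := by
          field_simp
          linear_combination -hs
        rw [this]
        exact (P5.mul (P5.const ik β) (P5.mul (P5.const ik δ) ⟨_, rfl⟩).inv).zpow _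
      · obtain ⟨-, e3, -⟩ := D.add_eq (B * g1) (-(A * g2)) hBgn hAgn' (by
          rw [hBg, hAg, e1, hm]; exact heq.symm) hs
        rw [← hS', hzw, hBg] at e3
        exact P5.of_dvd ⟨D.w z - m, by linarith⟩

end tame5aux

theorem tame5 {C K κ : Type*} [Field C] [IsAlgClosed C] [CharZero C] [Field K] [Field κ]
    (D : DVal K κ) (iK : C →+* K) (ik : C →+* κ)
    (hc : ∀ c : C, c ≠ 0 → D.w (iK c) = 0 ∧ D.lc (iK c) = ik c) (r1 r2 : C)
    (h1 : r1 ^ 2 = 11 * r1 + 1) (h2 : r2 = 11 - r1) (t x y z : K) (ht : ∀ c, t ≠ iK c)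
    (hz : z ≠ 0) (hf : ff x y ≠ 0) (hg1 : gg (iK r1) x y ≠ 0) (hg2 : gg (iK r2) x y ≠ 0)
    (hS : z ^ 5 = iK r2 * (t - 1) * (1 - 2 * t) ^ 4 * gg (iK r1) x y -
      iK r1 * t * gg (iK r2) x y) :
    ∃ c : κ, D.lc t ^ (D.w (gg (iK r1) x y)) *
      D.lc (gg (iK r1) x y) ^ (-(D.w t)) = c ^ 5 := by
  -- constants
  have hr12 : r1 * r2 = -1 := by rw [h2]; linear_combination -h1
  have hr1 : r1 ≠ 0 := by rintro rfl; simp at hr12
  have hr2 : r2 ≠ 0 := by rintro rfl; simp at hr12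
  obtain ⟨δ, hδd⟩ : ∃ δ : C, δ = r1 - r2 := ⟨_, rfl⟩
  have hδ2 : δ ^ 2 = 125 := by rw [hδd, h2]; linear_combination 4 * h1
  have hδ : δ ≠ 0 := by
    rintro rfl
    norm_num at hδ2
  have hg : gg (iK r2) x y = gg (iK r1) x y + iK δ * ff x y := by
    rw [gg_add (iK r1) (iK r2), hδd, map_sub]
  have ht0 : t ≠ 0 := by have := ht 0; rwa [map_zero] at this
  have ht1 : t - 1 ≠ 0 := by
    have := ht 1; rw [map_one] at this; exact sub_ne_zero.2 this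
  have h2C : (2 : C) ≠ 0 := two_ne_zero
  have hi2 : iK 2 = 2 := map_ofNat iK 2
  have h2K : (2 : K) ≠ 0 := by rw [← hi2]; exact (map_ne_zero iK).2 h2C
  have ht2 : 1 - 2 * t ≠ 0 := by
    intro h
    apply ht (2⁻¹)
    rw [map_inv₀, hi2]
    field_simp
    linear_combination -h
  have hlt := D.lc_ne t ht0
  have hlg1 := D.lc_ne _ hg1
  have hir1 : iK r1 ≠ 0 := (map_ne_zero iK).2 hr1
  have hir2 : iK r2 ≠ 0 := (map_ne_zero iK).2 hr2
  have hwr1 := hc r1 hr1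
  have hwr2 := hc r2 hr2
  have hneg : D.w (-1) = 0 ∧ D.lc (-1) = -1 := by
    have := hc (-1) (by simp)
    simpa using this
  have hn1 : (-1 : K) ≠ 0 := by simp
  have hm2 : D.w (-2) = 0 ∧ D.lc (-2) = -2 := by
    have := hc (-2) (by simp)
    rw [map_neg, map_neg, map_ofNat, map_ofNat] at this
    exact this
  have hn2 : (-2 : K) ≠ 0 := by simpa using h2K
  have hm2t : D.w (-2 * t) = D.w t ∧ D.lc (-2 * t) = -2 * D.lc t := by
    rw [D.w_mul _ _ hn2 ht0, D.lc_mul _ _ hn2 ht0, hm2.1, hm2.2, zero_add]; exact ⟨rfl, rfl⟩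
  have hn2t : -2 * t ≠ 0 := mul_ne_zero hn2 ht0
  have e12 : 1 - 2 * t = 1 + -2 * t := by ring
  have e1 : t - 1 = t + -1 := by ring
  have hw1 := D.w_one'
  have hl1 := D.lc_one'
  suffices h : P5 (D.lc t ^ (D.w (gg (iK r1) x y)) * D.lc (gg (iK r1) x y) ^ (-(D.w t))) by
    exact h
  set g1 := gg (iK r1) x y with hg1d
  set f := ff x y with hfd
  rcases lt_trichotomy (D.w t) 0 with hn | hn | hn
  · -- negative valuation
    have a1 : D.w (t - 1) = D.w t ∧ D.lc (t - 1) = D.lc t := by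
      obtain ⟨-, u, v⟩ := D.add_lt t (-1) ht0 hn1 (by rw [hneg.1]; exact hn)
      rw [e1]; exact ⟨u, v⟩
    have a2 : D.w (1 - 2 * t) = D.w t ∧ D.lc (1 - 2 * t) = -2 * D.lc t := by
      obtain ⟨-, u, v⟩ := D.add_lt (-2 * t) 1 hn2t one_ne_zero (by rw [hm2t.1, hw1]; exact hn)
      rw [e12, add_comm]
      rw [u, v, hm2t.1, hm2t.2]; exact ⟨rfl, rfl⟩
    have ht5 : (t ^ 5)⁻¹ ≠ 0 := inv_ne_zero (pow_ne_zero 5 ht0)
    have ht5' : t ^ 5 ≠ 0 := pow_ne_zero 5 ht0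
    have w5 : D.w (t ^ 5)⁻¹ = -(5 * D.w t) := by
      rw [D.w_inv' ht5', D.w_pow' ht0]; norm_num
    have l5 : D.lc (t ^ 5)⁻¹ = (D.lc t ^ 5)⁻¹ := by
      rw [D.lc_inv' ht5', D.lc_pow' ht0]
    have hrt : iK r1 * t ≠ 0 := mul_ne_zero hir1 ht0
    have hwrt : D.w (iK r1 * t) = D.w t := by rw [D.w_mul _ _ hir1 ht0, hwr1.1, zero_add]
    have hlrt : D.lc (iK r1 * t) = ik r1 * D.lc t := by rw [D.lc_mul _ _ hir1 ht0, hwr1.2]
    have hwA : D.w (iK r1 * t * (t ^ 5)⁻¹) = -4 * D.w t := by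
      rw [D.w_mul _ _ hrt ht5, hwrt, w5]; ring
    have hlA : D.lc (iK r1 * t * (t ^ 5)⁻¹) = ik r1 * D.lc t * (D.lc t ^ 5)⁻¹ := by
      rw [D.lc_mul _ _ hrt ht5, hlrt, l5]
    have hb1 : iK r2 * (t - 1) ≠ 0 := mul_ne_zero hir2 ht1
    have hb2 : (1 - 2 * t) ^ 4 ≠ 0 := pow_ne_zero 4 ht2
    have hb3 : iK r2 * (t - 1) * (1 - 2 * t) ^ 4 ≠ 0 := mul_ne_zero hb1 hb2
    have hwB : D.w (iK r2 * (t - 1) * (1 - 2 * t) ^ 4 * (t ^ 5)⁻¹) = 0 := by
      rw [D.w_mul _ _ hb3 ht5, D.w_mul _ _ hb1 hb2, D.w_mul _ _ hir2 ht1, D.w_pow' ht2, w5, a1.1,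
        a2.1, hwr2.1]; push_cast; ring
    have hlB : D.lc (iK r2 * (t - 1) * (1 - 2 * t) ^ 4 * (t ^ 5)⁻¹) = ik (16 * r2) := by
      rw [D.lc_mul _ _ hb3 ht5, D.lc_mul _ _ hb1 hb2, D.lc_mul _ _ hir2 ht1, D.lc_pow' ht2, l5, a1.2,
        a2.2, hwr2.2, map_mul, map_ofNat]
      field_simp
      norm_num
    have main := tame5_pos D iK ik hc r1 δ h1 hδ x y (gg (iK r2) x y) (iK r1 * t * (t ^ 5)⁻¹)
      (iK r2 * (t - 1) * (1 - 2 * t) ^ 4 * (t ^ 5)⁻¹) (z * t⁻¹) (mul_ne_zero hz (inv_ne_zero ht0))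
      hf hg1 hg2 hg (mul_ne_zero hrt ht5) (mul_ne_zero hb3 ht5) (by rw [hwA]; omega) hwB (16 * r2)
      (mul_ne_zero (by norm_num) hr2) hlB (by
        rw [mul_pow, hS, inv_pow, ← hg1d]; ring)
    rw [← hg1d, hwA, hlA] at main
    -- X ^ (-4) times constant
    have key : D.lc t ^ (D.w g1) * D.lc g1 ^ (-(D.w t)) =
        ((ik r1 * D.lc t * (D.lc t ^ 5)⁻¹) ^ (D.w g1) * D.lc g1 ^ (-(-4 * D.w t))) *
          ((ik r1)⁻¹ ^ (D.w g1)) * (D.lc t ^ (5 * D.w g1)) * (D.lc g1 ^ (5 * (-D.w t))) := by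
      have hik : ik r1 ≠ 0 := (map_ne_zero ik).2 hr1
      have q1 : (ik r1 * D.lc t * (D.lc t ^ 5)⁻¹) ^ (D.w g1) =
          ik r1 ^ (D.w g1) * D.lc t ^ (D.w g1) * (D.lc t ^ (5 * D.w g1))⁻¹ := by
        rw [mul_zpow, mul_zpow, inv_zpow]
        congr 2
        rw [← zpow_natCast, ← zpow_mul]; norm_num
      have q2 : D.lc g1 ^ (-(D.w t)) = D.lc g1 ^ (-(-4 * D.w t)) * D.lc g1 ^ (5 * (-D.w t)) := by
        rw [← zpow_add₀ hlg1]; congr 1; ring
      rw [q1, q2, inv_zpow]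
      have n1 : ik r1 ^ (D.w g1) ≠ 0 := zpow_ne_zero _ hik
      have n2 : D.lc t ^ (5 * D.w g1) ≠ 0 := zpow_ne_zero _ hlt
      generalize ik r1 ^ (D.w g1) = u1 at n1 ⊢
      generalize D.lc t ^ (5 * D.w g1) = u2 at n2 ⊢
      generalize D.lc t ^ (D.w g1) = u3
      generalize D.lc g1 ^ (-(-4 * D.w t)) = u4
      generalize D.lc g1 ^ (5 * (-D.w t)) = u5
      field_simp
    rw [key]
    exact ((main.mul ((P5.const ik r1).inv.zpow _)).mul (P5.of_dvd ⟨_, rfl⟩)).mul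
      (P5.of_dvd ⟨_, rfl⟩)
  · -- zero valuation
    rw [hn, neg_zero, zpow_zero, mul_one]
    by_cases hconst : ∃ c, D.lc t = ik c
    · obtain ⟨c, hcc⟩ := hconst
      rw [hcc]
      exact (P5.const ik c).zpow _
    push Not at hconst
    by_cases h5 : (5 : ℤ) ∣ D.w g1
    · exact P5.of_dvd h5
    have a1 : D.w (t - 1) = 0 ∧ D.lc (t - 1) = D.lc t - 1 := by
      obtain ⟨-, u, v⟩ := D.add_eq t (-1) ht0 hn1 (by rw [hneg.1]; exact hn) (by
        rw [hneg.2]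
        intro h
        apply hconst 1
        rw [map_one]; linear_combination h)
      rw [e1, u, v, hneg.2]
      exact ⟨hn, by ring⟩
    have a2 : D.w (1 - 2 * t) = 0 ∧ D.lc (1 - 2 * t) = 1 - 2 * D.lc t := by
      obtain ⟨-, u, v⟩ := D.add_eq 1 (-2 * t) one_ne_zero hn2t (by rw [hm2t.1, hw1, hn]) (by
        rw [hm2t.2, hl1]
        intro h
        apply hconst (2⁻¹)
        rw [map_inv₀, map_ofNat]
        have h2κ : (2 : κ) ≠ 0 := by
          have := (map_ne_zero ik).2 h2C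
          rwa [map_ofNat] at this
        field_simp
        linear_combination -h)
      rw [e12, u, v, hm2t.2, hl1]
      exact ⟨hw1, by ring⟩
    obtain ⟨A, hAd⟩ : ∃ A : K, A = iK r1 * t := ⟨_, rfl⟩
    obtain ⟨B, hBd⟩ : ∃ B : K, B = iK r2 * (t - 1) * (1 - 2 * t) ^ 4 := ⟨_, rfl⟩
    have hA : A ≠ 0 := by rw [hAd]; exact mul_ne_zero hir1 ht0
    have hb1 : iK r2 * (t - 1) ≠ 0 := mul_ne_zero hir2 ht1
    have hb2 : (1 - 2 * t) ^ 4 ≠ 0 := pow_ne_zero 4 ht2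
    have hB : B ≠ 0 := by rw [hBd]; exact mul_ne_zero hb1 hb2
    have hwA : D.w A = 0 := by rw [hAd, D.w_mul _ _ hir1 ht0, hwr1.1, hn]; rfl
    have hlA : D.lc A = ik r1 * D.lc t := by rw [hAd, D.lc_mul _ _ hir1 ht0, hwr1.2]
    have hwB : D.w B = 0 := by
      rw [hBd, D.w_mul _ _ hb1 hb2, D.w_mul _ _ hir2 ht1, D.w_pow' ht2, a1.1, a2.1, hwr2.1]
      norm_num
    have hlB : D.lc B = ik r2 * (D.lc t - 1) * (1 - 2 * D.lc t) ^ 4 := by
      rw [hBd, D.lc_mul _ _ hb1 hb2, D.lc_mul _ _ hir2 ht1, D.lc_pow' ht2, a1.2, a2.2, hwr2.2]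
    have hne : ∀ ρ : C, D.lc B ≠ ik ρ * D.lc A := by
      intro ρ hρ
      let P : Polynomial C := Polynomial.C r2 * (Polynomial.X - 1) * (1 - 2 * Polynomial.X) ^ 4 -
        Polynomial.C ρ * (Polynomial.C r1 * Polynomial.X)
      have hP : P ≠ 0 := by
        intro h
        have : P.eval 0 = 0 := by rw [h]; simp
        simp [P] at this
        exact hr2 this
      apply not_root ik (D.lc t) hconst P hP
      simp only [P, Polynomial.eval₂_sub, Polynomial.eval₂_mul, Polynomial.eval₂_C,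
        Polynomial.eval₂_X, Polynomial.eval₂_one, Polynomial.eval₂_pow, Polynomial.eval₂_ofNat]
      rw [← hlB, ← hlA, hρ]; ring
    set g2 := gg (iK r2) x y with hg2d
    have hlg2 := D.lc_ne g2 hg2
    have hzw : D.w (z ^ 5) = 5 * D.w z := by rw [D.w_pow' hz]; norm_num
    have hzl : D.lc (z ^ 5) = D.lc z ^ 5 := D.lc_pow' hz 5
    have hBgn : B * g1 ≠ 0 := mul_ne_zero hB hg1
    have hAgn : A * g2 ≠ 0 := mul_ne_zero hA hg2
    have hAgn' : -(A * g2) ≠ 0 := neg_ne_zero.2 hAgn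
    have wneg : ∀ a : K, a ≠ 0 → D.w (-a) = D.w a ∧ D.lc (-a) = -D.lc a := by
      intro a ha
      have e1 := D.w_mul (-1) a hn1 ha
      have e2 := D.lc_mul (-1) a hn1 ha
      rw [neg_one_mul] at e1 e2
      rw [e1, e2, hneg.1, hneg.2]
      constructor <;> ring
    have hBg : D.w (B * g1) = D.w g1 := by rw [D.w_mul _ _ hB hg1, hwB, zero_add]
    have hBgl : D.lc (B * g1) = D.lc B * D.lc g1 := D.lc_mul _ _ hB hg1
    have hAg : D.w (-(A * g2)) = D.w g2 := by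
      rw [(wneg _ hAgn).1, D.w_mul _ _ hA hg2, hwA, zero_add]
    have hAgl : D.lc (-(A * g2)) = -(D.lc A * D.lc g2) := by
      rw [(wneg _ hAgn).2, D.lc_mul _ _ hA hg2]
    have hS' : z ^ 5 = B * g1 + -(A * g2) := by rw [hS, hAd, hBd]; ring
    -- (i)
    have claim : ∀ ρ : C, D.w g2 = D.w g1 → D.lc g2 = ik ρ * D.lc g1 → False := by
      intro ρ hw hl
      obtain ⟨-, u, -⟩ := D.add_eq (B * g1) (-(A * g2)) hBgn hAgn' (by rw [hBg, hAg, hw]) (by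
        rw [hBgl, hAgl, hl]
        intro h
        have h' : (D.lc B - ik ρ * D.lc A) * D.lc g1 = 0 := by linear_combination h
        rcases mul_eq_zero.1 h' with h' | h'
        · exact hne ρ (sub_eq_zero.1 h')
        · exact hlg1 h')
      rw [← hS', hzw, hBg] at u
      exact h5 ⟨_, u.symm⟩
    have hδK : iK δ ≠ 0 := (map_ne_zero iK).2 hδ
    have hδw := hc δ hδ
    have hδf : D.w (iK δ * f) = D.w f := by rw [D.w_mul _ _ hδK hf, hδw.1, zero_add]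
    have hδfl : D.lc (iK δ * f) = ik δ * D.lc f := by rw [D.lc_mul _ _ hδK hf, hδw.2]
    have hδfn : iK δ * f ≠ 0 := mul_ne_zero hδK hf
    rcases lt_trichotomy (D.w g1) (D.w f) with hlt1 | heq1 | hgt1
    · exfalso
      obtain ⟨-, u, v⟩ := D.add_lt g1 (iK δ * f) hg1 hδfn (by rw [hδf]; exact hlt1)
      rw [← hg] at u v
      exact claim 1 u (by rw [v, map_one, one_mul])
    · exfalso
      by_cases hs : D.lc g1 + D.lc (iK δ * f) = 0
      · have hgt := D.add_gt g1 (iK δ * f) hg1 hδfn (by rw [← hg]; exact hg2)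
          (by rw [hδf]; exact heq1) hs
        rw [← hg] at hgt
        obtain ⟨-, u, -⟩ := D.add_lt (B * g1) (-(A * g2)) hBgn hAgn' (by
          rw [hBg, hAg]; exact hgt)
        rw [← hS', hzw, hBg] at u
        exact h5 ⟨_, u.symm⟩
      · obtain ⟨-, u, v⟩ := D.add_eq g1 (iK δ * f) hg1 hδfn (by rw [hδf]; exact heq1) hs
        rw [← hg] at u v
        rcases star2 D iK ik hc r1 r2 hr1 hr2 x y hf hg1 hg2 heq1 (u.trans heq1) with h | ⟨q1, q2⟩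
        · rw [← hfd, ← heq1] at h
          exact h5 h
        · apply claim (r2 / r1) u
          rw [← hg1d, ← hfd] at q1
          rw [← hg2d, ← hfd] at q2
          rw [q1, q2, map_div₀]
          have hik : ik r1 ≠ 0 := (map_ne_zero ik).2 hr1
          field_simp
    · obtain ⟨m, c, hm, hcf⟩ := star5 D iK ik hc r1 h1 x y hf hg1 hgt1
      rw [← hfd] at hm hcf
      have hcn : c ≠ 0 := by
        rintro rfl
        apply D.lc_ne f hf
        rw [hcf]; simp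
      obtain ⟨-, u, v⟩ := D.add_lt (iK δ * f) g1 hδfn hg1 (by rw [hδf]; exact hgt1)
      rw [add_comm, ← hg, hδf] at u
      rw [add_comm, ← hg, hδfl, hcf] at v
      obtain ⟨-, -, u2⟩ := D.add_lt (-(A * g2)) (B * g1) hAgn' hBgn (by
        rw [hAg, hBg, u]; exact hgt1)
      rw [add_comm, ← hS', hzl, hAgl, v, hlA] at u2
      have hik : ik r1 ≠ 0 := (map_ne_zero ik).2 hr1
      have hikδ : ik δ ≠ 0 := (map_ne_zero ik).2 hδ
      have : D.lc t = ((-1) ^ 5 * D.lc z ^ 5) * ((ik r1) * (ik δ) * c ^ 5)⁻¹ := by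
        rw [u2]; field_simp
      rw [this]
      exact (P5.mul (P5.mul ⟨_, rfl⟩ ⟨_, rfl⟩)
        ((P5.mul (P5.mul (P5.const ik r1) (P5.const ik δ)) ⟨_, rfl⟩)).inv).zpow _
  · -- positive valuation
    have a1 : D.w (t - 1) = 0 ∧ D.lc (t - 1) = -1 := by
      obtain ⟨-, u, v⟩ := D.add_lt (-1) t hn1 ht0 (by rw [hneg.1]; exact hn)
      rw [e1, add_comm, u, v, hneg.2]; exact ⟨hneg.1, rfl⟩
    have a2 : D.w (1 - 2 * t) = 0 ∧ D.lc (1 - 2 * t) = 1 := by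
      obtain ⟨-, u, v⟩ := D.add_lt 1 (-2 * t) one_ne_zero hn2t (by rw [hm2t.1, hw1]; exact hn)
      rw [e12, u, v]; exact ⟨hw1, hl1⟩
    have hrt : iK r1 * t ≠ 0 := mul_ne_zero hir1 ht0
    have hwrt : D.w (iK r1 * t) = D.w t := by rw [D.w_mul _ _ hir1 ht0, hwr1.1, zero_add]
    have hlrt : D.lc (iK r1 * t) = ik r1 * D.lc t := by rw [D.lc_mul _ _ hir1 ht0, hwr1.2]
    have hb1 : iK r2 * (t - 1) ≠ 0 := mul_ne_zero hir2 ht1
    have hb2 : (1 - 2 * t) ^ 4 ≠ 0 := pow_ne_zero 4 ht2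
    have hb3 : iK r2 * (t - 1) * (1 - 2 * t) ^ 4 ≠ 0 := mul_ne_zero hb1 hb2
    have hwB : D.w (iK r2 * (t - 1) * (1 - 2 * t) ^ 4) = 0 := by
      rw [D.w_mul _ _ hb1 hb2, D.w_mul _ _ hir2 ht1, D.w_pow' ht2, a1.1, a2.1, hwr2.1]
      norm_num
    have hlB : D.lc (iK r2 * (t - 1) * (1 - 2 * t) ^ 4) = ik (-r2) := by
      rw [D.lc_mul _ _ hb1 hb2, D.lc_mul _ _ hir2 ht1, D.lc_pow' ht2, a1.2, a2.2, hwr2.2, map_neg]
      ring
    have main := tame5_pos D iK ik hc r1 δ h1 hδ x y (gg (iK r2) x y) (iK r1 * t)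
      (iK r2 * (t - 1) * (1 - 2 * t) ^ 4) z hz
      hf hg1 hg2 hg hrt hb3 (by rw [hwrt]; exact hn) hwB (-r2) (neg_ne_zero.2 hr2) hlB hS
    rw [← hg1d, hwrt, hlrt] at main
    have hik : ik r1 ≠ 0 := (map_ne_zero ik).2 hr1
    have key : D.lc t ^ (D.w g1) * D.lc g1 ^ (-(D.w t)) =
        ((ik r1 * D.lc t) ^ (D.w g1) * D.lc g1 ^ (-(D.w t))) * ((ik r1)⁻¹ ^ (D.w g1)) := by
      rw [mul_zpow, inv_zpow]
      have n1 : ik r1 ^ (D.w g1) ≠ 0 := zpow_ne_zero _ hik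
      field_simp
    rw [key]
    exact main.mul ((P5.const ik r1).inv.zpow _)

end Pool.Agent.Helper346.Bra
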