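import Pool.Agent.Helper346.Bra.Fin0
import Pool.Agent.Helper346.Bra.UA
import Pool.Agent.Helper346.Bra.UB
import Pool.Agent.Helper346.Bra.UC
import Pool.Agent.Helper346.Bra.UD
import Pool.Agent.Helper346.Bra.UE
import Pool.Agent.Helper346.Bra.UF
import Pool.Agent.Helper346.Bra.UG
import Pool.Agent.Helper346.Bra.UH
import Pool.Agent.Helper346.Bra.UI
import Pool.Agent.Helper346.Bra.UJ
import Pool.Agent.Helper346.Bra.UK
import Pool.Agent.Helper346.Bra.UL

set_option autoImplicit false
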