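import Pool.Agent.Helper346.Bra.StDefs

set_option autoImplicit false

open scoped TensorProduct

namespace Pool.Agent.Helper346.Bra

/-- defining relations of the symbol algebra -/
inductive SymRel (R : Type*) [CommRing R] (l : ℕ) (ζ a b : R) :
    FreeAlgebra R (Fin 2) → FreeAlgebra R (Fin 2) → Prop
  | xl : SymRel R l ζ a b (FreeAlgebra.ι R 0 ^ l) (algebraMap R _ a)
  | yl : SymRel R l ζ a b (FreeAlgebra.ι R 1 ^ l) (algebraMap R _ b)
  | yx : SymRel R l ζ a b (FreeAlgebra.ι R 1 * FreeAlgebra.ι R 0)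
      (algebraMap R _ ζ * (FreeAlgebra.ι R 0 * FreeAlgebra.ι R 1))

/-- the symbol algebra with generators `x, y` and relations `x^l = a`, `y^l = b`, `yx = ζ xy` -/
def Symb (R : Type*) [CommRing R] (l : ℕ) (ζ a b : R) : Type _ := RingQuot (SymRel R l ζ a b)

variable {R : Type*} [CommRing R] {l : ℕ} {ζ a b : R}

noncomputable instance : Ring (Symb R l ζ a b) :=
  inferInstanceAs (Ring (RingQuot (SymRel R l ζ a b)))

noncomputable instance : Algebra R (Symb R l ζ a b) :=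
  inferInstanceAs (Algebra R (RingQuot (SymRel R l ζ a b)))

/-- generator -/
noncomputable def gx (R : Type*) [CommRing R] (l : ℕ) (ζ a b : R) : Symb R l ζ a b :=
  RingQuot.mkAlgHom R (SymRel R l ζ a b) (FreeAlgebra.ι R 0)

/-- generator -/
noncomputable def gy (R : Type*) [CommRing R] (l : ℕ) (ζ a b : R) : Symb R l ζ a b :=
  RingQuot.mkAlgHom R (SymRel R l ζ a b) (FreeAlgebra.ι R 1)

theorem gx_pow : gx R l ζ a b ^ l = algebraMap R _ a := by
  have := RingQuot.mkAlgHom_rel R (SymRel.xl (R := R) (l := l) (ζ := ζ) (a := a) (b := b))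
  rw [map_pow, AlgHom.commutes] at this
  exact this

theorem gy_pow : gy R l ζ a b ^ l = algebraMap R _ b := by
  have := RingQuot.mkAlgHom_rel R (SymRel.yl (R := R) (l := l) (ζ := ζ) (a := a) (b := b))
  rw [map_pow, AlgHom.commutes] at this
  exact this

theorem gy_gx : gy R l ζ a b * gx R l ζ a b =
    algebraMap R _ ζ * (gx R l ζ a b * gy R l ζ a b) := by
  have := RingQuot.mkAlgHom_rel R (SymRel.yx (R := R) (l := l) (ζ := ζ) (a := a) (b := b))
  rw [map_mul, map_mul, map_mul, AlgHom.commutes] at this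
  exact this

section lift

variable {B : Type*} [Ring B] [Algebra R B] (x y : B) (hx : x ^ l = algebraMap R B a)
  (hy : y ^ l = algebraMap R B b) (hyx : y * x = algebraMap R B ζ * (x * y))

/-- universal property -/
noncomputable def symLift : Symb R l ζ a b →ₐ[R] B :=
  RingQuot.liftAlgHom R ⟨FreeAlgebra.lift R ![x, y], by
    intro u v h
    cases h with
    | xl => simpa using hx
    | yl => simpa using hy
    | yx => simpa using hyx⟩

theorem symLift_x : symLift x y hx hy hyx (gx R l ζ a b) = x := by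
  unfold symLift gx
  erw [RingQuot.liftAlgHom_mkAlgHom_apply]
  simp

theorem symLift_y : symLift x y hx hy hyx (gy R l ζ a b) = y := by
  unfold symLift gy
  erw [RingQuot.liftAlgHom_mkAlgHom_apply]
  simp

end lift

theorem symb_hom_ext {B : Type*} [Ring B] [Algebra R B] (f g : Symb R l ζ a b →ₐ[R] B)
    (h1 : f (gx R l ζ a b) = g (gx R l ζ a b)) (h2 : f (gy R l ζ a b) = g (gy R l ζ a b)) :
    f = g := by
  apply RingQuot.ringQuot_ext' R
  apply FreeAlgebra.hom_ext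
  funext i
  fin_cases i
  · exact h1
  · exact h2

/-- a discrete valuation with its leading coefficients -/
structure DVal (K κ : Type*) [Field K] [Field κ] where
  w : K → ℤ
  lc : K → κ
  lc_ne : ∀ a, a ≠ 0 → lc a ≠ 0
  w_mul : ∀ a b, a ≠ 0 → b ≠ 0 → w (a * b) = w a + w b
  lc_mul : ∀ a b, a ≠ 0 → b ≠ 0 → lc (a * b) = lc a * lc b
  add_lt : ∀ a b, a ≠ 0 → b ≠ 0 → w a < w b → a + b ≠ 0 ∧ w (a + b) = w a ∧ lc (a + b) = lc a
  add_eq : ∀ a b, a ≠ 0 → b ≠ 0 → w a = w b → lc a + lc b ≠ 0 →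
    a + b ≠ 0 ∧ w (a + b) = w a ∧ lc (a + b) = lc a + lc b
  add_gt : ∀ a b, a ≠ 0 → b ≠ 0 → a + b ≠ 0 → w a = w b → lc a + lc b = 0 → w a < w (a + b)

/-- the norm form equation has only the trivial solution -/
def Aniso (B : Type*) [CommRing B] (t m1 m2 : B) : Prop :=
  ∀ d g0 g1 g2 : B,
    m1 * d ^ 3 = m2 * (g0 ^ 3 + t * g1 ^ 3 + t ^ 2 * g2 ^ 3 - 3 * t * g0 * g1 * g2) →
      d = 0 ∧ g0 = 0 ∧ g1 = 0 ∧ g2 = 0

/-- `R[z]/(z³ + Q)` -/
abbrev CR {A : Type*} [CommRing A] (Q : A) : Type _ :=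
  AdjoinRoot (Polynomial.X ^ 3 + Polynomial.C Q : Polynomial A)

/-- the root -/
noncomputable def zz {A : Type*} [CommRing A] (Q : A) : CR Q := AdjoinRoot.root _

/-- constants -/
noncomputable def cc {A : Type*} [CommRing A] (Q : A) : A →+* CR Q := AdjoinRoot.of _

open MvPolynomial in
/-- `Q = t(t-1)(1-2t)²(x³+ty³)+1` with `t = X 0`, `x = X 1`, `y = X 2` -/
noncomputable def Q1 (k : Type*) [CommRing k] : MvPolynomial (Fin 3) k :=
  X 0 * (X 0 - 1) * (1 - 2 * X 0) ^ 2 * (X 1 ^ 3 + X 0 * X 2 ^ 3) + 1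

open MvPolynomial in
/-- its specialization `t(t-1)(x³+ty³)+1` -/
noncomputable def Q2 (k : Type*) [CommRing k] : MvPolynomial (Fin 3) k :=
  X 0 * (X 0 - 1) * (X 1 ^ 3 + X 0 * X 2 ^ 3) + 1

open MvPolynomial in
/-- the same in the coordinates `1/t, tx, ty` -/
noncomputable def Q3 (k : Type*) [CommRing k] : MvPolynomial (Fin 3) k :=
  (1 - X 0) * (X 0 * X 1 ^ 3 + X 2 ^ 3) + 1

/-- coefficient `t(t-1)(1-2t)²` -/
noncomputable def al (C : Type) [Field C] : RatFunc C :=
  RatFunc.X * (RatFunc.X - 1) * (1 - 2 * RatFunc.X) ^ 2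

open MvPolynomial in
/-- the cubic form `α x₀³ + α t x₁³ + x₂³ + x₃³` -/
noncomputable def FF (C : Type) [Field C] : MvPolynomial (Fin 4) (RatFunc C) :=
  MvPolynomial.C (al C) * X 0 ^ 3 + MvPolynomial.C (al C * RatFunc.X) * X 1 ^ 3 + X 2 ^ 3 + X 3 ^ 3

end Pool.Agent.Helper346.Bra
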