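import Pool.Agent.Helper346.Bra.StDefs

set_option autoImplicit false

open scoped TensorProduct

namespace Pool.Agent.Helper346.Bra

/-- The form `F` in variables `z, w, x, y` of weights `1, 1, 2, 3` over `k` defines a del Pezzo
surface of degree one in the weighted projective space `P(1,1,2,3)`: it is weighted homogeneous of
degree six, and over every extension field it has no common nontrivial zero with its first order
derivatives. -/
def IsDelPezzoOne (k : Type) [Field k] (F : MvPolynomial (Fin 4) k) : Prop :=
  F.IsWeightedHomogeneous ![1, 1, 2, 3] 6 ∧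
    ∀ (Ω : Type) [Field Ω] [Algebra k Ω] (v : Fin 4 → Ω), v ≠ 0 → MvPolynomial.aeval v F = 0 →
      ∃ i, MvPolynomial.aeval v (MvPolynomial.pderiv i F) ≠ 0

/-- The coordinate ring of the affine part `w = 1` of the surface `F = 0` in `P(1,1,2,3)`. -/
abbrev affRing1 (k : Type) [Field k] (F : MvPolynomial (Fin 4) k) : Type :=
  MvPolynomial (Fin 3) k ⧸ Ideal.span {MvPolynomial.aeval
    (![MvPolynomial.X 0, 1, MvPolynomial.X 1, MvPolynomial.X 2] :
      Fin 4 → MvPolynomial (Fin 3) k) F}

/-- The unramified Brauer group of the field `K` over its subfield `k` has an element of order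
five: there is a central simple algebra `A` over `K`, not split, with fifth tensor power split,
which is unramified at every discrete valuation ring of `K` that contains `k`. -/
def HasUnramifiedOrderFive (k K : Type) [Field k] [Field K] [Algebra k K] : Prop :=
  ∃ (A : Type) (_ : Ring A) (_ : Algebra K A),
    Algebra.IsCentral K A ∧ IsSimpleRing A ∧ FiniteDimensional K A ∧
    ¬ IsSplit K A ∧ IsSplit K (A ⊗[K] ((A ⊗[K] A) ⊗[K] (A ⊗[K] A))) ∧
    ∀ R : ValuationSubring K, IsDiscreteValuationRing R → (∀ c : k, algebraMap k K c ∈ R) →
      UnramifiedAt R A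

end Pool.Agent.Helper346.Bra
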