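import Pool.Agent.Helper346.Bra.Defs
import Pool.Agent.Helper346.Bra.StDefs5

set_option autoImplicit false

open scoped TensorProduct

namespace Pool.Agent.Helper346.Bra

/-- the norm form of `B[e]/(e^l - t)`: determinant of multiplication by `∑ g j e^j` -/
def nform {B : Type*} [CommRing B] {l : ℕ} [NeZero l] (t : B) (g : Fin l → B) : B :=
  (Matrix.of fun i j : Fin l => if j ≤ i then g (i - j) else t * g (i - j)).det

/-- the equation `m d^l = N_t(g)` has only the trivial solution -/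
def AnisoL (l : ℕ) [NeZero l] (B : Type*) [CommRing B] (t m : B) : Prop :=
  ∀ (d : B) (g : Fin l → B), m * d ^ l = nform t g → d = 0 ∧ g = 0

/-- `A[z]/(z^l - Q)` -/
abbrev CRl (l : ℕ) {A : Type*} [CommRing A] (Q : A) : Type _ :=
  AdjoinRoot (Polynomial.X ^ l - Polynomial.C Q : Polynomial A)

/-- the root -/
noncomputable def zl (l : ℕ) {A : Type*} [CommRing A] (Q : A) : CRl l Q := AdjoinRoot.root _

/-- constants -/
noncomputable def cl (l : ℕ) {A : Type*} [CommRing A] (Q : A) : A →+* CRl l Q := AdjoinRoot.of _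

/-- the cubic `y² + (1-r)xy - ry - x³ + rx²` -/
def gg {B : Type*} [CommRing B] (r x y : B) : B :=
  y ^ 2 + (1 - r) * x * y - r * y - x ^ 3 + r * x ^ 2

/-- `y(x+1) - x²` -/
def ff {B : Type*} [CommRing B] (x y : B) : B := y * (x + 1) - x ^ 2

open MvPolynomial in
/-- `r₂(t-1)(1-2t)⁴ g₁ - r₁ t g₂` with `t = X 0`, `x = X 1`, `y = X 2`, `g_i = gg r_i x y` -/
noncomputable def Q51 {k : Type*} [CommRing k] (r1 r2 : k) : MvPolynomial (Fin 3) k :=
  C r2 * (X 0 - 1) * (1 - 2 * X 0) ^ 4 * gg (C r1) (X 1) (X 2) -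
    C r1 * X 0 * gg (C r2) (X 1) (X 2)

open MvPolynomial in
/-- its specialization `r₂(t-1) g₁ - r₁ t g₂` -/
noncomputable def Q52 {k : Type*} [CommRing k] (r1 r2 : k) : MvPolynomial (Fin 3) k :=
  C r2 * (X 0 - 1) * gg (C r1) (X 1) (X 2) - C r1 * X 0 * gg (C r2) (X 1) (X 2)

/-- coefficient `r₂(t-1)(1-2t)⁴` -/
noncomputable def bb {k : Type} [Field k] (r2 : k) : RatFunc k :=
  RatFunc.C r2 * (RatFunc.X - 1) * (1 - 2 * RatFunc.X) ^ 4

/-- coefficient `r₁ t` -/
noncomputable def aa {k : Type} [Field k] (r1 : k) : RatFunc k := RatFunc.C r1 * RatFunc.X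

open MvPolynomial in
/-- homogenization of `gg`: variables `w = X 1`, `x = X 2`, `y = X 3` -/
noncomputable def gh {k : Type*} [CommRing k] (r : k) : MvPolynomial (Fin 4) k :=
  X 3 ^ 2 + (1 - C r) * X 1 * X 2 * X 3 - C r * X 1 ^ 3 * X 3 - X 2 ^ 3 + C r * X 1 ^ 2 * X 2 ^ 2

open MvPolynomial in
/-- the weighted sextic `z⁵w - B g₁ + A g₂` -/
noncomputable def F5 {k : Type} [Field k] (r1 r2 : k) : MvPolynomial (Fin 4) (RatFunc k) :=
  X 0 ^ 5 * X 1 - C (bb r2) * gh (RatFunc.C r1) + C (aa r1) * gh (RatFunc.C r2)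

end Pool.Agent.Helper346.Bra
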