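import Pool.Agent.Helper346.Bra.All

set_option autoImplicit false

open scoped TensorProduct

namespace Pool.Agent.Helper346.Bra

theorem aniso_inj {B L : Type*} [CommRing B] [CommRing L] (f : B →+* L)
    (hf : Function.Injective f) (t m1 m2 : B) (h : Aniso L (f t) (f m1) (f m2)) :
    Aniso B t m1 m2 := by
  intro d g0 g1 g2 he
  have h1 := h (f d) (f g0) (f g1) (f g2) (by
    have := congrArg f he
    simpa only [map_mul, map_sub, map_add, map_pow, map_ofNat] using this)
  rw [map_eq_zero_iff f hf, map_eq_zero_iff f hf, map_eq_zero_iff f hf,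
    map_eq_zero_iff f hf] at h1
  exact h1

theorem aniso_frac {B L : Type*} [CommRing B] [IsDomain B] [Field L] [Algebra B L]
    [IsFractionRing B L] (t m1 m2 : B) (h : Aniso B t m1 m2) :
    Aniso L (algebraMap B L t) (algebraMap B L m1) (algebraMap B L m2) := by
  intro d g0 g1 g2 he
  obtain ⟨s, hs⟩ := IsLocalization.exist_integer_multiples (nonZeroDivisors B)
    (Finset.univ : Finset (Fin 4)) ![d, g0, g1, g2]
  obtain ⟨d', hd'⟩ := hs 0 (by simp)
  obtain ⟨g0', hg0'⟩ := hs 1 (by simp)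
  obtain ⟨g1', hg1'⟩ := hs 2 (by simp)
  obtain ⟨g2', hg2'⟩ := hs 3 (by simp)
  change _ = (s : B) • d at hd'
  change _ = (s : B) • g0 at hg0'
  change _ = (s : B) • g1 at hg1'
  change _ = (s : B) • g2 at hg2'
  rw [Algebra.smul_def] at hd' hg0' hg1' hg2'
  have hs0 : algebraMap B L (s : B) ≠ 0 := by
    rw [Ne, map_eq_zero_iff _ (IsFractionRing.injective B L)]
    exact nonZeroDivisors.ne_zero s.2
  have key : m1 * d' ^ 3 = m2 * (g0' ^ 3 + t * g1' ^ 3 + t ^ 2 * g2' ^ 3
      - 3 * t * g0' * g1' * g2') := by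
    apply IsFractionRing.injective B L
    simp only [map_mul, map_sub, map_add, map_pow, map_ofNat]
    rw [hd', hg0', hg1', hg2']
    linear_combination (algebraMap B L (s : B)) ^ 3 * he
  obtain ⟨h1, h2, h3, h4⟩ := h d' g0' g1' g2' key
  rw [h1, map_zero] at hd'
  rw [h2, map_zero] at hg0'
  rw [h3, map_zero] at hg1'
  rw [h4, map_zero] at hg2'
  refine ⟨?_, ?_, ?_, ?_⟩
  · exact (mul_eq_zero.mp hd'.symm).resolve_left hs0
  · exact (mul_eq_zero.mp hg0'.symm).resolve_left hs0
  · exact (mul_eq_zero.mp hg1'.symm).resolve_left hs0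
  · exact (mul_eq_zero.mp hg2'.symm).resolve_left hs0

theorem zz_rel {A : Type*} [CommRing A] (Q : A) : zz Q ^ 3 + cc Q Q = 0 := by
  have h := AdjoinRoot.eval₂_root (Polynomial.X ^ 3 + Polynomial.C Q : Polynomial A)
  rw [Polynomial.eval₂_add, Polynomial.eval₂_pow, Polynomial.eval₂_X, Polynomial.eval₂_C] at h
  exact h

theorem unramified_of_tame {K : Type} [Field K] (R : ValuationSubring K)
    [IsDiscreteValuationRing R] (l : ℕ) [Fact l.Prime] (hl2 : l ≠ 2) (ζ : R)
    (hζ : IsPrimitiveRoot ζ l) (hlu : IsUnit (l : R)) (π : R) (hπ : Irreducible π)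
    (D : DVal K (IsLocalRing.ResidueField R)) (u : K → Rˣ)
    (hu : ∀ a, a ≠ 0 → a = (π : K) ^ (D.w a) * ((u a : R) : K))
    (hlc : ∀ a, a ≠ 0 → D.lc a = IsLocalRing.residue R (u a : R)) (a b : K) (ha : a ≠ 0)
    (hb : b ≠ 0) (h : ∃ c : IsLocalRing.ResidueField R, D.lc a ^ (D.w b) * D.lc b ^ (-(D.w a)) = c ^ l) :
    UnramifiedAt R (Symb K l (ζ : K) a b) := by
  rw [hlc a ha, hlc b hb] at h
  obtain ⟨a', b', ⟨e⟩⟩ := unit_symbol R l hl2 ζ hζ hlu π hπ (D.w a) (D.w b) (u a) (u b) h
  rw [← hu a ha, ← hu b hb] at e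
  refine ⟨Symb R l ζ (a' : R) (b' : R), inferInstance, inferInstance,
    symb_azumaya l (Fact.out : l.Prime).pos ζ _ _ hζ hlu a'.isUnit b'.isUnit, ?_⟩
  obtain ⟨e2⟩ := symb_baseChange (R := R) (K := K) l ζ (a' : R) (b' : R)
  exact ⟨e2.trans e.symm⟩

theorem aniso_Q1 (C : Type) [Field C] [IsAlgClosed C] [CharZero C] (ω : C)
    (hω : IsPrimitiveRoot ω 3) :
    Aniso (CR (Q1 C)) (cc _ (MvPolynomial.X 0)) (zz _ + cc _ (MvPolynomial.C ω))
      (zz _ + cc _ (MvPolynomial.C (ω ^ 2))) := by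
  obtain ⟨V, hV⟩ := exists_val C
  have hω1 : ω ^ 3 = 1 := hω.pow_eq_one
  have hω2 : ω ^ 2 + ω + 1 = 0 := by
    have h1 : ω ≠ 1 := hω.ne_one (by norm_num)
    have : (ω - 1) * (ω ^ 2 + ω + 1) = 0 := by linear_combination hω1
    exact (mul_eq_zero.mp this).resolve_left (sub_ne_zero.mpr h1)
  have hωV : ω ∈ V := by
    rcases V.mem_or_inv_mem ω with h | h
    · exact h
    · have : ω = ω⁻¹ ^ 2 := by
        have h0 : ω ≠ 0 := hω.ne_zero (by norm_num)
        field_simp
        linear_combination hω1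
      rw [this]
      exact V.pow_mem h 2
  let w : V := ⟨ω, hωV⟩
  have hw : w ^ 2 + w + 1 = 0 := Subtype.ext hω2
  have hw' : IsLocalRing.residue V w ^ 2 + IsLocalRing.residue V w + 1 = 0 := by
    rw [← map_pow, ← map_add, ← map_one (IsLocalRing.residue V), ← map_add, hw, map_zero]
  have h3 : (3 : IsLocalRing.ResidueField V) ≠ 0 := by
    have : (2 : IsLocalRing.ResidueField V) = 0 := by
      rw [← map_ofNat (IsLocalRing.residue V) 2]; exact hV
    have h : (3 : IsLocalRing.ResidueField V) = 1 := by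
      linear_combination this
    rw [h]; exact one_ne_zero
  have key := aniso_specialize V (Q1 V) (MvPolynomial.X 0) w (w ^ 2) (by
    have e1 : MvPolynomial.map (IsLocalRing.residue V) (Q1 V) =
        Q2 (IsLocalRing.ResidueField V) := by
      have h2 : (2 : MvPolynomial (Fin 3) (IsLocalRing.ResidueField V)) = 0 := by
        have : (2 : IsLocalRing.ResidueField V) = 0 := by
          rw [← map_ofNat (IsLocalRing.residue V) 2]; exact hV
        rw [← map_ofNat (MvPolynomial.C (σ := Fin 3) (R := IsLocalRing.ResidueField V)) 2, this,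
          map_zero]
      unfold Q1 Q2
      simp only [map_mul, map_sub, map_add, map_pow, map_ofNat, map_one, MvPolynomial.map_X]
      rw [h2]
      ring
    rw [e1, MvPolynomial.map_X, map_pow]
    exact aniso_Q2 (IsLocalRing.ResidueField V) _ hw' h3)
  have e2 : MvPolynomial.map (algebraMap V C) (Q1 V) = Q1 C := by
    unfold Q1
    simp only [map_mul, map_sub, map_add, map_pow, map_ofNat, map_one, MvPolynomial.map_X]
  rw [e2, MvPolynomial.map_X] at key
  exact key

theorem brauer_class (C : Type) [Field C] [IsAlgClosed C] [CharZero C] (ω : C)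
    (hω : IsPrimitiveRoot ω 3) (L : Type) [Field L] (j : CR (Q1 C) →+* L)
    (φ : affRing (RatFunc C) (FF C) →+* L) (hφ : Function.Injective φ)
    (hφt : φ (Ideal.Quotient.mk _ (MvPolynomial.C RatFunc.X)) = j (cc _ (MvPolynomial.X 0)))
    (hφc : ∀ c : C, φ (algebraMap C _ c) = j (cc _ (MvPolynomial.C c)))
    (hφx : φ (Ideal.Quotient.mk _ (MvPolynomial.X 0)) = j (cc _ (MvPolynomial.X 1)))
    (hφy : φ (Ideal.Quotient.mk _ (MvPolynomial.X 1)) = j (cc _ (MvPolynomial.X 2)))
    (hφz : φ (Ideal.Quotient.mk _ (MvPolynomial.X 2)) = j (zz _))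
    (hj : Function.Injective j)
    (hAL : Aniso L (j (cc _ (MvPolynomial.X 0))) (j (zz _ + cc _ (MvPolynomial.C ω)))
      (j (zz _ + cc _ (MvPolynomial.C (ω ^ 2))))) (K : Type) [Field K]
    [Algebra (affRing (RatFunc C) (FF C)) K] [Algebra C K]
    [IsFractionRing (affRing (RatFunc C) (FF C)) K]
    [IsScalarTower C (affRing (RatFunc C) (FF C)) K] :
    ∃ (A : Type) (_ : Ring A) (_ : Algebra K A),
      Algebra.IsCentral K A ∧ IsSimpleRing A ∧ FiniteDimensional K A ∧
      ¬ IsSplit K A ∧ IsSplit K (A ⊗[K] (A ⊗[K] A)) ∧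
      ∀ R : ValuationSubring K, IsDiscreteValuationRing R →
        (∀ c : C, algebraMap C K c ∈ R) → UnramifiedAt R A := by
  classical
  let r : affRing (RatFunc C) (FF C) →+* K := algebraMap _ K
  let Φ : K →+* L := IsFractionRing.lift hφ
  have hΦ : ∀ a, Φ (r a) = φ a := fun a => IsFractionRing.lift_algebraMap hφ a
  set t : K := r (Ideal.Quotient.mk _ (MvPolynomial.C RatFunc.X)) with ht
  set x : K := r (Ideal.Quotient.mk _ (MvPolynomial.X 0)) with hx
  set y : K := r (Ideal.Quotient.mk _ (MvPolynomial.X 1)) with hy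
  set z : K := r (Ideal.Quotient.mk _ (MvPolynomial.X 2)) with hz
  let iK : C →+* K := algebraMap C K
  have hiK : ∀ c, iK c = r (algebraMap C _ c) := fun c => IsScalarTower.algebraMap_apply C _ K c
  have hΦt : Φ t = j (cc _ (MvPolynomial.X 0)) := by rw [ht, hΦ, hφt]
  have hΦx : Φ x = j (cc _ (MvPolynomial.X 1)) := by rw [hx, hΦ, hφx]
  have hΦy : Φ y = j (cc _ (MvPolynomial.X 2)) := by rw [hy, hΦ, hφy]
  have hΦz : Φ z = j (zz _) := by rw [hz, hΦ, hφz]
  have hΦc : ∀ c, Φ (iK c) = j (cc _ (MvPolynomial.C c)) := fun c => by rw [hiK, hΦ, hφc]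
  have hcc : Function.Injective (cc (Q1 C)) := by
    unfold cc
    apply AdjoinRoot.of.injective_of_degree_ne_zero
    rw [Polynomial.degree_X_pow_add_C (by norm_num)]
    norm_num
  have hAK : Aniso K t (z + iK ω) (z + iK (ω ^ 2)) := by
    apply aniso_inj Φ Φ.injective
    rw [map_add, map_add, hΦt, hΦz, hΦc, hΦc, ← map_add, ← map_add]
    exact hAL
  have ht0 : ∀ c, t ≠ iK c := by
    intro c hc
    have := congrArg Φ hc
    rw [hΦt, hΦc] at this
    have h2 := hcc (hj this)
    have h3 := congrArg (MvPolynomial.coeff (Finsupp.single (0 : Fin 3) 1)) h2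
    have hne : ¬ ((0 : Fin 3 →₀ ℕ) = Finsupp.single (0 : Fin 3) 1) := by
      intro h
      have := DFunLike.congr_fun h (0 : Fin 3)
      simp at this
    rw [MvPolynomial.coeff_C, if_neg hne] at h3
    rw [MvPolynomial.coeff_X', if_pos rfl] at h3
    exact one_ne_zero h3
  have hx0 : x ≠ 0 := by
    intro hc
    have := congrArg Φ hc
    rw [hΦx, map_zero, map_eq_zero_iff j hj, map_eq_zero_iff _ hcc] at this
    exact MvPolynomial.X_ne_zero _ this
  have hy0 : y ≠ 0 := by
    intro hc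
    have := congrArg Φ hc
    rw [hΦy, map_zero, map_eq_zero_iff j hj, map_eq_zero_iff _ hcc] at this
    exact MvPolynomial.X_ne_zero _ this
  have hm1 : z + iK ω ≠ 0 := by
    intro h
    have := (hAK 1 0 0 0 (by rw [h]; ring)).1
    exact one_ne_zero this
  have hm2 : z + iK (ω ^ 2) ≠ 0 := by
    intro h
    have := (hAK 0 1 0 0 (by rw [h]; ring)).2.1
    exact one_ne_zero this
  have hxy : x ^ 3 + t * y ^ 3 ≠ 0 := by
    intro h
    have := (hAK 0 x y 0 (by linear_combination (-(z + iK (ω ^ 2))) * h)).2.1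
    exact hx0 this
  have ht00 : t ≠ 0 := by simpa using ht0 0
  have hal : t * (t - 1) * (1 - 2 * t) ^ 2 ≠ 0 := by
    have h1 : t - 1 ≠ 0 := by
      have := ht0 1
      rw [map_one] at this
      exact sub_ne_zero.mpr this
    have h2 : 1 - 2 * t ≠ 0 := by
      intro h
      apply ht0 (2⁻¹)
      rw [map_inv₀, map_ofNat]
      have h20 : (2 : K) ≠ 0 := by
        have : (2 : K) = iK 2 := (map_ofNat iK 2).symm
        rw [this, Ne, map_eq_zero]
        norm_num
      field_simp
      linear_combination -h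
    exact mul_ne_zero (mul_ne_zero ht00 h1) (pow_ne_zero 2 h2)
  have hS : z ^ 3 + 1 = -(t * (t - 1) * (1 - 2 * t) ^ 2 * (x ^ 3 + t * y ^ 3)) := by
    apply Φ.injective
    simp only [map_mul, map_sub, map_add, map_pow, map_ofNat, map_one, map_neg]
    rw [hΦt, hΦx, hΦy, hΦz]
    have h := zz_rel (Q1 C)
    have h2 : zz (Q1 C) ^ 3 = - cc _ (Q1 C) := by linear_combination h
    have h3 := congrArg j h2
    rw [map_pow, map_neg] at h3
    rw [h3]
    have h4 : ∀ g : MvPolynomial (Fin 3) C →+* L, g (Q1 C) =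
        g (MvPolynomial.X 0) * (g (MvPolynomial.X 0) - 1) *
        (1 - 2 * g (MvPolynomial.X 0)) ^ 2 * (g (MvPolynomial.X 1) ^ 3 +
          g (MvPolynomial.X 0) * g (MvPolynomial.X 2) ^ 3) + 1 := by
      intro g
      have e : Q1 C = MvPolynomial.X 0 * (MvPolynomial.X 0 - 1) * (1 - 2 * MvPolynomial.X 0) ^ 2 *
        (MvPolynomial.X 1 ^ 3 + MvPolynomial.X 0 * MvPolynomial.X 2 ^ 3) + 1 := rfl
      have e2 := congrArg g e
      rw [e2]
      simp only [map_mul, map_sub, map_add, map_pow, map_ofNat, map_one]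
    have h5 := h4 (j.comp (cc (Q1 C)))
    simp only [RingHom.comp_apply] at h5
    rw [h5]
    ring
  have hz0 : z + 1 ≠ 0 := by
    intro h
    have h1 : z = -1 := by linear_combination h
    rw [h1] at hS
    have : t * (t - 1) * (1 - 2 * t) ^ 2 * (x ^ 3 + t * y ^ 3) = 0 := by
      linear_combination hS
    exact mul_ne_zero hal hxy this
  set w : K := iK ω with hw
  have hwp : IsPrimitiveRoot w 3 := hω.map_of_injective iK.injective
  have h3K : (3 : K) ≠ 0 := by
    have : (3 : K) = iK 3 := (map_ofNat iK 3).symm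
    rw [this, Ne, map_eq_zero]
    norm_num
  have hb0 : (z + iK ω) / (z + iK (ω ^ 2)) ≠ 0 := div_ne_zero hm1 hm2
  obtain ⟨hc1, hc2, hc3, -⟩ := symb_csa 3 (by norm_num) w t ((z + iK ω) / (z + iK (ω ^ 2))) hwp
    (by exact_mod_cast h3K) ht00 hb0
  refine ⟨Symb K 3 w t ((z + iK ω) / (z + iK (ω ^ 2))), inferInstance, inferInstance, hc1, hc2,
    hc3, ?_, symb_triple w _ _ hwp h3K ht00 hb0, ?_⟩
  · intro hsp
    obtain ⟨d, g0, g1, g2, hne, he⟩ := split_norm w _ _ hwp h3K ht00 hb0 hsp
    apply hne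
    apply hAK
    have h1 : (z + iK (ω ^ 2)) * ((z + iK ω) / (z + iK (ω ^ 2)) * d ^ 3) =
        (z + iK ω) * d ^ 3 := by
      field_simp
    rw [← h1, he]
  · intro R hR hcR
    obtain ⟨π, D, u, hπ, hu, hlc, hcc'⟩ := exists_dval R
    let iR : C →+* R := (algebraMap C K).codRestrict R.toSubring hcR
    have hiR : ∀ c, ((iR c : R) : K) = iK c := fun c => rfl
    let ik : C →+* IsLocalRing.ResidueField R := (IsLocalRing.residue R).comp iR
    have hunit : ∀ c : C, c ≠ 0 → IsUnit (iR c) := fun c hc => (IsUnit.mk0 c hc).map iR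
    have hc : ∀ c : C, c ≠ 0 → D.w (iK c) = 0 ∧ D.lc (iK c) = ik c := by
      intro c hc
      exact hcc' (iR c) (hunit c hc)
    have htame := tame_cube D iK ik hc ω hω t x y z ht0 hx0 hy0 hz0 hm1 hm2 hxy hS
    haveI : Fact (Nat.Prime 3) := ⟨Nat.prime_three⟩
    have hlu : IsUnit ((3 : ℕ) : R) := by
      have := hunit 3 (by norm_num)
      rw [map_ofNat] at this
      exact_mod_cast this
    have hζ : IsPrimitiveRoot (iR ω) 3 := hω.map_of_injective iR.injective
    exact unramified_of_tame R 3 (by norm_num) (iR ω) hζ hlu π hπ D u hu hlc t _ ht00 hb0 htame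

theorem main_result (C : Type) [Field C] [IsAlgClosed C] [CharZero C] :
    ∃ F : MvPolynomial (Fin 4) (RatFunc C), IsSmoothCubic (RatFunc C) F ∧
      ∃ (K : Type) (_ : Field K) (_ : Algebra (affRing (RatFunc C) F) K) (_ : Algebra C K),
        IsFractionRing (affRing (RatFunc C) F) K ∧
        IsScalarTower C (affRing (RatFunc C) F) K ∧
        (∃ (A : Type) (_ : Ring A) (_ : Algebra K A),
          Algebra.IsCentral K A ∧ IsSimpleRing A ∧ FiniteDimensional K A ∧
          ¬ IsSplit K A ∧ IsSplit K (A ⊗[K] (A ⊗[K] A)) ∧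
          ∀ R : ValuationSubring K, IsDiscreteValuationRing R →
            (∀ c : C, algebraMap C K c ∈ R) → UnramifiedAt R A) := by
  obtain ⟨ω, hω⟩ : ∃ ω : C, IsPrimitiveRoot ω 3 :=
    (HasEnoughRootsOfUnity.exists_primitiveRoot C 3)
  have hQ := cr_domain (Q1 C) ((noncubes C).1 inferInstance)
  let L := FractionRing (CR (Q1 C))
  let j : CR (Q1 C) →+* L := algebraMap _ _
  have hj : Function.Injective j := IsFractionRing.injective _ _
  have hAQ := aniso_Q1 C ω hω
  have hAL : Aniso L (j (cc _ (MvPolynomial.X 0))) (j (zz _ + cc _ (MvPolynomial.C ω)))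
      (j (zz _ + cc _ (MvPolynomial.C (ω ^ 2)))) := aniso_frac _ _ _ hAQ
  obtain ⟨φ, hφ, hφt, hφc, hφx, hφy, hφz⟩ := affRing_embed C L j hj
  have hdom : IsDomain (affRing (RatFunc C) (FF C)) := hφ.isDomain φ
  refine ⟨FF C, FF_smooth C, FractionRing (affRing (RatFunc C) (FF C)), inferInstance,
    inferInstance, inferInstance, inferInstance, inferInstance, ?_⟩
  exact brauer_class C ω hω L j φ hφ hφt hφc hφx hφy hφz hj hAL _

end Pool.Agent.Helper346.Bra
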