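import Pool.Agent.Helper346.Bra.All5

set_option autoImplicit false

open scoped TensorProduct

namespace Pool.Agent.Helper346.Bra

theorem nform_map0 {B L : Type*} [CommRing B] [CommRing L] {l : ℕ} [NeZero l] (f : B →+* L)
    (t : B) (g : Fin l → B) : f (nform t g) = nform (f t) (fun i => f (g i)) := by
  unfold nform
  rw [RingHom.map_det]
  congr 1
  ext i j
  simp only [RingHom.mapMatrix_apply, Matrix.map_apply, Matrix.of_apply]
  split_ifs <;> simp

theorem nform_smul0 {B : Type*} [CommRing B] {l : ℕ} [NeZero l] (c t : B) (g : Fin l → B) :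
    nform t (fun i => c * g i) = c ^ l * nform t g := by
  unfold nform
  have : (Matrix.of fun i j : Fin l => if j ≤ i then c * g (i - j) else t * (c * g (i - j))) =
      c • (Matrix.of fun i j : Fin l => if j ≤ i then g (i - j) else t * g (i - j)) := by
    ext i j
    simp only [Matrix.smul_apply, Matrix.of_apply, smul_eq_mul]
    split_ifs
    · rfl
    · ring
  rw [this, Matrix.det_smul, Fintype.card_fin]

theorem anisoL_inj (l : ℕ) [NeZero l] {B L : Type*} [CommRing B] [CommRing L] (f : B →+* L)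
    (hf : Function.Injective f) (t m : B) (h : AnisoL l L (f t) (f m)) :
    AnisoL l B t m := by
  intro d g he
  obtain ⟨h1, h2⟩ := h (f d) (fun i => f (g i)) (by rw [← map_pow, ← map_mul, he, nform_map0])
  refine ⟨(map_eq_zero_iff f hf).mp h1, ?_⟩
  funext i
  exact (map_eq_zero_iff f hf).mp (congrFun h2 i)

theorem anisoL_frac (l : ℕ) [NeZero l] {B L : Type*} [CommRing B] [IsDomain B] [Field L]
    [Algebra B L] [IsFractionRing B L] (t m : B) (h : AnisoL l B t m) :
    AnisoL l L (algebraMap B L t) (algebraMap B L m) := by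
  intro d g he
  obtain ⟨s, hs⟩ := IsLocalization.exist_integer_multiples (nonZeroDivisors B)
    (Finset.univ : Finset (Option (Fin l))) (fun o => o.elim d g)
  choose f hf using fun o => hs o (Finset.mem_univ o)
  have hd : algebraMap B L (f none) = algebraMap B L (s : B) * d := by
    have := hf none
    rw [Algebra.smul_def] at this
    exact this
  have hg : ∀ i, algebraMap B L (f (some i)) = algebraMap B L (s : B) * g i := by
    intro i
    have := hf (some i)
    rw [Algebra.smul_def] at this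
    exact this
  have hs0 : algebraMap B L (s : B) ≠ 0 := by
    rw [Ne, map_eq_zero_iff _ (IsFractionRing.injective B L)]
    exact nonZeroDivisors.ne_zero s.2
  obtain ⟨h1, h2⟩ := h (f none) (fun i => f (some i)) (by
    apply IsFractionRing.injective B L
    rw [nform_map0, map_mul, map_pow, hd]
    simp only [hg]
    rw [nform_smul0, ← he]
    ring)
  constructor
  · rw [h1, map_zero] at hd
    exact (mul_eq_zero.mp hd.symm).resolve_left hs0
  · funext i
    have := hg i
    rw [show f (some i) = 0 from congrFun h2 i, map_zero] at this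
    exact (mul_eq_zero.mp this.symm).resolve_left hs0

theorem gg_map {B L : Type*} [CommRing B] [CommRing L] (f : B →+* L) (r x y : B) :
    f (gg r x y) = gg (f r) (f x) (f y) := by
  simp only [gg, map_add, map_sub, map_mul, map_pow, map_one]

theorem ff_map {B L : Type*} [CommRing B] [CommRing L] (f : B →+* L) (x y : B) :
    f (ff x y) = ff (f x) (f y) := by
  simp only [ff, map_add, map_sub, map_mul, map_pow, map_one]

theorem aniso_Q52 (k : Type) [Field k] (r1 r2 : k) (h1 : r1 ^ 2 = 11 * r1 + 1)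
    (h2 : r2 = 11 - r1) (h5 : (5 : k) ≠ 0) :
    AnisoL 5 (CRl 5 (Q52 r1 r2)) (cl 5 _ (MvPolynomial.X 0))
      (cl 5 _ (gg (MvPolynomial.C r1) (MvPolynomial.X 1) (MvPolynomial.X 2))) := by
  obtain ⟨E, _, j, hj, hG0, hG0o, hg, hgo, hglc, hco, hs, hso⟩ := embed_laurent k r1 r2 h1 h2
  obtain ⟨φ, hφ, hφx, hφy, hφc, hφz, hrel⟩ :=
    embed_Q52 k r1 r2 h1 h2 h5 (LaurentSeries E) j hj
  obtain ⟨D, hD⟩ := laurent_dval E
  apply anisoL_inj 5 φ hφ
  intro d g he
  have hb : φ (cl 5 _ (gg (MvPolynomial.C r1) (MvPolynomial.X 1) (MvPolynomial.X 2))) =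
      gg (j (MvPolynomial.C r1)) (j (MvPolynomial.X 0)) (j (MvPolynomial.X 1)) := by
    rw [gg_map (cl 5 (Q52 r1 r2)), gg_map φ, hφx, hφy, hφc]
  rw [hb] at he
  have hδ : r1 - r2 ≠ 0 := by
    intro h
    have e1 : (r1 - r2) ^ 2 = 5 ^ 3 := by
      rw [h2]
      linear_combination 4 * h1
    rw [h] at e1
    apply h5
    apply pow_eq_zero_iff (n := 3) (by norm_num) |>.mp
    rw [← e1]; ring
  have hδ0 : j (MvPolynomial.C (r1 - r2)) ≠ 0 := by
    rw [Ne, map_eq_zero_iff j hj, MvPolynomial.C_eq_zero]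
    exact hδ
  have ha : φ (cl 5 _ (MvPolynomial.X 0)) ≠ 0 := by
    intro h
    rw [h, zero_mul] at hrel
    exact hs (neg_eq_zero.mp hrel.symm)
  have : Fact (Nat.Prime 5) := ⟨by norm_num⟩
  refine norm_val D 5 (by norm_num) _ _ d g ha hg ?_ ?_ ?_ he
  · have e := congrArg D.w hrel
    rw [D.w_mul _ _ ha (mul_ne_zero hδ0 hG0), D.w_mul _ _ hδ0 hG0, (hD _ hδ0).1, (hD _ hG0).1,
      (hD _ (neg_ne_zero.mpr hs)).1, HahnSeries.order_neg, hco _ hδ, hG0o, hso] at e
    omega
  · rw [(hD _ hg).1, hgo]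
  · rw [(hD _ hg).2]
    exact hglc

theorem aniso_Q51 (C : Type) [Field C] [CharZero C] (r1 r2 : C)
    (h1 : r1 ^ 2 = 11 * r1 + 1) (h2 : r2 = 11 - r1) :
    AnisoL 5 (CRl 5 (Q51 r1 r2)) (cl 5 _ (MvPolynomial.X 0))
      (cl 5 _ (gg (MvPolynomial.C r1) (MvPolynomial.X 1) (MvPolynomial.X 2))) := by
  obtain ⟨V, hV⟩ := exists_val C
  have hr0 : r1 ≠ 0 := by
    intro h
    rw [h] at h1
    norm_num at h1
  have h11 : (11 : C) ∈ V := by
    have := natCast_mem V.toSubring 11
    exact_mod_cast this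
  have hr1V : r1 ∈ V := by
    rcases V.mem_or_inv_mem r1 with h | h
    · exact h
    · have : r1 = 11 + r1⁻¹ := by
        field_simp
        linear_combination h1
      rw [this]
      exact V.add_mem _ _ h11 h
  let w1 : V := ⟨r1, hr1V⟩
  let w2 : V := 11 - w1
  have hw1 : w1 ^ 2 = 11 * w1 + 1 := Subtype.ext (by
    change r1 ^ 2 = _
    rw [h1]
    rfl)
  have hw2 : (w2 : C) = r2 := by
    rw [h2]
    rfl
  have h2κ : (2 : IsLocalRing.ResidueField V) = 0 := by
    rw [← map_ofNat (IsLocalRing.residue V) 2]; exact hV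
  have h5κ : (5 : IsLocalRing.ResidueField V) ≠ 0 := by
    have h : (5 : IsLocalRing.ResidueField V) = 1 := by
      linear_combination 2 * h2κ
    rw [h]; exact one_ne_zero
  have key := aniso_specializeL 5 V (Q51 w1 w2) (MvPolynomial.X 0)
    (gg (MvPolynomial.C w1) (MvPolynomial.X 1) (MvPolynomial.X 2)) (by
    have e1 : MvPolynomial.map (IsLocalRing.residue V) (Q51 w1 w2) =
        Q52 (IsLocalRing.residue V w1) (IsLocalRing.residue V w2) := by
      have h2 : (2 : MvPolynomial (Fin 3) (IsLocalRing.ResidueField V)) = 0 := by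
        rw [← map_ofNat (MvPolynomial.C (σ := Fin 3) (R := IsLocalRing.ResidueField V)) 2, h2κ,
          map_zero]
      unfold Q51 Q52
      simp only [map_mul, map_sub, map_pow, map_ofNat, map_one, MvPolynomial.map_X,
        MvPolynomial.map_C, gg_map]
      rw [h2]
      ring
    rw [e1, MvPolynomial.map_X, gg_map, MvPolynomial.map_X, MvPolynomial.map_X,
      MvPolynomial.map_C]
    refine aniso_Q52 (IsLocalRing.ResidueField V) _ _ ?_ ?_ h5κ
    · rw [← map_pow, hw1, map_add, map_mul, map_one, map_ofNat]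
    · change IsLocalRing.residue V (11 - w1) = _
      rw [map_sub, map_ofNat])
  have e2 : MvPolynomial.map (algebraMap V C) (Q51 w1 w2) = Q51 r1 r2 := by
    unfold Q51
    simp only [map_mul, map_sub, map_pow, map_ofNat, map_one, MvPolynomial.map_X,
      MvPolynomial.map_C, gg_map]
    rw [show algebraMap V C w2 = r2 from hw2]
    rfl
  rw [e2, MvPolynomial.map_X, gg_map, MvPolynomial.map_X, MvPolynomial.map_X,
      MvPolynomial.map_C] at key
  exact key

theorem zl_rel {A : Type*} [CommRing A] (l : ℕ) (Q : A) : zl l Q ^ l = cl l Q Q := by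
  have h := AdjoinRoot.eval₂_root (Polynomial.X ^ l - Polynomial.C Q : Polynomial A)
  rw [Polynomial.eval₂_sub, Polynomial.eval₂_pow, Polynomial.eval₂_X, Polynomial.eval₂_C] at h
  exact sub_eq_zero.mp h

theorem Q51_map {C L : Type*} [CommRing C] [CommRing L] (r1 r2 : C)
    (g : MvPolynomial (Fin 3) C →+* L) : g (Q51 r1 r2) =
      g (MvPolynomial.C r2) * (g (MvPolynomial.X 0) - 1) *
        (1 - 2 * g (MvPolynomial.X 0)) ^ 4 *
        gg (g (MvPolynomial.C r1)) (g (MvPolynomial.X 1)) (g (MvPolynomial.X 2)) -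
      g (MvPolynomial.C r1) * g (MvPolynomial.X 0) *
        gg (g (MvPolynomial.C r2)) (g (MvPolynomial.X 1)) (g (MvPolynomial.X 2)) := by
  unfold Q51
  simp only [map_mul, map_sub, map_pow, map_ofNat, map_one, gg_map]

theorem brauer_class5 (C : Type) [Field C] [IsAlgClosed C] [CharZero C] (ζ r1 r2 : C)
    (hζ : IsPrimitiveRoot ζ 5) (hr1 : r1 ^ 2 = 11 * r1 + 1) (hr2 : r2 = 11 - r1)
    (L : Type) [Field L] (j : CRl 5 (Q51 r1 r2) →+* L)
    (φ : affRing1 (RatFunc C) (F5 r1 r2) →+* L) (hφ : Function.Injective φ)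
    (hφt : φ (Ideal.Quotient.mk _ (MvPolynomial.C RatFunc.X)) = j (cl 5 _ (MvPolynomial.X 0)))
    (hφc : ∀ c : C, φ (algebraMap C _ c) = j (cl 5 _ (MvPolynomial.C c)))
    (hφx : φ (Ideal.Quotient.mk _ (MvPolynomial.X 1)) = j (cl 5 _ (MvPolynomial.X 1)))
    (hφy : φ (Ideal.Quotient.mk _ (MvPolynomial.X 2)) = j (cl 5 _ (MvPolynomial.X 2)))
    (hφz : φ (Ideal.Quotient.mk _ (MvPolynomial.X 0)) = j (zl 5 _))
    (hj : Function.Injective j)
    (hAL : AnisoL 5 L (j (cl 5 _ (MvPolynomial.X 0)))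
      (j (cl 5 _ (gg (MvPolynomial.C r1) (MvPolynomial.X 1) (MvPolynomial.X 2)))))
    (K : Type) [Field K]
    [Algebra (affRing1 (RatFunc C) (F5 r1 r2)) K] [Algebra C K]
    [IsFractionRing (affRing1 (RatFunc C) (F5 r1 r2)) K]
    [IsScalarTower C (affRing1 (RatFunc C) (F5 r1 r2)) K] :
    HasUnramifiedOrderFive C K := by
  classical
  let r : affRing1 (RatFunc C) (F5 r1 r2) →+* K := algebraMap _ K
  let Φ : K →+* L := IsFractionRing.lift hφ
  have hΦ : ∀ a, Φ (r a) = φ a := fun a => IsFractionRing.lift_algebraMap hφ a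
  set t : K := r (Ideal.Quotient.mk _ (MvPolynomial.C RatFunc.X)) with ht
  set x : K := r (Ideal.Quotient.mk _ (MvPolynomial.X 1)) with hx
  set y : K := r (Ideal.Quotient.mk _ (MvPolynomial.X 2)) with hy
  set z : K := r (Ideal.Quotient.mk _ (MvPolynomial.X 0)) with hz
  let iK : C →+* K := algebraMap C K
  have hiK : ∀ c, iK c = r (algebraMap C _ c) := fun c => IsScalarTower.algebraMap_apply C _ K c
  have hΦt : Φ t = j (cl 5 _ (MvPolynomial.X 0)) := by rw [ht, hΦ, hφt]
  have hΦx : Φ x = j (cl 5 _ (MvPolynomial.X 1)) := by rw [hx, hΦ, hφx]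
  have hΦy : Φ y = j (cl 5 _ (MvPolynomial.X 2)) := by rw [hy, hΦ, hφy]
  have hΦz : Φ z = j (zl 5 _) := by rw [hz, hΦ, hφz]
  have hΦc : ∀ c, Φ (iK c) = j (cl 5 _ (MvPolynomial.C c)) := fun c => by rw [hiK, hΦ, hφc]
  have hcl : Function.Injective (cl 5 (Q51 r1 r2)) := by
    unfold cl
    apply AdjoinRoot.of.injective_of_degree_ne_zero
    rw [Polynomial.degree_X_pow_sub_C (by norm_num)]
    norm_num
  have hΦgg : ∀ c : C, Φ (gg (iK c) x y) =
      j (cl 5 _ (gg (MvPolynomial.C c) (MvPolynomial.X 1) (MvPolynomial.X 2))) := by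
    intro c
    rw [gg_map Φ, hΦx, hΦy, hΦc, gg_map (cl 5 (Q51 r1 r2)), gg_map j]
  have hAK : AnisoL 5 K t (gg (iK r1) x y) := by
    apply anisoL_inj 5 Φ Φ.injective
    rw [hΦt, hΦgg]
    exact hAL
  have ht0 : ∀ c, t ≠ iK c := by
    intro c hc
    have := congrArg Φ hc
    rw [hΦt, hΦc] at this
    have h2 := hcl (hj this)
    have h3 := congrArg (MvPolynomial.coeff (Finsupp.single (0 : Fin 3) 1)) h2
    have hne : ¬ ((0 : Fin 3 →₀ ℕ) = Finsupp.single (0 : Fin 3) 1) := by
      intro h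
      have := DFunLike.congr_fun h (0 : Fin 3)
      simp at this
    rw [MvPolynomial.coeff_C, if_neg hne] at h3
    rw [MvPolynomial.coeff_X', if_pos rfl] at h3
    exact one_ne_zero h3
  have hz0 : z ≠ 0 := by
    intro hc
    have := congrArg Φ hc
    rw [hΦz, map_zero, map_eq_zero_iff j hj] at this
    have h2 := zl_rel 5 (Q51 r1 r2)
    rw [this, zero_pow (by norm_num)] at h2
    have h3 := (map_eq_zero_iff _ hcl).mp h2.symm
    exact (nonfifth C r1 r2 hr1 hr2).1 0 (by rw [h3, zero_pow (by norm_num)])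
  have hf0 : ff x y ≠ 0 := by
    intro hc
    have := congrArg Φ hc
    rw [ff_map Φ, hΦx, hΦy, map_zero, ← ff_map j, map_eq_zero_iff j hj,
      ← ff_map (cl 5 (Q51 r1 r2)), map_eq_zero_iff _ hcl] at this
    have h2 := congrArg (MvPolynomial.eval (![0, 1, 0] : Fin 3 → C)) this
    rw [ff_map, map_zero, MvPolynomial.eval_X, MvPolynomial.eval_X] at h2
    simp [ff] at h2
  have hg0 : ∀ c : C, c ^ 2 = 11 * c + 1 → gg (iK c) x y ≠ 0 := by
    intro c hcc hc
    have := congrArg Φ hc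
    rw [hΦgg, map_zero, map_eq_zero_iff j hj, map_eq_zero_iff _ hcl] at this
    have h2 := congrArg (MvPolynomial.eval (![0, 1, 0] : Fin 3 → C)) this
    rw [gg_map, map_zero, MvPolynomial.eval_X, MvPolynomial.eval_X, MvPolynomial.eval_C] at h2
    simp [gg] at h2
    have h3 : c = 1 := by linear_combination h2
    rw [h3] at hcc
    norm_num at hcc
  have hg1 := hg0 r1 hr1
  have hg2 := hg0 r2 (by rw [hr2]; linear_combination hr1)
  have ht00 : t ≠ 0 := by simpa using ht0 0
  have hS : z ^ 5 = iK r2 * (t - 1) * (1 - 2 * t) ^ 4 * gg (iK r1) x y -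
      iK r1 * t * gg (iK r2) x y := by
    apply Φ.injective
    rw [map_pow, hΦz, ← map_pow, zl_rel 5 (Q51 r1 r2)]
    have h5 := Q51_map r1 r2 (j.comp (cl 5 (Q51 r1 r2)))
    simp only [RingHom.comp_apply] at h5
    rw [h5]
    simp only [map_mul, map_sub, map_pow, map_ofNat, map_one, gg_map]
    rw [hΦt, hΦx, hΦy, hΦc, hΦc]
  set w : K := iK ζ with hw
  have hwp : IsPrimitiveRoot w 5 := hζ.map_of_injective iK.injective
  have h5K : (5 : K) ≠ 0 := by
    have : (5 : K) = iK 5 := (map_ofNat iK 5).symm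
    rw [this, Ne, map_eq_zero]
    norm_num
  have h5K' : ((5 : ℕ) : K) ≠ 0 := by exact_mod_cast h5K
  have : Fact (Nat.Prime 5) := ⟨by norm_num⟩
  obtain ⟨hc1, hc2, hc3, -⟩ := symb_csa 5 (by norm_num) w t (gg (iK r1) x y) hwp h5K' ht00 hg1
  refine ⟨Symb K 5 w t (gg (iK r1) x y), inferInstance, inferInstance, hc1, hc2,
    hc3, ?_, symb_quint w _ _ hwp h5K ht00 hg1, ?_⟩
  · intro hsp
    obtain ⟨d, g, hne, he⟩ := split_normL 5 (by norm_num) w _ _ hwp h5K' ht00 hg1 hsp
    exact hne (hAK d g he)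
  · intro R hR hcR
    obtain ⟨π, D, u, hπ, hu, hlc, hcc'⟩ := exists_dval R
    let iR : C →+* R := (algebraMap C K).codRestrict R.toSubring hcR
    have hiR : ∀ c, ((iR c : R) : K) = iK c := fun c => rfl
    let ik : C →+* IsLocalRing.ResidueField R := (IsLocalRing.residue R).comp iR
    have hunit : ∀ c : C, c ≠ 0 → IsUnit (iR c) := fun c hc => (IsUnit.mk0 c hc).map iR
    have hc : ∀ c : C, c ≠ 0 → D.w (iK c) = 0 ∧ D.lc (iK c) = ik c := by
      intro c hc
      exact hcc' (iR c) (hunit c hc)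
    have htame := tame5 D iK ik hc r1 r2 hr1 hr2 t x y z ht0 hz0 hf0 hg1 hg2 hS
    have hlu : IsUnit ((5 : ℕ) : R) := by
      have := hunit 5 (by norm_num)
      rw [map_ofNat] at this
      exact_mod_cast this
    have hζ' : IsPrimitiveRoot (iR ζ) 5 := hζ.map_of_injective iR.injective
    exact unramified_of_tame R 5 (by norm_num) (iR ζ) hζ' hlu π hπ D u hu hlc t _ ht00 hg1 htame

theorem main_result5 (C : Type) [Field C] [IsAlgClosed C] [CharZero C] :
    ∃ F : MvPolynomial (Fin 4) (RatFunc C), IsDelPezzoOne (RatFunc C) F ∧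
      ∃ (K : Type) (_ : Field K) (_ : Algebra (affRing1 (RatFunc C) F) K) (_ : Algebra C K),
        IsFractionRing (affRing1 (RatFunc C) F) K ∧
        IsScalarTower C (affRing1 (RatFunc C) F) K ∧ HasUnramifiedOrderFive C K := by
  obtain ⟨ζ, hζ⟩ : ∃ ζ : C, IsPrimitiveRoot ζ 5 :=
    (HasEnoughRootsOfUnity.exists_primitiveRoot C 5)
  obtain ⟨s, hs⟩ : ∃ s : C, s ^ 2 = 125 := IsAlgClosed.exists_pow_nat_eq 125 (by norm_num)
  obtain ⟨r1, r2, hr1, hr2⟩ : ∃ r1 r2 : C, r1 ^ 2 = 11 * r1 + 1 ∧ r2 = 11 - r1 := by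
    refine ⟨(11 + s) / 2, _, ?_, rfl⟩
    field_simp
    linear_combination hs
  have : Fact (Nat.Prime 5) := ⟨by norm_num⟩
  have hQ := crl_domain 5 (Q51 r1 r2) (nonfifth C r1 r2 hr1 hr2).1
  let L := FractionRing (CRl 5 (Q51 r1 r2))
  let j : CRl 5 (Q51 r1 r2) →+* L := algebraMap _ _
  have hj : Function.Injective j := IsFractionRing.injective _ _
  have hAQ := aniso_Q51 C r1 r2 hr1 hr2
  have hAL : AnisoL 5 L (j (cl 5 _ (MvPolynomial.X 0)))
      (j (cl 5 _ (gg (MvPolynomial.C r1) (MvPolynomial.X 1) (MvPolynomial.X 2)))) :=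
    anisoL_frac 5 _ _ hAQ
  obtain ⟨φ, hφ, hφt, hφc, hφx, hφy, hφz⟩ := affRing1_embed C r1 r2 L j hj
  have hdom : IsDomain (affRing1 (RatFunc C) (F5 r1 r2)) := hφ.isDomain φ
  refine ⟨F5 r1 r2, F5_smooth C r1 r2 hr1 hr2, FractionRing (affRing1 (RatFunc C) (F5 r1 r2)),
    inferInstance, inferInstance, inferInstance, inferInstance, inferInstance, ?_⟩
  exact brauer_class5 C ζ r1 r2 hζ hr1 hr2 L j φ hφ hφt hφc hφx hφy hφz hj hAL _

end Pool.Agent.Helper346.Bra
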